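import Pool.Agent.H79.EstProof

/-!
# Arithmetic on binary numerals in polynomial time
-/

namespace Pool.Agent.H79.Est

open Pool.Agent.PPS

/-! ### Addition -/

/-- One step of the addition: the state is `(u, v, carry, reversed output)`. -/
def addStep (z : List Bool × List Bool × Bool × List Bool) :
    List Bool × List Bool × Bool × List Bool :=
  (z.1.tail, z.2.1.tail,
    (z.1.headD false && z.2.1.headD false) ||
      (z.2.2.1 && (xor (z.1.headD false) (z.2.1.headD false))),
    (xor (xor (z.1.headD false) (z.2.1.headD false)) z.2.2.1) :: z.2.2.2)

/-- Addition of numerals. -/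
def addB (u v : List Bool) : List Bool :=
  ((addStep^[u.length + v.length] (u, v, false, [])).2.2.1 ::
    (addStep^[u.length + v.length] (u, v, false, [])).2.2.2).reverse

theorem numeral_append (u v : List Bool) :
    numeral (u ++ v) = numeral u + 2 ^ u.length * numeral v := by
  induction u with
  | nil => simp [numeral]
  | cons b u ih =>
    rw [List.cons_append, numeral_cons, numeral_cons, ih, List.length_cons, pow_succ]
    ring

theorem numeral_headD_tail (u : List Bool) :
    numeral u = (u.headD false).toNat + 2 * numeral u.tail := by
  cases u with
  | nil => simp [numeral]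
  | cons b u => simp [numeral_cons]

theorem addStep_inv (z : List Bool × List Bool × Bool × List Bool) :
    numeral (addStep z).2.2.2.reverse + 2 ^ (addStep z).2.2.2.length *
      ((addStep z).2.2.1.toNat + numeral (addStep z).1 + numeral (addStep z).2.1) =
    numeral z.2.2.2.reverse + 2 ^ z.2.2.2.length *
      (z.2.2.1.toNat + numeral z.1 + numeral z.2.1) := by
  obtain ⟨u, v, c, o⟩ := z
  simp only [addStep, List.reverse_cons, numeral_append, List.length_reverse, List.length_cons]
  rw [numeral_headD_tail u, numeral_headD_tail v, pow_succ]
  have h : ∀ b : Bool, numeral [b] = b.toNat := by intro b; simp [numeral]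
  rw [h]
  generalize numeral u.tail = U
  generalize numeral v.tail = V
  cases u.headD false <;> cases v.headD false <;> cases c <;> simp <;> ring

theorem addStep_iter (k : ℕ) (z : List Bool × List Bool × Bool × List Bool) :
    numeral (addStep^[k] z).2.2.2.reverse + 2 ^ (addStep^[k] z).2.2.2.length *
      ((addStep^[k] z).2.2.1.toNat + numeral (addStep^[k] z).1 + numeral (addStep^[k] z).2.1) =
    numeral z.2.2.2.reverse + 2 ^ z.2.2.2.length *
      (z.2.2.1.toNat + numeral z.1 + numeral z.2.1) := by
  induction k generalizing z with
  | zero => rfl
  | succ k ih => rw [Function.iterate_succ_apply, ih, addStep_inv]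

theorem addStep_iter_len (k : ℕ) (z : List Bool × List Bool × Bool × List Bool) :
    (addStep^[k] z).1.length = z.1.length - k ∧ (addStep^[k] z).2.1.length = z.2.1.length - k ∧
      (addStep^[k] z).2.2.2.length = z.2.2.2.length + k := by
  induction k generalizing z with
  | zero => simp
  | succ k ih =>
    rw [Function.iterate_succ_apply]
    obtain ⟨h1, h2, h3⟩ := ih (addStep z)
    refine ⟨?_, ?_, ?_⟩
    · rw [h1]; simp only [addStep, List.length_tail]; omega
    · rw [h2]; simp only [addStep, List.length_tail]; omega
    · rw [h3]; simp only [addStep, List.length_cons]; omega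

theorem numeral_addB (u v : List Bool) : numeral (addB u v) = numeral u + numeral v := by
  unfold addB
  have h := addStep_iter (u.length + v.length) (u, v, false, [])
  obtain ⟨h1, h2, -⟩ := addStep_iter_len (u.length + v.length) (u, v, false, [])
  have e1 : (addStep^[u.length + v.length] (u, v, false, [])).1 = [] := by
    rw [← List.length_eq_zero_iff, h1]; simp
  have e2 : (addStep^[u.length + v.length] (u, v, false, [])).2.1 = [] := by
    rw [← List.length_eq_zero_iff, h2]; simp
  rw [e1, e2] at h
  rw [List.reverse_cons, numeral_append, List.length_reverse]
  have h0 : ∀ b : Bool, numeral [b] = b.toNat := by intro b; simp [numeral]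
  rw [h0]
  simp only [numeral, List.foldr_nil, List.reverse_nil, List.length_nil, pow_zero, one_mul,
    Bool.toNat_false, zero_add, add_zero] at h ⊢
  exact h

theorem length_addB (u v : List Bool) : (addB u v).length = u.length + v.length + 1 := by
  unfold addB
  obtain ⟨-, -, h3⟩ := addStep_iter_len (u.length + v.length) (u, v, false, [])
  rw [List.length_reverse, List.length_cons, h3]
  simp

/-! ### Multiplication -/

/-- Multiplication of numerals. -/
def mulB (u v : List Bool) : List Bool :=
  u.foldr (fun b acc => addB (bif b then v else []) ((false :: acc).take (u.length + v.length))) []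

theorem numeral_lt_two_pow (u : List Bool) : numeral u < 2 ^ u.length :=
  (numeral_lt u).trans_le (Nat.pow_le_pow_right (by norm_num) (blen_le u))

/-- Removing leading zeros. -/
theorem numeral_take_of_lt {u : List Bool} {k : ℕ} (h : numeral u < 2 ^ k) :
    numeral (u.take k) = numeral u := by
  have h1 : numeral u = numeral (u.take k) + 2 ^ (u.take k).length * numeral (u.drop k) := by
    rw [← numeral_append, List.take_append_drop]
  rcases le_or_gt u.length k with hk | hk
  · rw [List.take_of_length_le hk]
  · rw [List.length_take_of_le hk.le] at h1
    rcases Nat.eq_zero_or_pos (numeral (u.drop k)) with h0 | h0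
    · rw [h0] at h1; omega
    · have : 2 ^ k * 1 ≤ 2 ^ k * numeral (u.drop k) := Nat.mul_le_mul_left _ h0
      omega

theorem numeral_mulB_aux (N : ℕ) (v : List Bool) : ∀ u : List Bool, u.length + v.length ≤ N →
    numeral (u.foldr (fun b acc => addB (bif b then v else []) ((false :: acc).take N)) []) =
      numeral u * numeral v := by
  intro u
  induction u with
  | nil => intro _; simp [numeral]
  | cons b u ih =>
    intro h
    rw [List.length_cons] at h
    rw [List.foldr_cons, numeral_addB, numeral_cons]
    have ih' := ih (by omega)
    generalize u.foldr (fun b acc => addB (bif b then v else []) ((false :: acc).take N)) [] = r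
      at ih'
    have h1 : numeral (false :: r) < 2 ^ N := by
      rw [numeral_cons, ih', Bool.toNat_false, zero_add]
      have h2 := numeral_lt_two_pow u
      have h3 := numeral_lt_two_pow v
      calc 2 * (numeral u * numeral v) < 2 * (2 ^ u.length * 2 ^ v.length) := by
            have : numeral u * numeral v < 2 ^ u.length * 2 ^ v.length :=
              Nat.mul_lt_mul_of_lt_of_le h2 h3.le (by positivity)
            omega
        _ = 2 ^ (u.length + v.length + 1) := by rw [pow_succ, pow_add]; ring
        _ ≤ 2 ^ N := Nat.pow_le_pow_right (by norm_num) (by omega)
    rw [numeral_take_of_lt h1, numeral_cons, ih']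
    cases b
    · simp [numeral]; ring
    · simp; ring

theorem numeral_mulB (u v : List Bool) : numeral (mulB u v) = numeral u * numeral v :=
  numeral_mulB_aux _ v u le_rfl

/-! ### Comparison -/

/-- One step of the comparison: the state is `(u, v, result)`. -/
def ltStep (z : List Bool × List Bool × Bool) : List Bool × List Bool × Bool :=
  (z.1.tail, z.2.1.tail, bif (z.1.headD false == z.2.1.headD false) then z.2.2
    else z.2.1.headD false)

/-- Comparison of numerals. -/
def ltB (u v : List Bool) : Bool := (ltStep^[u.length + v.length] (u, v, false)).2.2

theorem ltStep_iter (k : ℕ) (u v : List Bool) :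
    (ltStep^[k] (u, v, false)).1 = u.drop k ∧ (ltStep^[k] (u, v, false)).2.1 = v.drop k ∧
    ((ltStep^[k] (u, v, false)).2.2 = true ↔
      numeral u + 2 ^ k * numeral (v.drop k) < numeral v + 2 ^ k * numeral (u.drop k)) := by
  induction k with
  | zero => simp; omega
  | succ k ih =>
    obtain ⟨h1, h2, h3⟩ := ih
    rw [Function.iterate_succ_apply']
    generalize ltStep^[k] (u, v, false) = z at h1 h2 h3
    obtain ⟨a, b, c⟩ := z
    simp only at h1 h2 h3
    subst h1 h2
    refine ⟨by simp [ltStep], by simp [ltStep], ?_⟩
    have eu := numeral_headD_tail (u.drop k)
    have ev := numeral_headD_tail (v.drop k)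
    rw [List.tail_drop] at eu ev
    have lu : numeral (u.take k) < 2 ^ k := (numeral_lt_two_pow _).trans_le
      (Nat.pow_le_pow_right (by norm_num) (by simp))
    have lv : numeral (v.take k) < 2 ^ k := (numeral_lt_two_pow _).trans_le
      (Nat.pow_le_pow_right (by norm_num) (by simp))
    have su : numeral u = numeral (u.take k) + 2 ^ k * numeral (u.drop k) := by
      rcases le_or_gt k u.length with hk | hk
      · conv_lhs => rw [← List.take_append_drop k u, numeral_append]
        rw [List.length_take_of_le hk]
      · rw [List.take_of_length_le hk.le, List.drop_of_length_le hk.le]; simp [numeral]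
    have sv : numeral v = numeral (v.take k) + 2 ^ k * numeral (v.drop k) := by
      rcases le_or_gt k v.length with hk | hk
      · conv_lhs => rw [← List.take_append_drop k v, numeral_append]
        rw [List.length_take_of_le hk]
      · rw [List.take_of_length_le hk.le, List.drop_of_length_le hk.le]; simp [numeral]
    simp only [ltStep]
    rw [su, sv] at h3 ⊢
    rw [eu, ev] at h3 ⊢
    rw [pow_succ]
    generalize numeral (u.take k) = A at *
    generalize numeral (v.take k) = B at *
    generalize numeral (u.drop (k + 1)) = U at *
    generalize numeral (v.drop (k + 1)) = V at *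
    generalize 2 ^ k = P at *
    cases (u.drop k).headD false <;> cases (v.drop k).headD false <;>
      simp only [Bool.toNat_true, Bool.toNat_false, beq_self_eq_true, cond_true, cond_false,
        Bool.true_beq, Bool.false_beq, Bool.not_true, Bool.not_false] at h3 ⊢
    · rw [h3]; constructor <;> intro h <;> nlinarith
    · simp only [true_iff]; nlinarith
    · simp only [Bool.false_eq_true, false_iff, not_lt]; nlinarith
    · rw [h3]; constructor <;> intro h <;> nlinarith

theorem ltB_iff (u v : List Bool) : ltB u v = true ↔ numeral u < numeral v := by
  unfold ltB
  rw [(ltStep_iter (u.length + v.length) u v).2.2, List.drop_of_length_le (by omega),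
    List.drop_of_length_le (by omega)]
  simp [numeral]

/-! ### Polynomial time -/

section PTs

variable {m : Bool} {α : Type} [Rep α]

theorem PT.addStep' : PT m addStep := by
  unfold addStep
  fun_prop

theorem PT.ltStep' : PT m ltStep := by
  unfold ltStep
  fun_prop

theorem PT.addB' {u v : α → List Bool} (hu : PT m u) (hv : PT m v) :
    PT m (fun a => addB (u a) (v a)) := by
  have key : PT m (fun z : List Bool × List Bool =>
      addStep^[z.1.length + z.2.length] (z.1, z.2, false, [])) := by
    refine PT.iterate (m := m) (α := List Bool × List Bool) (s := fun z => addStep z.2)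
      (ini := fun z => (z.1, z.2, false, [])) (n := fun z => z.1.length + z.2.length)
      (by fun_prop) (by fun_prop) (PT.addStep'.comp (by fun_prop)) (20 * Polynomial.X + 20) ?_
    rintro ⟨a, b⟩ k hk
    have e : (fun y => addStep ((((a, b) : List Bool × List Bool), y) :
      (List Bool × List Bool) × (List Bool × List Bool × Bool × List Bool)).2) = addStep := rfl
    rw [e]
    obtain ⟨h1, h2, h3⟩ := addStep_iter_len k (a, b, false, [])
    generalize addStep^[k] (a, b, false, []) = s at h1 h2 h3 ⊢
    obtain ⟨x, y, c, o⟩ := s
    simp only at h1 h2 h3 hk
    rw [size_pair, size_pair, size_pair, size_pair]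
    have l1 := size_le_length x
    have l2 := size_le_length y
    have l3 := size_le_length o
    have l4 := size_bool_le c
    have l5 := length_le_size' a
    have l6 := length_le_size' b
    simp only [Polynomial.eval_add, Polynomial.eval_mul, Polynomial.eval_X,
      Polynomial.eval_ofNat, List.length_nil] at *
    omega
  have h2 : PT m (fun s : List Bool × List Bool × Bool × List Bool =>
      (s.2.2.1 :: s.2.2.2).reverse) := by fun_prop
  exact (h2.comp key).comp (f := fun a => (u a, v a)) (by fun_prop)

attribute [fun_prop] PT.addB'

theorem PT.ltB' {u v : α → List Bool} (hu : PT m u) (hv : PT m v) :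
    PT m (fun a => ltB (u a) (v a)) := by
  have key : PT m (fun z : List Bool × List Bool =>
      ltStep^[z.1.length + z.2.length] (z.1, z.2, false)) := by
    refine PT.iterate (m := m) (α := List Bool × List Bool) (s := fun z => ltStep z.2)
      (ini := fun z => (z.1, z.2, false)) (n := fun z => z.1.length + z.2.length)
      (by fun_prop) (by fun_prop) (PT.ltStep'.comp (by fun_prop)) (20 * Polynomial.X + 20) ?_
    rintro ⟨a, b⟩ k hk
    have e : (fun y => ltStep ((((a, b) : List Bool × List Bool), y) :
      (List Bool × List Bool) × (List Bool × List Bool × Bool)).2) = ltStep := rfl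
    rw [e]
    obtain ⟨h1, h2, -⟩ := ltStep_iter k a b
    generalize ltStep^[k] (a, b, false) = s at h1 h2 ⊢
    obtain ⟨x, y, c⟩ := s
    simp only at h1 h2
    subst h1 h2
    rw [size_pair, size_pair, size_pair]
    have l1 := size_drop_le a k
    have l2 := size_drop_le b k
    have l4 := size_bool_le c
    simp only [Polynomial.eval_add, Polynomial.eval_mul, Polynomial.eval_X,
      Polynomial.eval_ofNat] at *
    omega
  have h2 : PT m (fun s : List Bool × List Bool × Bool => s.2.2) := by fun_prop
  exact (h2.comp key).comp (f := fun a => (u a, v a)) (by fun_prop)

attribute [fun_prop] PT.ltB'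

theorem PT.mulB' {u v : α → List Bool} (hu : PT m u) (hv : PT m v) :
    PT m (fun a => mulB (u a) (v a)) := by
  have key : PT m (fun z : List Bool × List Bool => z.1.foldr (fun b acc =>
      addB (bif b then z.2 else []) ((false :: acc).take (z.1.length + z.2.length))) []) := by
    refine PT.foldr (m := m) (α := List Bool × List Bool) (l := fun z => z.1)
      (ini := fun _ => []) (s := fun y : (List Bool × List Bool) × (Bool × List Bool) =>
        addB (bif y.2.1 then y.1.2 else [])
          ((false :: y.2.2).take (y.1.1.length + y.1.2.length)))
      (by fun_prop) (by fun_prop) (by fun_prop) (20 * Polynomial.X + 20) ?_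
    rintro ⟨a, b⟩ k
    have e : (a.drop k).foldr (fun c y => addB (bif c then b else [])
        ((false :: y).take (a.length + b.length))) [] = [] ∨
        ((a.drop k).foldr (fun c y => addB (bif c then b else [])
        ((false :: y).take (a.length + b.length))) []).length ≤ a.length + b.length +
          b.length + 1 := by
      cases a.drop k with
      | nil => left; rfl
      | cons c l =>
        right
        rw [List.foldr_cons, length_addB]
        have h1 : ((false :: l.foldr (fun c y => addB (bif c then b else [])
          ((false :: y).take (a.length + b.length))) []).take (a.length + b.length)).length ≤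
            a.length + b.length := by simp
        have h2 : (bif c then b else []).length ≤ b.length := by cases c <;> simp
        omega
    have l5 := length_le_size' a
    have l6 := length_le_size' b
    have l7 := size_le_length ((a.drop k).foldr (fun c y => addB (bif c then b else [])
        ((false :: y).take (a.length + b.length))) [])
    simp only [Polynomial.eval_add, Polynomial.eval_mul, Polynomial.eval_X,
      Polynomial.eval_ofNat]
    rw [size_pair]
    rcases e with e | e
    · rw [e] at l7 ⊢
      simp only [List.length_nil] at l7
      omega
    · omega
  exact key.comp (f := fun a => (u a, v a)) (by fun_prop)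

attribute [fun_prop] PT.mulB'

end PTs

end Pool.Agent.H79.Est
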