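import Pool.Agent.H79.BarDefs
import Pool.Agent.PPS.Lists

/-!
# The algorithm
-/

namespace Pool.Agent.H79.Bar

/-- The least number of groups for `s`, `o`, `i` edges with the labels `S`, `O`, `I`. -/
def C (s o i : ℕ) : ℕ := max o (i + (s + 1) / 2)

/-- `(v, s, o, i)` stands for the vertex `v` with `s`, `o`, `i` further edges with labels `S`,
`O`, `I`. -/
abbrev Idx := ℕ × ℕ × ℕ × ℕ

/-- The end `e.1` is a leaf. -/
def leafB (E : List (ℕ × ℕ)) (e : ℕ × ℕ) : Bool :=
  E.all fun e' => !(decide (e'.1 = e.1)) ||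
    decide (e'.2 = e.2)

/-- Find a leaf. -/
def findLeaf (E : List (ℕ × ℕ)) : Option (ℕ × ℕ) := E.find? fun e => leafB E e

/-- Remove the edges at `a`. -/
def del (E : List (ℕ × ℕ)) (a : ℕ) : List (ℕ × ℕ) :=
  E.filter fun e => !(decide (e.1 = a)) &&
    !(decide (e.2 = a))

/-- All indices. -/
def idx (n : ℕ) : List Idx :=
  (List.range n).flatMap fun v => (List.range (n + 1)).flatMap fun s =>
    (List.range (n + 1)).flatMap fun o => (List.range (n + 1)).map fun i => (v, s, o, i)

/-- Look up an entry. -/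
def look (T : List (Idx × ℕ)) (j : Idx) : ℕ :=
  ((T.find? fun e => decide (e.1 = j)).map fun e => e.2).getD 0

/-- Make a table. -/
def mkT (I : List Idx) (g : Idx → ℕ) : List (Idx × ℕ) := I.map fun j => (j, g j)

/-- The smaller number. -/
def mn (a b : ℕ) : ℕ := bif decide (a ≤ b) then a else b

/-- The new entries after the elimination of the leaf `a` with neighbour `u`. -/
def newVal (B : ℕ) (T : List (Idx × ℕ)) (u a : ℕ) (j : Idx) : ℕ :=
  bif decide (j.1 = u) then
    mn B (mn (look T (u, j.2.1 + 1, j.2.2.1, j.2.2.2) + look T (a, 1, 0, 0))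
      (mn (look T (u, j.2.1, j.2.2.1 + 1, j.2.2.2) + look T (a, 0, 0, 1))
        (look T (u, j.2.1, j.2.2.1, j.2.2.2 + 1) + look T (a, 0, 1, 0))))
  else bif decide (j.1 = a) then 0 else look T j

/-- The initial entries. -/
def initVal (B k : ℕ) (j : Idx) : ℕ :=
  bif decide (C j.2.1 j.2.2.1 j.2.2.2 ≤ k) then C j.2.1 j.2.2.1 j.2.2.2 else B

/-- One elimination. -/
def stp (n : ℕ) (z : List (ℕ × ℕ) × List (Idx × ℕ)) : List (ℕ × ℕ) × List (Idx × ℕ) :=
  match findLeaf z.1 with
  | none => z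
  | some e => (del z.1 e.1, mkT (idx n) fun j => newVal (n * n + 1) z.2 e.2 e.1 j)

/-- The state at the end. -/
def final (n k : ℕ) (E : List (ℕ × ℕ)) : List (ℕ × ℕ) × List (Idx × ℕ) :=
  (fun z => stp n z)^[n] (E, mkT (idx n) fun j => initVal (n * n + 1) k j)

/-- The least total cost with at most `k` groups at every vertex. -/
def solve (n k : ℕ) (E : List (ℕ × ℕ)) : ℕ :=
  (List.range n).foldr (fun v r => look (final n k E).2 (v, 0, 0, 0) + r) 0

/-- The answer. -/
def ans (n : ℕ) (E : List (ℕ × ℕ)) : ℕ :=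
  (List.range n).foldr (fun j r =>
    bif decide (solve n (j + 1) E < n * n + 1) then
      solve n (j + 1) E - (n - 1) else r) 0

/-- Make the list of edges symmetric and remove loops. -/
def symE (E : List (ℕ × ℕ)) : List (ℕ × ℕ) :=
  (E ++ E.map fun e => (e.2, e.1)).filter fun e =>
    !(decide (e.1 = e.2))

end Pool.Agent.H79.Bar
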