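import Pool.Agent.H79.BarDP
import Pool.Agent.H79.BarProg

/-!
# The algorithm on lists
-/

open scoped Classical

namespace Pool.Agent.H79.Bar

/-! ### Correctness -/

theorem mn_eq (a b : ℕ) : mn a b = min a b := by
  unfold mn
  by_cases h : a ≤ b
  · rw [decide_eq_true h, min_eq_left h]; rfl
  · rw [decide_eq_false h, min_eq_right (by omega)]; rfl

theorem mem_idx {n v s o i : ℕ} (hv : v < n) (hs : s ≤ n) (ho : o ≤ n) (hi : i ≤ n) :
    (v, s, o, i) ∈ idx n := by
  unfold idx
  simp only [List.mem_flatMap, List.mem_map, List.mem_range, Prod.mk.injEq]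
  exact ⟨v, hv, s, by omega, o, by omega, i, by omega, rfl, rfl, rfl, rfl⟩

theorem look_mkT {I : List Idx} {g : Idx → ℕ} {j : Idx} (h : j ∈ I) : look (mkT I g) j = g j := by
  unfold look mkT
  induction I with
  | nil => cases h
  | cons j' I ih =>
    rw [List.map_cons, List.find?_cons]
    by_cases hj : j' = j
    · subst hj
      simp
    · have h1 : decide (((j', g j') : Idx × ℕ).1 = j) = false :=
        decide_eq_false hj
      rw [h1]
      rcases List.mem_cons.1 h with h2 | h2
      · exact (hj h2.symm).elim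
      · exact ih h2

/-- The lists of edges that occur. -/
def Ok (n : ℕ) (E : List (ℕ × ℕ)) : Prop :=
  ∀ e ∈ E, e.1 < n ∧ e.2 < n ∧ e.1 ≠ e.2 ∧ (e.2, e.1) ∈ E

theorem Ok.adj {n : ℕ} {E : List (ℕ × ℕ)} (h : Ok n E) (p q : Fin n) :
    (graph n E).Adj p q ↔ ((p : ℕ), (q : ℕ)) ∈ E := by
  constructor
  · rintro ⟨-, h1 | h1⟩
    · exact h1
    · exact (h _ h1).2.2.2
  · intro h1
    exact ⟨fun e => (h _ h1).2.2.1 (congrArg Fin.val e), Or.inl h1⟩

theorem mem_del {E : List (ℕ × ℕ)} {a : ℕ} {e : ℕ × ℕ} :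
    e ∈ del E a ↔ e ∈ E ∧ e.1 ≠ a ∧ e.2 ≠ a := by
  unfold del
  rw [List.mem_filter]
  simp

theorem Ok.del {n : ℕ} {E : List (ℕ × ℕ)} (h : Ok n E) (a : ℕ) : Ok n (del E a) := by
  intro e he
  rw [mem_del] at he
  obtain ⟨h1, h2, h3, h4⟩ := h e he.1
  exact ⟨h1, h2, h3, mem_del.2 ⟨h4, he.2.2, he.2.1⟩⟩

theorem findLeaf_some {E : List (ℕ × ℕ)} {e : ℕ × ℕ} (h : findLeaf E = some e) :
    e ∈ E ∧ ∀ e' ∈ E, e'.1 = e.1 → e'.2 = e.2 := by
  unfold findLeaf at h
  have h1 := List.find?_some h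
  refine ⟨List.mem_of_find?_eq_some h, fun e' he' h2 => ?_⟩
  simp only [leafB, List.all_eq_true] at h1
  have h3 := h1 e' he'
  simpa [h2] using h3

theorem findLeaf_none {E : List (ℕ × ℕ)} (h : findLeaf E = none) (e : ℕ × ℕ) (he : e ∈ E) :
    ∃ e' ∈ E, e'.1 = e.1 ∧ e'.2 ≠ e.2 := by
  unfold findLeaf at h
  rw [List.find?_eq_none] at h
  have h1 := h e he
  simp only [leafB, List.all_eq_true] at h1
  push Not at h1
  obtain ⟨e', he', h2⟩ := h1
  refine ⟨e', he', ?_⟩
  simpa using h2

theorem Ok.leaf {n : ℕ} {E : List (ℕ × ℕ)} (h : Ok n E) {e : ℕ × ℕ} (he : findLeaf E = some e) :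
    Leaf (graph n E) (graph n (Bar.del E e.1))
      ⟨e.1, (h e (findLeaf_some he).1).1⟩ ⟨e.2, (h e (findLeaf_some he).1).2.1⟩ := by
  obtain ⟨h1, h2⟩ := findLeaf_some he
  have h3 := h.del e.1
  refine ⟨?_, ?_, ?_⟩
  · intro z
    rw [h.adj]
    constructor
    · intro h4
      exact Fin.ext (h2 _ h4 rfl)
    · rintro rfl
      exact h1
  · intro z hz
    rw [h3.adj, mem_del] at hz
    exact hz.2.1 rfl
  · intro p q hp hq
    rw [h.adj, h3.adj, mem_del]
    have hp' : (p : ℕ) ≠ e.1 := fun e' => hp (Fin.ext e')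
    have hq' : (q : ℕ) ≠ e.1 := fun e' => hq (Fin.ext e')
    exact ⟨fun h4 => ⟨h4, hp', hq'⟩, fun h4 => h4.1⟩

theorem Ok.no_edge {n : ℕ} {E : List (ℕ × ℕ)} (h : Ok n E) (hT : (graph n E).IsAcyclic)
    (he : findLeaf E = none) : ∀ a b, ¬ (graph n E).Adj a b := by
  intro a b hab
  obtain ⟨v, w, hvw, hl⟩ := exists_leaf hT hab
  rw [h.adj] at hvw
  obtain ⟨e', he', h1, h2⟩ := findLeaf_none he _ hvw
  have h3 := h e' he'
  have h4 := hl ⟨e'.2, h3.2.1⟩ (by
    rw [h.adj]
    have : ((v : ℕ), e'.2) = e' := Prod.ext h1.symm rfl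
    rw [this]
    exact he')
  exact h2 (congrArg Fin.val h4)

theorem Leaf.ncard {V : Type} [Fintype V] {T T' : SimpleGraph V} {a u : V} (h : Leaf T T' a u) :
    T'.edgeSet.ncard + 1 = T.edgeSet.ncard ∧ T' ≤ T := by
  have hle : T' ≤ T := by
    intro p q hpq
    have hp : p ≠ a := fun e => h.leaf' q (e ▸ hpq)
    have hq : q ≠ a := fun e => h.leaf' p (e ▸ hpq.symm)
    exact (h.same p q hp hq).2 hpq
  refine ⟨?_, hle⟩
  have h1 : T'.edgeSet = T.edgeSet \ {s(a, u)} := by
    ext e
    induction e using Sym2.ind with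
    | _ p q =>
      simp only [SimpleGraph.mem_edgeSet, Set.mem_sdiff, Set.mem_singleton_iff]
      constructor
      · intro hpq
        refine ⟨hle hpq, fun e => ?_⟩
        rcases Sym2.eq_iff.1 e with ⟨rfl, -⟩ | ⟨-, rfl⟩
        · exact h.leaf' q hpq
        · exact h.leaf' p hpq.symm
      · rintro ⟨hpq, hne⟩
        have hp : p ≠ a := by
          rintro rfl
          obtain rfl := (h.leaf q).1 hpq
          exact hne rfl
        have hq : q ≠ a := by
          rintro rfl
          obtain rfl := (h.leaf p).1 hpq.symm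
          exact hne Sym2.eq_swap
        exact (h.same p q hp hq).1 hpq
  have h2 : s(a, u) ∈ T.edgeSet := (h.leaf u).2 rfl
  rw [h1, Set.ncard_sdiff_singleton_of_mem h2]
  have h3 : 0 < T.edgeSet.ncard := (Set.ncard_pos (Set.toFinite _)).2 ⟨_, h2⟩
  omega

/-- The invariant. -/
structure Inv (n k j : ℕ) (E : List (ℕ × ℕ)) (z : List (ℕ × ℕ) × List (Idx × ℕ)) : Prop where
  ok : Ok n z.1
  acyc : (graph n z.1).IsAcyclic
  card : (graph n z.1).edgeSet.ncard ≤ n - 1 - j
  vals : ∃ w : Fin n → (Lab → ℕ) → ℕ,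
    (∀ (v : Fin n) (c : Lab → ℕ), c .S + c .O + c .I + j ≤ n → look z.2 ((v : ℕ), c .S, c .O, c .I) = w v c) ∧
    min (n * n + 1) (sInf (Vals (graph n z.1) w)) =
      min (n * n + 1) (sInf (Vals (graph n E) fun _ => initW (n * n + 1) k))

theorem Inv.step {n k j : ℕ} {E : List (ℕ × ℕ)} {z : List (ℕ × ℕ) × List (Idx × ℕ)}
    (h : Inv n k j E z) : Inv n k (j + 1) E (stp n z) := by
  obtain ⟨w, hw, hv⟩ := h.vals
  unfold stp
  cases he : findLeaf z.1 with
  | none =>
    refine ⟨h.ok, h.acyc, ?_, w, fun v c hc => hw v c (by omega), hv⟩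
    have h0 : (graph n z.1).edgeSet = ∅ := by
      ext e
      induction e using Sym2.ind with
      | _ a b => simp [h.ok.no_edge h.acyc he a b]
    simp only [h0, Set.ncard_empty]
    exact Nat.zero_le _
  | some e =>
    have hl := h.ok.leaf he
    obtain ⟨h1, h2⟩ := findLeaf_some he
    obtain ⟨hn1, hn2, -, -⟩ := h.ok e h1
    obtain ⟨hc1, hc2⟩ := hl.ncard
    refine ⟨h.ok.del _, h.acyc.anti hc2, ?_,
      elimW (n * n + 1) w ⟨e.2, hn2⟩ ⟨e.1, hn1⟩, ?_, ?_⟩
    · have := h.card
      simp only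
      omega
    · intro v c hc
      simp only
      rw [look_mkT (mem_idx v.2 (by omega) (by omega) (by omega))]
      unfold newVal elimW
      simp only
      have a1 : ∀ x : Fin n, look z.2 ((x : ℕ), 1, 0, 0) = w x (inc .S fun _ => 0) := by
        intro x
        rw [← hw x (inc .S fun _ => 0) (by simp [inc]; omega)]
        simp [inc]
      have a2 : ∀ x : Fin n, look z.2 ((x : ℕ), 0, 1, 0) = w x (inc .O fun _ => 0) := by
        intro x
        rw [← hw x (inc .O fun _ => 0) (by simp [inc]; omega)]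
        simp [inc]
      have a3 : ∀ x : Fin n, look z.2 ((x : ℕ), 0, 0, 1) = w x (inc .I fun _ => 0) := by
        intro x
        rw [← hw x (inc .I fun _ => 0) (by simp [inc]; omega)]
        simp [inc]
      have b1 : ∀ x : Fin n, look z.2 ((x : ℕ), c .S + 1, c .O, c .I) = w x (inc .S c) := by
        intro x
        rw [← hw x (inc .S c) (by simp [inc]; omega)]
        simp [inc]
      have b2 : ∀ x : Fin n, look z.2 ((x : ℕ), c .S, c .O + 1, c .I) = w x (inc .O c) := by
        intro x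
        rw [← hw x (inc .O c) (by simp [inc]; omega)]
        simp [inc]
      have b3 : ∀ x : Fin n, look z.2 ((x : ℕ), c .S, c .O, c .I + 1) = w x (inc .I c) := by
        intro x
        rw [← hw x (inc .I c) (by simp [inc]; omega)]
        simp [inc]
      by_cases hvu : v = ⟨e.2, hn2⟩
      · rw [if_pos hvu]
        have h3 : (v : ℕ) = e.2 := by rw [hvu]
        rw [decide_eq_true h3, cond_true]
        have a1' := a1 ⟨e.1, hn1⟩
        have a2' := a2 ⟨e.1, hn1⟩
        have a3' := a3 ⟨e.1, hn1⟩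
        have b1' := b1 ⟨e.2, hn2⟩
        have b2' := b2 ⟨e.2, hn2⟩
        have b3' := b3 ⟨e.2, hn2⟩
        simp only at a1' a2' a3' b1' b2' b3'
        rw [mn_eq, mn_eq, mn_eq, a1', a2', a3', b1', b2', b3']
      · rw [if_neg hvu]
        have h3 : (v : ℕ) ≠ e.2 := fun h => hvu (Fin.ext h)
        rw [decide_eq_false h3, cond_false]
        by_cases hva : v = ⟨e.1, hn1⟩
        · rw [if_pos hva]
          have h4 : (v : ℕ) = e.1 := by rw [hva]
          rw [decide_eq_true h4, cond_true]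
        · rw [if_neg hva]
          have h4 : (v : ℕ) ≠ e.1 := fun h => hva (Fin.ext h)
          rw [decide_eq_false h4, cond_false]
          exact hw v c (by omega)
    · rw [← hv]
      exact hl.min_vals _ _

theorem sum_foldr (f : ℕ → ℕ) (n : ℕ) :
    (List.range n).foldr (fun v r => f v + r) 0 = ∑ v : Fin n, f v := by
  have h1 : ∀ (l : List ℕ), l.foldr (fun v r => f v + r) 0 = (l.map f).sum := by
    intro l
    induction l with
    | nil => rfl
    | cons a l ih => rw [List.foldr_cons, ih, List.map_cons, List.sum_cons]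
  rw [h1, ← Finset.sum_range]
  induction n with
  | zero => rfl
  | succ n ih => rw [List.range_succ, List.map_append, List.sum_append, ih,
      Finset.sum_range_succ]; simp

theorem solve_spec {n k : ℕ} {E : List (ℕ × ℕ)} (hE : Ok n E) (hT : (graph n E).IsAcyclic)
    (hc : (graph n E).edgeSet.ncard ≤ n - 1) :
    min (n * n + 1) (solve n k E) =
      min (n * n + 1) (sInf (Vals (graph n E) fun _ => initW (n * n + 1) k)) := by
  have h0 : Inv n k 0 E (E, mkT (idx n) fun j => initVal (n * n + 1) k j) := by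
    refine ⟨hE, hT, by simpa using hc, fun _ => initW (n * n + 1) k, ?_, rfl⟩
    intro v c hc
    rw [look_mkT (mem_idx v.2 (by omega) (by omega) (by omega))]
    unfold initVal initW
    simp only
    by_cases h : C (c .S) (c .O) (c .I) ≤ k
    · rw [if_pos h, decide_eq_true h, cond_true]
    · rw [if_neg h, decide_eq_false h, cond_false]
  have hj : ∀ j, Inv n k j E ((fun z => stp n z)^[j]
      (E, mkT (idx n) fun j => initVal (n * n + 1) k j)) := by
    intro j
    induction j with
    | zero => exact h0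
    | succ j ih =>
      rw [Function.iterate_succ_apply']
      exact ih.step
  have hn : Inv n k n E (final n k E) := hj n
  obtain ⟨w, hw, hv⟩ := hn.vals
  rw [← hv]
  congr 1
  have hne : ∀ a b, ¬ (graph n (final n k E).1).Adj a b := by
    intro a b hab
    have h1 := hn.card
    have h2 : 0 < (graph n (final n k E).1).edgeSet.ncard :=
      (Set.ncard_pos (Set.toFinite _)).2 ⟨s(a, b), hab⟩
    omega
  rw [vals_of_no_edge hne]
  unfold solve
  rw [sum_foldr (fun v => look (final n k E).2 (v, 0, 0, 0)) n]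
  refine Finset.sum_congr rfl fun v _ => ?_
  exact hw v (fun _ => 0) (by simp)

theorem foldr_first {P : ℕ → Bool} {g : ℕ → ℕ} {n j₀ : ℕ} (hj : j₀ < n) (h1 : P j₀ = true)
    (h2 : ∀ j < j₀, P j = false) :
    (List.range n).foldr (fun j r => bif P j then g j else r) 0 = g j₀ := by
  obtain ⟨m, rfl⟩ : ∃ m, n = j₀ + (1 + m) := ⟨n - j₀ - 1, by omega⟩
  rw [List.range_add, List.foldr_append]
  have h3 : ∀ (l : List ℕ) (r : ℕ), (∀ j ∈ l, P j = false) →
      l.foldr (fun j r => bif P j then g j else r) r = r := by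
    intro l r hl
    induction l with
    | nil => rfl
    | cons a l ih =>
      rw [List.foldr_cons, hl a (by simp), cond_false]
      exact ih fun j hj => hl j (by simp [hj])
  rw [h3 _ _ fun j hj => h2 j (List.mem_range.1 hj)]
  rw [List.range_add, List.map_append, List.foldr_append]
  simp [h1]

/-- The algorithm is correct. -/
theorem ans_spec {n : ℕ} {E : List (ℕ × ℕ)} (hE : Ok n E) (hT : (graph n E).IsTree) :
    ans n E = minSize (graph n E) := by
  have hn : 0 < n := by
    obtain ⟨a⟩ := hT.connected.nonempty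
    exact a.pos
  have hcard : Nat.card (graph n E).edgeSet = n - 1 := by
    have h1 := hT.card_edgeFinset
    rw [Fintype.card_fin, SimpleGraph.edgeFinset_card, ← Nat.card_eq_fintype_card] at h1
    omega
  have hsolve : ∀ k, min (n * n + 1) (solve n k E) =
      min (n * n + 1) (sInf (Vals (graph n E) fun _ => initW (n * n + 1) k)) := by
    intro k
    apply solve_spec hE hT.isAcyclic
    have : (graph n E).edgeSet.ncard = Nat.card (graph n E).edgeSet := rfl
    rw [this, hcard]
  have hB : ∀ x : Fin n → Fin n → Lab, ∑ v, CC (graph n E) x v < n * n + 1 := by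
    intro x
    have := sum_CC_lt (graph n E) x
    rwa [Fintype.card_fin] at this
  have hiff : ∀ k, solve n k E < n * n + 1 ↔ (Costs (graph n E) k).Nonempty := by
    intro k
    rw [← (vals_init hB).1]
    have := hsolve k
    omega
  have hub := ub_eq hT.isAcyclic
  have hne : {k | 0 < k ∧ (Costs (graph n E) k).Nonempty}.Nonempty :=
    ⟨n, hn, by have := costs_card_nonempty (graph n E); rwa [Fintype.card_fin] at this⟩
  have hmem := Nat.sInf_mem hne
  rw [← hub] at hmem
  have hle : ub (graph n E) ≤ n := by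
    rw [hub]
    exact Nat.sInf_le ⟨hn, by have := costs_card_nonempty (graph n E); rwa [Fintype.card_fin] at this⟩
  have hmin : ∀ k, 0 < k → k < ub (graph n E) → ¬ (Costs (graph n E) k).Nonempty := by
    intro k hk hlt hc
    rw [hub] at hlt
    exact Nat.notMem_of_lt_sInf hlt ⟨hk, hc⟩
  obtain ⟨j₀, hj₀⟩ : ∃ j, ub (graph n E) = j + 1 := ⟨ub (graph n E) - 1, by have := hmem.1; omega⟩
  unfold ans
  rw [foldr_first (P := fun j => decide (solve n (j + 1) E < n * n + 1))
    (g := fun j => solve n (j + 1) E - (n - 1)) (j₀ := j₀) (by omega)]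
  · have h1 := (hiff (j₀ + 1)).2 (by rw [← hj₀]; exact hmem.2)
    have h2 := hsolve (j₀ + 1)
    have h3 := (vals_init (k := j₀ + 1) hB).2 (by rw [← hj₀]; exact hmem.2)
    have h4 := minSize_eq hT.isAcyclic
    rw [hcard, hj₀] at h4
    rw [h3] at h2
    omega
  · exact decide_eq_true ((hiff (j₀ + 1)).2 (by rw [← hj₀]; exact hmem.2))
  · intro j hj
    exact decide_eq_false fun h => hmin (j + 1) (by omega) (by omega) ((hiff (j + 1)).1 h)

theorem symE_ok {n : ℕ} {E : List (ℕ × ℕ)} (h : ∀ e ∈ E, e.1 < n ∧ e.2 < n) : Ok n (symE E) := by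
  intro e he
  simp only [symE, List.mem_filter, List.mem_append, List.mem_map] at he ⊢
  obtain ⟨h1, h2⟩ := he
  have h3 : e.1 ≠ e.2 := by simpa using h2
  rcases h1 with h1 | ⟨e', h1, rfl⟩
  · refine ⟨(h e h1).1, (h e h1).2, h3, Or.inr ⟨e, h1, rfl⟩, ?_⟩
    simpa using h3.symm
  · refine ⟨(h e' h1).2, (h e' h1).1, h3, Or.inl h1, ?_⟩
    simpa using h3.symm

theorem graph_symE (n : ℕ) (E : List (ℕ × ℕ)) : graph n (symE E) = graph n E := by
  ext p q
  have key : ∀ a b : ℕ, (a, b) ∈ symE E ↔ ((a, b) ∈ E ∨ (b, a) ∈ E) ∧ a ≠ b := by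
    intro a b
    simp only [symE, List.mem_filter, List.mem_append, List.mem_map]
    constructor
    · rintro ⟨h1 | ⟨e, h1, h2⟩, h3⟩
      · exact ⟨Or.inl h1, by simpa using h3⟩
      · simp only [Prod.mk.injEq] at h2
        obtain ⟨rfl, rfl⟩ := h2
        exact ⟨Or.inr h1, by simpa using h3⟩
    · rintro ⟨h1 | h1, h3⟩
      · exact ⟨Or.inl h1, by simpa using h3⟩
      · exact ⟨Or.inr ⟨_, h1, rfl⟩, by simpa using h3⟩
  constructor
  · rintro ⟨h1, h2 | h2⟩
    · rw [key] at h2
      exact ⟨h1, h2.1⟩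
    · rw [key] at h2
      exact ⟨h1, h2.1.symm⟩
  · rintro ⟨h1, h2⟩
    refine ⟨h1, Or.inl ?_⟩
    rw [key]
    exact ⟨h2, fun e => h1 (Fin.ext e)⟩

end Pool.Agent.H79.Bar
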