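import Pool.Agent.H79.BarFam

/-!
# Representations from coordinates
-/

open scoped Topology Classical

namespace Pool.Agent.H79.Bar

/-- The left end of the bar at position `(c, h)`. -/
noncomputable def pt (z : ℤ × ℕ) : ℝ × ℝ :=
  (2 / 3 * (z.1 : ℝ), if Even z.1 then -(z.2 : ℝ) else (z.2 : ℝ) + 1)

theorem pt_inj {z z' : ℤ × ℕ} (h : pt z = pt z') : z = z' := by
  obtain ⟨c, k⟩ := z
  obtain ⟨c', k'⟩ := z'
  simp only [pt, Prod.mk.injEq] at h
  obtain ⟨h1, h2⟩ := h
  have h3 : (c : ℝ) = c' := by linarith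
  have h4 : c = c' := by exact_mod_cast h3
  subst h4
  have h5 : (k : ℝ) = k' := by
    split_ifs at h2 <;> linarith
  have h6 : k = k' := by exact_mod_cast h5
  rw [h6]

/-- Bars that overlap horizontally are in columns at distance at most one. -/
theorem col_near {c c' : ℤ} {x : ℝ} (h1 : 2 / 3 * (c : ℝ) ≤ x) (h2 : x ≤ 2 / 3 * (c : ℝ) + 1)
    (h3 : 2 / 3 * (c' : ℝ) ≤ x) (h4 : x ≤ 2 / 3 * (c' : ℝ) + 1) :
    c' = c ∨ c' = c + 1 ∨ c = c' + 1 := by
  have h5 : (c' : ℝ) < c + 2 := by linarith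
  have h6 : (c : ℝ) < c' + 2 := by linarith
  have h7 : c' < c + 2 := by exact_mod_cast h5
  have h8 : c < c' + 2 := by exact_mod_cast h6
  omega

theorem pt_snd_ne {c c' : ℤ} {k k' : ℕ} (h : c' = c + 1 ∨ c = c' + 1) :
    (pt (c, k)).2 ≠ (pt (c', k')).2 := by
  have hk : (0 : ℝ) ≤ k := Nat.cast_nonneg k
  have hk' : (0 : ℝ) ≤ k' := Nat.cast_nonneg k'
  have : Even c ↔ ¬ Even c' := by
    rcases h with rfl | rfl
    · rw [Int.even_add_one]; simp
    · rw [Int.even_add_one]
  simp only [pt]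
  by_cases h1 : Even c
  · have h2 := this.1 h1
    simp only [h1, h2, if_true, if_false]
    intro h3; linarith
  · have h2 : Even c' := by by_contra h3; exact h1 (this.2 h3)
    simp only [h1, h2, if_true, if_false]
    intro h3; linarith

theorem pt_disjoint {z z' : ℤ × ℕ} (h : z ≠ z') : Disjoint (seg (pt z)) (seg (pt z')) := by
  obtain ⟨c, k⟩ := z
  obtain ⟨c', k'⟩ := z'
  rw [Set.disjoint_left]
  rintro ⟨x, y⟩ ⟨h1, h2, h3⟩ ⟨h4, h5, h6⟩
  simp only at h1 h2 h3 h4 h5 h6
  rcases col_near h1 h2 h4 h5 with h7 | h7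
  · subst h7
    apply h
    apply pt_inj
    exact Prod.ext rfl (h3.symm.trans h6)
  · exact pt_snd_ne h7 (h3.symm.trans h6)

/-- A layout: finitely many positions, downward closed in each column. -/
structure Lay {J : Type} (pos : J → ℤ × ℕ) : Prop where
  inj : Function.Injective pos
  down : ∀ j k, (pos j).2 = k + 1 → ∃ j', pos j' = ((pos j).1, k)

theorem Lay.base {J : Type} {pos : J → ℤ × ℕ} (h : Lay pos) (j : J) (k : ℕ)
    (hk : k ≤ (pos j).2) : ∃ j', pos j' = ((pos j).1, k) := by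
  induction hn : (pos j).2 - k generalizing j with
  | zero => exact ⟨j, Prod.ext rfl (by simp only; omega)⟩
  | succ n ih =>
    obtain ⟨j', hj'⟩ := h.down j ((pos j).2 - 1) (by omega)
    obtain ⟨j'', hj''⟩ := ih j' (by rw [hj']; simp only; omega) (by rw [hj']; simp only; omega)
    exact ⟨j'', by rw [hj'', hj']⟩

/-- A blocking bar. -/
theorem not_sees_of_block {S : Set (ℝ × ℝ)} {p q r : ℝ × ℝ} (hr : r ∈ S) (hp : r ≠ p)
    (hq : r ≠ q) (hy : r.2 ∈ Set.uIcc p.2 q.2)
    (hx : ∀ x : ℝ, (x, p.2) ∈ seg p → (x, q.2) ∈ seg q → (x, r.2) ∈ seg r) : ¬ Sees S p q := by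
  rintro ⟨a, b, hab, h1, h2⟩
  have h3 := h2 r hr hp hq
  obtain ⟨h4, h5⟩ := h1 a ⟨le_refl _, hab.le⟩
  exact Set.disjoint_left.1 h3 (hx a h4 h5) ⟨⟨le_refl _, hab.le⟩, hy⟩

theorem pt_snd_same {c : ℤ} {k k' m : ℕ} (h1 : k ≤ m) (h2 : m ≤ k') :
    (pt (c, m)).2 ∈ Set.uIcc (pt (c, k)).2 (pt (c, k')).2 := by
  have e1 : (k : ℝ) ≤ m := by exact_mod_cast h1
  have e2 : (m : ℝ) ≤ k' := by exact_mod_cast h2
  simp only [pt, Set.mem_uIcc]
  split_ifs
  · right; constructor <;> linarith
  · left; constructor <;> linarith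

theorem pt_snd_cross {c c' : ℤ} {k k' m : ℕ} (h : c' = c + 1 ∨ c = c' + 1) (h1 : m ≤ k) :
    (pt (c, m)).2 ∈ Set.uIcc (pt (c, k)).2 (pt (c', k')).2 := by
  have hk : (0 : ℝ) ≤ m := Nat.cast_nonneg m
  have hk' : (0 : ℝ) ≤ k' := Nat.cast_nonneg k'
  have e1 : (m : ℝ) ≤ k := by exact_mod_cast h1
  have : Even c ↔ ¬ Even c' := by
    rcases h with rfl | rfl
    · rw [Int.even_add_one]; simp
    · rw [Int.even_add_one]
  simp only [pt, Set.mem_uIcc]
  by_cases h1 : Even c
  · have h2 := this.1 h1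
    simp only [h1, h2, if_true, if_false]
    left; constructor <;> linarith
  · have h2 : Even c' := by by_contra h3; exact h1 (this.2 h3)
    simp only [h1, h2, if_true, if_false]
    right; constructor <;> linarith

theorem Sees.symm {S : Set (ℝ × ℝ)} {p q : ℝ × ℝ} (h : Sees S p q) : Sees S q p := by
  obtain ⟨a, b, hab, h1, h2⟩ := h
  refine ⟨a, b, hab, fun x hx => (h1 x hx).symm, fun r hr h3 h4 => ?_⟩
  rw [Set.uIcc_comm]
  exact h2 r hr h4 h3

theorem sees_same {J : Type} (pos : J → ℤ × ℕ) (c : ℤ) (k : ℕ) :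
    Sees (Set.range fun j => pt (pos j)) (pt (c, k)) (pt (c, k + 1)) := by
  refine ⟨2 / 3 * (c : ℝ), 2 / 3 * (c : ℝ) + 1, by linarith, ?_, ?_⟩
  · rintro x ⟨h4, h5⟩
    exact ⟨⟨h4, h5, rfl⟩, ⟨h4, h5, rfl⟩⟩
  · rintro r ⟨j, rfl⟩ hp hq
    simp only at hp hq ⊢
    generalize pos j = z at hp hq ⊢
    obtain ⟨d, m⟩ := z
    rw [Set.disjoint_left]
    rintro ⟨x, y⟩ ⟨h4, h5, h6⟩ ⟨⟨h7, h8⟩, h9⟩
    simp only at h4 h5 h6 h7 h8 h9
    rw [h6] at h9
    have hm : (0 : ℝ) ≤ m := Nat.cast_nonneg m
    have hk : (0 : ℝ) ≤ k := Nat.cast_nonneg k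
    rcases col_near h7 h8 h4 h5 with h10 | h10
    · subst h10
      have h11 : m = k ∨ m = k + 1 := by
        simp only [pt, Set.mem_uIcc] at h9
        have h12 : (k : ℝ) ≤ m ∧ (m : ℝ) ≤ k + 1 := by
          split_ifs at h9
          · push_cast at h9
            rcases h9 with h9 | h9 <;> constructor <;> linarith [h9.1, h9.2]
          · push_cast at h9
            rcases h9 with h9 | h9 <;> constructor <;> linarith [h9.1, h9.2]
        have h13 : k ≤ m := by exact_mod_cast h12.1
        have h14 : m ≤ k + 1 := by exact_mod_cast h12.2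
        omega
      rcases h11 with rfl | rfl
      · exact hp rfl
      · exact hq rfl
    · have : Even d ↔ ¬ Even c := by
        rcases h10 with rfl | rfl
        · rw [Int.even_add_one]
        · rw [Int.even_add_one]; simp
      simp only [pt, Set.mem_uIcc] at h9
      by_cases h1 : Even d
      · have h2 := this.1 h1
        simp only [h1, h2, if_true, if_false] at h9
        push_cast at h9
        rcases h9 with h9 | h9 <;> linarith [h9.1, h9.2]
      · have h2 : Even c := by by_contra h3; exact h1 (this.2 h3)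
        simp only [h1, h2, if_true, if_false] at h9
        push_cast at h9
        rcases h9 with h9 | h9 <;> linarith [h9.1, h9.2]

theorem sees_cross {J : Type} (pos : J → ℤ × ℕ) (c : ℤ) :
    Sees (Set.range fun j => pt (pos j)) (pt (c, 0)) (pt (c + 1, 0)) := by
  refine ⟨2 / 3 * (c : ℝ) + 2 / 3, 2 / 3 * (c : ℝ) + 1, by linarith, ?_, ?_⟩
  · rintro x ⟨h4, h5⟩
    refine ⟨⟨?_, ?_, rfl⟩, ⟨?_, ?_, rfl⟩⟩
    · simp only [pt]; linarith
    · simp only [pt]; linarith
    · simp only [pt]; push_cast; linarith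
    · simp only [pt]; push_cast; linarith
  · rintro r ⟨j, rfl⟩ hp hq
    simp only at hp hq ⊢
    generalize pos j = z at hp hq ⊢
    obtain ⟨d, m⟩ := z
    rw [Set.disjoint_left]
    rintro ⟨x, y⟩ ⟨h4, h5, h6⟩ ⟨⟨h7, h8⟩, h9⟩
    simp only at h4 h5 h6 h7 h8 h9
    rw [h6] at h9
    have hm : (0 : ℝ) ≤ m := Nat.cast_nonneg m
    have h10 := col_near (c := c) (by linarith) h8 h4 h5
    have h11 := col_near (c := c + 1) (by push_cast; linarith) (by push_cast; linarith) h4 h5
    have h12 : d = c ∨ d = c + 1 := by omega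
    have hev : Even (c + 1) ↔ ¬ Even c := Int.even_add_one
    have h13 : (m : ℝ) ≤ 0 := by
      simp only [pt, Set.mem_uIcc] at h9
      by_cases h1 : Even c
      · have h2 : ¬ Even (c + 1) := fun h => hev.1 h h1
        rcases h12 with rfl | rfl
        · simp only [h1, h2, if_true, if_false] at h9
          push_cast at h9
          rcases h9 with h9 | h9 <;> linarith [h9.1, h9.2]
        · simp only [h1, h2, if_true, if_false] at h9
          push_cast at h9
          rcases h9 with h9 | h9 <;> linarith [h9.1, h9.2]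
      · have h2 : Even (c + 1) := hev.2 h1
        rcases h12 with rfl | rfl
        · simp only [h1, h2, if_true, if_false] at h9
          push_cast at h9
          rcases h9 with h9 | h9 <;> linarith [h9.1, h9.2]
        · simp only [h1, h2, if_true, if_false] at h9
          push_cast at h9
          rcases h9 with h9 | h9 <;> linarith [h9.1, h9.2]
    have h14 : (m : ℝ) = 0 := le_antisymm h13 hm
    have h15 : m = 0 := by exact_mod_cast h14
    subst h15
    rcases h12 with rfl | rfl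
    · exact hp rfl
    · exact hq rfl

/-- Positions that are adjacent in the caterpillar see each other. -/
theorem sees_of_catAdj {J : Type} (pos : J → ℤ × ℕ) {c c' : ℤ} {k k' : ℕ}
    (H : CatAdj c k c' k') :
    Sees (Set.range fun j => pt (pos j)) (pt (c, k)) (pt (c', k')) := by
  rcases H with ⟨rfl, rfl | rfl⟩ | ⟨rfl, rfl, rfl | rfl⟩
  · exact sees_same pos c k
  · exact (sees_same pos c k').symm
  · exact sees_cross pos c
  · exact (sees_cross pos c').symm

/-- Positions of a layout that see each other are adjacent in the caterpillar. -/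
theorem catAdj_of_sees {J : Type} {pos : J → ℤ × ℕ} (hL : Lay pos) {j j' : J} (hne : j ≠ j')
    (H : Sees (Set.range fun j => pt (pos j)) (pt (pos j)) (pt (pos j'))) :
    CatAdj (pos j).1 (pos j).2 (pos j').1 (pos j').2 := by
  have hnear : (pos j').1 = (pos j).1 ∨ (pos j').1 = (pos j).1 + 1 ∨
      (pos j).1 = (pos j').1 + 1 := by
    obtain ⟨a, b, hab, h1, -⟩ := H
    obtain ⟨⟨h2, h3, -⟩, ⟨h4, h5, -⟩⟩ := h1 a ⟨le_refl _, hab.le⟩
    exact col_near h2 h3 h4 h5
  obtain ⟨⟨c, k⟩, hj⟩ : ∃ z, pos j = z := ⟨_, rfl⟩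
  obtain ⟨⟨c', k'⟩, hj'⟩ : ∃ z, pos j' = z := ⟨_, rfl⟩
  rw [hj, hj'] at H hnear ⊢
  simp only at hnear ⊢
  by_contra hcon
  rcases hnear with rfl | hcc
  · -- the same column
    have hkk : k ≠ k' := by
      rintro rfl
      exact hne (hL.inj (hj.trans hj'.symm))
    have hns : k' ≠ k + 1 ∧ k ≠ k' + 1 := by
      constructor
      · intro e; exact hcon (Or.inl ⟨rfl, Or.inl e⟩)
      · intro e; exact hcon (Or.inl ⟨rfl, Or.inr e⟩)
    rcases lt_or_gt_of_ne hkk with hlt | hlt
    · obtain ⟨i, hi⟩ := hL.base j' (k + 1) (by rw [hj']; simp only; omega)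
      rw [hj'] at hi
      simp only at hi
      refine not_sees_of_block (S := Set.range fun j => pt (pos j)) (r := pt (c', k + 1)) ⟨i, by simp only [hi]⟩ ?_ ?_ ?_ ?_ H
      · intro e; have := pt_inj e; simp at this
      · intro e; have := pt_inj e; simp at this; omega
      · exact pt_snd_same (by omega) (by omega)
      · rintro x ⟨h1, h2, -⟩ -
        exact ⟨h1, h2, rfl⟩
    · obtain ⟨i, hi⟩ := hL.base j (k' + 1) (by rw [hj]; simp only; omega)
      rw [hj] at hi
      simp only at hi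
      refine not_sees_of_block (S := Set.range fun j => pt (pos j)) (r := pt (c', k' + 1)) ⟨i, by simp only [hi]⟩ ?_ ?_ ?_ ?_ H
      · intro e; have := pt_inj e; simp at this; omega
      · intro e; have := pt_inj e; simp at this
      · rw [Set.uIcc_comm]
        exact pt_snd_same (by omega) (by omega)
      · rintro x ⟨h1, h2, -⟩ -
        exact ⟨h1, h2, rfl⟩
  · -- neighbouring columns
    have hkk : 0 < k ∨ 0 < k' := by
      by_contra h0
      push Not at h0
      exact hcon (Or.inr ⟨by omega, by omega, hcc⟩)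
    rcases hkk with h0 | h0
    · obtain ⟨i, hi⟩ := hL.base j 0 (Nat.zero_le _)
      rw [hj] at hi
      simp only at hi
      refine not_sees_of_block (S := Set.range fun j => pt (pos j)) (r := pt (c, 0)) ⟨i, by simp only [hi]⟩ ?_ ?_ ?_ ?_ H
      · intro e; have := pt_inj e; simp at this; omega
      · intro e; have := pt_inj e; simp at this; omega
      · exact pt_snd_cross hcc (Nat.zero_le _)
      · rintro x ⟨h1, h2, -⟩ -
        exact ⟨h1, h2, rfl⟩
    · obtain ⟨i, hi⟩ := hL.base j' 0 (Nat.zero_le _)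
      rw [hj'] at hi
      simp only at hi
      refine not_sees_of_block (S := Set.range fun j => pt (pos j)) (r := pt (c', 0)) ⟨i, by simp only [hi]⟩ ?_ ?_ ?_ ?_ H
      · intro e; have := pt_inj e; simp at this; omega
      · intro e; have := pt_inj e; simp at this; omega
      · rw [Set.uIcc_comm]
        exact pt_snd_cross (by tauto) (Nat.zero_le _)
      · rintro x - ⟨h1, h2, -⟩
        exact ⟨h1, h2, rfl⟩

/-- The bars of a layout form a representation. -/
theorem Lay.isRep {V J : Type} [Fintype J] {pos : J → ℤ × ℕ} (hL : Lay pos) (own : J → V)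
    {G : SimpleGraph V} {t : ℕ} (ht : ∀ v, (Finset.univ.filter fun j => own j = v).card ≤ t)
    (hG : ∀ v w, v ≠ w → (G.Adj v w ↔ ∃ j j', own j = v ∧ own j' = w ∧
      CatAdj (pos j).1 (pos j).2 (pos j').1 (pos j').2)) :
    IsRep G t fun v => (Finset.univ.filter fun j => own j = v).image fun j => pt (pos j) := by
  have hS : (⋃ u : V, (((Finset.univ.filter fun j => own j = u).image fun j => pt (pos j) :
      Finset (ℝ × ℝ)) : Set (ℝ × ℝ))) = Set.range fun j => pt (pos j) := by
    ext z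
    simp
  refine ⟨fun v => Finset.card_image_le.trans (ht v), ?_, ?_⟩
  · intro v w p hp q hq hne
    simp only [Finset.mem_image, Finset.mem_filter, Finset.mem_univ, true_and] at hp hq
    obtain ⟨j, h1, rfl⟩ := hp
    obtain ⟨j', h2, rfl⟩ := hq
    apply pt_disjoint
    intro h3
    have := hL.inj h3
    subst this
    exact hne (by rw [← h1, ← h2])
  · intro v w hvw
    rw [hG v w hvw, hS]
    constructor
    · rintro ⟨j, j', h1, h2, h3⟩
      exact ⟨pt (pos j), by simpa using ⟨j, h1, rfl⟩, pt (pos j'), by simpa using ⟨j', h2, rfl⟩,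
        sees_of_catAdj pos h3⟩
    · rintro ⟨p, hp, q, hq, h⟩
      simp only [Finset.mem_image, Finset.mem_filter, Finset.mem_univ, true_and] at hp hq
      obtain ⟨j, h1, rfl⟩ := hp
      obtain ⟨j', h2, rfl⟩ := hq
      refine ⟨j, j', h1, h2, catAdj_of_sees hL ?_ h⟩
      rintro rfl
      exact hvw (h1.symm.trans h2)

end Pool.Agent.H79.Bar
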