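import Pool.Agent.H79.BarLabel

/-!
# From representations to labelings of the edges: counting
-/

open scoped Topology Classical

namespace Pool.Agent.H79.Bar

theorem card_dir (U : Finset Dir) : U.card = (if Dir.up ∈ U then 1 else 0) +
    (if Dir.dn ∈ U then 1 else 0) + (if Dir.rt ∈ U then 1 else 0) +
    (if Dir.lf ∈ U then 1 else 0) := by
  have h : U = Finset.univ.filter (· ∈ U) := by simp
  have h2 : (Finset.univ : Finset Dir) = {.up, .dn, .rt, .lf} := rfl
  conv_lhs => rw [h, Finset.card_filter, h2]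
  rw [Finset.sum_insert (by simp), Finset.sum_insert (by simp), Finset.sum_insert (by simp),
    Finset.sum_singleton]
  ring

theorem half_sum {ι : Type} (s : Finset ι) (f : ι → ℕ) :
    (∑ i ∈ s, f i + 1) / 2 ≤ ∑ i ∈ s, (f i + 1) / 2 := by
  induction s using Finset.induction_on with
  | empty => simp
  | insert a s ha ih =>
    rw [Finset.sum_insert ha, Finset.sum_insert ha]
    omega

namespace Sys

variable {V : Type} {T : SimpleGraph V} (Y : Sys T)

theorem cons_unique_up {x : ℝ} {a b b' : ℝ × ℝ} (h : Y.Cons x a b) (h' : Y.Cons x a b') :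
    b = b' := by
  by_contra hne
  rcases lt_or_gt_of_ne (Y.height_ne h.2.1 h'.2.1 hne) with hl | hl
  · exact h'.2.2.2 b h.2.1 ⟨h.2.2.1, hl⟩
  · exact h.2.2.2 b' h'.2.1 ⟨h'.2.2.1, hl⟩

theorem cons_unique_dn {x : ℝ} {a a' b : ℝ × ℝ} (h : Y.Cons x a b) (h' : Y.Cons x a' b) :
    a = a' := by
  by_contra hne
  rcases lt_or_gt_of_ne (Y.height_ne h.1 h'.1 hne) with hl | hl
  · exact h.2.2.2 a' h'.1 ⟨hl, h'.2.2.1⟩
  · exact h'.2.2.2 a h.1 ⟨hl, h.2.2.1⟩

theorem used_card {x₀ : ℝ} (h₀ : Y.Good x₀) (hT : T.IsAcyclic) (p : ℝ × ℝ) :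
    (Finset.univ.filter fun d => Y.Used x₀ p d .O).card ≤ 1 ∧
    (Finset.univ.filter fun d => Y.Used x₀ p d .I).card +
      ((Finset.univ.filter fun d => Y.Used x₀ p d .S).card + 1) / 2 ≤ 1 := by
  obtain ⟨f1, f2, f3, f4, f5, f6, f7, f8, f9⟩ := Y.used_facts h₀ hT p
  have g1 : ¬ Y.Used x₀ p .rt .O := fun h => by simpa using f1 _ h
  have g2 : ¬ Y.Used x₀ p .rt .I := fun h => by simpa using f1 _ h
  have g3 : ¬ Y.Used x₀ p .lf .O := fun h => by simpa using f2 _ h
  have g4 : ¬ Y.Used x₀ p .lf .I := fun h => by simpa using f2 _ h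
  rw [card_dir, card_dir, card_dir]
  simp only [Finset.mem_filter, Finset.mem_univ, true_and, g1, g2, g3, g4, if_false, add_zero]
  constructor
  · split_ifs with a b <;> simp_all
  · by_cases hI : Y.Used x₀ p .up .I ∨ Y.Used x₀ p .dn .I
    · have k1 := f5 .up hI
      have k2 := f5 .dn hI
      have k3 := f5 .rt hI
      have k4 := f5 .lf hI
      simp only [k1, k2, k3, k4, if_false]
      split_ifs with a b <;> simp_all
    · rw [not_or] at hI
      simp only [hI.1, hI.2, if_false]
      split_ifs <;> simp_all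

/-- A family of bars that realises all edges yields a labeling. -/
theorem exists_labeling [Fintype V] (hT : T.IsAcyclic) (t : V → ℕ)
    (hcard : ∀ v, (Y.S.filter fun p => Y.own p = v).card ≤ t v)
    (hcov : ∀ v w, T.Adj v w →
      ∃ p ∈ Y.S, ∃ q ∈ Y.S, Y.own p = v ∧ Y.own q = w ∧ Sees (Y.S : Set (ℝ × ℝ)) p q) :
    ∃ x : V → V → Lab, (∀ v w, T.Adj v w → x w v = (x v w).dual) ∧ ∀ v, CC T x v ≤ t v := by
  obtain ⟨x₀, h₀⟩ := Y.exists_good
  have hz : ∀ e : Sym2 V, ∃ z : Rz, e ∈ T.edgeSet →
      Y.Ok x₀ z ∧ s(Y.own (Y.fstB x₀ z), Y.own (Y.sndB x₀ z)) = e := by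
    intro e
    induction e using Sym2.ind with
    | _ v w =>
      by_cases h : T.Adj v w
      · rcases Y.exists_realn h₀ hT h (hcov v w h) with ⟨i, a, b, h1, h2⟩ | ⟨i, h1, h2⟩
        · exact ⟨.vert i a b, fun _ => ⟨h1, h2⟩⟩
        · exact ⟨.br i, fun _ => ⟨h1, h2⟩⟩
      · exact ⟨.br 0, fun h' => absurd h' h⟩
  choose z hz using hz
  set F : V → V → Prop := fun v w => Y.own (Y.fstB x₀ (z s(v, w))) = v with hF
  set x : V → V → Lab := fun v w =>
    if F v w then Y.lab1 x₀ (z s(v, w)) else Y.lab2 x₀ (z s(v, w)) with hx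
  set bar : V → V → ℝ × ℝ := fun v w =>
    if F v w then Y.fstB x₀ (z s(v, w)) else Y.sndB x₀ (z s(v, w)) with hbar
  set dir : V → V → Dir := fun v w =>
    if F v w then dir1 (z s(v, w)) else dir2 (z s(v, w)) with hdir
  have ends : ∀ v w, T.Adj v w → (F v w ∧ Y.own (Y.sndB x₀ (z s(v, w))) = w) ∨
      (¬ F v w ∧ Y.own (Y.fstB x₀ (z s(v, w))) = w ∧ Y.own (Y.sndB x₀ (z s(v, w))) = v) := by
    intro v w h
    have h1 := (hz s(v, w) h).2
    rw [Sym2.eq_iff] at h1
    rcases h1 with ⟨h1, h2⟩ | ⟨h1, h2⟩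
    · exact Or.inl ⟨h1, h2⟩
    · refine Or.inr ⟨fun h3 => ?_, h1, h2⟩
      have h4 : Y.own (Y.fstB x₀ (z s(v, w))) = v := h3
      exact h.ne (h4.symm.trans h1)
  have hswap : ∀ v w, z s(w, v) = z s(v, w) := fun v w => by rw [Sym2.eq_swap]
  refine ⟨x, ?_, ?_⟩
  · intro v w h
    simp only [hx]
    rcases ends v w h with ⟨h1, h2⟩ | ⟨h1, h2, h3⟩
    · have h4 : ¬ F w v := fun h5 => by
        have h6 : Y.own (Y.fstB x₀ (z s(w, v))) = w := h5
        rw [hswap] at h6
        have h7 : Y.own (Y.fstB x₀ (z s(v, w))) = v := h1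
        exact h.ne (h7.symm.trans h6)
      rw [if_pos h1, if_neg h4, hswap, lab2_eq]
    · have h4 : F w v := by
        show Y.own (Y.fstB x₀ (z s(w, v))) = w
        rw [hswap]; exact h2
      rw [if_neg h1, if_pos h4, hswap, lab2_eq, Lab.dual_dual]
  · intro v
    have memS : ∀ z, Y.Ok x₀ z → Y.fstB x₀ z ∈ Y.S ∧ Y.sndB x₀ z ∈ Y.S := by
      intro z hz
      cases z with
      | vert i a b => exact ⟨(Y.mem_line.1 hz.1.1).1, (Y.mem_line.1 hz.1.2.1).1⟩
      | br i =>
        have := Y.br_spec x₀ hz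
        exact ⟨(Y.mem_line.1 this.left).1, (Y.mem_line.1 this.right).1⟩
    have hbarS : ∀ w, T.Adj v w → bar v w ∈ Y.S.filter fun p => Y.own p = v := by
      intro w h
      have hm := memS _ (hz s(v, w) h).1
      simp only [hbar, Finset.mem_filter]
      rcases ends v w h with ⟨h1, h2⟩ | ⟨h1, h2, h3⟩
      · rw [if_pos h1]; exact ⟨hm.1, h1⟩
      · rw [if_neg h1]; exact ⟨hm.2, h3⟩
    have hused : ∀ w, T.Adj v w → Y.Used x₀ (bar v w) (dir v w) (x v w) := by
      intro w h
      refine ⟨z s(v, w), (hz s(v, w) h).1, ?_⟩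
      simp only [hbar, hdir, hx]
      by_cases h1 : F v w
      · rw [if_pos h1, if_pos h1, if_pos h1]; exact Or.inl ⟨rfl, rfl, rfl⟩
      · rw [if_neg h1, if_neg h1, if_neg h1]; exact Or.inr ⟨rfl, rfl, rfl⟩
    have hinj : ∀ w w', T.Adj v w → T.Adj v w' → bar v w = bar v w' → dir v w = dir v w' →
        w = w' := by
      intro w w' h h' e1 e2
      obtain ⟨o1, q1⟩ := hz s(v, w) h
      obtain ⟨o2, q2⟩ := hz s(v, w') h'
      simp only [hbar] at e1
      simp only [hdir] at e2
      rcases ends v w h with ⟨h1, h2⟩ | ⟨h1, h2, h3⟩ <;>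
        rcases ends v w' h' with ⟨h1', h2'⟩ | ⟨h1', h2', h3'⟩
      · rw [if_pos h1, if_pos h1'] at e1 e2
        rw [← h2, ← h2']
        generalize z s(v, w) = z1 at *
        generalize z s(v, w') = z2 at *
        cases z1 <;> cases z2
        · rename_i i a b i' a' b'
          simp only [fstB] at e1
          subst e1
          obtain rfl := Y.ln_unique o1.1.1 o2.1.1
          simp only [sndB]
          rw [Y.cons_unique_up o1.1 o2.1]
        · simp [dir1] at e2
        · simp [dir1] at e2
        · rename_i i i'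
          simp only [fstB] at e1
          have b1 := (Y.br_spec x₀ o1).left
          have b2 := (Y.br_spec x₀ o2).left
          rw [← e1] at b2
          obtain rfl := Y.ln_unique b1 b2
          rfl
      · rw [if_pos h1, if_neg h1'] at e2
        generalize z s(v, w) = z1 at *
        generalize z s(v, w') = z2 at *
        cases z1 <;> cases z2 <;> simp [dir1, dir2] at e2
      · rw [if_neg h1, if_pos h1'] at e2
        generalize z s(v, w) = z1 at *
        generalize z s(v, w') = z2 at *
        cases z1 <;> cases z2 <;> simp [dir1, dir2] at e2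
      · rw [if_neg h1, if_neg h1'] at e1 e2
        rw [← h2, ← h2']
        generalize z s(v, w) = z1 at *
        generalize z s(v, w') = z2 at *
        cases z1 <;> cases z2
        · rename_i i a b i' a' b'
          simp only [sndB] at e1
          subst e1
          obtain rfl := Y.ln_unique o1.1.2.1 o2.1.2.1
          simp only [fstB]
          rw [Y.cons_unique_dn o1.1 o2.1]
        · simp [dir2] at e2
        · simp [dir2] at e2
        · rename_i i i'
          simp only [sndB] at e1
          have b1 := (Y.br_spec x₀ o1).right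
          have b2 := (Y.br_spec x₀ o2).right
          rw [← e1] at b2
          have := Y.ln_unique b1 b2
          obtain rfl : i = i' := by omega
          rfl
    -- counting
    have hcnt : ∀ l, cnt T x v l ≤ ∑ p ∈ Y.S.filter (fun p => Y.own p = v),
        (Finset.univ.filter fun d => Y.Used x₀ p d l).card := by
      intro l
      unfold cnt
      rw [Finset.card_eq_sum_card_fiberwise (f := bar v) (t := Y.S.filter fun p => Y.own p = v)
        (fun w hw => by
          simp only [Finset.coe_filter, Finset.mem_univ, true_and, Set.mem_ofPred_eq] at hw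
          exact hbarS w hw.1)]
      refine Finset.sum_le_sum fun p _ => ?_
      refine Finset.card_le_card_of_injOn (dir v) ?_ ?_
      · intro w hw
        simp only [Finset.coe_filter, Finset.mem_filter, Finset.mem_univ, true_and,
          Set.mem_ofPred_eq] at hw ⊢
        obtain ⟨⟨h1, rfl⟩, rfl⟩ := hw
        exact hused w h1
      · intro w hw w' hw' he
        simp only [Finset.coe_filter, Finset.mem_filter, Finset.mem_univ, true_and,
          Set.mem_ofPred_eq] at hw hw'
        exact hinj w w' hw.1.1 hw'.1.1 (hw.2.trans hw'.2.symm) he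
    refine le_trans ?_ (hcard v)
    unfold CC C
    refine max_le ?_ ?_
    · refine (hcnt .O).trans ((Finset.sum_le_sum fun p _ => (Y.used_card h₀ hT p).1).trans ?_)
      simp
    · have h1 := hcnt .I
      have h2 := hcnt .S
      have h3 := half_sum (Y.S.filter fun p => Y.own p = v)
        (fun p => (Finset.univ.filter fun d => Y.Used x₀ p d .S).card)
      have h4 : ∑ p ∈ Y.S.filter (fun p => Y.own p = v),
          ((Finset.univ.filter fun d => Y.Used x₀ p d .I).card +
            ((Finset.univ.filter fun d => Y.Used x₀ p d .S).card + 1) / 2) ≤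
          ∑ p ∈ Y.S.filter (fun p => Y.own p = v), 1 :=
        Finset.sum_le_sum fun p _ => (Y.used_card h₀ hT p).2
      rw [Finset.sum_add_distrib] at h4
      rw [Finset.card_eq_sum_ones]
      omega

end Sys

/-- From a representation to a labeling. -/
theorem IsRep.exists_labeling {V : Type} [Fintype V] {T : SimpleGraph V} (hT : T.IsAcyclic)
    {t : ℕ} {B : V → Finset (ℝ × ℝ)} (h : IsRep T t B) :
    ∃ x : V → V → Lab, (∀ v w, T.Adj v w → x w v = (x v w).dual) ∧ ∀ v, CC T x v ≤ t := by
  rcases isEmpty_or_nonempty V with hV | hV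
  · exact ⟨fun v => hV.elim v, fun v => hV.elim v, fun v => hV.elim v⟩
  have hne : ∀ v w p, p ∈ B v → p ∈ B w → v = w := by
    intro v w p hv hw
    by_contra hvw
    have h1 := h.disj v w p hv p hw (fun he => hvw (congrArg Prod.fst he))
    have h2 : p ∈ seg p := ⟨le_rfl, by linarith, rfl⟩
    exact Set.disjoint_left.1 h1 h2 h2
  set S : Finset (ℝ × ℝ) := Finset.univ.biUnion B with hS
  set own : ℝ × ℝ → V := fun p => if hp : ∃ v, p ∈ B v then hp.choose else hV.some with hown
  have hown' : ∀ v p, p ∈ B v → own p = v := by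
    intro v p hp
    have h1 : ∃ v, p ∈ B v := ⟨v, hp⟩
    simp only [hown, dif_pos h1]
    exact hne _ _ p h1.choose_spec hp
  have hSset : (S : Set (ℝ × ℝ)) = ⋃ u, (B u : Set (ℝ × ℝ)) := by
    ext p; simp [hS]
  have hmem : ∀ p ∈ S, p ∈ B (own p) := by
    intro p hp
    rw [hS, Finset.mem_biUnion] at hp
    obtain ⟨v, -, hv⟩ := hp
    rw [hown' v p hv]; exact hv
  let Y : Sys T :=
    { S := S
      own := own
      disj := fun p hp q hq hpq => h.disj _ _ p (hmem p hp) q (hmem q hq)
        (fun he => hpq (congrArg Prod.snd he))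
      sees := by
        intro p hp q hq hs
        by_cases he : own p = own q
        · exact Or.inl he
        · right
          rw [h.adj_iff _ _ he]
          exact ⟨p, hmem p hp, q, hmem q hq, by rw [← hSset]; exact hs⟩ }
  refine Y.exists_labeling hT (fun _ => t) ?_ ?_
  · intro v
    refine (Finset.card_le_card ?_).trans (h.card_le v)
    intro p hp
    rw [Finset.mem_filter] at hp
    have := hmem p hp.1
    have h2 : own p = v := hp.2
    rwa [h2] at this
  · intro v w hvw
    obtain ⟨p, hp, q, hq, hs⟩ := (h.adj_iff v w hvw.ne).1 hvw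
    refine ⟨p, ?_, q, ?_, hown' v p hp, hown' w q hq, ?_⟩
    · exact Finset.mem_biUnion.2 ⟨v, Finset.mem_univ _, hp⟩
    · exact Finset.mem_biUnion.2 ⟨w, Finset.mem_univ _, hq⟩
    · show Sees (S : Set (ℝ × ℝ)) p q
      rw [hSset]; exact hs

end Pool.Agent.H79.Bar
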