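import Pool.Agent.H79.BarMin

/-!
# Eliminating a leaf
-/

open scoped Classical

namespace Pool.Agent.H79.Bar

variable {V : Type} [Fintype V]

/-- The possible total costs of labelings, for given costs at the vertices. -/
def Vals (T : SimpleGraph V) (w : V → (Lab → ℕ) → ℕ) : Set ℕ :=
  {m | ∃ x : V → V → Lab, (∀ a b, T.Adj a b → x b a = (x a b).dual) ∧
    ∑ v, w v (cnt T x v) = m}

theorem vals_nonempty (T : SimpleGraph V) (w : V → (Lab → ℕ) → ℕ) : (Vals T w).Nonempty :=
  ⟨_, fun _ _ => .S, fun _ _ _ => rfl, rfl⟩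

/-- Increment. -/
def inc (l : Lab) (c : Lab → ℕ) : Lab → ℕ := fun l' => c l' + if l' = l then 1 else 0

/-- The costs after the elimination of the leaf `a` with neighbour `u`. -/
noncomputable def elimW (B : ℕ) (w : V → (Lab → ℕ) → ℕ) (u a v : V) (c : Lab → ℕ) : ℕ :=
  if v = u then min B (min (w u (inc .S c) + w a (inc .S fun _ => 0))
    (min (w u (inc .O c) + w a (inc .I fun _ => 0)) (w u (inc .I c) + w a (inc .O fun _ => 0))))
  else if v = a then 0 else w v c

/-- The graph `T'` arises from `T` by removing the edge from the leaf `a` to `u`. -/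
structure Leaf (T T' : SimpleGraph V) (a u : V) : Prop where
  leaf : ∀ z, T.Adj a z ↔ z = u
  leaf' : ∀ z, ¬ T'.Adj a z
  same : ∀ p q, p ≠ a → q ≠ a → (T.Adj p q ↔ T'.Adj p q)

namespace Leaf

variable {T T' : SimpleGraph V} {a u : V} (h : Leaf T T' a u)

include h

omit [Fintype V] in
theorem ne : a ≠ u := ((h.leaf u).2 rfl).ne

theorem cnt_a (x : V → V → Lab) : cnt T x a = inc (x a u) fun _ => 0 := by
  funext l
  unfold cnt inc
  by_cases hl : l = x a u
  · rw [if_pos hl, Finset.card_eq_one]
    refine ⟨u, ?_⟩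
    ext z
    simp only [Finset.mem_filter, Finset.mem_univ, true_and, h.leaf z, Finset.mem_singleton]
    constructor
    · exact fun h => h.1
    · rintro rfl; exact ⟨rfl, hl.symm⟩
  · rw [if_neg hl, Finset.card_eq_zero, Finset.filter_eq_empty_iff]
    rintro z - ⟨h1, h2⟩
    rw [h.leaf z] at h1
    subst h1
    exact hl h2.symm

theorem cnt_u (x : V → V → Lab) : cnt T x u = inc (x u a) (cnt T' x u) := by
  funext l
  unfold cnt inc
  have hau := h.ne
  by_cases hl : l = x u a
  · rw [if_pos hl]
    have h1 : (Finset.univ.filter fun w => T.Adj u w ∧ x u w = l) =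
        insert a (Finset.univ.filter fun w => T'.Adj u w ∧ x u w = l) := by
      ext z
      simp only [Finset.mem_filter, Finset.mem_univ, true_and, Finset.mem_insert]
      by_cases hz : z = a
      · subst hz
        simp [hl, ((h.leaf u).2 rfl).symm]
      · simp only [hz, false_or, h.same u z hau.symm hz]
    rw [h1, Finset.card_insert_of_notMem]
    simp only [Finset.mem_filter, Finset.mem_univ, true_and, not_and]
    intro h2
    exact (h.leaf' u h2.symm).elim
  · rw [if_neg hl, add_zero]
    congr 1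
    ext z
    simp only [Finset.mem_filter, Finset.mem_univ, true_and]
    by_cases hz : z = a
    · subst hz
      constructor
      · rintro ⟨-, h2⟩; exact (hl h2.symm).elim
      · rintro ⟨h2, -⟩; exact (h.leaf' u h2.symm).elim
    · simp only [h.same u z hau.symm hz]

theorem cnt_ne (x : V → V → Lab) {v : V} (hv : v ≠ a) (hv' : v ≠ u) :
    cnt T x v = cnt T' x v := by
  funext l
  unfold cnt
  congr 1
  ext z
  simp only [Finset.mem_filter, Finset.mem_univ, true_and]
  by_cases hz : z = a
  · subst hz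
    constructor
    · rintro ⟨h1, -⟩; exact (hv' ((h.leaf v).1 h1.symm)).elim
    · rintro ⟨h1, -⟩; exact (h.leaf' v h1.symm).elim
  · simp only [h.same v z hv hz]

/-- The total costs before and after the elimination. -/
theorem sum_eq (B : ℕ) (w : V → (Lab → ℕ) → ℕ) (x : V → V → Lab) :
    ∑ v, w v (cnt T x v) + elimW B w u a u (cnt T' x u) =
      ∑ v, elimW B w u a v (cnt T' x v) +
        (w u (inc (x u a) (cnt T' x u)) + w a (inc (x a u) fun _ => 0)) := by
  have hau := h.ne
  have e1 : ∀ F : V → ℕ, ∑ v, F v = F u + (F a + ∑ v ∈ (Finset.univ.erase u).erase a, F v) := by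
    intro F
    rw [Finset.add_sum_erase _ F (Finset.mem_erase.2 ⟨hau, Finset.mem_univ a⟩),
      Finset.add_sum_erase _ F (Finset.mem_univ u)]
  rw [e1 fun v => w v (cnt T x v), e1 fun v => elimW B w u a v (cnt T' x v)]
  have e2 : ∑ v ∈ (Finset.univ.erase u).erase a, w v (cnt T x v) =
      ∑ v ∈ (Finset.univ.erase u).erase a, elimW B w u a v (cnt T' x v) := by
    refine Finset.sum_congr rfl fun v hv => ?_
    simp only [Finset.mem_erase, Finset.mem_univ, and_true] at hv
    rw [h.cnt_ne x hv.1 hv.2]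
    simp only [elimW, if_neg hv.1, if_neg hv.2]
  have e3 : elimW B w u a a (cnt T' x a) = 0 := by
    simp only [elimW, if_neg hau, if_true]
  rw [e2, e3, h.cnt_a x, h.cnt_u x]
  ring

theorem vals_le (B : ℕ) (w : V → (Lab → ℕ) → ℕ) {m : ℕ} (hm : m ∈ Vals T w) :
    ∃ m' ∈ Vals T' (elimW B w u a), m' ≤ m := by
  obtain ⟨x, hx, rfl⟩ := hm
  refine ⟨_, ⟨x, fun p q hpq => hx p q ?_, rfl⟩, ?_⟩
  · have hp : p ≠ a := fun e => h.leaf' q (e ▸ hpq)
    have hq : q ≠ a := fun e => h.leaf' p (e ▸ hpq.symm)
    exact (h.same p q hp hq).2 hpq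
  · have h1 := h.sum_eq B w x
    have h2 : elimW B w u a u (cnt T' x u) ≤
        w u (inc (x u a) (cnt T' x u)) + w a (inc (x a u) fun _ => 0) := by
      have h3 : x a u = (x u a).dual := hx u a ((h.leaf u).2 rfl).symm
      rw [h3]
      simp only [elimW, if_true]
      refine (min_le_right _ _).trans ?_
      cases x u a
      · exact min_le_left _ _
      · exact (min_le_right _ _).trans (min_le_left _ _)
      · exact (min_le_right _ _).trans (min_le_right _ _)
    omega

theorem vals_ge (B : ℕ) (w : V → (Lab → ℕ) → ℕ) {m' : ℕ} (hm' : m' ∈ Vals T' (elimW B w u a))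
    (hB : m' < B) : ∃ m ∈ Vals T w, m ≤ m' := by
  obtain ⟨x, hx, rfl⟩ := hm'
  have hau := h.ne
  have hlt : elimW B w u a u (cnt T' x u) < B :=
    lt_of_le_of_lt (Finset.single_le_sum (f := fun v => elimW B w u a v (cnt T' x v))
      (fun _ _ => Nat.zero_le _) (Finset.mem_univ u)) hB
  obtain ⟨l, hl⟩ : ∃ l : Lab, w u (inc l (cnt T' x u)) + w a (inc l.dual fun _ => 0) =
      elimW B w u a u (cnt T' x u) := by
    simp only [elimW, if_true] at hlt ⊢
    rcases min_choice B (min (w u (inc .S (cnt T' x u)) + w a (inc .S fun _ => 0))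
      (min (w u (inc .O (cnt T' x u)) + w a (inc .I fun _ => 0))
      (w u (inc .I (cnt T' x u)) + w a (inc .O fun _ => 0)))) with h1 | h1
    · rw [h1] at hlt
      exact (lt_irrefl _ hlt).elim
    · rw [h1]
      rcases min_choice (w u (inc .S (cnt T' x u)) + w a (inc .S fun _ => 0))
        (min (w u (inc .O (cnt T' x u)) + w a (inc .I fun _ => 0))
        (w u (inc .I (cnt T' x u)) + w a (inc .O fun _ => 0))) with h2 | h2
      · exact ⟨.S, h2.symm⟩
      · rcases min_choice (w u (inc .O (cnt T' x u)) + w a (inc .I fun _ => 0))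
          (w u (inc .I (cnt T' x u)) + w a (inc .O fun _ => 0)) with h3 | h3
        · exact ⟨.O, by rw [h2, h3]; rfl⟩
        · exact ⟨.I, by rw [h2, h3]; rfl⟩
  set y : V → V → Lab := fun p q => if p = u ∧ q = a then l else if p = a ∧ q = u then l.dual
    else x p q with hy
  have hyua : y u a = l := by simp [hy]
  have hyau : y a u = l.dual := by simp [hy, hau, hau.symm]
  have hyx : ∀ p q, p ≠ a → q ≠ a → y p q = x p q := by
    intro p q hp hq
    simp [hy, hp, hq]
  have hT' : ∀ p q, T'.Adj p q → p ≠ a ∧ q ≠ a := by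
    intro p q hpq
    exact ⟨fun e => h.leaf' q (e ▸ hpq), fun e => h.leaf' p (e ▸ hpq.symm)⟩
  have hcnt : ∀ v, cnt T' y v = cnt T' x v := by
    intro v
    funext l'
    unfold cnt
    congr 1
    ext z
    simp only [Finset.mem_filter, Finset.mem_univ, true_and]
    constructor
    · rintro ⟨h1, h2⟩
      rw [hyx v z (hT' v z h1).1 (hT' v z h1).2] at h2
      exact ⟨h1, h2⟩
    · rintro ⟨h1, h2⟩
      rw [← hyx v z (hT' v z h1).1 (hT' v z h1).2] at h2
      exact ⟨h1, h2⟩
  refine ⟨_, ⟨y, ?_, rfl⟩, ?_⟩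
  · intro p q hpq
    by_cases hp : p = a
    · subst hp
      obtain rfl := (h.leaf q).1 hpq
      rw [hyua, hyau, Lab.dual_dual]
    · by_cases hq : q = a
      · subst hq
        obtain rfl := (h.leaf p).1 hpq.symm
        rw [hyua, hyau]
      · rw [hyx p q hp hq, hyx q p hq hp]
        exact hx p q ((h.same p q hp hq).1 hpq)
  · have h1 := h.sum_eq B w y
    have h2 : ∑ v, elimW B w u a v (cnt T' y v) = ∑ v, elimW B w u a v (cnt T' x v) :=
      Finset.sum_congr rfl fun v _ => by rw [hcnt v]
    rw [hyua, hyau, h2, hcnt u, hl] at h1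
    omega

/-- The elimination of a leaf keeps the optimum (below the bound `B`). -/
theorem min_vals (B : ℕ) (w : V → (Lab → ℕ) → ℕ) :
    min B (sInf (Vals T' (elimW B w u a))) = min B (sInf (Vals T w)) := by
  apply le_antisymm
  · apply min_le_min_left
    obtain ⟨m', h1, h2⟩ := h.vals_le B w (Nat.sInf_mem (vals_nonempty T w))
    exact (Nat.sInf_le h1).trans h2
  · by_cases hB : sInf (Vals T' (elimW B w u a)) < B
    · obtain ⟨m, h1, h2⟩ := h.vals_ge B w (Nat.sInf_mem (vals_nonempty T' _)) hB
      exact min_le_min_left _ ((Nat.sInf_le h1).trans h2)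
    · rw [min_eq_left (not_lt.1 hB)]
      exact min_le_left _ _

end Leaf

/-- Without edges there is only one value. -/
theorem vals_of_no_edge {T : SimpleGraph V} (hT : ∀ a b, ¬ T.Adj a b)
    (w : V → (Lab → ℕ) → ℕ) : sInf (Vals T w) = ∑ v, w v fun _ => 0 := by
  have h0 : ∀ (x : V → V → Lab) v, cnt T x v = fun _ => 0 := by
    intro x v
    funext l
    unfold cnt
    rw [Finset.card_eq_zero, Finset.filter_eq_empty_iff]
    rintro z - ⟨h1, -⟩
    exact hT v z h1
  obtain ⟨x, -, hx⟩ := Nat.sInf_mem (vals_nonempty T w)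
  rw [← hx]
  exact Finset.sum_congr rfl fun v _ => by rw [h0 x v]

/-- The initial costs. -/
def initW (B k : ℕ) (c : Lab → ℕ) : ℕ :=
  if C (c .S) (c .O) (c .I) ≤ k then C (c .S) (c .O) (c .I) else B

theorem vals_init {T : SimpleGraph V} {B k : ℕ} (hB : ∀ x, ∑ v, CC T x v < B) :
    (sInf (Vals T fun _ => initW B k) < B ↔ (Costs T k).Nonempty) ∧
    ((Costs T k).Nonempty → sInf (Vals T fun _ => initW B k) = sInf (Costs T k)) := by
  have key : ∀ x : V → V → Lab, (∀ v, CC T x v ≤ k) →
      ∑ v, initW B k (cnt T x v) = ∑ v, CC T x v := by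
    intro x hx
    refine Finset.sum_congr rfl fun v _ => ?_
    exact if_pos (hx v)
  have key2 : ∀ x : V → V → Lab, ∑ v, initW B k (cnt T x v) < B → ∀ v, CC T x v ≤ k := by
    intro x hx v
    by_contra hv
    have h1 : initW B k (cnt T x v) = B := if_neg hv
    have h2 := Finset.single_le_sum (f := fun v => initW B k (cnt T x v))
      (fun _ _ => Nat.zero_le _) (Finset.mem_univ v)
    simp only [h1] at h2
    omega
  obtain ⟨x, hx, hxs⟩ := Nat.sInf_mem (vals_nonempty T fun _ => initW B k)
  have hle : ∀ m ∈ Costs T k, sInf (Vals T fun _ => initW B k) ≤ m := by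
    rintro m ⟨y, hy, hk, hs⟩
    apply Nat.sInf_le
    exact ⟨y, hy, by rw [key y hk, hs]⟩
  have hiff : sInf (Vals T fun _ => initW B k) < B ↔ (Costs T k).Nonempty := by
    constructor
    · intro h
      rw [← hxs] at h
      exact ⟨_, x, hx, key2 x h, rfl⟩
    · rintro ⟨m, y, hy, hk, rfl⟩
      exact lt_of_le_of_lt (hle _ ⟨y, hy, hk, rfl⟩) (hB y)
  refine ⟨hiff, fun hne => le_antisymm (hle _ (Nat.sInf_mem hne)) ?_⟩
  have h := hiff.2 hne
  rw [← hxs] at h
  rw [← hxs, key x (key2 x h)]
  exact Nat.sInf_le ⟨x, hx, key2 x h, rfl⟩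

/-- A bound for the number of groups. -/
theorem CC_le (T : SimpleGraph V) (x : V → V → Lab) (v : V) : CC T x v ≤ Fintype.card V := by
  have h1 : ∀ l, cnt T x v l ≤ Fintype.card V := fun l => Finset.card_le_univ _
  have h2 : cnt T x v .S + cnt T x v .I ≤ Fintype.card V := by
    unfold cnt
    rw [← Finset.card_union_of_disjoint]
    · exact Finset.card_le_univ _
    · rw [Finset.disjoint_left]
      intro z hz hz'
      simp only [Finset.mem_filter, Finset.mem_univ, true_and] at hz hz'
      have := hz.2.symm.trans hz'.2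
      cases this
  unfold CC C
  have h3 := h1 .O
  apply max_le h3
  omega

theorem sum_CC_lt (T : SimpleGraph V) (x : V → V → Lab) :
    ∑ v, CC T x v < Fintype.card V * Fintype.card V + 1 := by
  have : ∑ v, CC T x v ≤ ∑ _v : V, Fintype.card V := Finset.sum_le_sum fun v _ => CC_le T x v
  rw [Finset.sum_const, Finset.card_univ, smul_eq_mul] at this
  omega

theorem costs_card_nonempty (T : SimpleGraph V) : (Costs T (Fintype.card V)).Nonempty :=
  ⟨_, fun _ _ => .S, fun _ _ _ => rfl, fun v => CC_le T _ v, rfl⟩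

end Pool.Agent.H79.Bar
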