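import Pool.Agent.H79.BarCoord

/-!
# From labelings to decompositions and representations
-/

open scoped Topology Classical

namespace Pool.Agent.H79.Bar

variable {V : Type}

/-- The subgraph of a piece. -/
def Piece.sub (T : SimpleGraph V) (p : Piece V) : T.Subgraph :=
  (⊤ : T.Subgraph).induce (p.P : Set V)

theorem Piece.mem_sub (T : SimpleGraph V) (p : Piece V) (v : V) :
    v ∈ (p.sub T).verts ↔ v ∈ p.P := by
  simp [Piece.sub]

theorem Piece.sub_adj (T : SimpleGraph V) (p : Piece V) (v w : V) :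
    (p.sub T).Adj v w ↔ v ∈ p.P ∧ w ∈ p.P ∧ T.Adj v w := by
  simp [Piece.sub]

theorem Piece.Valid.to_base {T : SimpleGraph V} {x : V → V → Lab} {p : Piece V}
    (hp : p.Valid T x) (k : ℕ) : ∀ v (hv : v ∈ (p.sub T).verts), p.h v = k →
    ∃ w, ∃ hw : w ∈ (p.sub T).verts, p.c w = p.c v ∧ p.h w = 0 ∧
      (p.sub T).coe.Reachable ⟨v, hv⟩ ⟨w, hw⟩ := by
  induction k with
  | zero => intro v hv h0; exact ⟨v, hv, rfl, h0, SimpleGraph.Reachable.refl _⟩
  | succ k ih =>
    intro v hv hk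
    have hv' := (p.mem_sub T v).1 hv
    obtain ⟨u, hu, h1, h2⟩ := hp.down v hv' k hk
    have hu' := (p.mem_sub T u).2 hu
    obtain ⟨w, hw, h3, h4, h5⟩ := ih u hu' h2
    refine ⟨w, hw, h3.trans h1, h4, SimpleGraph.Reachable.trans (SimpleGraph.Adj.reachable ?_) h5⟩
    rw [SimpleGraph.Subgraph.coe_adj, p.sub_adj]
    exact ⟨hv', hu, (hp.adj v hv' u hu).2 (Or.inl ⟨h1.symm, Or.inr (by omega)⟩)⟩

theorem Piece.Valid.base_reach {T : SimpleGraph V} {x : V → V → Lab} {p : Piece V}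
    (hp : p.Valid T x) (m : ℕ) : ∀ v (hv : v ∈ (p.sub T).verts) w (hw : w ∈ (p.sub T).verts),
    p.h v = 0 → p.h w = 0 → p.c w = p.c v + m → (p.sub T).coe.Reachable ⟨v, hv⟩ ⟨w, hw⟩ := by
  induction m with
  | zero =>
    intro v hv w hw h1 h2 h3
    have h4 : v = w := hp.inj v ((p.mem_sub T v).1 hv) w ((p.mem_sub T w).1 hw)
      (by push_cast at h3; omega) (by omega)
    subst h4
    exact SimpleGraph.Reachable.refl _
  | succ m ih =>
    intro v hv w hw h1 h2 h3
    have hv' := (p.mem_sub T v).1 hv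
    have hw' := (p.mem_sub T w).1 hw
    push_cast at h3
    obtain ⟨u, hu, h4⟩ : ∃ u ∈ p.P, p.c u = p.c v + 1 := by
      rcases Nat.eq_zero_or_pos m with h5 | h5
      · exact ⟨w, hw', by rw [h3, h5]; simp⟩
      · exact hp.col v hv' w hw' _ (by omega) (by omega)
    obtain ⟨u', hu', h5, h6⟩ := hp.base hu 0 (Nat.zero_le _)
    refine SimpleGraph.Reachable.trans (SimpleGraph.Adj.reachable
      (v := ⟨u', (p.mem_sub T u').2 hu'⟩) ?_)
      (ih u' ((p.mem_sub T u').2 hu') w hw h6 h2 (by rw [h3, h5, h4]; ring))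
    rw [SimpleGraph.Subgraph.coe_adj, p.sub_adj]
    exact ⟨hv', hu', (hp.adj v hv' u' hu').2 (Or.inr ⟨h1, h6, Or.inl (by rw [h5, h4])⟩)⟩

theorem ub_eq_one {G : SimpleGraph V} {B : V → Finset (ℝ × ℝ)} (h : IsRep G 1 B) : ub G = 1 := by
  have hne : {t : ℕ | 0 < t ∧ ∃ B : V → Finset (ℝ × ℝ), IsRep G t B}.Nonempty :=
    ⟨1, one_pos, B, h⟩
  apply le_antisymm
  · exact Nat.sInf_le ⟨one_pos, B, h⟩
  · exact (Nat.sInf_mem hne).1

theorem Piece.Valid.isUBVT [Fintype V] {T : SimpleGraph V} (hT : T.IsAcyclic)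
    {x : V → V → Lab} {p : Piece V} (hp : p.Valid T x) : IsUBVT (p.sub T).coe := by
  constructor
  · obtain ⟨a, ha⟩ := hp.ne
    have : Nonempty (p.sub T).verts := ⟨⟨a, (p.mem_sub T a).2 ha⟩⟩
    refine ⟨⟨?_⟩, hT.subgraph _⟩
    rintro ⟨v, hv⟩ ⟨w, hw⟩
    obtain ⟨v', hv', h1, h2, h3⟩ := hp.to_base _ v hv rfl
    obtain ⟨w', hw', h4, h5, h6⟩ := hp.to_base _ w hw rfl
    refine h3.trans (SimpleGraph.Reachable.trans ?_ h6.symm)
    rcases le_total (p.c v') (p.c w') with h | h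
    · exact hp.base_reach (p.c w' - p.c v').toNat v' hv' w' hw' h2 h5 (by omega)
    · exact (hp.base_reach (p.c v' - p.c w').toNat w' hw' v' hv' h5 h2 (by omega)).symm
  · set pos : (p.sub T).verts → ℤ × ℕ := fun v => (p.c v, p.h v) with hpos
    have hL : Lay pos := by
      constructor
      · rintro ⟨v, hv⟩ ⟨w, hw⟩ h
        simp only [hpos, Prod.mk.injEq] at h
        exact Subtype.ext (hp.inj v ((p.mem_sub T v).1 hv) w ((p.mem_sub T w).1 hw) h.1 h.2)
      · rintro ⟨v, hv⟩ k hk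
        obtain ⟨w, hw, h1, h2⟩ := hp.down v ((p.mem_sub T v).1 hv) k hk
        exact ⟨⟨w, (p.mem_sub T w).2 hw⟩, Prod.ext h1 h2⟩
    have : Fintype (p.sub T).verts := Fintype.ofFinite _
    refine ub_eq_one (hL.isRep (t := 1) (id : (p.sub T).verts → (p.sub T).verts) ?_ ?_)
    · intro v
      simp only [id, Finset.filter_eq', Finset.mem_univ, if_true, Finset.card_singleton, le_refl]
    · rintro ⟨v, hv⟩ ⟨w, hw⟩ -
      rw [SimpleGraph.Subgraph.coe_adj, p.sub_adj]
      have hv' := (p.mem_sub T v).1 hv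
      have hw' := (p.mem_sub T w).1 hw
      constructor
      · rintro ⟨-, -, h⟩
        exact ⟨⟨v, hv⟩, ⟨w, hw⟩, rfl, rfl, (hp.adj v hv' w hw').1 h⟩
      · rintro ⟨j, j', rfl, rfl, h⟩
        exact ⟨hv', hw', (hp.adj v hv' w hw').2 h⟩

/-- Every vertex lies in at most `CC` pieces. -/
theorem Fam.card_le [Fintype V] {T : SimpleGraph V} {x : V → V → Lab} {γ : V → V → ℕ} {ι : Type}
    [Fintype ι] {p : ι → Piece V} (hF : Fam T x γ p) (hγ : ∀ v w, T.Adj v w → γ v w < CC T x v)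
    (v : V) : Nat.card {i // v ∈ (p i).P} ≤ CC T x v := by
  rw [Nat.card_eq_fintype_card, Fintype.card_subtype]
  set g : ι → ℕ := fun i => if h : v ∈ (p i).P then γ v ((hF.valid i).nbr v h).choose else 0
    with hg
  rw [← Finset.card_range (CC T x v)]
  have hsp : ∀ i, ∀ h : v ∈ (p i).P, ∃ w ∈ (p i).P, T.Adj v w ∧ g i = γ v w := by
    intro i h
    obtain ⟨h1, h2⟩ := ((hF.valid i).nbr v h).choose_spec
    exact ⟨_, h1, h2, by simp only [hg, dif_pos h]⟩
  refine Finset.card_le_card_of_injOn g ?_ ?_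
  · intro i hi
    have hi' : v ∈ (p i).P := by simpa using hi
    obtain ⟨w, h1, h2, h3⟩ := hsp i hi'
    rw [Finset.coe_range, Set.mem_Iio, h3]
    exact hγ v w h2
  · intro i hi j hj hij
    have hi' : v ∈ (p i).P := by simpa using hi
    have hj' : v ∈ (p j).P := by simpa using hj
    obtain ⟨w, h1, h2, h3⟩ := hsp i hi'
    obtain ⟨w', h4, h5, h6⟩ := hsp j hj'
    have h7 : w' ∈ (p i).P := (hF.grp i v w w' hi' h1 h2 h5).2 (by rw [← h3, ← h6, hij])
    exact (hF.edge v w' h5).unique ⟨hi', h7⟩ ⟨hj', h4⟩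

theorem exists_decomp [Fintype V] [LinearOrder V] {T : SimpleGraph V} (hT : T.IsAcyclic)
    {x : V → V → Lab} (hx : ∀ v w, T.Adj v w → x w v = (x v w).dual) :
    ∃ (l : ℕ) (D : Fin l → T.Subgraph), IsDecomp T D ∧ ∀ v, load D v ≤ CC T x v := by
  obtain ⟨γ, hg, hγ⟩ := exists_grp T x hx
  obtain ⟨ι, hι, p, hF⟩ := exists_fam _ T hT rfl x γ hg
  refine ⟨Fintype.card ι, fun i => (p ((Fintype.equivFin ι).symm i)).sub T, ⟨?_, ?_, ?_⟩, ?_⟩
  · intro i
    exact (hF.valid _).isUBVT hT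
  · intro i
    obtain ⟨v, hv⟩ := (hF.valid ((Fintype.equivFin ι).symm i)).ne
    obtain ⟨w, hw, hvw⟩ := (hF.valid ((Fintype.equivFin ι).symm i)).nbr v hv
    refine ⟨s(v, w), ?_⟩
    rw [SimpleGraph.Subgraph.mem_edgeSet, Piece.sub_adj]
    exact ⟨hv, hw, hvw⟩
  · intro e he
    induction e using Sym2.ind with
    | _ v w =>
      have hvw : T.Adj v w := he
      obtain ⟨i, hi, hu⟩ := hF.edge v w hvw
      refine ⟨Fintype.equivFin ι i, ?_, ?_⟩
      · simp only [SimpleGraph.Subgraph.mem_edgeSet, Piece.sub_adj, Equiv.symm_apply_apply]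
        exact ⟨hi.1, hi.2, hvw⟩
      · intro j hj
        simp only [SimpleGraph.Subgraph.mem_edgeSet, Piece.sub_adj] at hj
        rw [← hu _ ⟨hj.1, hj.2.1⟩, Equiv.apply_symm_apply]
  · intro v
    refine le_trans (le_of_eq ?_) (hF.card_le hγ v)
    refine Nat.card_congr (Equiv.subtypeEquiv (Fintype.equivFin ι).symm fun i => ?_)
    exact Piece.mem_sub T _ v

theorem exists_rep [Fintype V] [LinearOrder V] {T : SimpleGraph V} (hT : T.IsAcyclic)
    {x : V → V → Lab} (hx : ∀ v w, T.Adj v w → x w v = (x v w).dual) {k : ℕ}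
    (hk : ∀ v, CC T x v ≤ k) : ∃ B : V → Finset (ℝ × ℝ), IsRep T k B := by
  obtain ⟨γ, hg, hγ⟩ := exists_grp T x hx
  obtain ⟨ι, hι, p, hF⟩ := exists_fam _ T hT rfl x γ hg
  -- a bound for the columns
  obtain ⟨M, hM⟩ : ∃ M : ℤ, ∀ i v, |(p i).c v| ≤ M := by
    refine ⟨∑ z : ι × V, |(p z.1).c z.2|, fun i v => ?_⟩
    exact Finset.single_le_sum (f := fun z : ι × V => |(p z.1).c z.2|) (fun z _ => abs_nonneg _)
      (Finset.mem_univ (i, v))
  set e := Fintype.equivFin ι with he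
  set off : ι → ℤ := fun i => ((e i : ℕ) : ℤ) * (2 * M + 2) with hoff
  have hsep : ∀ i j v w, i ≠ j → (p i).c v + off i + 2 ≤ (p j).c w + off j ∨
      (p j).c w + off j + 2 ≤ (p i).c v + off i := by
    intro i j v w hij
    have h1 := abs_le.1 (hM i v)
    have h2 := abs_le.1 (hM j w)
    have h3 : (e i : ℕ) ≠ (e j : ℕ) := fun h => hij (e.injective (Fin.ext h))
    have hM0 : 0 ≤ M := (abs_nonneg _).trans (hM i v)
    rcases lt_or_gt_of_ne h3 with h4 | h4
    · left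
      have h5 : ((e i : ℕ) : ℤ) + 1 ≤ ((e j : ℕ) : ℤ) := by exact_mod_cast h4
      have h6 : off i + (2 * M + 2) ≤ off j := by
        simp only [hoff]
        nlinarith
      linarith
    · right
      have h5 : ((e j : ℕ) : ℤ) + 1 ≤ ((e i : ℕ) : ℤ) := by exact_mod_cast h4
      have h6 : off j + (2 * M + 2) ≤ off i := by
        simp only [hoff]
        nlinarith
      linarith
  set pos : (Σ i, (p i).P) → ℤ × ℕ := fun z => ((p z.1).c z.2 + off z.1, (p z.1).h z.2) with hpos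
  have hL : Lay pos := by
    constructor
    · rintro ⟨i, v, hv⟩ ⟨j, w, hw⟩ h
      simp only [hpos, Prod.mk.injEq] at h
      by_cases hij : i = j
      · subst hij
        have : v = w := (hF.valid i).inj v hv w hw (by omega) h.2
        subst this
        rfl
      · rcases hsep i j v w hij with h1 | h1 <;> omega
    · rintro ⟨i, v, hv⟩ k hk
      obtain ⟨w, hw, h1, h2⟩ := (hF.valid i).down v hv k hk
      refine ⟨⟨i, w, hw⟩, Prod.ext ?_ h2⟩
      simp only [hpos, h1]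
  refine ⟨_, hL.isRep (own := fun z => (z.2 : V)) ?_ ?_⟩
  · intro v
    refine le_trans ?_ ((hF.card_le hγ v).trans (hk v))
    rw [← Fintype.card_subtype, ← Nat.card_eq_fintype_card]
    refine Nat.card_le_card_of_injective
      (fun z => ⟨z.1.1, by have h := z.1.2.2; rw [z.2] at h; exact h⟩) ?_
    rintro ⟨⟨i, w, hw⟩, hz⟩ ⟨⟨j, w', hw'⟩, hz'⟩ hij
    simp only [Subtype.mk.injEq] at hz hz' hij
    subst hij
    subst hz
    subst hz'
    rfl
  · intro v w hvw
    constructor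
    · intro hadj
      obtain ⟨i, ⟨h1, h2⟩, -⟩ := hF.edge v w hadj
      refine ⟨⟨i, v, h1⟩, ⟨i, w, h2⟩, rfl, rfl, ?_⟩
      have := ((hF.valid i).adj v h1 w h2).1 hadj
      simp only [hpos]
      unfold CatAdj at this ⊢
      omega
    · rintro ⟨⟨i, a, ha⟩, ⟨j, b, hb⟩, rfl, rfl, h⟩
      simp only [hpos] at h
      simp only
      by_cases hij : i = j
      · subst hij
        refine ((hF.valid i).adj a ha b hb).2 ?_
        unfold CatAdj at h ⊢
        omega
      · exfalso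
        have h1 := hsep i j a b hij
        unfold CatAdj at h
        omega

end Pool.Agent.H79.Bar
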