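import Mathlib
import Pool.Agent.PPS.Defs

/-!
# Unit bar visibility representations, decompositions of trees, and the input coding
-/

namespace Pool.Agent.H79.Bar

/-- The bar (horizontal unit segment in the plane) with left endpoint `p`. -/
def seg (p : ℝ × ℝ) : Set (ℝ × ℝ) := {z | p.1 ≤ z.1 ∧ z.1 ≤ p.1 + 1 ∧ z.2 = p.2}

/-- The bars with left endpoints `p` and `q` are joined by a vertical channel `[a, b] × [p.2, q.2]`
of positive width that meets no other bar with left endpoint in `S`. -/
def Sees (S : Set (ℝ × ℝ)) (p q : ℝ × ℝ) : Prop :=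
  ∃ a b : ℝ, a < b ∧ (∀ x ∈ Set.Icc a b, (x, p.2) ∈ seg p ∧ (x, q.2) ∈ seg q) ∧
    ∀ r ∈ S, r ≠ p → r ≠ q → Disjoint (seg r) (Set.Icc a b ×ˢ Set.uIcc p.2 q.2)

/-- `B` is a `t`-unit-bar visibility representation of the graph `G`: every vertex `v` gets the set
of at most `t` bars with left endpoints in `B v`, all bars are pairwise disjoint, and two different
vertices are adjacent if and only if some bar of the one and some bar of the other see each
other. -/
structure IsRep {V : Type} (G : SimpleGraph V) (t : ℕ) (B : V → Finset (ℝ × ℝ)) : Prop where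
  card_le : ∀ v, (B v).card ≤ t
  disj : ∀ v w, ∀ p ∈ B v, ∀ q ∈ B w, (v, p) ≠ (w, q) → Disjoint (seg p) (seg q)
  adj_iff : ∀ v w, v ≠ w → (G.Adj v w ↔ ∃ p ∈ B v, ∃ q ∈ B w, Sees (⋃ u, (B u : Set (ℝ × ℝ))) p q)

/-- The unit bar visibility number. -/
noncomputable def ub {V : Type} (G : SimpleGraph V) : ℕ :=
  sInf {t : ℕ | 0 < t ∧ ∃ B : V → Finset (ℝ × ℝ), IsRep G t B}

/-- A tree that is a unit bar visibility graph. -/
def IsUBVT {V : Type} (G : SimpleGraph V) : Prop := G.IsTree ∧ ub G = 1

/-- `D` is a decomposition of `T` into `l` subtrees, each a unit bar visibility tree with at least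
one edge, whose edge sets partition the edge set of `T`. -/
structure IsDecomp {V : Type} (T : SimpleGraph V) {l : ℕ} (D : Fin l → T.Subgraph) : Prop where
  ubvt : ∀ i, IsUBVT (D i).coe
  nonempty : ∀ i, (D i).edgeSet.Nonempty
  part : ∀ e ∈ T.edgeSet, ∃! i, e ∈ (D i).edgeSet

/-- The number of pieces of `D` in which the vertex `v` lies. -/
noncomputable def load {V : Type} {T : SimpleGraph V} {l : ℕ} (D : Fin l → T.Subgraph) (v : V) :
    ℕ :=
  Nat.card {i : Fin l // v ∈ (D i).verts}

/-- The minimum size of a decomposition of `T` into unit bar visibility trees in which every vertex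
lies in at most `ub T` pieces. -/
noncomputable def minSize {V : Type} (T : SimpleGraph V) : ℕ :=
  sInf {l : ℕ | ∃ D : Fin l → T.Subgraph, IsDecomp T D ∧ ∀ v, load D v ≤ ub T}

/-- The graph on the vertices `0, …, n - 1` with edge list `E`. -/
def graph (n : ℕ) (E : List (ℕ × ℕ)) : SimpleGraph (Fin n) where
  Adj i j := i ≠ j ∧ (((i : ℕ), (j : ℕ)) ∈ E ∨ ((j : ℕ), (i : ℕ)) ∈ E)
  symm := ⟨fun _ _ h => ⟨h.1.symm, h.2.symm⟩⟩
  loopless := ⟨fun _ h => h.1 rfl⟩

/-- The word `1^n 0` followed by `1^a 0 1^b 0` for the pairs `(a, b)` of the list `E`. -/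
def input (n : ℕ) (E : List (ℕ × ℕ)) : List Bool :=
  List.replicate n true ++ false :: E.flatMap fun e =>
    List.replicate e.1 true ++ false :: (List.replicate e.2 true ++ [false])

end Pool.Agent.H79.Bar
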