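import Pool.Agent.H79.BarPieces

/-!
# From labelings to pieces: the induction
-/

open scoped Topology Classical

namespace Pool.Agent.H79.Bar

variable {V : Type}

/-- The data for adding the leaf `v` (with neighbour `w`) to a piece. -/
structure Setup (T T' : SimpleGraph V) (x : V → V → Lab) (v w : V) : Prop where
  leaf : ∀ u, T.Adj v u ↔ u = w
  leaf' : ∀ u, ¬ T'.Adj v u
  same : ∀ a b, a ≠ v → b ≠ v → (T.Adj a b ↔ T'.Adj a b)
  dual : x v w = (x w v).dual

theorem Setup.ne {T T' : SimpleGraph V} {x : V → V → Lab} {v w : V} (h : Setup T T' x v w) :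
    v ≠ w := ((h.leaf w).2 rfl).ne

theorem Setup.not_mem {T T' : SimpleGraph V} {x : V → V → Lab} {v w : V} (h : Setup T T' x v w)
    {p : Piece V} (hp : p.Valid T' x) : v ∉ p.P := by
  intro hv
  obtain ⟨u, -, hu⟩ := hp.nbr v hv
  exact h.leaf' u hu

theorem Setup.valid {T T' : SimpleGraph V} {x : V → V → Lab} {v w : V} (h : Setup T T' x v w)
    {p : Piece V} (hp : p.Valid T' x) : p.Valid T x := by
  have hv := h.not_mem hp
  have hs : ∀ a ∈ p.P, ∀ b ∈ p.P, (T.Adj a b ↔ T'.Adj a b) := fun a ha b hb =>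
    h.same a b (fun e => hv (e ▸ ha)) (fun e => hv (e ▸ hb))
  refine ⟨hp.inj, hp.down, hp.col, ?_, ?_, ?_, ?_, hp.ne⟩
  · intro a ha b hb
    rw [hs a ha b hb]
    exact hp.adj a ha b hb
  · intro a ha b hb hab
    exact hp.labO a ha b hb ((hs a ha b hb).1 hab)
  · intro a ha b hb hab
    exact hp.labI a ha b hb ((hs a ha b hb).1 hab)
  · intro a ha
    obtain ⟨b, hb, hab⟩ := hp.nbr a ha
    exact ⟨b, hb, (hs a ha b hb).2 hab⟩

/-- Extending a piece by a leaf. -/
theorem Setup.extend {T T' : SimpleGraph V} {x : V → V → Lab} {v w : V} (h : Setup T T' x v w)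
    {p q : Piece V} (hp : p.Valid T' x) (hw : w ∈ p.P) (hP : q.P = insert v p.P) (δ : ℕ)
    (hc : ∀ a ∈ p.P, q.c a = p.c a) (hh : ∀ a ∈ p.P, q.h a = p.h a + δ)
    (hcat : ∀ a ∈ p.P, ∀ b ∈ p.P, (CatAdj (q.c a) (q.h a) (q.c b) (q.h b) ↔
      CatAdj (p.c a) (p.h a) (p.c b) (p.h b)))
    (hcv : ∀ b ∈ p.P, CatAdj (q.c v) (q.h v) (q.c b) (q.h b) ↔ b = w)
    (hfree : ∀ a ∈ p.P, q.c a = q.c v → q.h a = q.h v → False)
    (hdown : ∀ a ∈ q.P, ∀ k, q.h a = k + 1 → ∃ b ∈ q.P, q.c b = q.c a ∧ q.h b = k)
    (hcol : ∀ a ∈ q.P, ∀ b ∈ q.P, ∀ c', q.c a < c' → c' < q.c b → ∃ u ∈ q.P, q.c u = c')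
    (hO : x w v = .O ↔ q.h v = q.h w + 1) (hI : x w v = .I ↔ q.h w = q.h v + 1) :
    q.Valid T x := by
  have hv := h.not_mem hp
  have hne : ∀ a ∈ p.P, a ≠ v := fun a ha e => hv (e ▸ ha)
  have hs : ∀ a ∈ p.P, ∀ b ∈ p.P, (T.Adj a b ↔ T'.Adj a b) := fun a ha b hb =>
    h.same a b (hne a ha) (hne b hb)
  have hO' : x v w = .O ↔ q.h w = q.h v + 1 := by
    rw [← hI, h.dual]
    cases x w v <;> simp [Lab.dual]
  have hI' : x v w = .I ↔ q.h v = q.h w + 1 := by
    rw [← hO, h.dual]
    cases x w v <;> simp [Lab.dual]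
  have hsymm : ∀ a, T.Adj a v ↔ a = w := fun a => by rw [T.adj_comm]; exact h.leaf a
  have hnotC : ¬ CatAdj (q.c v) (q.h v) (q.c v) (q.h v) := by
    rintro (⟨-, h1 | h1⟩ | ⟨-, -, h1 | h1⟩) <;> omega
  refine ⟨?_, hdown, hcol, ?_, ?_, ?_, ?_, ?_⟩
  · intro a ha b hb e1 e2
    rw [hP, Finset.mem_insert] at ha hb
    rcases ha with rfl | ha <;> rcases hb with rfl | hb
    · rfl
    · exact (hfree b hb e1.symm e2.symm).elim
    · exact (hfree a ha e1 e2).elim
    · rw [hc a ha, hc b hb] at e1
      rw [hh a ha, hh b hb] at e2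
      exact hp.inj a ha b hb e1 (by omega)
  · intro a ha b hb
    rw [hP, Finset.mem_insert] at ha hb
    rcases ha with rfl | ha <;> rcases hb with rfl | hb
    · simp [hnotC]
    · rw [h.leaf b, hcv b hb]
    · rw [hsymm a, ← hcv a ha]
      exact ⟨CatAdj.symm, CatAdj.symm⟩
    · rw [hs a ha b hb, hcat a ha b hb]
      exact hp.adj a ha b hb
  · intro a ha b hb hab
    rw [hP, Finset.mem_insert] at ha hb
    rcases ha with rfl | ha <;> rcases hb with rfl | hb
    · simp at hab
    · rw [h.leaf b] at hab; subst hab; exact hO'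
    · rw [hsymm a] at hab; subst hab; exact hO
    · rw [hp.labO a ha b hb ((hs a ha b hb).1 hab), hh a ha, hh b hb]
      constructor <;> intro <;> omega
  · intro a ha b hb hab
    rw [hP, Finset.mem_insert] at ha hb
    rcases ha with rfl | ha <;> rcases hb with rfl | hb
    · simp at hab
    · rw [h.leaf b] at hab; subst hab; exact hI'
    · rw [hsymm a] at hab; subst hab; exact hI
    · rw [hp.labI a ha b hb ((hs a ha b hb).1 hab), hh a ha, hh b hb]
      constructor <;> intro <;> omega
  · intro a ha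
    rw [hP, Finset.mem_insert] at ha
    rcases ha with rfl | ha
    · exact ⟨w, by rw [hP]; exact Finset.mem_insert_of_mem hw, (h.leaf w).2 rfl⟩
    · obtain ⟨b, hb, hab⟩ := hp.nbr a ha
      exact ⟨b, by rw [hP]; exact Finset.mem_insert_of_mem hb, (hs a ha b hb).2 hab⟩
  · exact ⟨v, by rw [hP]; exact Finset.mem_insert_self _ _⟩

/-- Adding a leaf to a piece whose edges at `w` are in the group of the leaf. -/
theorem Setup.join {T T' : SimpleGraph V} {x : V → V → Lab} {v w : V} (h : Setup T T' x v w)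
    {γ : V → V → ℕ} (hg : Grp T x γ) {p : Piece V} (hp : p.Valid T' x) (hw : w ∈ p.P)
    (hgr : ∀ u ∈ p.P, T'.Adj w u → γ w v = γ w u) :
    ∃ q : Piece V, q.P = insert v p.P ∧ q.Valid T x := by
  have hv := h.not_mem hp
  have hne : ∀ a ∈ p.P, a ≠ v := fun a ha e => hv (e ▸ ha)
  have hs : ∀ a ∈ p.P, ∀ b ∈ p.P, (T.Adj a b ↔ T'.Adj a b) := fun a ha b hb =>
    h.same a b (hne a ha) (hne b hb)
  have hwv : T.Adj w v := ((h.leaf w).2 rfl).symm
  have hbelow : ∀ k, p.h w = k + 1 → ∃ u ∈ p.P, T'.Adj w u ∧ x w u = .I := by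
    intro k hk
    obtain ⟨u, hu, h1, h2⟩ := hp.down w hw k hk
    have h3 : T'.Adj w u := (hp.adj w hw u hu).2 (Or.inl ⟨h1.symm, Or.inr (by omega)⟩)
    exact ⟨u, hu, h3, (hp.labI w hw u hu h3).2 (by omega)⟩
  have hside : p.h w = 0 → ∀ σ : ℤ, (σ = 1 ∨ σ = -1) → (∃ u ∈ p.P, p.c u = p.c w + σ) →
      ∃ u ∈ p.P, T'.Adj w u ∧ x w u = .S ∧ p.c u = p.c w + σ := by
    intro h0 σ hσ ⟨u, hu, h1⟩
    obtain ⟨u', hu', h2, h3⟩ := hp.base hu 0 (by omega)
    have h4 : T'.Adj w u' := (hp.adj w hw u' hu').2 (Or.inr ⟨h0, h3, by omega⟩)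
    refine ⟨u', hu', h4, ?_, by omega⟩
    have h5 := hp.labO w hw u' hu' h4
    have h6 := hp.labI w hw u' hu' h4
    cases e : x w u'
    · rfl
    · have := h5.1 e; omega
    · have := h6.1 e; omega
  cases e : x w v with
  | S =>
    have h0 : p.h w = 0 := by
      rcases Nat.eq_zero_or_pos (p.h w) with h0 | h0
      · exact h0
      · obtain ⟨u, hu, h1, h2⟩ := hbelow (p.h w - 1) (by omega)
        exact (hg.is w u v ((hs w hw u hu).2 h1) hwv (hgr u hu h1).symm h2 e).elim
    obtain ⟨σ, hσ, hempty⟩ : ∃ σ : ℤ, (σ = 1 ∨ σ = -1) ∧ ∀ u ∈ p.P, p.c u ≠ p.c w + σ := by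
      by_contra hcon
      push Not at hcon
      obtain ⟨u, hu, h1, h2, h3⟩ := hside h0 1 (Or.inl rfl) (hcon 1 (Or.inl rfl))
      obtain ⟨u', hu', h1', h2', h3'⟩ := hside h0 (-1) (Or.inr rfl) (hcon (-1) (Or.inr rfl))
      rcases hg.sss w v u u' hwv ((hs w hw u hu).2 h1) ((hs w hw u' hu').2 h1') (hgr u hu h1)
        (hgr u' hu' h1') e h2 h2' with h4 | h4 | h4
      · exact hne u hu h4.symm
      · exact hne u' hu' h4.symm
      · rw [h4] at h3; omega
    set q : Piece V := ⟨insert v p.P, fun a => if a = v then p.c w + σ else p.c a,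
      fun a => if a = v then 0 else p.h a⟩ with hq
    have qc : ∀ a ∈ p.P, q.c a = p.c a := fun a ha => by simp [hq, hne a ha]
    have qh : ∀ a ∈ p.P, q.h a = p.h a := fun a ha => by simp [hq, hne a ha]
    have qcv : q.c v = p.c w + σ := by simp [hq]
    have qhv : q.h v = 0 := by simp [hq]
    have qP : q.P = insert v p.P := rfl
    refine ⟨q, rfl, h.extend hp hw rfl 0 qc (fun a ha => by rw [qh a ha]; rfl) ?_ ?_ ?_ ?_ ?_ ?_ ?_⟩
    · intro a ha b hb
      rw [qc a ha, qc b hb, qh a ha, qh b hb]
    · intro b hb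
      rw [qc b hb, qh b hb, qcv, qhv]
      constructor
      · rintro (⟨h1, -⟩ | ⟨-, h2, h3⟩)
        · exact (hempty b hb h1.symm).elim
        · by_cases h4 : p.c b = p.c w
          · exact hp.inj b hb w hw h4 (by omega)
          · exfalso
            have h5 : p.c b = p.c w + 2 * σ := by omega
            rcases hσ with rfl | rfl
            · obtain ⟨u, hu, h6⟩ := hp.col w hw b hb (p.c w + 1) (by omega) (by omega)
              exact hempty u hu h6
            · obtain ⟨u, hu, h6⟩ := hp.col b hb w hw (p.c w + -1) (by omega) (by omega)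
              exact hempty u hu h6
      · rintro rfl
        exact Or.inr ⟨rfl, h0, by omega⟩
    · intro a ha h1 _
      rw [qc a ha, qcv] at h1
      exact hempty a ha h1
    · intro a ha k hk
      rw [qP, Finset.mem_insert] at ha
      rcases ha with rfl | ha
      · rw [qhv] at hk; omega
      · rw [qh a ha] at hk
        obtain ⟨u, hu, h1, h2⟩ := hp.down a ha k hk
        exact ⟨u, by rw [qP]; exact Finset.mem_insert_of_mem hu, by rw [qc u hu, qc a ha, h1],
          by rw [qh u hu, h2]⟩
    · intro a ha b hb c' h1 h2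
      have key : ∀ c', (∃ u ∈ p.P, p.c u = c') → ∃ u ∈ q.P, q.c u = c' := by
        rintro c' ⟨u, hu, h3⟩
        exact ⟨u, by rw [qP]; exact Finset.mem_insert_of_mem hu, by rw [qc u hu, h3]⟩
      rw [qP, Finset.mem_insert] at ha hb
      rcases ha with rfl | ha <;> rcases hb with rfl | hb
      · omega
      · rw [qcv] at h1
        rw [qc b hb] at h2
        by_cases h3 : c' = p.c w
        · exact key _ ⟨w, hw, h3.symm⟩
        · exact key _ (hp.col w hw b hb c' (by omega) h2)
      · rw [qcv] at h2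
        rw [qc a ha] at h1
        by_cases h3 : c' = p.c w
        · exact key _ ⟨w, hw, h3.symm⟩
        · exact key _ (hp.col a ha w hw c' h1 (by omega))
      · rw [qc a ha] at h1
        rw [qc b hb] at h2
        exact key _ (hp.col a ha b hb c' h1 h2)
    · rw [e, qhv]
      constructor
      · intro h1; cases h1
      · intro h1; omega
    · rw [e, qhv, qh w hw, h0]
      constructor
      · intro h1; cases h1
      · intro h1; omega
  | O =>
    have habove : ∀ a ∈ p.P, p.c a = p.c w → p.h a ≤ p.h w := by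
      intro a ha h1
      by_contra h2
      push Not at h2
      obtain ⟨u, hu, h3, h4⟩ := hp.base ha (p.h w + 1) (by omega)
      have h5 : T'.Adj w u := (hp.adj w hw u hu).2 (Or.inl ⟨by omega, Or.inl h4⟩)
      exact hne u hu (hg.oo w u v ((hs w hw u hu).2 h5) hwv (hgr u hu h5).symm
        ((hp.labO w hw u hu h5).2 h4) e)
    set q : Piece V := ⟨insert v p.P, fun a => if a = v then p.c w else p.c a,
      fun a => if a = v then p.h w + 1 else p.h a⟩ with hq
    have qc : ∀ a ∈ p.P, q.c a = p.c a := fun a ha => by simp [hq, hne a ha]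
    have qh : ∀ a ∈ p.P, q.h a = p.h a := fun a ha => by simp [hq, hne a ha]
    have qcv : q.c v = p.c w := by simp [hq]
    have qhv : q.h v = p.h w + 1 := by simp [hq]
    have qP : q.P = insert v p.P := rfl
    refine ⟨q, rfl, h.extend hp hw rfl 0 qc (fun a ha => by rw [qh a ha]; rfl) ?_ ?_ ?_ ?_ ?_ ?_ ?_⟩
    · intro a ha b hb
      rw [qc a ha, qc b hb, qh a ha, qh b hb]
    · intro b hb
      rw [qc b hb, qh b hb, qcv, qhv]
      constructor
      · rintro (⟨h1, h2 | h2⟩ | ⟨h1, -⟩)
        · have := habove b hb h1.symm; omega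
        · exact hp.inj b hb w hw h1.symm (by omega)
        · omega
      · rintro rfl
        exact Or.inl ⟨rfl, Or.inr rfl⟩
    · intro a ha h1 h2
      rw [qc a ha, qcv] at h1
      rw [qh a ha, qhv] at h2
      have := habove a ha h1
      omega
    · intro a ha k hk
      rw [qP, Finset.mem_insert] at ha
      rcases ha with rfl | ha
      · rw [qhv] at hk
        exact ⟨w, by rw [qP]; exact Finset.mem_insert_of_mem hw, by rw [qc w hw, qcv],
          by rw [qh w hw]; omega⟩
      · rw [qh a ha] at hk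
        obtain ⟨u, hu, h1, h2⟩ := hp.down a ha k hk
        exact ⟨u, by rw [qP]; exact Finset.mem_insert_of_mem hu, by rw [qc u hu, qc a ha, h1],
          by rw [qh u hu, h2]⟩
    · intro a ha b hb c' h1 h2
      have key : ∀ c', (∃ u ∈ p.P, p.c u = c') → ∃ u ∈ q.P, q.c u = c' := by
        rintro c' ⟨u, hu, h3⟩
        exact ⟨u, by rw [qP]; exact Finset.mem_insert_of_mem hu, by rw [qc u hu, h3]⟩
      have key2 : ∀ a ∈ q.P, ∃ a' ∈ p.P, p.c a' = q.c a := by
        intro a ha
        rw [qP, Finset.mem_insert] at ha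
        rcases ha with rfl | ha
        · exact ⟨w, hw, qcv.symm⟩
        · exact ⟨a, ha, (qc a ha).symm⟩
      obtain ⟨a', ha', h3⟩ := key2 a ha
      obtain ⟨b', hb', h4⟩ := key2 b hb
      exact key _ (hp.col a' ha' b' hb' c' (by omega) (by omega))
    · rw [e, qhv, qh w hw]
      simp
    · rw [e, qhv, qh w hw]
      constructor
      · intro h1; cases h1
      · intro h1; omega
  | I =>
    have h0 : p.h w = 0 := by
      rcases Nat.eq_zero_or_pos (p.h w) with h0 | h0
      · exact h0
      · obtain ⟨u, hu, h1, h2⟩ := hbelow (p.h w - 1) (by omega)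
        exact (hne u hu (hg.ii w u v ((hs w hw u hu).2 h1) hwv (hgr u hu h1).symm h2 e)).elim
    have hempty : ∀ σ : ℤ, (σ = 1 ∨ σ = -1) → ∀ u ∈ p.P, p.c u ≠ p.c w + σ := by
      intro σ hσ u hu h1
      obtain ⟨u', hu', h2, h3, -⟩ := hside h0 σ hσ ⟨u, hu, h1⟩
      exact hg.is w v u' hwv ((hs w hw u' hu').2 h2) (hgr u' hu' h2) e h3
    have hcw : ∀ a ∈ p.P, p.c a = p.c w := by
      intro a ha
      rcases lt_trichotomy (p.c a) (p.c w) with h1 | h1 | h1
      · exfalso
        by_cases h2 : p.c a = p.c w + -1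
        · exact hempty (-1) (Or.inr rfl) a ha h2
        · obtain ⟨u, hu, h3⟩ := hp.col a ha w hw (p.c w + -1) (by omega) (by omega)
          exact hempty (-1) (Or.inr rfl) u hu h3
      · exact h1
      · exfalso
        by_cases h2 : p.c a = p.c w + 1
        · exact hempty 1 (Or.inl rfl) a ha h2
        · obtain ⟨u, hu, h3⟩ := hp.col w hw a ha (p.c w + 1) (by omega) (by omega)
          exact hempty 1 (Or.inl rfl) u hu h3
    set q : Piece V := ⟨insert v p.P, fun a => if a = v then p.c w else p.c a,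
      fun a => if a = v then 0 else p.h a + 1⟩ with hq
    have qc : ∀ a ∈ p.P, q.c a = p.c a := fun a ha => by simp [hq, hne a ha]
    have qh : ∀ a ∈ p.P, q.h a = p.h a + 1 := fun a ha => by simp [hq, hne a ha]
    have qcv : q.c v = p.c w := by simp [hq]
    have qhv : q.h v = 0 := by simp [hq]
    have qP : q.P = insert v p.P := rfl
    have qcw : ∀ a ∈ q.P, q.c a = p.c w := by
      intro a ha
      rw [qP, Finset.mem_insert] at ha
      rcases ha with rfl | ha
      · exact qcv
      · rw [qc a ha, hcw a ha]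
    refine ⟨q, rfl, h.extend hp hw rfl 1 qc qh ?_ ?_ ?_ ?_ ?_ ?_ ?_⟩
    · intro a ha b hb
      rw [qc a ha, qc b hb, qh a ha, qh b hb, hcw a ha, hcw b hb]
      unfold CatAdj
      omega
    · intro b hb
      rw [qc b hb, qh b hb, qcv, qhv]
      constructor
      · rintro (⟨h1, h2 | h2⟩ | ⟨-, h1, -⟩)
        · exact hp.inj b hb w hw h1.symm (by omega)
        · omega
        · omega
      · rintro rfl
        exact Or.inl ⟨rfl, Or.inl (by omega)⟩
    · intro a ha h1 h2
      rw [qh a ha, qhv] at h2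
      omega
    · intro a ha k hk
      have ha' := qcw a ha
      rw [qP, Finset.mem_insert] at ha
      rcases ha with rfl | ha
      · rw [qhv] at hk; omega
      · rw [qh a ha] at hk
        rcases Nat.eq_zero_or_pos k with rfl | hk0
        · exact ⟨v, by rw [qP]; exact Finset.mem_insert_self _ _, by rw [qcv, ha'], qhv⟩
        · obtain ⟨u, hu, h1, h2⟩ := hp.down a ha (k - 1) (by omega)
          exact ⟨u, by rw [qP]; exact Finset.mem_insert_of_mem hu, by rw [qc u hu, qc a ha, h1],
            by rw [qh u hu]; omega⟩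
    · intro a ha b hb c' h1 h2
      rw [qcw a ha] at h1
      rw [qcw b hb] at h2
      omega
    · rw [e, qhv, qh w hw]
      constructor
      · intro h1; cases h1
      · intro h1; omega
    · rw [e, qhv, qh w hw]
      simp [h0]

/-- A new piece consisting of one edge. -/
theorem Setup.single {T T' : SimpleGraph V} {x : V → V → Lab} {v w : V} (h : Setup T T' x v w) :
    ∃ q : Piece V, q.P = {v, w} ∧ q.Valid T x := by
  have hvw : v ≠ w := h.ne
  have hAd : T.Adj v w := (h.leaf w).2 rfl
  have hdual := h.dual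
  have main : ∀ (cw cv : ℤ) (hw hv : ℕ), CatAdj cv hv cw hw →
      (cv = cw → hv = 0 ∨ hw = 0) → (cv = cw ∨ (hv = 0 ∧ hw = 0)) →
      (x v w = .O ↔ hw = hv + 1) → (x v w = .I ↔ hv = hw + 1) →
      ∃ q : Piece V, q.P = {v, w} ∧ q.Valid T x := by
    intro cw cv hw hv hcat h1 h2 hO hI
    have hO' : x w v = .O ↔ hv = hw + 1 := by
      rw [← hI, hdual]; cases x w v <;> simp [Lab.dual]
    have hI' : x w v = .I ↔ hw = hv + 1 := by
      rw [← hO, hdual]; cases x w v <;> simp [Lab.dual]
    set q : Piece V := ⟨{v, w}, fun a => if a = v then cv else cw,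
      fun a => if a = v then hv else hw⟩ with hq
    have qcv : q.c v = cv := by simp [hq]
    have qcw : q.c w = cw := by simp [hq, hvw.symm]
    have qhv : q.h v = hv := by simp [hq]
    have qhw : q.h w = hw := by simp [hq, hvw.symm]
    have hmem : ∀ a, a ∈ q.P ↔ a = v ∨ a = w := by intro a; simp [hq]
    have hcat' : (cv = cw ∧ (hw = hv + 1 ∨ hv = hw + 1)) ∨
      (hv = 0 ∧ hw = 0 ∧ (cw = cv + 1 ∨ cv = cw + 1)) := hcat
    refine ⟨q, rfl, ⟨?_, ?_, ?_, ?_, ?_, ?_, ?_, ⟨v, by rw [hmem]; exact Or.inl rfl⟩⟩⟩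
    · intro a ha b hb e1 e2
      rw [hmem] at ha hb
      rcases ha with rfl | rfl <;> rcases hb with rfl | rfl
      · rfl
      · rw [qcv, qcw] at e1; rw [qhv, qhw] at e2; omega
      · rw [qcv, qcw] at e1; rw [qhv, qhw] at e2; omega
      · rfl
    · intro a ha k hk
      rw [hmem] at ha
      rcases ha with rfl | rfl
      · rw [qhv] at hk
        exact ⟨w, (hmem w).2 (Or.inr rfl), by rw [qcw, qcv]; omega, by rw [qhw]; omega⟩
      · rw [qhw] at hk
        exact ⟨v, (hmem v).2 (Or.inl rfl), by rw [qcw, qcv]; omega, by rw [qhv]; omega⟩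
    · intro a ha b hb c' e1 e2
      rw [hmem] at ha hb
      rcases ha with rfl | rfl <;> rcases hb with rfl | rfl <;>
        simp only [qcv, qcw] at e1 e2 <;> omega
    · intro a ha b hb
      rw [hmem] at ha hb
      rcases ha with rfl | rfl <;> rcases hb with rfl | rfl
      · simp only [SimpleGraph.irrefl, false_iff]
        rintro (⟨-, h3 | h3⟩ | ⟨-, -, h3 | h3⟩) <;> omega
      · rw [qcv, qcw, qhv, qhw]
        simp [hAd, hcat]
      · rw [qcv, qcw, qhv, qhw]
        simp [hAd.symm, hcat.symm]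
      · simp only [SimpleGraph.irrefl, false_iff]
        rintro (⟨-, h3 | h3⟩ | ⟨-, -, h3 | h3⟩) <;> omega
    · intro a ha b hb hab
      rw [hmem] at ha hb
      rcases ha with rfl | rfl <;> rcases hb with rfl | rfl
      · simp at hab
      · rw [qhv, qhw]; exact hO
      · rw [qhv, qhw]; exact hO'
      · simp at hab
    · intro a ha b hb hab
      rw [hmem] at ha hb
      rcases ha with rfl | rfl <;> rcases hb with rfl | rfl
      · simp at hab
      · rw [qhv, qhw]; exact hI
      · rw [qhv, qhw]; exact hI'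
      · simp at hab
    · intro a ha
      rw [hmem] at ha
      rcases ha with rfl | rfl
      · exact ⟨w, (hmem w).2 (Or.inr rfl), hAd⟩
      · exact ⟨v, (hmem v).2 (Or.inl rfl), hAd.symm⟩
  cases e : x v w with
  | S =>
    refine main 0 1 0 0 (Or.inr ⟨rfl, rfl, Or.inr rfl⟩) (by omega) (Or.inr ⟨rfl, rfl⟩) ?_ ?_ <;>
    · rw [e]; simp
  | O =>
    refine main 0 0 1 0 (Or.inl ⟨rfl, Or.inl rfl⟩) (by omega) (Or.inl rfl) ?_ ?_ <;>
    · rw [e]; simp
  | I =>
    refine main 0 0 0 1 (Or.inl ⟨rfl, Or.inr rfl⟩) (by omega) (Or.inl rfl) ?_ ?_ <;>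
    · rw [e]; simp

/-- Every grouped labeling of a forest comes from a family of pieces. -/
theorem exists_fam [Fintype V] (m : ℕ) : ∀ (T : SimpleGraph V), T.IsAcyclic →
    T.edgeSet.ncard = m → ∀ (x : V → V → Lab) (γ : V → V → ℕ), Grp T x γ →
    ∃ (ι : Type) (_ : Fintype ι) (p : ι → Piece V), Fam T x γ p := by
  induction m with
  | zero =>
    intro T hT hm x γ hg
    have h0 : T.edgeSet = ∅ := (Set.ncard_eq_zero (Set.toFinite _)).1 hm
    have h1 : ∀ a b, ¬ T.Adj a b := by
      intro a b hab
      have : s(a, b) ∈ T.edgeSet := hab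
      rw [h0] at this
      exact this
    exact ⟨Empty, inferInstance, fun i => i.elim, ⟨fun i => i.elim,
      fun v w h => (h1 v w h).elim, fun i => i.elim⟩⟩
  | succ m ih =>
    intro T hT hm x γ hg
    obtain ⟨a, b, hab⟩ : ∃ a b, T.Adj a b := by
      by_contra hcon
      push Not at hcon
      have : T.edgeSet = ∅ := by
        ext e
        induction e using Sym2.ind with
        | _ a b => simp [hcon a b]
      rw [this] at hm
      simp at hm
    obtain ⟨v, w, hvw, hleaf⟩ := exists_leaf hT hab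
    set T' := T.deleteEdges {s(v, w)} with hT'
    have hle : T' ≤ T := T.deleteEdges_le _
    have hadj' : ∀ a b, T'.Adj a b ↔ T.Adj a b ∧ s(a, b) ≠ s(v, w) := by
      intro a b
      rw [hT', SimpleGraph.deleteEdges_adj, Set.mem_singleton_iff]
    have hcard : T'.edgeSet.ncard = m := by
      have h1 : T'.edgeSet = T.edgeSet \ {s(v, w)} := by
        rw [hT', SimpleGraph.edgeSet_deleteEdges]
      have h2 : s(v, w) ∈ T.edgeSet := hvw
      rw [h1, Set.ncard_sdiff_singleton_of_mem h2, hm]
      rfl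
    have hS : Setup T T' x v w := by
      refine ⟨fun u => ⟨hleaf u, fun e => e ▸ hvw⟩, ?_, ?_, hg.dual w v hvw.symm ▸ rfl⟩
      · intro u hu
        rw [hadj'] at hu
        obtain rfl := hleaf u hu.1
        exact hu.2 rfl
      · intro a b ha hb
        rw [hadj']
        refine ⟨fun h => ⟨h, fun e => ?_⟩, fun h => h.1⟩
        rcases Sym2.eq_iff.1 e with ⟨h1, -⟩ | ⟨-, h1⟩
        · exact ha h1
        · exact hb h1
    obtain ⟨ι, hι, p, hF⟩ := ih T' (hT.anti hle) hcard x γ (hg.mono hle)
    have hnv : ∀ i, v ∉ (p i).P := fun i => hS.not_mem (hF.valid i)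
    have hnew : ∀ i, ∀ a ∈ (p i).P, a ≠ v := fun i a ha e => hnv i (e ▸ ha)
    by_cases hcase : ∃ w', T'.Adj w w' ∧ γ w w' = γ w v
    · -- join the piece of `w`, `w'`
      obtain ⟨w', hw', hgw'⟩ := hcase
      obtain ⟨i₀, ⟨hi₀, hi₀'⟩, huniq⟩ := hF.edge w w' hw'
      have hgr : ∀ u ∈ (p i₀).P, T'.Adj w u → γ w v = γ w u := by
        intro u hu hwu
        rw [← hgw']
        exact (hF.grp i₀ w w' u hi₀ hi₀' hw' hwu).1 hu
      obtain ⟨q, hqP, hq⟩ := hS.join hg (hF.valid i₀) hi₀ hgr
      have hmem : ∀ i a, a ≠ v → (a ∈ (Function.update p i₀ q i).P ↔ a ∈ (p i).P) := by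
        intro i a ha
        by_cases hi : i = i₀
        · subst hi
          rw [Function.update_self, hqP, Finset.mem_insert]
          simp [ha]
        · rw [Function.update_of_ne hi]
      have hmemv : ∀ i, (v ∈ (Function.update p i₀ q i).P ↔ i = i₀) := by
        intro i
        by_cases hi : i = i₀
        · subst hi
          rw [Function.update_self, hqP, Finset.mem_insert]
          simp
        · rw [Function.update_of_ne hi]
          simp [hi, hnv i]
      refine ⟨ι, hι, Function.update p i₀ q, ⟨?_, ?_, ?_⟩⟩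
      · intro i
        by_cases hi : i = i₀
        · subst hi
          rw [Function.update_self]
          exact hq
        · rw [Function.update_of_ne hi]
          exact hS.valid (hF.valid i)
      · intro a b hab
        by_cases ha : a = v
        · subst ha
          obtain rfl := hleaf b hab
          refine ⟨i₀, ⟨(hmemv i₀).2 rfl, (hmem i₀ b hvw.ne').2 hi₀⟩, fun i hi => (hmemv i).1 hi.1⟩
        by_cases hb : b = v
        · subst hb
          obtain rfl := hleaf a hab.symm
          refine ⟨i₀, ⟨(hmem i₀ a ha).2 hi₀, (hmemv i₀).2 rfl⟩, fun i hi => (hmemv i).1 hi.2⟩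
        obtain ⟨i, ⟨h1, h2⟩, h3⟩ := hF.edge a b ((hS.same a b ha hb).1 hab)
        exact ⟨i, ⟨(hmem i a ha).2 h1, (hmem i b hb).2 h2⟩,
          fun j hj => h3 j ⟨(hmem j a ha).1 hj.1, (hmem j b hb).1 hj.2⟩⟩
      · intro i a b c ha hb hab hac
        by_cases hav : a = v
        · subst hav
          obtain rfl := hleaf b hab
          obtain rfl := hleaf c hac
          simp [hb]
        have haT := (hmem i a hav).1 ha
        by_cases hbv : b = v
        · rw [hbv] at hab hb ⊢
          obtain rfl := hleaf a hab.symm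
          obtain rfl := (hmemv i).1 hb
          by_cases hcv : c = v
          · rw [hcv]; exact iff_of_true hb rfl
          · rw [hmem i c hcv, ← hgw']
            exact hF.grp i a w' c hi₀ hi₀' hw' ((hS.same a c hav hcv).1 hac)
        have hbT := (hmem i b hbv).1 hb
        have hab' := (hS.same a b hav hbv).1 hab
        by_cases hcv : c = v
        · rw [hcv] at hac ⊢
          obtain rfl := hleaf a hac.symm
          rw [hmemv i]
          constructor
          · rintro rfl
            exact (hgr b hbT hab').symm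
          · intro h1
            apply huniq
            refine ⟨haT, (hF.grp i a b w' haT hbT hab' hw').2 (by rw [h1, hgw'])⟩
        · rw [hmem i c hcv]
          exact hF.grp i a b c haT hbT hab' ((hS.same a c hav hcv).1 hac)
    · -- a new piece
      push Not at hcase
      obtain ⟨q, hqP, hq⟩ := hS.single
      have hqm : ∀ a, a ∈ q.P ↔ a = v ∨ a = w := by intro a; rw [hqP]; simp
      refine ⟨Option ι, inferInstance, fun i => i.elim q p, ⟨?_, ?_, ?_⟩⟩
      · rintro (_ | i)
        · exact hq
        · exact hS.valid (hF.valid i)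
      · intro a b hab
        by_cases ha : a = v
        · subst ha
          obtain rfl := hleaf b hab
          refine ⟨none, ⟨(hqm a).2 (Or.inl rfl), (hqm b).2 (Or.inr rfl)⟩, ?_⟩
          rintro (_ | i) hi
          · rfl
          · exact (hnv i hi.1).elim
        by_cases hb : b = v
        · subst hb
          obtain rfl := hleaf a hab.symm
          refine ⟨none, ⟨(hqm a).2 (Or.inr rfl), (hqm b).2 (Or.inl rfl)⟩, ?_⟩
          rintro (_ | i) hi
          · rfl
          · exact (hnv i hi.2).elim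
        obtain ⟨i, ⟨h1, h2⟩, h3⟩ := hF.edge a b ((hS.same a b ha hb).1 hab)
        refine ⟨some i, ⟨h1, h2⟩, ?_⟩
        rintro (_ | j) hj
        · exfalso
          have e1 : a = w := ((hqm a).1 hj.1).resolve_left ha
          have e2 : b = w := ((hqm b).1 hj.2).resolve_left hb
          exact hab.ne (e1.trans e2.symm)
        · rw [h3 j hj]
      · rintro (_ | i) a b c ha hb hab hac
        · replace ha := (hqm a).1 ha
          replace hb := (hqm b).1 hb
          change c ∈ q.P ↔ _
          rw [hqm c]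
          rcases ha with rfl | rfl
          · obtain rfl := hleaf b hab
            obtain rfl := hleaf c hac
            simp
          · have hbv : b = v := hb.resolve_right hab.ne'
            subst hbv
            by_cases hcv : c = b
            · subst hcv; simp
            · have h1 := hcase c ((hS.same a c hvw.ne' hcv).1 hac)
              simp only [hcv, false_or]
              constructor
              · intro h2; exact (hac.ne h2.symm).elim
              · intro h2; exact (h1 h2.symm).elim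
        · change a ∈ (p i).P at ha
          change b ∈ (p i).P at hb
          change c ∈ (p i).P ↔ _
          have hav := hnew i a ha
          have hbv := hnew i b hb
          have hab' := (hS.same a b hav hbv).1 hab
          by_cases hcv : c = v
          · rw [hcv] at hac ⊢
            obtain rfl := hleaf a hac.symm
            have h1 := hcase b hab'
            simp [hnv i, h1]
          · exact hF.grp i a b c ha hb hab' ((hS.same a c hav hcv).1 hac)

end Pool.Agent.H79.Bar
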