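import Pool.Agent.H79.BarDefs

/-!
# Vertical lines through a finite set of disjoint bars
-/

open scoped Topology Classical

namespace Pool.Agent.H79.Bar

/-- The vertical line with abscissa `x` crosses the interior of the bar `p`. -/
def Stab (x : ℝ) (p : ℝ × ℝ) : Prop := p.1 < x ∧ x < p.1 + 1

/-- A finite family of pairwise disjoint bars with owners in a graph such that bars that see each
other have equal or adjacent owners. -/
structure Sys {V : Type} (T : SimpleGraph V) where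
  /-- the bars -/
  S : Finset (ℝ × ℝ)
  /-- the owner of a bar -/
  own : ℝ × ℝ → V
  disj : ∀ p ∈ S, ∀ q ∈ S, p ≠ q → Disjoint (seg p) (seg q)
  sees : ∀ p ∈ S, ∀ q ∈ S, Sees (S : Set (ℝ × ℝ)) p q → own p = own q ∨ T.Adj (own p) (own q)

namespace Sys

variable {V : Type} {T : SimpleGraph V} (Y : Sys T)

/-- No bar ends on the vertical line with abscissa `x`. -/
def Gen (x : ℝ) : Prop := ∀ p ∈ Y.S, p.1 ≠ x ∧ p.1 + 1 ≠ x

/-- The bars on the vertical line with abscissa `x`. -/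
noncomputable def line (x : ℝ) : Finset (ℝ × ℝ) := Y.S.filter (Stab x)

theorem mem_line {x : ℝ} {p : ℝ × ℝ} : p ∈ Y.line x ↔ p ∈ Y.S ∧ Stab x p := by
  simp [line]

/-- Two consecutive bars on a vertical line, the first one below the second one. -/
def Cons (x : ℝ) (p q : ℝ × ℝ) : Prop :=
  p ∈ Y.line x ∧ q ∈ Y.line x ∧ p.2 < q.2 ∧ ∀ r ∈ Y.line x, ¬ (p.2 < r.2 ∧ r.2 < q.2)

theorem stab_mem_seg {x : ℝ} {p : ℝ × ℝ} (h : Stab x p) : (x, p.2) ∈ seg p :=
  ⟨h.1.le, h.2.le, rfl⟩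

theorem height_ne {x : ℝ} {p q : ℝ × ℝ} (hp : p ∈ Y.line x) (hq : q ∈ Y.line x) (h : p ≠ q) :
    p.2 ≠ q.2 := by
  intro he
  rw [mem_line] at hp hq
  have h1 := stab_mem_seg hp.2
  have h2 := stab_mem_seg hq.2
  rw [← he] at h2
  exact Set.disjoint_left.1 (Y.disj p hp.1 q hq.1 h) h1 h2

theorem eq_of_height {x : ℝ} {p q : ℝ × ℝ} (hp : p ∈ Y.line x) (hq : q ∈ Y.line x)
    (h : p.2 = q.2) : p = q := by
  by_contra hne
  exact Y.height_ne hp hq hne h

/-- Consecutive bars on a generic line see each other. -/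
theorem sees_of_cons {x : ℝ} (hx : Y.Gen x) {p q : ℝ × ℝ} (h : Y.Cons x p q) :
    Sees (Y.S : Set (ℝ × ℝ)) p q := by
  obtain ⟨hp, hq, hlt, hno⟩ := h
  have key : ∀ᶠ ε in 𝓝[>] (0 : ℝ), ∀ r ∈ Y.S,
      (Stab x r → r.1 < x - ε ∧ x + ε < r.1 + 1) ∧ (¬ Stab x r → x + ε < r.1 ∨ r.1 + 1 < x - ε) := by
    rw [Filter.eventually_all_finset]
    intro r hr
    obtain ⟨h1, h2⟩ := hx r hr
    by_cases hs : Stab x r
    · have h3 : 0 < min (x - r.1) (r.1 + 1 - x) := by
        rw [lt_min_iff]; exact ⟨by linarith [hs.1], by linarith [hs.2]⟩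
      filter_upwards [Ioo_mem_nhdsGT h3] with ε hε
      have h4 := hε.2
      rw [lt_min_iff] at h4
      exact ⟨fun _ => ⟨by linarith, by linarith⟩, fun h => absurd hs h⟩
    · rw [Stab, not_and_or, not_lt, not_lt] at hs
      rcases hs with hs | hs
      · have h3 : 0 < r.1 - x := by
          have := lt_of_le_of_ne hs (Ne.symm h1)
          linarith
        filter_upwards [Ioo_mem_nhdsGT h3] with ε hε
        exact ⟨fun h => absurd h.1 (by linarith), fun _ => Or.inl (by linarith [hε.2])⟩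
      · have h3 : 0 < x - (r.1 + 1) := by
          have := lt_of_le_of_ne hs h2
          linarith
        filter_upwards [Ioo_mem_nhdsGT h3] with ε hε
        exact ⟨fun h => absurd h.2 (by linarith), fun _ => Or.inr (by linarith [hε.2])⟩
  obtain ⟨ε, hε, hpos⟩ := (key.and self_mem_nhdsWithin).exists
  have hpos' : 0 < ε := hpos
  rw [mem_line] at hp hq
  have hp' := (hε p hp.1).1 hp.2
  have hq' := (hε q hq.1).1 hq.2
  refine ⟨x - ε, x + ε, by linarith, ?_, ?_⟩
  · intro y hy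
    exact ⟨⟨by linarith [hy.1], by linarith [hy.2], rfl⟩, ⟨by linarith [hy.1], by linarith [hy.2], rfl⟩⟩
  · intro r hr hrp hrq
    have hr : r ∈ Y.S := hr
    rw [Set.disjoint_left]
    rintro z ⟨hz1, hz2, hz3⟩ ⟨⟨hz4, hz5⟩, hz6⟩
    rw [Set.uIcc_of_le hlt.le, hz3] at hz6
    by_cases hs : Stab x r
    · have hrl : r ∈ Y.line x := Y.mem_line.2 ⟨hr, hs⟩
      have h1 := Y.height_ne hrl (Y.mem_line.2 hp) hrp
      have h2 := Y.height_ne hrl (Y.mem_line.2 hq) hrq
      exact hno r hrl ⟨lt_of_le_of_ne hz6.1 h1.symm, lt_of_le_of_ne hz6.2 h2⟩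
    · rcases (hε r hr).2 hs with h | h <;> linarith

/-- Consecutive bars on a generic line have equal or adjacent owners. -/
theorem own_of_cons {x : ℝ} (hx : Y.Gen x) {p q : ℝ × ℝ} (h : Y.Cons x p q) :
    Y.own p = Y.own q ∨ T.Adj (Y.own p) (Y.own q) :=
  Y.sees p (Y.mem_line.1 h.1).1 q (Y.mem_line.1 h.2.1).1 (Y.sees_of_cons hx h)

/-- In any nonempty open interval there is a generic abscissa outside a given countable set. -/
theorem exists_gen {a b : ℝ} (h : a < b) {F : Set ℝ} (hF : F.Countable) :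
    ∃ x, a < x ∧ x < b ∧ Y.Gen x ∧ x ∉ F := by
  have hc : (F ∪ ((Y.S.image fun p => p.1) ∪ (Y.S.image fun p => p.1 + 1) : Finset ℝ)).Countable :=
    hF.union (Finset.countable_toSet _)
  obtain ⟨x, hx', hx⟩ := (hc.dense_compl ℝ).exists_between h
  simp only [Set.mem_compl_iff, Set.mem_union, Finset.coe_union, Finset.mem_coe,
    Finset.mem_image, not_or, not_exists, not_and] at hx'
  exact ⟨x, hx.1, hx.2, fun p hp => ⟨hx'.2.1 p hp, hx'.2.2 p hp⟩, hx'.1⟩

/-- Bars that see each other are both crossed by a generic line outside a given countable set. -/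
theorem exists_of_sees {p q : ℝ × ℝ} (hp : p ∈ Y.S) (hq : q ∈ Y.S)
    (h : Sees (Y.S : Set (ℝ × ℝ)) p q) {F : Set ℝ} (hF : F.Countable) :
    ∃ x, Y.Gen x ∧ x ∉ F ∧ p ∈ Y.line x ∧ q ∈ Y.line x := by
  obtain ⟨a, b, hab, h1, -⟩ := h
  obtain ⟨x, hx1, hx2, hx3, hx4⟩ := Y.exists_gen hab hF
  obtain ⟨h2, h3⟩ := h1 x ⟨hx1.le, hx2.le⟩
  refine ⟨x, hx3, hx4, Y.mem_line.2 ⟨hp, ?_, ?_⟩, Y.mem_line.2 ⟨hq, ?_, ?_⟩⟩
  · exact lt_of_le_of_ne h2.1 (hx3 p hp).1
  · exact lt_of_le_of_ne h2.2.1 (hx3 p hp).2.symm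
  · exact lt_of_le_of_ne h3.1 (hx3 q hq).1
  · exact lt_of_le_of_ne h3.2.1 (hx3 q hq).2.symm

/-- The next bar above `p` on a line that has a bar above `p`. -/
theorem exists_cons {x : ℝ} {p q : ℝ × ℝ} (hp : p ∈ Y.line x) (hq : q ∈ Y.line x)
    (h : p.2 < q.2) : ∃ b, Y.Cons x p b ∧ b.2 ≤ q.2 := by
  obtain ⟨b, hb, hmin⟩ := ((Y.line x).filter fun r => p.2 < r.2).exists_min_image (fun r => r.2)
    ⟨q, by simp [hq, h]⟩
  rw [Finset.mem_filter] at hb
  refine ⟨b, ⟨hp, hb.1, hb.2, fun r hr hlt => ?_⟩, hmin q (by simp [hq, h])⟩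
  have := hmin r (by simp [hr, hlt.1])
  linarith [hlt.2]

/-- An induction principle: a property that passes from a bar on a line to the next one. -/
theorem line_induction {x : ℝ} (P : ℝ × ℝ → Prop) {p q : ℝ × ℝ} (hp : p ∈ Y.line x)
    (hq : q ∈ Y.line x) (hpq : p.2 ≤ q.2) (h0 : P p)
    (hs : ∀ a b, Y.Cons x a b → p.2 ≤ a.2 → b.2 ≤ q.2 → P a → P b) : P q := by
  induction hn : ((Y.line x).filter fun r => p.2 < r.2 ∧ r.2 ≤ q.2).card using
    Nat.strong_induction_on generalizing p with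
  | _ n ih =>
    rcases hpq.eq_or_lt with he | hlt
    · rw [← Y.eq_of_height hp hq he]; exact h0
    · obtain ⟨b, hb, hbq⟩ := Y.exists_cons hp hq hlt
      refine ih _ ?_ hb.2.1 hbq (hs p b hb le_rfl hbq h0)
        (fun a c hc h1 h2 => hs a c hc (hb.2.2.1.le.trans h1) h2) rfl
      rw [← hn]
      refine Finset.card_lt_card ?_
      rw [Finset.ssubset_iff_of_subset]
      · refine ⟨b, ?_, ?_⟩
        · simp [hb.2.1, hb.2.2.1, hbq]
        · simp
      · intro r hr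
        simp only [Finset.mem_filter] at hr ⊢
        exact ⟨hr.1, hb.2.2.1.trans hr.2.1, hr.2.2⟩

/-- If no two consecutive bars between `p` and `q` realise the edge `e`, the owners of `p` and `q`
are joined outside `e`. -/
theorem reachable {x : ℝ} (hx : Y.Gen x) (e : Sym2 V) {p q : ℝ × ℝ} (hp : p ∈ Y.line x)
    (hq : q ∈ Y.line x) (hpq : p.2 ≤ q.2)
    (h : ∀ a b, Y.Cons x a b → p.2 ≤ a.2 → b.2 ≤ q.2 → s(Y.own a, Y.own b) ≠ e) :
    (T.deleteEdges {e}).Reachable (Y.own p) (Y.own q) := by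
  refine Y.line_induction (fun r => (T.deleteEdges {e}).Reachable (Y.own p) (Y.own r)) hp hq hpq
    (SimpleGraph.Reachable.refl _) ?_
  intro a b hab h1 h2 hr
  refine hr.trans ?_
  rcases Y.own_of_cons hx hab with he | hadj
  · rw [he]
  · refine SimpleGraph.Adj.reachable ?_
    rw [SimpleGraph.deleteEdges_adj]
    exact ⟨hadj, fun hm => h a b hab h1 h2 hm⟩

/-- An edge between the owners of two bars on a line is realised between them. -/
theorem exists_real {x : ℝ} (hT : T.IsAcyclic) (hx : Y.Gen x) {p q : ℝ × ℝ} (hp : p ∈ Y.line x)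
    (hq : q ∈ Y.line x) (hpq : p.2 ≤ q.2) (hadj : T.Adj (Y.own p) (Y.own q)) :
    ∃ a b, Y.Cons x a b ∧ p.2 ≤ a.2 ∧ b.2 ≤ q.2 ∧
      s(Y.own a, Y.own b) = s(Y.own p, Y.own q) := by
  by_contra hne
  push Not at hne
  have := Y.reachable hx s(Y.own p, Y.own q) hp hq hpq hne
  exact (SimpleGraph.isAcyclic_iff_forall_adj_isBridge.1 hT hadj) this

end Sys

end Pool.Agent.H79.Bar
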