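import Pool.Agent.H79.BarLower
import Pool.Agent.H79.BarProg

/-!
# From representations to labelings of the edges
-/

open scoped Topology Classical

namespace Pool.Agent.H79.Bar

/-- The label of an edge as seen from one of its ends: a spine edge, a leg edge going out, a leg
edge coming in. -/
inductive Lab
  | S
  | O
  | I
  deriving DecidableEq

instance : Fintype Lab := ⟨{.S, .O, .I}, by intro x; cases x <;> simp⟩

/-- The label as seen from the other end. -/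
def Lab.dual : Lab → Lab
  | .S => .S
  | .O => .I
  | .I => .O

theorem Lab.dual_dual (l : Lab) : l.dual.dual = l := by cases l <;> rfl

/-- The number of edges at `v` with label `l`. -/
noncomputable def cnt {V : Type} [Fintype V] (T : SimpleGraph V) (x : V → V → Lab) (v : V)
    (l : Lab) : ℕ :=
  (Finset.univ.filter fun w => T.Adj v w ∧ x v w = l).card

/-- The least number of groups at `v`. -/
noncomputable def CC {V : Type} [Fintype V] (T : SimpleGraph V) (x : V → V → Lab) (v : V) : ℕ :=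
  C (cnt T x v .S) (cnt T x v .O) (cnt T x v .I)

/-- Directions at a bar. -/
inductive Dir
  | up
  | dn
  | rt
  | lf
  deriving DecidableEq

instance : Fintype Dir := ⟨{.up, .dn, .rt, .lf}, by intro x; cases x <;> simp⟩

namespace Sys

variable {V : Type} {T : SimpleGraph V} (Y : Sys T) (x₀ : ℝ)

/-- There is a bridge over the gap `i`. -/
def HasBr (i : ℤ) : Prop := ∃ z : (ℝ × ℝ) × (ℝ × ℝ), Y.Br x₀ i z.1 z.2

/-- The left end of the chosen bridge. -/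
noncomputable def brL (i : ℤ) : ℝ × ℝ := if h : Y.HasBr x₀ i then h.choose.1 else 0

/-- The right end of the chosen bridge. -/
noncomputable def brR (i : ℤ) : ℝ × ℝ := if h : Y.HasBr x₀ i then h.choose.2 else 0

theorem br_spec {i : ℤ} (h : Y.HasBr x₀ i) : Y.Br x₀ i (Y.brL x₀ i) (Y.brR x₀ i) := by
  unfold brL brR
  rw [dif_pos h, dif_pos h]
  exact h.choose_spec

/-- The bridges on both sides of the line `i` use the same bar. -/
def Special (i : ℤ) : Prop :=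
  Y.HasBr x₀ (i - 1) ∧ Y.HasBr x₀ i ∧ Y.brR x₀ (i - 1) = Y.brL x₀ i

/-- There is another bar of the owner of the special bar above it. -/
def Above (i : ℤ) : Prop :=
  ∃ r ∈ Y.ln x₀ i, Y.own r = Y.own (Y.brL x₀ i) ∧ (Y.brL x₀ i).2 < r.2

/-- There is another bar of the owner of the special bar below it. -/
def Below (i : ℤ) : Prop :=
  ∃ r ∈ Y.ln x₀ i, Y.own r = Y.own (Y.brL x₀ i) ∧ r.2 < (Y.brL x₀ i).2

/-- The pairs of consecutive bars that are not used. -/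
def Forb (i : ℤ) (a b : ℝ × ℝ) : Prop :=
  Y.Special x₀ i ∧ ((Y.Above x₀ i ∧ a = Y.brL x₀ i) ∨
    (¬ Y.Above x₀ i ∧ Y.Below x₀ i ∧ b = Y.brL x₀ i))

/-- The pairs of consecutive bars that may be used. -/
def VC (i : ℤ) (a b : ℝ × ℝ) : Prop := Y.Cons (x₀ + i) a b ∧ ¬ Y.Forb x₀ i a b

variable {x₀}

theorem exists_vc (h₀ : Y.Good x₀) (hT : T.IsAcyclic) {i : ℤ} {v w : V} (hvw : T.Adj v w)
    (h : Y.Real' x₀ i s(v, w)) : ∃ a b, Y.VC x₀ i a b ∧ s(Y.own a, Y.own b) = s(v, w) := by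
  obtain ⟨a, b, hab, hs⟩ := h
  by_cases hf : Y.Forb x₀ i a b
  swap
  · exact ⟨a, b, ⟨hab, hf⟩, hs⟩
  have hadj : T.Adj (Y.own a) (Y.own b) := by
    rw [← SimpleGraph.mem_edgeSet, hs, SimpleGraph.mem_edgeSet]; exact hvw
  obtain ⟨hsp, ⟨hA, rfl⟩ | ⟨hA, hB, rfl⟩⟩ := hf
  · obtain ⟨r, hr, ho, hlt⟩ := hA
    have hrb : r ≠ b := by rintro rfl; exact hadj.ne ho.symm
    have hbr : b.2 ≤ r.2 := by
      by_contra hh
      exact hab.2.2.2 r hr ⟨hlt, by linarith⟩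
    have hadj' : T.Adj (Y.own b) (Y.own r) := by rw [ho]; exact hadj.symm
    obtain ⟨c, d, hcd, h1, h2, h3⟩ := Y.exists_real hT (h₀ i) hab.2.1 hr hbr hadj'
    refine ⟨c, d, ⟨hcd, ?_⟩, ?_⟩
    · rintro ⟨-, ⟨-, rfl⟩ | ⟨hA, -, -⟩⟩
      · have := hab.2.2.1
        linarith
      · exact hA ⟨r, hr, ho, hlt⟩
    · rw [h3, ho, Sym2.eq_swap]; exact hs
  · obtain ⟨r, hr, ho, hlt⟩ := hB
    have hra : r ≠ a := by rintro rfl; exact hadj.ne ho
    have har : r.2 ≤ a.2 := by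
      by_contra hh
      exact hab.2.2.2 r hr ⟨by linarith, hlt⟩
    have hadj' : T.Adj (Y.own r) (Y.own a) := by rw [ho]; exact hadj.symm
    obtain ⟨c, d, hcd, h1, h2, h3⟩ := Y.exists_real hT (h₀ i) hr hab.1 har hadj'
    refine ⟨c, d, ⟨hcd, ?_⟩, ?_⟩
    · rintro ⟨-, ⟨hA', -⟩ | ⟨-, -, rfl⟩⟩
      · exact hA hA'
      · have := hab.2.2.1
        linarith
    · rw [h3, ho, Sym2.eq_swap]; exact hs

/-- Every edge that is seen is realised. -/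
theorem exists_realn (h₀ : Y.Good x₀) (hT : T.IsAcyclic) {v w : V} (hvw : T.Adj v w)
    (h : ∃ p ∈ Y.S, ∃ q ∈ Y.S, Y.own p = v ∧ Y.own q = w ∧ Sees (Y.S : Set (ℝ × ℝ)) p q) :
    (∃ i a b, Y.VC x₀ i a b ∧ s(Y.own a, Y.own b) = s(v, w)) ∨
      (∃ i, Y.HasBr x₀ i ∧ s(Y.own (Y.brL x₀ i), Y.own (Y.brR x₀ i)) = s(v, w)) := by
  obtain ⟨p, hp, q, hq, rfl, rfl, hs⟩ := h
  obtain ⟨x, hx, hxF, hpx, hqx⟩ := Y.exists_of_sees hp hq hs
    (Set.countable_range fun i : ℤ => x₀ + (i : ℝ))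
  have h1 : x₀ + (⌊x - x₀⌋ : ℤ) < x := by
    have := Int.floor_le (x - x₀)
    refine lt_of_le_of_ne (by linarith) (fun he => hxF ⟨_, he⟩)
  have h2 : x < x₀ + ((⌊x - x₀⌋ + 1 : ℤ) : ℝ) := by
    have := Int.lt_floor_add_one (x - x₀)
    push_cast
    linarith
  generalize ⌊x - x₀⌋ = i at h1 h2
  have same : ∀ j, Y.Own x₀ j (Y.own p) → Y.Own x₀ j (Y.own q) →
      (∃ i a b, Y.VC x₀ i a b ∧ s(Y.own a, Y.own b) = s(Y.own p, Y.own q)) := by
    intro j ha hb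
    obtain ⟨a, b, hab⟩ := Y.exists_vc h₀ hT hvw (Y.real_of_own h₀ hT hvw ha hb)
    exact ⟨j, a, b, hab⟩
  have cross : ∀ a b, a ∈ Y.ln x₀ i → b ∈ Y.ln x₀ (i + 1) → a ∈ Y.line x → b ∈ Y.line x →
      s(Y.own a, Y.own b) = s(Y.own p, Y.own q) →
      (∃ i a b, Y.VC x₀ i a b ∧ s(Y.own a, Y.own b) = s(Y.own p, Y.own q)) ∨
      (∃ i, Y.HasBr x₀ i ∧ s(Y.own (Y.brL x₀ i), Y.own (Y.brR x₀ i)) = s(Y.own p, Y.own q)) := by
    intro a b ha hb hax hbx he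
    have hadj : T.Adj (Y.own a) (Y.own b) := by
      rw [← SimpleGraph.mem_edgeSet, he, SimpleGraph.mem_edgeSet]; exact hvw
    by_cases c1 : Y.Own x₀ (i + 1) (Y.own a)
    · left
      obtain ⟨c, d, hcd, hs'⟩ := Y.exists_vc h₀ hT hadj
        (Y.real_of_own h₀ hT hadj c1 ⟨b, hb, rfl⟩)
      exact ⟨i + 1, c, d, hcd, hs'.trans he⟩
    by_cases c2 : Y.Own x₀ i (Y.own b)
    · left
      obtain ⟨c, d, hcd, hs'⟩ := Y.exists_vc h₀ hT hadj
        (Y.real_of_own h₀ hT hadj ⟨a, ha, rfl⟩ c2)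
      exact ⟨i, c, d, hcd, hs'.trans he⟩
    right
    have hbr : Y.Br x₀ i a b := ⟨ha, hb, hadj, c1, c2, x, h1, h2, hx, hax, hbx⟩
    have hh : Y.HasBr x₀ i := ⟨(a, b), hbr⟩
    refine ⟨i, hh, ?_⟩
    obtain ⟨e1, e2⟩ := (Y.br_spec x₀ hh).own_eq Y h₀ hT ⟨a, ha, rfl⟩ ⟨b, hb, rfl⟩ hadj
    rw [← e1, ← e2]
    exact he
  rcases Y.mem_gap h₀ h1 h2 hpx with hp' | hp' <;> rcases Y.mem_gap h₀ h1 h2 hqx with hq' | hq'
  · exact Or.inl (same i ⟨p, hp', rfl⟩ ⟨q, hq', rfl⟩)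
  · exact cross p q hp' hq' hpx hqx rfl
  · exact cross q p hq' hp' hqx hpx Sym2.eq_swap
  · exact Or.inl (same (i + 1) ⟨p, hp', rfl⟩ ⟨q, hq', rfl⟩)

variable (x₀)

/-- The bar lies strictly above the spine of its line. -/
def Hi (i : ℤ) (p : ℝ × ℝ) : Prop :=
  Y.HasBr x₀ (i - 1) ∧ Y.HasBr x₀ i ∧ max (Y.brR x₀ (i - 1)).2 (Y.brL x₀ i).2 < p.2

/-- The bar lies strictly below the spine of its line. -/
def Lo (i : ℤ) (p : ℝ × ℝ) : Prop :=
  (Y.HasBr x₀ (i - 1) ∨ Y.HasBr x₀ i) ∧ (Y.HasBr x₀ (i - 1) → p.2 < (Y.brR x₀ (i - 1)).2) ∧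
    (Y.HasBr x₀ i → p.2 < (Y.brL x₀ i).2)

/-- A realisation of an edge. -/
inductive Rz
  | vert (i : ℤ) (a b : ℝ × ℝ)
  | br (i : ℤ)

/-- The first bar of a realisation. -/
noncomputable def fstB : Rz → ℝ × ℝ
  | .vert _ a _ => a
  | .br i => Y.brL x₀ i

/-- The second bar of a realisation. -/
noncomputable def sndB : Rz → ℝ × ℝ
  | .vert _ _ b => b
  | .br i => Y.brR x₀ i

/-- Admissible realisations. -/
def Ok : Rz → Prop
  | .vert i a b => Y.VC x₀ i a b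
  | .br i => Y.HasBr x₀ i

/-- The direction of the edge at the first bar. -/
def dir1 : Rz → Dir
  | .vert _ _ _ => .up
  | .br _ => .rt

/-- The direction of the edge at the second bar. -/
def dir2 : Rz → Dir
  | .vert _ _ _ => .dn
  | .br _ => .lf

/-- The label at the first bar. -/
noncomputable def lab1 : Rz → Lab
  | .vert i a b => if Y.Hi x₀ i b then .O else if Y.Lo x₀ i a then .I else .S
  | .br _ => .S

/-- The label at the second bar. -/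
noncomputable def lab2 : Rz → Lab
  | .vert i a b => if Y.Hi x₀ i b then .I else if Y.Lo x₀ i a then .O else .S
  | .br _ => .S

theorem lab2_eq (z : Rz) : Y.lab2 x₀ z = (Y.lab1 x₀ z).dual := by
  cases z with
  | vert i a b =>
    simp only [lab1, lab2]
    split_ifs <;> rfl
  | br i => rfl

/-- `p` is used by the realisation `z` in direction `d` with label `l`. -/
def Use (z : Rz) (p : ℝ × ℝ) (d : Dir) (l : Lab) : Prop :=
  Y.Ok x₀ z ∧ ((p = Y.fstB x₀ z ∧ d = dir1 z ∧ l = Y.lab1 x₀ z) ∨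
    (p = Y.sndB x₀ z ∧ d = dir2 z ∧ l = Y.lab2 x₀ z))

/-- `p` is used in direction `d` with label `l`. -/
def Used (p : ℝ × ℝ) (d : Dir) (l : Lab) : Prop := ∃ z, Y.Use x₀ z p d l

variable {x₀}

theorem used_up {p : ℝ × ℝ} {l : Lab} (h : Y.Used x₀ p .up l) :
    ∃ i b, Y.VC x₀ i p b ∧ l = Y.lab1 x₀ (.vert i p b) := by
  obtain ⟨z, hz, ⟨h1, h2, h3⟩ | ⟨h1, h2, h3⟩⟩ := h
  · cases z with
    | vert i a b => subst h1; exact ⟨i, b, hz, h3⟩
    | br i => exact absurd h2 (by simp [dir1])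
  · cases z <;> exact absurd h2 (by simp [dir2])

theorem used_dn {p : ℝ × ℝ} {l : Lab} (h : Y.Used x₀ p .dn l) :
    ∃ i a, Y.VC x₀ i a p ∧ l = Y.lab2 x₀ (.vert i a p) := by
  obtain ⟨z, hz, ⟨h1, h2, h3⟩ | ⟨h1, h2, h3⟩⟩ := h
  · cases z <;> exact absurd h2 (by simp [dir1])
  · cases z with
    | vert i a b => subst h1; exact ⟨i, a, hz, h3⟩
    | br i => exact absurd h2 (by simp [dir2])

theorem used_rt {p : ℝ × ℝ} {l : Lab} (h : Y.Used x₀ p .rt l) :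
    ∃ i, Y.HasBr x₀ i ∧ p = Y.brL x₀ i ∧ l = .S := by
  obtain ⟨z, hz, ⟨h1, h2, h3⟩ | ⟨h1, h2, h3⟩⟩ := h
  · cases z with
    | vert i a b => exact absurd h2 (by simp [dir1])
    | br i => exact ⟨i, hz, h1, h3⟩
  · cases z <;> exact absurd h2 (by simp [dir2])

theorem used_lf {p : ℝ × ℝ} {l : Lab} (h : Y.Used x₀ p .lf l) :
    ∃ i, Y.HasBr x₀ (i - 1) ∧ p = Y.brR x₀ (i - 1) ∧ l = .S := by
  obtain ⟨z, hz, ⟨h1, h2, h3⟩ | ⟨h1, h2, h3⟩⟩ := h
  · cases z <;> exact absurd h2 (by simp [dir1])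
  · cases z with
    | vert i a b => exact absurd h2 (by simp [dir2])
    | br i =>
      refine ⟨i + 1, ?_⟩
      rw [show i + 1 - 1 = i by omega]
      exact ⟨hz, h1, h3⟩

/-- The facts about the uses of a bar. -/
theorem used_facts (h₀ : Y.Good x₀) (hT : T.IsAcyclic) (p : ℝ × ℝ) :
    (∀ l, Y.Used x₀ p .rt l → l = .S) ∧ (∀ l, Y.Used x₀ p .lf l → l = .S) ∧
    ¬ (Y.Used x₀ p .up .O ∧ Y.Used x₀ p .dn .O) ∧
    ¬ (Y.Used x₀ p .up .I ∧ Y.Used x₀ p .dn .I) ∧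
    (∀ d, (Y.Used x₀ p .up .I ∨ Y.Used x₀ p .dn .I) → ¬ Y.Used x₀ p d .S) ∧
    ¬ (Y.Used x₀ p .up .S ∧ Y.Used x₀ p .dn .S ∧ Y.Used x₀ p .rt .S) ∧
    ¬ (Y.Used x₀ p .up .S ∧ Y.Used x₀ p .dn .S ∧ Y.Used x₀ p .lf .S) ∧
    ¬ (Y.Used x₀ p .up .S ∧ Y.Used x₀ p .rt .S ∧ Y.Used x₀ p .lf .S) ∧
    ¬ (Y.Used x₀ p .dn .S ∧ Y.Used x₀ p .rt .S ∧ Y.Used x₀ p .lf .S) := by
  -- the position of a used bar
  have rtL : ∀ {i}, Y.HasBr x₀ i → Y.brL x₀ i ∈ Y.ln x₀ i := fun h => (Y.br_spec x₀ h).left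
  have lfR : ∀ {i}, Y.HasBr x₀ (i - 1) → Y.brR x₀ (i - 1) ∈ Y.ln x₀ i := fun {i} h => by
    have := (Y.br_spec x₀ h).right
    rwa [show i - 1 + 1 = i by omega] at this
  -- labels at `p` in the vertical directions
  have upO : Y.Used x₀ p .up .O → ∃ i b, Y.VC x₀ i p b ∧ Y.Hi x₀ i b := by
    intro h
    obtain ⟨i, b, h1, h2⟩ := Y.used_up h
    refine ⟨i, b, h1, ?_⟩
    simp only [lab1] at h2
    split_ifs at h2 with c1 c2
    exact c1
  have upI : Y.Used x₀ p .up .I → ∃ i, p ∈ Y.ln x₀ i ∧ Y.Lo x₀ i p := by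
    intro h
    obtain ⟨i, b, h1, h2⟩ := Y.used_up h
    refine ⟨i, h1.1.1, ?_⟩
    simp only [lab1] at h2
    split_ifs at h2 with c1 c2
    exact c2
  have upS : Y.Used x₀ p .up .S → ∃ i b, Y.VC x₀ i p b ∧ ¬ Y.Hi x₀ i b ∧ ¬ Y.Lo x₀ i p := by
    intro h
    obtain ⟨i, b, h1, h2⟩ := Y.used_up h
    refine ⟨i, b, h1, ?_⟩
    simp only [lab1] at h2
    split_ifs at h2 with c1 c2
    exact ⟨c1, c2⟩
  have dnI : Y.Used x₀ p .dn .I → ∃ i, p ∈ Y.ln x₀ i ∧ Y.Hi x₀ i p := by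
    intro h
    obtain ⟨i, b, h1, h2⟩ := Y.used_dn h
    refine ⟨i, h1.1.2.1, ?_⟩
    simp only [lab2] at h2
    split_ifs at h2 with c1 c2
    exact c1
  have dnO : Y.Used x₀ p .dn .O → ∃ i a, Y.VC x₀ i a p ∧ ¬ Y.Hi x₀ i p ∧ Y.Lo x₀ i a := by
    intro h
    obtain ⟨i, b, h1, h2⟩ := Y.used_dn h
    refine ⟨i, b, h1, ?_⟩
    simp only [lab2] at h2
    split_ifs at h2 with c1 c2
    exact ⟨c1, c2⟩
  have dnS : Y.Used x₀ p .dn .S → ∃ i a, Y.VC x₀ i a p ∧ ¬ Y.Hi x₀ i p ∧ ¬ Y.Lo x₀ i a := by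
    intro h
    obtain ⟨i, b, h1, h2⟩ := Y.used_dn h
    refine ⟨i, b, h1, ?_⟩
    simp only [lab2] at h2
    split_ifs at h2 with c1 c2
    exact ⟨c1, c2⟩
  refine ⟨?_, ?_, ?_, ?_, ?_, ?_, ?_, ?_, ?_⟩
  · intro l h
    obtain ⟨i, -, -, hl⟩ := Y.used_rt h
    exact hl
  · intro l h
    obtain ⟨i, -, -, hl⟩ := Y.used_lf h
    exact hl
  · -- no two outgoing edges
    rintro ⟨h1, h2⟩
    obtain ⟨i, b, hb, hH⟩ := upO h1
    obtain ⟨j, a, ha, -, hL⟩ := dnO h2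
    obtain rfl : i = j := Y.ln_unique hb.1.1 ha.1.2.1
    obtain ⟨k1, k2, k3⟩ := hH
    rw [max_lt_iff] at k3
    have k4 := hL.2.1 k1
    have k5 := hL.2.2 k2
    have e1 : Y.brL x₀ i = p := by
      have hm := rtL k2
      have n1 := hb.1.2.2.2 _ hm
      have n2 := ha.1.2.2.2 _ hm
      exact Y.eq_of_height hm hb.1.1 (by
        by_contra hne
        rcases lt_or_gt_of_ne hne with h | h
        · exact n2 ⟨k5, h⟩
        · exact n1 ⟨h, k3.2⟩)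
    have e2 : Y.brR x₀ (i - 1) = p := by
      have hm := lfR k1
      have n1 := hb.1.2.2.2 _ hm
      have n2 := ha.1.2.2.2 _ hm
      exact Y.eq_of_height hm hb.1.1 (by
        by_contra hne
        rcases lt_or_gt_of_ne hne with h | h
        · exact n2 ⟨k4, h⟩
        · exact n1 ⟨h, k3.1⟩)
    have hsp : Y.Special x₀ i := ⟨k1, k2, by rw [e1, e2]⟩
    have nA : ¬ Y.Above x₀ i := fun hA => hb.2 ⟨hsp, Or.inl ⟨hA, e1.symm⟩⟩
    have nB : ¬ Y.Below x₀ i := fun hB => ha.2 ⟨hsp, Or.inr ⟨nA, hB, e1.symm⟩⟩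
    have br1 := Y.br_spec x₀ k1
    have br2 := Y.br_spec x₀ k2
    rw [e2] at br1
    rw [e1] at br2
    refine Y.no_cross h₀ hT br1 br2 ?_ hb.1.2.1 ha.1.1 hb.1.2.2.1 ha.1.2.2.1
    intro r hr ho
    by_contra hne
    rcases lt_or_gt_of_ne (Y.height_ne hr hb.1.1 hne) with h | h
    · exact nB ⟨r, hr, by rw [e1]; exact ho, by rw [e1]; exact h⟩
    · exact nA ⟨r, hr, by rw [e1]; exact ho, by rw [e1]; exact h⟩
  · rintro ⟨h1, h2⟩
    obtain ⟨i, hi, hL⟩ := upI h1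
    obtain ⟨j, hj, hH⟩ := dnI h2
    obtain rfl := Y.ln_unique hi hj
    have k1 := hL.2.2 hH.2.1
    have k2 := hH.2.2
    rw [max_lt_iff] at k2
    linarith [k2.2]
  · intro d h hS
    -- `p` lies outside the spine
    have hout : ∃ i, p ∈ Y.ln x₀ i ∧ (Y.Lo x₀ i p ∨ Y.Hi x₀ i p) := by
      rcases h with h | h
      · obtain ⟨i, hi, hL⟩ := upI h
        exact ⟨i, hi, Or.inl hL⟩
      · obtain ⟨i, hi, hH⟩ := dnI h
        exact ⟨i, hi, Or.inr hH⟩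
    obtain ⟨i, hi, hLH⟩ := hout
    cases d with
    | up =>
      obtain ⟨j, b, hb, h1, h2⟩ := upS hS
      obtain rfl := Y.ln_unique hi hb.1.1
      rcases hLH with hL | hH
      · exact h2 hL
      · exact h1 ⟨hH.1, hH.2.1, hH.2.2.trans hb.1.2.2.1⟩
    | dn =>
      obtain ⟨j, a, ha, h1, h2⟩ := dnS hS
      obtain rfl := Y.ln_unique hi ha.1.2.1
      rcases hLH with hL | hH
      · exact h2 ⟨hL.1, fun k => ha.1.2.2.1.trans (hL.2.1 k), fun k => ha.1.2.2.1.trans (hL.2.2 k)⟩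
      · exact h1 hH
    | rt =>
      obtain ⟨j, hj, rfl, -⟩ := Y.used_rt hS
      obtain rfl := Y.ln_unique hi (rtL hj)
      rcases hLH with hL | hH
      · exact lt_irrefl _ (hL.2.2 hj)
      · have := hH.2.2
        rw [max_lt_iff] at this
        exact lt_irrefl _ this.2
    | lf =>
      obtain ⟨j, hj, rfl, -⟩ := Y.used_lf hS
      obtain rfl := Y.ln_unique hi (lfR hj)
      rcases hLH with hL | hH
      · exact lt_irrefl _ (hL.2.1 hj)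
      · have := hH.2.2
        rw [max_lt_iff] at this
        exact lt_irrefl _ this.1
  · rintro ⟨h1, h2, h3⟩
    obtain ⟨i, b, hb, k1, k2⟩ := upS h1
    obtain ⟨j, a, ha, k3, k4⟩ := dnS h2
    obtain ⟨m, hm, hp, -⟩ := Y.used_rt h3
    obtain rfl : i = j := Y.ln_unique hb.1.1 ha.1.2.1
    obtain rfl : i = m := Y.ln_unique hb.1.1 (hp ▸ rtL hm)
    have hpa := ha.1.2.2.1
    have hpb := hb.1.2.2.1
    by_cases hl : Y.HasBr x₀ (i - 1)
    · have n1 : (Y.brR x₀ (i - 1)).2 ≤ a.2 := by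
        by_contra hh
        exact k4 ⟨Or.inl hl, fun _ => by linarith, fun _ => by rw [← hp]; exact hpa⟩
      exact k1 ⟨hl, hm, max_lt (by linarith) (by rw [← hp]; exact hpb)⟩
    · exact k4 ⟨Or.inr hm, fun k => absurd k hl, fun _ => by rw [← hp]; exact hpa⟩
  · rintro ⟨h1, h2, h3⟩
    obtain ⟨i, b, hb, k1, k2⟩ := upS h1
    obtain ⟨j, a, ha, k3, k4⟩ := dnS h2
    obtain ⟨m, hm, hp, -⟩ := Y.used_lf h3
    obtain rfl : i = j := Y.ln_unique hb.1.1 ha.1.2.1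
    obtain rfl : i = m := Y.ln_unique hb.1.1 (hp ▸ lfR hm)
    have hpa := ha.1.2.2.1
    have hpb := hb.1.2.2.1
    by_cases hl : Y.HasBr x₀ i
    · have n1 : (Y.brL x₀ i).2 ≤ a.2 := by
        by_contra hh
        exact k4 ⟨Or.inl hm, fun _ => by rw [← hp]; exact hpa, fun _ => by linarith⟩
      exact k1 ⟨hm, hl, max_lt (by rw [← hp]; exact hpb) (by linarith)⟩
    · exact k4 ⟨Or.inl hm, fun _ => by rw [← hp]; exact hpa, fun k => absurd k hl⟩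
  · rintro ⟨h1, h2, h3⟩
    obtain ⟨i, b, hb, k1, k2⟩ := upS h1
    obtain ⟨j, hj, hp, -⟩ := Y.used_rt h2
    obtain ⟨m, hm, hp', -⟩ := Y.used_lf h3
    obtain rfl : i = j := Y.ln_unique hb.1.1 (hp ▸ rtL hj)
    obtain rfl : i = m := Y.ln_unique hb.1.1 (hp' ▸ lfR hm)
    exact k1 ⟨hm, hj, max_lt (by rw [← hp']; exact hb.1.2.2.1) (by rw [← hp]; exact hb.1.2.2.1)⟩
  · rintro ⟨h1, h2, h3⟩
    obtain ⟨i, a, ha, k1, k2⟩ := dnS h1
    obtain ⟨j, hj, hp, -⟩ := Y.used_rt h2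
    obtain ⟨m, hm, hp', -⟩ := Y.used_lf h3
    obtain rfl : i = j := Y.ln_unique ha.1.2.1 (hp ▸ rtL hj)
    obtain rfl : i = m := Y.ln_unique ha.1.2.1 (hp' ▸ lfR hm)
    exact k2 ⟨Or.inl hm, fun _ => by rw [← hp']; exact ha.1.2.2.1,
      fun _ => by rw [← hp]; exact ha.1.2.2.1⟩

end Sys

end Pool.Agent.H79.Bar
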