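import Pool.Agent.H79.BarGeom

/-!
# The structure of the bars along the lines `x₀ + i`
-/

open scoped Topology Classical

namespace Pool.Agent.H79.Bar

namespace Sys

variable {V : Type} {T : SimpleGraph V} (Y : Sys T)

/-- A good origin: no bar ends on a line `x₀ + i`. -/
def Good (x₀ : ℝ) : Prop := ∀ i : ℤ, Y.Gen (x₀ + i)

theorem exists_good : ∃ x₀, Y.Good x₀ := by
  have hc : (⋃ p ∈ Y.S, Set.range fun i : ℤ => p.1 - (i : ℝ)).Countable :=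
    Set.Countable.biUnion Y.S.countable_toSet fun p _ => Set.countable_range _
  obtain ⟨x₀, hx⟩ := (hc.dense_compl ℝ).nonempty
  simp only [Set.mem_compl_iff, Set.mem_iUnion, Set.mem_range, not_exists] at hx
  refine ⟨x₀, fun i p hp => ⟨fun h => hx p hp i (by linarith), fun h => hx p hp (i - 1) ?_⟩⟩
  push_cast
  linarith

/-- The bars on the line `x₀ + i`. -/
noncomputable abbrev ln (x₀ : ℝ) (i : ℤ) : Finset (ℝ × ℝ) := Y.line (x₀ + i)

variable {x₀ : ℝ}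

theorem exists_ln (h₀ : Y.Good x₀) {p : ℝ × ℝ} (hp : p ∈ Y.S) : ∃ i, p ∈ Y.ln x₀ i := by
  refine ⟨⌊p.1 - x₀⌋ + 1, Y.mem_line.2 ⟨hp, ?_, ?_⟩⟩
  · push_cast
    linarith [Int.lt_floor_add_one (p.1 - x₀)]
  · have h1 := Int.floor_le (p.1 - x₀)
    have h2 := (h₀ (⌊p.1 - x₀⌋ + 1) p hp).2
    refine lt_of_le_of_ne ?_ h2.symm
    push_cast
    linarith

theorem ln_unique {p : ℝ × ℝ} {i j : ℤ} (hi : p ∈ Y.ln x₀ i) (hj : p ∈ Y.ln x₀ j) : i = j := by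
  have h1 := (Y.mem_line.1 hi).2
  have h2 := (Y.mem_line.1 hj).2
  have h3 : (i : ℝ) < j + 1 := by linarith [h1.1, h1.2, h2.1, h2.2]
  have h4 : (j : ℝ) < i + 1 := by linarith [h1.1, h1.2, h2.1, h2.2]
  have h5 : i < j + 1 := by exact_mod_cast h3
  have h6 : j < i + 1 := by exact_mod_cast h4
  omega

theorem mem_gap (h₀ : Y.Good x₀) {x : ℝ} {i : ℤ} (h1 : x₀ + i < x) (h2 : x < x₀ + (i + 1 : ℤ))
    {p : ℝ × ℝ} (hp : p ∈ Y.line x) : p ∈ Y.ln x₀ i ∨ p ∈ Y.ln x₀ (i + 1) := by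
  rw [mem_line] at hp
  obtain ⟨hS, h3, h4⟩ := hp
  push_cast at h2
  rcases lt_or_gt_of_ne (h₀ i p hS).1 with h | h
  · left
    exact Y.mem_line.2 ⟨hS, h, by linarith⟩
  · right
    refine Y.mem_line.2 ⟨hS, ?_, ?_⟩ <;> push_cast <;> linarith

/-- The owners of the bars on the line `x₀ + i`. -/
def Own (x₀ : ℝ) (i : ℤ) (v : V) : Prop := ∃ p ∈ Y.ln x₀ i, Y.own p = v

/-- The edge `e` is realised on the line `x₀ + i`. -/
def Real' (x₀ : ℝ) (i : ℤ) (e : Sym2 V) : Prop :=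
  ∃ a b, Y.Cons (x₀ + i) a b ∧ s(Y.own a, Y.own b) = e

theorem line_reach (h₀ : Y.Good x₀) {i : ℤ} {e : Sym2 V} (he : ¬ Y.Real' x₀ i e) {u v : V}
    (hu : Y.Own x₀ i u) (hv : Y.Own x₀ i v) : (T.deleteEdges {e}).Reachable u v := by
  obtain ⟨p, hp, rfl⟩ := hu
  obtain ⟨q, hq, rfl⟩ := hv
  rcases le_total p.2 q.2 with h | h
  · exact Y.reachable (h₀ i) e hp hq h fun a b hab _ _ hs => he ⟨a, b, hab, hs⟩
  · exact (Y.reachable (h₀ i) e hq hp h fun a b hab _ _ hs => he ⟨a, b, hab, hs⟩).symm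

theorem own_of_real {i : ℤ} {u v : V} (h : Y.Real' x₀ i s(u, v)) :
    Y.Own x₀ i u ∧ Y.Own x₀ i v := by
  obtain ⟨a, b, hab, hs⟩ := h
  rw [Sym2.eq_iff] at hs
  rcases hs with ⟨h1, h2⟩ | ⟨h1, h2⟩
  · exact ⟨⟨a, hab.1, h1⟩, ⟨b, hab.2.1, h2⟩⟩
  · exact ⟨⟨b, hab.2.1, h2⟩, ⟨a, hab.1, h1⟩⟩

theorem real_of_own (h₀ : Y.Good x₀) (hT : T.IsAcyclic) {i : ℤ} {u v : V} (h : T.Adj u v)
    (hu : Y.Own x₀ i u) (hv : Y.Own x₀ i v) : Y.Real' x₀ i s(u, v) := by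
  obtain ⟨p, hp, rfl⟩ := hu
  obtain ⟨q, hq, rfl⟩ := hv
  rcases le_total p.2 q.2 with hl | hl
  · obtain ⟨a, b, hab, -, -, hs⟩ := Y.exists_real hT (h₀ i) hp hq hl h
    exact ⟨a, b, hab, hs⟩
  · obtain ⟨a, b, hab, -, -, hs⟩ := Y.exists_real hT (h₀ i) hq hp hl h.symm
    exact ⟨a, b, hab, hs.trans Sym2.eq_swap⟩

/-- A bridge between the lines `x₀ + i` and `x₀ + i + 1`. -/
structure Br (x₀ : ℝ) (i : ℤ) (p q : ℝ × ℝ) : Prop where
  left : p ∈ Y.ln x₀ i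
  right : q ∈ Y.ln x₀ (i + 1)
  adj : T.Adj (Y.own p) (Y.own q)
  notR : ¬ Y.Own x₀ (i + 1) (Y.own p)
  notL : ¬ Y.Own x₀ i (Y.own q)
  meet : ∃ x, x₀ + i < x ∧ x < x₀ + (i + 1 : ℤ) ∧ Y.Gen x ∧ p ∈ Y.line x ∧ q ∈ Y.line x

theorem Br.own_eq (h₀ : Y.Good x₀) (hT : T.IsAcyclic) {i : ℤ} {p q : ℝ × ℝ}
    (h : Y.Br x₀ i p q) {u v : V} (hu : Y.Own x₀ i u) (hv : Y.Own x₀ (i + 1) v) (ha : T.Adj u v) :
    u = Y.own p ∧ v = Y.own q := by
  set e := s(Y.own p, Y.own q) with he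
  have n1 : ¬ Y.Real' x₀ i e := fun hr => h.notL (Y.own_of_real hr).2
  have n2 : ¬ Y.Real' x₀ (i + 1) e := fun hr => h.notR (Y.own_of_real hr).1
  have r1 := Y.line_reach h₀ n1 ⟨p, h.left, rfl⟩ hu
  have r2 := Y.line_reach h₀ n2 hv ⟨q, h.right, rfl⟩
  by_cases hs : s(u, v) = e
  · rw [he, Sym2.eq_iff] at hs
    rcases hs with hs | hs
    · exact hs
    · exact absurd (hs.1 ▸ hu) h.notL
  · exfalso
    have r3 : (T.deleteEdges {e}).Reachable u v :=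
      SimpleGraph.Adj.reachable (by rw [SimpleGraph.deleteEdges_adj]; exact ⟨ha, hs⟩)
    exact (SimpleGraph.isAcyclic_iff_forall_adj_isBridge.1 hT h.adj) (r1.trans (r3.trans r2))

theorem Br.disjoint (h₀ : Y.Good x₀) (hT : T.IsAcyclic) {i : ℤ} {p q : ℝ × ℝ}
    (h : Y.Br x₀ i p q) {z : V} (h1 : Y.Own x₀ i z) (h2 : Y.Own x₀ (i + 1) z) : False := by
  set e := s(Y.own p, Y.own q) with he
  have n1 : ¬ Y.Real' x₀ i e := fun hr => h.notL (Y.own_of_real hr).2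
  have n2 : ¬ Y.Real' x₀ (i + 1) e := fun hr => h.notR (Y.own_of_real hr).1
  have r1 := Y.line_reach h₀ n1 ⟨p, h.left, rfl⟩ h1
  have r2 := Y.line_reach h₀ n2 h2 ⟨q, h.right, rfl⟩
  exact (SimpleGraph.isAcyclic_iff_forall_adj_isBridge.1 hT h.adj) (r1.trans r2)

/-- Between a bar of the line `x₀ + i` and a bar of the line `x₀ + i + 1` on a generic line in the
gap, there are two consecutive bars with the owners of the bridge. -/
theorem Br.trans (h₀ : Y.Good x₀) (hT : T.IsAcyclic) {i : ℤ} {a b : ℝ × ℝ}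
    (h : Y.Br x₀ i a b) {x : ℝ} (h1 : x₀ + i < x) (h2 : x < x₀ + (i + 1 : ℤ)) (hx : Y.Gen x)
    {p q : ℝ × ℝ} (hp : p ∈ Y.line x) (hq : q ∈ Y.line x) (hp' : p ∈ Y.ln x₀ i)
    (hq' : q ∈ Y.ln x₀ (i + 1)) :
    (∃ c ∈ Y.ln x₀ i, c ∈ Y.line x ∧ Y.own c = Y.own a ∧ min p.2 q.2 ≤ c.2 ∧ c.2 ≤ max p.2 q.2) ∧
    (∃ d ∈ Y.ln x₀ (i + 1), d ∈ Y.line x ∧ Y.own d = Y.own b ∧ min p.2 q.2 ≤ d.2 ∧
      d.2 ≤ max p.2 q.2) := by
  have hdis : ∀ r, r ∈ Y.ln x₀ i → r ∈ Y.ln x₀ (i + 1) → False := fun r h1 h2 => by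
    have := Y.ln_unique h1 h2
    omega
  -- consecutive bars of different type
  have main : ∃ c d, c ∈ Y.ln x₀ i ∧ d ∈ Y.ln x₀ (i + 1) ∧ (Y.Cons x c d ∨ Y.Cons x d c) ∧
      min p.2 q.2 ≤ c.2 ∧ c.2 ≤ max p.2 q.2 ∧ min p.2 q.2 ≤ d.2 ∧ d.2 ≤ max p.2 q.2 := by
    by_contra hne
    push Not at hne
    rcases le_total p.2 q.2 with hl | hl
    · rw [min_eq_left hl, max_eq_right hl] at hne
      have := Y.line_induction (fun r => r ∈ Y.ln x₀ i ∧ p.2 ≤ r.2 ∧ r.2 ≤ q.2) hp hq hl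
        ⟨hp', le_rfl, hl⟩ (by
        intro r s hrs hr1 hs1 ⟨hr2, hr3, hr4⟩
        rcases Y.mem_gap h₀ h1 h2 hrs.2.1 with hs2 | hs2
        · exact ⟨hs2, hr3.trans hrs.2.2.1.le, hs1⟩
        · have := hne r s hr2 hs2 (Or.inl hrs) hr3 hr4 (hr3.trans hrs.2.2.1.le)
          linarith)
      exact hdis q this.1 hq'
    · rw [min_eq_right hl, max_eq_left hl] at hne
      have := Y.line_induction (fun r => r ∈ Y.ln x₀ (i + 1) ∧ q.2 ≤ r.2 ∧ r.2 ≤ p.2) hq hp hl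
        ⟨hq', le_rfl, hl⟩ (by
        intro r s hrs hr1 hs1 ⟨hr2, hr3, hr4⟩
        rcases Y.mem_gap h₀ h1 h2 hrs.2.1 with hs2 | hs2
        · have := hne s r hs2 hr2 (Or.inr hrs) (hr3.trans hrs.2.2.1.le) hs1 hr3
          linarith
        · exact ⟨hs2, hr3.trans hrs.2.2.1.le, hs1⟩)
      exact hdis p hp' this.1
  obtain ⟨c, d, hc, hd, hcd, b1, b2, b3, b4⟩ := main
  have hadj : T.Adj (Y.own c) (Y.own d) := by
    rcases hcd with hcd | hcd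
    · rcases Y.own_of_cons hx hcd with he | ha
      · exact (h.disjoint Y h₀ hT ⟨c, hc, rfl⟩ ⟨d, hd, he.symm⟩).elim
      · exact ha
    · rcases Y.own_of_cons hx hcd with he | ha
      · exact (h.disjoint Y h₀ hT ⟨c, hc, rfl⟩ ⟨d, hd, he⟩).elim
      · exact ha.symm
  obtain ⟨e1, e2⟩ := h.own_eq Y h₀ hT ⟨c, hc, rfl⟩ ⟨d, hd, rfl⟩ hadj
  have hcl : c ∈ Y.line x := by rcases hcd with hcd | hcd; exacts [hcd.1, hcd.2.1]
  have hdl : d ∈ Y.line x := by rcases hcd with hcd | hcd; exacts [hcd.2.1, hcd.1]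
  exact ⟨⟨c, hc, hcl, e1, b1, b2⟩, ⟨d, hd, hdl, e2, b3, b4⟩⟩

/-- The key geometric fact: a bar that is the only one of its owner on its line and is used by the
bridges on both sides does not have bars both above and below it on its line. The sign `σ` allows
to turn the picture upside down. -/
theorem no_cross_aux (h₀ : Y.Good x₀) (hT : T.IsAcyclic) {i : ℤ} {a b b' c u d : ℝ × ℝ}
    (hab : Y.Br x₀ (i - 1) a b') (hbc : Y.Br x₀ i b c) (hb' : b' = b)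
    (honly : ∀ r ∈ Y.ln x₀ i, Y.own r = Y.own b → r = b) (hu : u ∈ Y.ln x₀ i)
    (hd : d ∈ Y.ln x₀ i) {σ : ℝ} (hσ : σ = 1 ∨ σ = -1) (hub : σ * b.2 < σ * u.2)
    (hdb : σ * d.2 < σ * b.2) (ha : σ * b.2 < σ * a.2) : False := by
  subst hb'
  have hi : i - 1 + 1 = i := by omega
  -- the two transition statements
  have tL : ∀ x, x₀ + (i - 1 : ℤ) < x → x < x₀ + i → Y.Gen x → ∀ p q, p ∈ Y.line x →
      q ∈ Y.line x → p ∈ Y.ln x₀ (i - 1) → q ∈ Y.ln x₀ i →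
      b' ∈ Y.line x ∧ min p.2 q.2 ≤ b'.2 ∧ b'.2 ≤ max p.2 q.2 := by
    intro x h1 h2 hx p q hp hq hp' hq'
    obtain ⟨-, r, hr, hrl, ho, m1, m2⟩ := hab.trans Y h₀ hT h1 (by rw [hi]; exact h2) hx hp hq hp'
      (by rw [hi]; exact hq')
    rw [hi] at hr
    rw [← honly r hr ho]
    exact ⟨hrl, m1, m2⟩
  have tR : ∀ x, x₀ + i < x → x < x₀ + (i + 1 : ℤ) → Y.Gen x → ∀ p q, p ∈ Y.line x →
      q ∈ Y.line x → p ∈ Y.ln x₀ i → q ∈ Y.ln x₀ (i + 1) →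
      b' ∈ Y.line x ∧ min p.2 q.2 ≤ b'.2 ∧ b'.2 ≤ max p.2 q.2 := by
    intro x h1 h2 hx p q hp hq hp' hq'
    obtain ⟨⟨r, hr, hrl, ho, m1, m2⟩, -⟩ := hbc.trans Y h₀ hT h1 h2 hx hp hq hp' hq'
    rw [← honly r hr ho]
    exact ⟨hrl, m1, m2⟩
  obtain ⟨x1, y1, y2, -, y4, y5⟩ := hab.meet
  obtain ⟨x2, z1, z2, -, z4, z5⟩ := hbc.meet
  have ea := (Y.mem_line.1 hab.left).2
  have eb := (Y.mem_line.1 hbc.left).2
  have ec := (Y.mem_line.1 hbc.right).2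
  have eu := (Y.mem_line.1 hu).2
  have ed := (Y.mem_line.1 hd).2
  have ea1 := (Y.mem_line.1 y4).2
  have eb1 := (Y.mem_line.1 y5).2
  have eb2 := (Y.mem_line.1 z4).2
  have ec2 := (Y.mem_line.1 z5).2
  have sa := (Y.mem_line.1 hab.left).1
  have sc := (Y.mem_line.1 hbc.right).1
  have su := (Y.mem_line.1 hu).1
  have sd := (Y.mem_line.1 hd).1
  simp only [Stab] at ea eb ec eu ed ea1 eb1 eb2 ec2
  push_cast at ea ec y1 y2 z2
  -- `u` starts after `a` has ended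
  have hu1 : a.1 + 1 ≤ u.1 := by
    by_contra hlt
    push Not at hlt
    have hmax : max u.1 (x₀ + (i - 1)) < a.1 + 1 := max_lt hlt (by linarith)
    obtain ⟨x, g1, g2, g3, -⟩ := Y.exists_gen hmax Set.countable_empty
    rw [max_lt_iff] at g1
    obtain ⟨-, m1, m2⟩ := tL x (by push_cast; linarith) (by linarith) g3 a u
      (Y.mem_line.2 ⟨sa, by linarith, g2⟩) (Y.mem_line.2 ⟨su, g1.1, by linarith⟩) hab.left hu
    rcases hσ with rfl | rfl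
    · rcases min_le_iff.1 m1 with h | h <;> linarith
    · rcases le_max_iff.1 m2 with h | h <;> linarith
  have hd1 : b'.1 ≤ d.1 := by
    by_contra hlt
    push Not at hlt
    have hmax : max d.1 (x₀ + (i - 1)) < min b'.1 (a.1 + 1) := by
      rw [lt_min_iff, max_lt_iff, max_lt_iff]
      exact ⟨⟨hlt, by linarith⟩, ⟨by linarith, by linarith⟩⟩
    obtain ⟨x, g1, g2, g3, -⟩ := Y.exists_gen hmax Set.countable_empty
    rw [max_lt_iff] at g1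
    rw [lt_min_iff] at g2
    obtain ⟨m0, -, -⟩ := tL x (by push_cast; linarith) (by linarith) g3 a d
      (Y.mem_line.2 ⟨sa, by linarith, g2.2⟩) (Y.mem_line.2 ⟨sd, g1.1, by linarith⟩) hab.left hd
    have := (Y.mem_line.1 m0).2.1
    linarith
  -- the right-hand side
  have hright : ∀ w, w ∈ Y.ln x₀ i → (σ * b'.2 < σ * w.2 ∧ σ * b'.2 < σ * c.2 ∨
      σ * w.2 < σ * b'.2 ∧ σ * c.2 < σ * b'.2) → w.1 + 1 ≤ c.1 := by
    intro w hw hside
    by_contra hlt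
    push Not at hlt
    have ew := (Y.mem_line.1 hw).2
    simp only [Stab] at ew
    obtain ⟨x, g1, g2, g3, -⟩ := Y.exists_gen hlt Set.countable_empty
    obtain ⟨-, m1, m2⟩ := tR x (by linarith) (by push_cast; linarith) g3 w c
      (Y.mem_line.2 ⟨(Y.mem_line.1 hw).1, by linarith, g2⟩)
      (Y.mem_line.2 ⟨sc, g1, by linarith⟩) hw hbc.right
    rcases hσ with rfl | rfl <;> rcases hside with hs | hs
    · rcases min_le_iff.1 m1 with h | h <;> linarith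
    · rcases le_max_iff.1 m2 with h | h <;> linarith
    · rcases le_max_iff.1 m2 with h | h <;> linarith
    · rcases min_le_iff.1 m1 with h | h <;> linarith
  have hcb : c.2 ≠ b'.2 := Y.height_ne z5 z4 (fun h => by
    have h1 := hbc.right
    rw [h] at h1
    have := Y.ln_unique h1 hbc.left
    omega)
  rcases lt_or_gt_of_ne (show σ * c.2 ≠ σ * b'.2 from by
    rcases hσ with rfl | rfl
    · simpa using hcb
    · simpa using hcb) with h | h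
  · have := hright d hd (Or.inr ⟨hdb, h⟩)
    linarith
  · have := hright u hu (Or.inl ⟨hub, h⟩)
    linarith

theorem no_cross (h₀ : Y.Good x₀) (hT : T.IsAcyclic) {i : ℤ} {a b c u d : ℝ × ℝ}
    (hab : Y.Br x₀ (i - 1) a b) (hbc : Y.Br x₀ i b c)
    (honly : ∀ r ∈ Y.ln x₀ i, Y.own r = Y.own b → r = b) (hu : u ∈ Y.ln x₀ i)
    (hd : d ∈ Y.ln x₀ i) (hub : b.2 < u.2) (hdb : d.2 < b.2) : False := by
  obtain ⟨x1, y1, y2, -, y4, y5⟩ := hab.meet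
  have hne : a.2 ≠ b.2 := Y.height_ne y4 y5 (fun h => by
    have h1 := hab.left
    rw [h] at h1
    have := Y.ln_unique h1 hbc.left
    omega)
  rcases lt_or_gt_of_ne hne with h | h
  · exact Y.no_cross_aux h₀ hT hab hbc rfl honly hd hu (σ := -1) (Or.inr rfl) (by linarith)
      (by linarith) (by linarith)
  · exact Y.no_cross_aux h₀ hT hab hbc rfl honly hu hd (σ := 1) (Or.inl rfl) (by linarith)
      (by linarith) (by linarith)

end Sys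

end Pool.Agent.H79.Bar
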