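import Pool.Agent.H79.BarDecomp

/-!
# The bar visibility number and the minimum size in terms of labelings
-/

open scoped Topology Classical

namespace Pool.Agent.H79.Bar

variable {V : Type}

theorem C_sum {ι : Type} (s : Finset ι) (f g h : ι → ℕ) :
    C (∑ i ∈ s, f i) (∑ i ∈ s, g i) (∑ i ∈ s, h i) ≤ ∑ i ∈ s, C (f i) (g i) (h i) := by
  unfold C
  apply max_le
  · exact Finset.sum_le_sum fun i _ => le_max_left _ _
  · calc _ ≤ ∑ i ∈ s, h i + ∑ i ∈ s, (f i + 1) / 2 := Nat.add_le_add_left (half_sum s f) _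
      _ = ∑ i ∈ s, (h i + (f i + 1) / 2) := Finset.sum_add_distrib.symm
      _ ≤ _ := Finset.sum_le_sum fun i _ => le_max_right _ _

theorem exists_of_ub_eq_one {G : SimpleGraph V} (h : ub G = 1) :
    ∃ B : V → Finset (ℝ × ℝ), IsRep G 1 B := by
  have hne : {t : ℕ | 0 < t ∧ ∃ B : V → Finset (ℝ × ℝ), IsRep G t B}.Nonempty := by
    by_contra hcon
    rw [Set.not_nonempty_iff_eq_empty] at hcon
    unfold ub at h
    rw [hcon, Nat.sInf_empty] at h
    exact absurd h (by norm_num)
  have := Nat.sInf_mem hne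
  unfold ub at h
  rw [h] at this
  exact this.2

/-- From a decomposition to a labeling. -/
theorem IsDecomp.exists_labeling [Fintype V] {T : SimpleGraph V} {l : ℕ}
    {D : Fin l → T.Subgraph} (hD : IsDecomp T D) :
    ∃ x : V → V → Lab, (∀ v w, T.Adj v w → x w v = (x v w).dual) ∧
      ∀ v, CC T x v ≤ load D v := by
  have hex : ∀ i, ∃ y : V → V → Lab, (∀ v w, (D i).Adj v w → y w v = (y v w).dual) ∧
      ∀ v ∈ (D i).verts, C (Finset.univ.filter fun w => (D i).Adj v w ∧ y v w = .S).card
        (Finset.univ.filter fun w => (D i).Adj v w ∧ y v w = .O).card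
        (Finset.univ.filter fun w => (D i).Adj v w ∧ y v w = .I).card ≤ 1 := by
    intro i
    obtain ⟨B, hB⟩ := exists_of_ub_eq_one (hD.ubvt i).2
    have : Fintype (D i).verts := Fintype.ofFinite _
    obtain ⟨z, hz, hz'⟩ := hB.exists_labeling (hD.ubvt i).1.isAcyclic
    set y : V → V → Lab := fun v w =>
      if h : v ∈ (D i).verts ∧ w ∈ (D i).verts then z ⟨v, h.1⟩ ⟨w, h.2⟩ else .S with hy
    have hyz : ∀ v w (hv : v ∈ (D i).verts) (hw : w ∈ (D i).verts), y v w = z ⟨v, hv⟩ ⟨w, hw⟩ := by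
      intro v w hv hw
      simp only [hy, dif_pos (And.intro hv hw)]
    refine ⟨y, ?_, ?_⟩
    · intro v w h
      rw [hyz v w h.fst_mem h.snd_mem, hyz w v h.snd_mem h.fst_mem]
      exact hz ⟨v, _⟩ ⟨w, _⟩ h
    · intro v hv
      have hc : ∀ l, (Finset.univ.filter fun w => (D i).Adj v w ∧ y v w = l).card =
          cnt (D i).coe z ⟨v, hv⟩ l := by
        intro l
        unfold cnt
        symm
        refine Finset.card_bij (fun w _ => (w : V)) ?_ ?_ ?_
        · rintro ⟨w, hw⟩ h
          simp only [Finset.mem_filter, Finset.mem_univ, true_and,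
            SimpleGraph.Subgraph.coe_adj] at h ⊢
          exact ⟨h.1, by rw [hyz v w hv hw]; exact h.2⟩
        · intro w _ w' _ h
          exact Subtype.ext h
        · intro w h
          simp only [Finset.mem_filter, Finset.mem_univ, true_and] at h
          refine ⟨⟨w, h.1.snd_mem⟩, ?_, rfl⟩
          simp only [Finset.mem_filter, Finset.mem_univ, true_and, SimpleGraph.Subgraph.coe_adj]
          exact ⟨h.1, by rw [← hyz v w hv h.1.snd_mem]; exact h.2⟩
      rw [hc, hc, hc]
      exact hz' _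
  choose y hy1 hy2 using hex
  set x : V → V → Lab := fun v w => if h : ∃ i, (D i).Adj v w then y h.choose v w else .S with hx
  have hxy : ∀ i v w, (D i).Adj v w → x v w = y i v w := by
    intro i v w h
    have h1 : ∃ i, (D i).Adj v w := ⟨i, h⟩
    have h2 : h1.choose = i := by
      refine (hD.part s(v, w) ?_).unique ?_ ?_
      · exact h.adj_sub
      · exact h1.choose_spec
      · exact h
    simp only [hx, dif_pos h1]
    rw [h2]
  have hDT : ∀ v w, T.Adj v w → ∃ i, (D i).Adj v w := by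
    intro v w h
    obtain ⟨i, hi, -⟩ := hD.part s(v, w) h
    exact ⟨i, hi⟩
  refine ⟨x, ?_, ?_⟩
  · intro v w h
    obtain ⟨i, hi⟩ := hDT v w h
    rw [hxy i v w hi, hxy i w v hi.symm]
    exact hy1 i v w hi
  · intro v
    have hc : ∀ l, cnt T x v l =
        ∑ i, (Finset.univ.filter fun w => (D i).Adj v w ∧ y i v w = l).card := by
      intro l
      unfold cnt
      rw [← Finset.card_biUnion]
      · congr 1
        ext w
        simp only [Finset.mem_filter, Finset.mem_univ, true_and, Finset.mem_biUnion]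
        constructor
        · rintro ⟨h1, h2⟩
          obtain ⟨i, hi⟩ := hDT v w h1
          exact ⟨i, hi, by rw [← hxy i v w hi]; exact h2⟩
        · rintro ⟨i, hi, h2⟩
          exact ⟨hi.adj_sub, by rw [hxy i v w hi]; exact h2⟩
      · intro i _ j _ hij
        rw [Function.onFun, Finset.disjoint_left]
        intro w hw hw'
        simp only [Finset.mem_filter, Finset.mem_univ, true_and] at hw hw'
        refine hij ((hD.part s(v, w) ?_).unique hw.1 hw'.1)
        exact hw.1.adj_sub
    unfold CC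
    rw [hc, hc, hc]
    refine (C_sum _ _ _ _).trans ?_
    have h1 : load D v = ∑ i, if v ∈ (D i).verts then 1 else 0 := by
      rw [load, Nat.card_eq_fintype_card, Fintype.card_subtype, Finset.card_filter]
    rw [h1]
    refine Finset.sum_le_sum fun i _ => ?_
    by_cases hv : v ∈ (D i).verts
    · rw [if_pos hv]
      exact hy2 i v hv
    · rw [if_neg hv]
      have h0 : ∀ l, (Finset.univ.filter fun w => (D i).Adj v w ∧ y i v w = l).card = 0 := by
        intro l
        rw [Finset.card_eq_zero, Finset.filter_eq_empty_iff]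
        intro w _ hw
        exact hv hw.1.fst_mem
      rw [h0, h0, h0]
      simp [C]

/-- The size of a decomposition. -/
theorem IsDecomp.size [Fintype V] {T : SimpleGraph V} {l : ℕ}
    {D : Fin l → T.Subgraph} (hD : IsDecomp T D) :
    l + Nat.card T.edgeSet = ∑ v, load D v := by
  have h1 : Nat.card T.edgeSet = ∑ i, Nat.card (D i).edgeSet := by
    rw [← Nat.card_sigma]
    symm
    refine Nat.card_congr (Equiv.ofBijective
      (fun z : Σ i, (D i).edgeSet => (⟨z.2, (D z.1).edgeSet_subset z.2.2⟩ : T.edgeSet)) ⟨?_, ?_⟩)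
    · rintro ⟨i, e, he⟩ ⟨j, e', he'⟩ h
      simp only [Subtype.mk.injEq] at h
      subst h
      have := (hD.part e ((D i).edgeSet_subset he)).unique he he'
      subst this
      rfl
    · rintro ⟨e, he⟩
      obtain ⟨i, hi, -⟩ := hD.part e he
      exact ⟨⟨i, e, hi⟩, rfl⟩
  have h2 : ∑ v, load D v = ∑ i, Nat.card (D i).verts := by
    unfold load
    rw [← Nat.card_sigma, ← Nat.card_sigma]
    refine Nat.card_congr ⟨fun z => ⟨z.2.1, z.1, z.2.2⟩, fun z => ⟨z.2.1, z.1, z.2.2⟩, ?_, ?_⟩
    · intro z; rfl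
    · intro z; rfl
  have h3 : ∀ i, Nat.card (D i).verts = 1 + Nat.card (D i).edgeSet := by
    intro i
    have : Fintype (D i).verts := Fintype.ofFinite _
    have h4 := (hD.ubvt i).1.card_edgeFinset
    rw [Nat.card_eq_fintype_card, ← h4, add_comm]
    congr 1
    have h5 : (D i).edgeSet = Sym2.map (↑) '' (D i).coe.edgeSet :=
      ((D i).image_coe_edgeSet_coe).symm
    have h6 : Nat.card (D i).edgeSet = Nat.card (D i).coe.edgeSet := by
      rw [h5]
      exact Nat.card_image_of_injective (Sym2.map.injective Subtype.val_injective) _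
    rw [h6, Nat.card_eq_fintype_card, SimpleGraph.edgeFinset_card]
  rw [h1, h2, Finset.sum_congr rfl fun i _ => h3 i, Finset.sum_add_distrib]
  simp

/-- The possible total costs of labelings with at most `k` groups at every vertex. -/
def Costs [Fintype V] (T : SimpleGraph V) (k : ℕ) : Set ℕ :=
  {m | ∃ x : V → V → Lab, (∀ v w, T.Adj v w → x w v = (x v w).dual) ∧ (∀ v, CC T x v ≤ k) ∧
    ∑ v, CC T x v = m}

theorem ub_eq [Fintype V] [LinearOrder V] {T : SimpleGraph V} (hT : T.IsAcyclic) :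
    ub T = sInf {k | 0 < k ∧ (Costs T k).Nonempty} := by
  unfold ub
  congr 1
  ext k
  constructor
  · rintro ⟨h0, B, hB⟩
    obtain ⟨x, hx, hk⟩ := hB.exists_labeling hT
    exact ⟨h0, _, x, hx, hk, rfl⟩
  · rintro ⟨h0, m, x, hx, hk, -⟩
    exact ⟨h0, exists_rep hT hx hk⟩

theorem costs_nonempty [Fintype V] (T : SimpleGraph V) :
    ∃ k, 0 < k ∧ (Costs T k).Nonempty := by
  refine ⟨1 + ∑ v, CC T (fun _ _ => .S) v, by omega, _, fun _ _ => .S, fun _ _ _ => rfl, ?_, rfl⟩
  intro v
  have := Finset.single_le_sum (f := fun v => CC T (fun _ _ => .S) v) (fun _ _ => Nat.zero_le _)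
    (Finset.mem_univ v)
  omega

theorem costs_ub_nonempty [Fintype V] [LinearOrder V] {T : SimpleGraph V} (hT : T.IsAcyclic) :
    (Costs T (ub T)).Nonempty := by
  rw [ub_eq hT]
  exact (Nat.sInf_mem (costs_nonempty T)).2

theorem minSize_eq [Fintype V] [LinearOrder V] {T : SimpleGraph V} (hT : T.IsAcyclic) :
    minSize T + Nat.card T.edgeSet = sInf (Costs T (ub T)) := by
  have hne : {l : ℕ | ∃ D : Fin l → T.Subgraph, IsDecomp T D ∧ ∀ v, load D v ≤ ub T}.Nonempty := by
    obtain ⟨m, x, hx, hk, -⟩ := costs_ub_nonempty hT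
    obtain ⟨l, D, hD, hl⟩ := exists_decomp hT hx
    exact ⟨l, D, hD, fun v => (hl v).trans (hk v)⟩
  apply le_antisymm
  · obtain ⟨x, hx, hk, hs⟩ := Nat.sInf_mem (costs_ub_nonempty hT)
    obtain ⟨l, D, hD, hl⟩ := exists_decomp hT hx
    rw [← hs]
    have h0 : l ∈ {l : ℕ | ∃ D : Fin l → T.Subgraph, IsDecomp T D ∧ ∀ v, load D v ≤ ub T} :=
      ⟨D, hD, fun v => (hl v).trans (hk v)⟩
    calc minSize T + Nat.card T.edgeSet ≤ l + Nat.card T.edgeSet :=
          Nat.add_le_add_right (Nat.sInf_le h0) _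
      _ = ∑ v, load D v := hD.size
      _ ≤ ∑ v, CC T x v := Finset.sum_le_sum fun v _ => hl v
  · obtain ⟨D, hD, hl⟩ := Nat.sInf_mem hne
    obtain ⟨x, hx, hk⟩ := hD.exists_labeling
    have h0 : (∑ v, CC T x v) ∈ Costs T (ub T) := ⟨x, hx, fun v => (hk v).trans (hl v), rfl⟩
    have h1 : sInf (Costs T (ub T)) ≤ ∑ v, CC T x v := Nat.sInf_le h0
    refine h1.trans ?_
    have h2 : minSize T + Nat.card T.edgeSet = ∑ v, load D v := hD.size
    rw [h2]
    exact Finset.sum_le_sum fun v _ => hk v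

theorem exists_minDecomp [Fintype V] [LinearOrder V] {T : SimpleGraph V} (hT : T.IsAcyclic) :
    ∃ D : Fin (minSize T) → T.Subgraph, IsDecomp T D ∧ ∀ v, load D v ≤ ub T := by
  have hne : {l : ℕ | ∃ D : Fin l → T.Subgraph, IsDecomp T D ∧ ∀ v, load D v ≤ ub T}.Nonempty := by
    obtain ⟨m, x, hx, hk, -⟩ := costs_ub_nonempty hT
    obtain ⟨l, D, hD, hl⟩ := exists_decomp hT hx
    exact ⟨l, D, hD, fun v => (hl v).trans (hk v)⟩
  exact Nat.sInf_mem hne

end Pool.Agent.H79.Bar
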