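import Pool.Agent.H79.BarProg
import Pool.Agent.PPS.Bridge

/-!
# The algorithm runs in polynomial time
-/

namespace Pool.Agent.H79.Bar

open Pool.Agent.PPS

variable {m : Bool} {α β γ : Type} [Rep α] [Rep β] [Rep γ]

/-! ### List functions (the first three are helper87's) -/

omit [PPS.Rep β] in
theorem size_flatMap_le {l : List β} {f : β → List γ} {B : ℕ} (h : ∀ b ∈ l, size (f b) ≤ B) :
    size (l.flatMap f) ≤ l.length * B + 1 := by
  induction l with
  | nil => simp [size_nil]
  | cons b l ih =>
    rw [List.flatMap_cons, List.length_cons, Nat.add_mul, Nat.one_mul]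
    have h1 := size_append (f b) (l.flatMap f)
    have h2 := h b (by simp)
    have h3 := ih (fun c hc => h c (by simp [hc]))
    omega

theorem PT.flatMap' {l : α → List β} {f : α × β → List γ} (hl : PT m l) (hf : PT m f) :
    PT m (fun a => (l a).flatMap (fun b => f (a, b))) := by
  obtain ⟨p, hp⟩ := hl.exists_size_le
  obtain ⟨q, hq⟩ := hf.exists_size_le
  have hfold : ∀ (a : α) (l : List β), l.foldr (fun b y => f (a, b) ++ y) [] =
      l.flatMap (fun b => f (a, b)) := by
    intro a l
    induction l with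
    | nil => rfl
    | cons b l ih => rw [List.foldr_cons, ih, List.flatMap_cons]
  have hs : PT m (fun z : α × (β × List γ) => f (z.1, z.2.1) ++ z.2.2) := by
    have h1 : PT m (fun z : α × (β × List γ) => f (z.1, z.2.1)) :=
      hf.comp (f := fun z : α × (β × List γ) => (z.1, z.2.1)) (by fun_prop)
    exact PT.append' h1 (by fun_prop)
  have := PT.foldr (m := m) (s := fun z : α × (β × List γ) => f (z.1, z.2.1) ++ z.2.2)
    (ini := fun _ => []) hl (by fun_prop) hs
    (p * (q.comp (Polynomial.X + p + 1)) + 1) (by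
      intro a k
      simp only
      rw [hfold]
      simp only [Polynomial.eval_add, Polynomial.eval_mul, Polynomial.eval_comp,
        Polynomial.eval_X, Polynomial.eval_one]
      have h1 : ∀ b ∈ (l a).drop k, size (f (a, b)) ≤
          q.eval (size a + p.eval (size a) + 1) := by
        intro b hb
        refine (hq _).trans (polyMono _ ?_)
        rw [size_pair]
        have h2 := size_le_of_mem (List.mem_of_mem_drop hb)
        have h3 := hp a
        omega
      refine (size_flatMap_le h1).trans ?_
      have h4 : ((l a).drop k).length ≤ p.eval (size a) := by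
        rw [List.length_drop]
        exact (Nat.sub_le _ _).trans ((length_le_size' _).trans (hp a))
      have := Nat.mul_le_mul_right (q.eval (size a + p.eval (size a) + 1)) h4
      omega)
  convert this using 2 with a
  exact (hfold a (l a)).symm

theorem size_range_le (n : ℕ) : size (List.range n) ≤ n * (2 * n + 2) + 1 := by
  have h := size_list_le (l := List.range n) (B := 2 * n + 1) (by
    intro b hb
    rw [List.mem_range] at hb
    rw [size_nat]
    omega)
  rw [List.length_range] at h
  exact h

@[fun_prop]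
theorem PT.range' {f : α → ℕ} (hf : PT m f) : PT m (fun a => List.range (f a)) := by
  obtain ⟨p, hp⟩ := hf.exists_size_le
  have hit : ∀ k : ℕ, (fun y : ℕ × List ℕ => (y.1 + 1, y.2 ++ [y.1]))^[k] (0, []) =
      (k, List.range k) := by
    intro k
    induction k with
    | zero => rfl
    | succ k ih => rw [Function.iterate_succ_apply', ih, List.range_succ]
  have := PT.snd' (PT.iterate (m := m)
    (s := fun z : α × (ℕ × List ℕ) => ((z.2.1 + 1, z.2.2 ++ [z.2.1]) : ℕ × List ℕ))
    (ini := fun _ => (0, [])) hf (by fun_prop) (by fun_prop)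
    (p * (2 * p + 2) + 2 * p + 3) (by
      intro a k hk
      simp only
      rw [hit, size_pair, size_nat]
      have h1 := size_range_le k
      have h2 := hp a
      rw [size_nat] at h2
      have h3 : k ≤ p.eval (size a) := by omega
      have h4 : k * (2 * k + 2) ≤ p.eval (size a) * (2 * p.eval (size a) + 2) :=
        Nat.mul_le_mul h3 (by omega)
      simp only [Polynomial.eval_add, Polynomial.eval_mul, Polynomial.eval_ofNat]
      omega))
  convert this using 2 with a
  exact (congrArg Prod.snd (hit (f a))).symm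

theorem PT.filter' {l : α → List β} {p : α × β → Bool} (hl : PT m l) (hp : PT m p) :
    PT m (fun a => (l a).filter (fun b => p (a, b))) := by
  have h1 : PT m (fun z : α × β => bif p z then [z.2] else []) := by fun_prop
  refine (PT.flatMap' hl h1).of_eq fun a => ?_
  simp only
  induction l a with
  | nil => rfl
  | cons b l ih =>
    rw [List.flatMap_cons, ← ih]
    cases h : p (a, b) <;> simp [h]

theorem PT.all' {l : α → List β} {p : α × β → Bool} (hl : PT m l) (hp : PT m p) :
    PT m (fun a => (l a).all (fun b => p (a, b))) := by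
  have h1 := PT.filter' (m := m) (p := fun z => !(p z)) hl (by fun_prop)
  have h2 : PT m (fun a => decide (((l a).filter (fun b => !(p (a, b)))).length = 0)) := by
    fun_prop
  refine h2.of_eq fun a => ?_
  induction l a with
  | nil => rfl
  | cons b l ih =>
    cases h : p (a, b)
    · simp [h]
    · simp only [List.all_cons, h, Bool.true_and, ih]
      simp [h]

theorem PT.find' {l : α → List β} {p : α × β → Bool} (hl : PT m l) (hp : PT m p) :
    PT m (fun a => (l a).find? (fun b => p (a, b))) := by
  have h1 := PT.filter' (m := m) hl hp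
  refine (PT.head?' h1).of_eq fun a => ?_
  exact List.head?_filter.symm

@[fun_prop]
theorem PT.half' {f : α → ℕ} (hf : PT m f) : PT m (fun a => (f a + 1) / 2) := by
  obtain ⟨p, hp⟩ := hf.exists_size_le
  have hit : ∀ k : ℕ, (fun y : ℕ × ℕ => (y.2, y.1 + 1))^[k] (0, 0) = (k / 2, (k + 1) / 2) := by
    intro k
    induction k with
    | zero => rfl
    | succ k ih =>
      rw [Function.iterate_succ_apply', ih]
      simp only [Prod.mk.injEq, true_and]
      omega
  have := PT.snd' (PT.iterate (m := m)
    (s := fun z : α × (ℕ × ℕ) => ((z.2.2, z.2.1 + 1) : ℕ × ℕ))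
    (ini := fun _ => (0, 0)) hf (by fun_prop) (by fun_prop)
    (4 * p + 10) (by
      intro a k hk
      simp only
      rw [hit, size_pair, size_nat, size_nat]
      have h2 := hp a
      rw [size_nat] at h2
      simp only [Polynomial.eval_add, Polynomial.eval_mul, Polynomial.eval_ofNat]
      omega))
  convert this using 2 with a
  exact (congrArg Prod.snd (hit (f a))).symm

@[fun_prop]
theorem PT.mn' {f g : α → ℕ} (hf : PT m f) (hg : PT m g) : PT m (fun a => mn (f a) (g a)) := by
  unfold mn
  fun_prop

theorem C_eq (s o i : ℕ) : C s o i = bif decide (o ≤ i + (s + 1) / 2) then i + (s + 1) / 2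
    else o := by
  unfold C
  by_cases h : o ≤ i + (s + 1) / 2
  · rw [decide_eq_true h, cond_true, max_eq_right h]
  · rw [decide_eq_false h, cond_false, max_eq_left (by omega)]

@[fun_prop]
theorem PT.C' {f g h : α → ℕ} (hf : PT m f) (hg : PT m g) (hh : PT m h) :
    PT m (fun a => C (f a) (g a) (h a)) := by
  simp only [C_eq]
  fun_prop

/-! ### The algorithm -/

@[fun_prop]
theorem PT.leafB' {E : α → List (ℕ × ℕ)} {e : α → ℕ × ℕ} (hE : PT m E) (he : PT m e) :
    PT m (fun a => leafB (E a) (e a)) := by
  have h1 : PT m (fun z : α × (ℕ × ℕ) => e z.1) := he.comp (by fun_prop)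
  exact PT.all' (m := m) (p := fun z : α × (ℕ × ℕ) =>
    !(decide (z.2.1 = (e z.1).1)) || decide (z.2.2 = (e z.1).2)) hE (by fun_prop)

@[fun_prop]
theorem PT.findLeaf' {E : α → List (ℕ × ℕ)} (hE : PT m E) :
    PT m (fun a => findLeaf (E a)) := by
  have h1 : PT m (fun z : α × (ℕ × ℕ) => E z.1) := hE.comp (by fun_prop)
  exact PT.find' (m := m) (p := fun z : α × (ℕ × ℕ) => leafB (E z.1) z.2) hE (by fun_prop)

@[fun_prop]
theorem PT.del' {E : α → List (ℕ × ℕ)} {v : α → ℕ} (hE : PT m E) (hv : PT m v) :
    PT m (fun a => del (E a) (v a)) := by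
  have h1 : PT m (fun z : α × (ℕ × ℕ) => v z.1) := hv.comp (by fun_prop)
  exact PT.filter' (m := m) (p := fun z : α × (ℕ × ℕ) =>
    !(decide (z.2.1 = v z.1)) && !(decide (z.2.2 = v z.1))) hE (by fun_prop)

@[fun_prop]
theorem PT.idx' {f : α → ℕ} (hf : PT m f) : PT m (fun a => idx (f a)) := by
  have h1 : PT m (fun z : ((ℕ × ℕ) × ℕ) × ℕ =>
      (List.range (z.1.1.1 + 1)).map fun i => ((z.1.1.2, z.1.2, z.2, i) : Idx)) :=
    PT.map' (m := m) (f := fun w : (((ℕ × ℕ) × ℕ) × ℕ) × ℕ =>
      ((w.1.1.1.2, w.1.1.2, w.1.2, w.2) : Idx)) (by fun_prop) (by fun_prop)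
  have h2 : PT m (fun z : (ℕ × ℕ) × ℕ => (List.range (z.1.1 + 1)).flatMap fun o =>
      (List.range (z.1.1 + 1)).map fun i => ((z.1.2, z.2, o, i) : Idx)) :=
    PT.flatMap' (m := m) (l := fun z : (ℕ × ℕ) × ℕ => List.range (z.1.1 + 1)) (by fun_prop) h1
  have h3 : PT m (fun z : ℕ × ℕ => (List.range (z.1 + 1)).flatMap fun s =>
      (List.range (z.1 + 1)).flatMap fun o =>
      (List.range (z.1 + 1)).map fun i => ((z.2, s, o, i) : Idx)) :=
    PT.flatMap' (m := m) (l := fun z : ℕ × ℕ => List.range (z.1 + 1)) (by fun_prop) h2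
  have h4 : PT m (fun n : ℕ => idx n) :=
    PT.flatMap' (m := m) (l := fun n : ℕ => List.range n) (by fun_prop) h3
  exact h4.comp hf

@[fun_prop]
theorem PT.look' {T : α → List (Idx × ℕ)} {j : α → Idx} (hT : PT m T) (hj : PT m j) :
    PT m (fun a => look (T a) (j a)) := by
  have h1 : PT m (fun z : α × (Idx × ℕ) => j z.1) := hj.comp (by fun_prop)
  have h2 := PT.find' (m := m) (p := fun z : α × (Idx × ℕ) => decide (z.2.1 = j z.1)) hT
    (by fun_prop)
  have h3 := PT.optCase (m := m) (f := fun _ : α => 0)
    (g := fun z : (Idx × ℕ) × α => z.1.2) h2 (by fun_prop) (by fun_prop)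
  refine h3.of_eq fun a => ?_
  unfold look
  simp only
  cases (T a).find? (fun e => decide (e.1 = j a)) <;> rfl

theorem PT.mkT' {I : α → List Idx} {g : α × Idx → ℕ} (hI : PT m I) (hg : PT m g) :
    PT m (fun a => mkT (I a) fun j => g (a, j)) :=
  PT.map' (m := m) (f := fun z : α × Idx => (z.2, g z)) hI (by fun_prop)

theorem PT.newVal' : PT m (fun z : (ℕ × List (Idx × ℕ) × ℕ × ℕ) × Idx =>
    newVal z.1.1 z.1.2.1 z.1.2.2.1 z.1.2.2.2 z.2) := by
  unfold newVal
  fun_prop

theorem PT.initVal' : PT m (fun z : (ℕ × ℕ) × Idx => initVal z.1.1 z.1.2 z.2) := by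
  unfold initVal
  fun_prop

theorem PT.stp' : PT m (fun z : ℕ × (List (ℕ × ℕ) × List (Idx × ℕ)) => stp z.1 z.2) := by
  have h1 : PT m (fun z : ((ℕ × ℕ) × (ℕ × (List (ℕ × ℕ) × List (Idx × ℕ)))) × Idx =>
      newVal (z.1.2.1 * z.1.2.1 + 1) z.1.2.2.2 z.1.1.2 z.1.1.1 z.2) :=
    (PT.newVal' (m := m)).comp (f := fun z : ((ℕ × ℕ) ×
      (ℕ × (List (ℕ × ℕ) × List (Idx × ℕ)))) × Idx =>
      ((z.1.2.1 * z.1.2.1 + 1, z.1.2.2.2, z.1.1.2, z.1.1.1), z.2)) (by fun_prop)
  have h2 := PT.mkT' (m := m) (I := fun z : (ℕ × ℕ) ×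
    (ℕ × (List (ℕ × ℕ) × List (Idx × ℕ))) => idx z.2.1) (by fun_prop) h1
  have h3 := PT.optCase (m := m) (α := ℕ × (List (ℕ × ℕ) × List (Idx × ℕ)))
    (o := fun z => findLeaf z.2.1) (f := fun z => z.2)
    (g := fun z : (ℕ × ℕ) × (ℕ × (List (ℕ × ℕ) × List (Idx × ℕ))) =>
      (del z.2.2.1 z.1.1, mkT (idx z.2.1) fun j =>
        newVal (z.2.1 * z.2.1 + 1) z.2.2.2 z.1.2 z.1.1 j))
    (by fun_prop) (by fun_prop) (PT.prodMk (by fun_prop) h2)
  refine h3.of_eq fun z => ?_
  unfold stp
  cases findLeaf z.2.1 <;> rfl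

/-! ### Sizes -/

theorem size_filter_le (l : List β) (p : β → Bool) : size (l.filter p) ≤ size l := by
  induction l with
  | nil => exact le_rfl
  | cons b l ih =>
    rw [List.filter_cons]
    split_ifs
    · rw [size_cons, size_cons]; omega
    · rw [size_cons]; omega

theorem size_mkT_le {I : List Idx} {g : Idx → ℕ} {B : ℕ} (h : ∀ j, g j ≤ B) :
    size (mkT I g) ≤ size I * (size I + 2 * B + 3) + 1 := by
  unfold mkT
  have h1 : ∀ c ∈ I.map (fun j => (j, g j)), size c ≤ size I + 2 * B + 2 := by
    intro c hc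
    obtain ⟨j, hj, rfl⟩ := List.mem_map.mp hc
    rw [size_pair, size_nat]
    have h2 := size_le_of_mem hj
    have h3 := h j
    omega
  refine (size_list_le h1).trans ?_
  rw [List.length_map]
  have h4 := length_le_size' I
  have h5 : I.length * (size I + 2 * B + 2 + 1) ≤ size I * (size I + 2 * B + 3) :=
    Nat.mul_le_mul_right _ h4
  omega

theorem look_le {I : List Idx} {g : Idx → ℕ} {B : ℕ} (h : ∀ j, g j ≤ B) (j : Idx) :
    look (mkT I g) j ≤ B := by
  unfold look
  cases h1 : (mkT I g).find? (fun e => decide (e.1 = j)) with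
  | none => exact Nat.zero_le _
  | some e =>
    have h2 := List.mem_of_find?_eq_some h1
    unfold mkT at h2
    obtain ⟨j', -, rfl⟩ := List.mem_map.mp h2
    exact h j'

theorem mn_le_left (a b : ℕ) : mn a b ≤ a := by
  unfold mn
  by_cases h : a ≤ b
  · rw [decide_eq_true h]; exact le_rfl
  · rw [decide_eq_false h]; simp only [cond_false]; omega

theorem newVal_le {I : List Idx} {g : Idx → ℕ} {B : ℕ} (h : ∀ j, g j ≤ B) (u a : ℕ) (j : Idx) :
    newVal B (mkT I g) u a j ≤ B := by
  unfold newVal
  cases decide (j.1 = u)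
  · cases decide (j.1 = a)
    · exact look_le h j
    · exact Nat.zero_le _
  · exact mn_le_left _ _

theorem initVal_le (B k : ℕ) (j : Idx) (hk : k ≤ B) : initVal B k j ≤ B := by
  unfold initVal
  by_cases h : C j.2.1 j.2.2.1 j.2.2.2 ≤ k
  · rw [decide_eq_true h]; exact h.trans hk
  · rw [decide_eq_false h]; exact le_rfl

theorem stp_iter_size (n k : ℕ) (E : List (ℕ × ℕ)) (j : ℕ) :
    size ((fun z => stp n z)^[j] (E, mkT (idx n) fun j => initVal (n * n + 1) k j)).1 ≤ size E ∧
    ∃ g : Idx → ℕ, (∀ j, g j ≤ n * n + 1 + k) ∧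
      ((fun z => stp n z)^[j] (E, mkT (idx n) fun j => initVal (n * n + 1) k j)).2 =
        mkT (idx n) g := by
  induction j with
  | zero =>
    refine ⟨le_rfl, _, fun j => ?_, rfl⟩
    unfold initVal
    by_cases h : C j.2.1 j.2.2.1 j.2.2.2 ≤ k
    · rw [decide_eq_true h]; simp only [cond_true]; omega
    · rw [decide_eq_false h]; simp only [cond_false]; omega
  | succ j ih =>
    rw [Function.iterate_succ_apply']
    generalize (fun z => stp n z)^[j] (E, mkT (idx n) fun j => initVal (n * n + 1) k j) = z
      at ih ⊢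
    obtain ⟨h1, g, h2, h3⟩ := ih
    unfold stp
    cases findLeaf z.1 with
    | none => exact ⟨h1, g, h2, h3⟩
    | some e =>
      refine ⟨(size_filter_le _ _).trans h1, _, fun j => ?_, rfl⟩
      rw [h3]
      unfold newVal
      cases decide (j.1 = e.2)
      · cases decide (j.1 = e.1)
        · exact look_le h2 j
        · exact Nat.zero_le _
      · exact (mn_le_left _ _).trans (by omega)

theorem PT.final' : PT m (fun a : ℕ × ℕ × List (ℕ × ℕ) => final a.1 a.2.1 a.2.2) := by
  obtain ⟨p, hp⟩ := (PT.idx' (m := m) (f := fun n : ℕ => n) (by fun_prop)).exists_size_le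
  have hs : PT m (fun z : (ℕ × ℕ × List (ℕ × ℕ)) × (List (ℕ × ℕ) × List (Idx × ℕ)) =>
      stp z.1.1 z.2) :=
    (PT.stp' (m := m)).comp (f := fun z : (ℕ × ℕ × List (ℕ × ℕ)) ×
      (List (ℕ × ℕ) × List (Idx × ℕ)) => (z.1.1, z.2)) (by fun_prop)
  have hi : PT m (fun a : ℕ × ℕ × List (ℕ × ℕ) =>
      (a.2.2, mkT (idx a.1) fun j => initVal (a.1 * a.1 + 1) a.2.1 j)) := by
    have h1 : PT m (fun z : (ℕ × ℕ × List (ℕ × ℕ)) × Idx =>
        initVal (z.1.1 * z.1.1 + 1) z.1.2.1 z.2) :=
      (PT.initVal' (m := m)).comp (f := fun z : (ℕ × ℕ × List (ℕ × ℕ)) × Idx =>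
        ((z.1.1 * z.1.1 + 1, z.1.2.1), z.2)) (by fun_prop)
    exact PT.prodMk (by fun_prop) (PT.mkT' (m := m)
      (I := fun a : ℕ × ℕ × List (ℕ × ℕ) => idx a.1) (by fun_prop) h1)
  refine PT.iterate (m := m) (α := ℕ × ℕ × List (ℕ × ℕ)) (n := fun a => a.1) (by fun_prop) hi hs
    (Polynomial.X + (p * (p + 2 * (Polynomial.X * Polynomial.X + 1 + Polynomial.X) + 3) + 1) + 1)
    ?_
  rintro ⟨n, k, E⟩ j -
  simp only
  obtain ⟨h1, g, h2, h3⟩ := stp_iter_size n k E j
  generalize (fun z => stp n z)^[j] (E, mkT (idx n) fun j => initVal (n * n + 1) k j) = z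
    at h1 h3 ⊢
  obtain ⟨z1, z2⟩ := z
  simp only at h1 h3
  subst h3
  have h4 := size_mkT_le (I := idx n) h2
  have h5 := hp n
  rw [size_pair]
  simp only [Polynomial.eval_add, Polynomial.eval_mul, Polynomial.eval_X, Polynomial.eval_ofNat,
    Polynomial.eval_one]
  have e1 : size (n, k, E) = 2 * n + 1 + (2 * k + 1 + size E + 1) + 1 := by
    rw [size_pair, size_pair, size_nat, size_nat]
  have e2 : size n ≤ size (n, k, E) := by rw [size_pair]; omega
  have e3 : size (idx n) ≤ p.eval (size (n, k, E)) := h5.trans (polyMono _ e2)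
  set A := size (n, k, E) with hA
  have e4 : n ≤ A := by omega
  have e5 : k ≤ A := by omega
  have e6 : n * n ≤ A * A := Nat.mul_le_mul e4 e4
  have e7 : size (idx n) * (size (idx n) + 2 * (n * n + 1 + k) + 3) ≤
      p.eval A * (p.eval A + 2 * (A * A + 1 + A) + 3) := Nat.mul_le_mul e3 (by omega)
  omega

@[fun_prop]
theorem PT.solve' {n k : α → ℕ} {E : α → List (ℕ × ℕ)} (hn : PT m n) (hk : PT m k)
    (hE : PT m E) : PT m (fun a => solve (n a) (k a) (E a)) := by
  have h1 : PT m (fun z : (ℕ × ℕ × List (ℕ × ℕ)) × ℕ =>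
      final z.1.1 z.1.2.1 z.1.2.2) :=
    (PT.final' (m := m)).comp (f := fun z : (ℕ × ℕ × List (ℕ × ℕ)) × ℕ => z.1) (by fun_prop)
  have h2 : PT m (fun z : (ℕ × ℕ × List (ℕ × ℕ)) × ℕ =>
      List.replicate (look (final z.1.1 z.1.2.1 z.1.2.2).2 (z.2, 0, 0, 0)) true) := by
    fun_prop
  have h3 := PT.flatMap' (m := m) (l := fun a : ℕ × ℕ × List (ℕ × ℕ) => List.range a.1)
    (by fun_prop) h2
  have h4 : PT m (fun a : ℕ × ℕ × List (ℕ × ℕ) => solve a.1 a.2.1 a.2.2) := by
    refine (PT.length' h3).of_eq fun a => ?_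
    unfold solve
    simp only
    induction List.range a.1 with
    | nil => rfl
    | cons v l ih =>
      rw [List.foldr_cons, ih, List.flatMap_cons, List.length_append, List.length_replicate]
  exact h4.comp (f := fun a => (n a, k a, E a)) (by fun_prop)

omit [PPS.Rep β] in
theorem foldr_eq_find {P : β → Bool} {g : β → ℕ} (l : List β) :
    l.foldr (fun j r => bif P j then g j else r) 0 =
      match l.find? (fun j => P j) with
      | none => 0
      | some j => g j := by
  induction l with
  | nil => rfl
  | cons a l ih =>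
    rw [List.foldr_cons, List.find?_cons, ih]
    cases P a <;> rfl

@[fun_prop]
theorem PT.ans' {n : α → ℕ} {E : α → List (ℕ × ℕ)} (hn : PT m n) (hE : PT m E) :
    PT m (fun a => ans (n a) (E a)) := by
  have h1 : PT m (fun z : (ℕ × List (ℕ × ℕ)) × ℕ =>
      decide (solve z.1.1 (z.2 + 1) z.1.2 < z.1.1 * z.1.1 + 1)) := by fun_prop
  have h2 := PT.find' (m := m) (l := fun z : ℕ × List (ℕ × ℕ) => List.range z.1)
    (by fun_prop) h1
  have h3 := PT.optCase (m := m) (f := fun _ : ℕ × List (ℕ × ℕ) => 0)
    (g := fun z : ℕ × (ℕ × List (ℕ × ℕ)) => solve z.2.1 (z.1 + 1) z.2.2 - (z.2.1 - 1)) h2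
    (by fun_prop) (by fun_prop)
  have h4 : PT m (fun z : ℕ × List (ℕ × ℕ) => ans z.1 z.2) := by
    refine h3.of_eq fun z => ?_
    unfold ans
    rw [foldr_eq_find]
    simp only
    cases (List.range z.1).find? fun j => decide (solve z.1 (j + 1) z.2 < z.1 * z.1 + 1) <;> rfl
  exact h4.comp (f := fun a => (n a, E a)) (by fun_prop)

@[fun_prop]
theorem PT.symE' {E : α → List (ℕ × ℕ)} (hE : PT m E) : PT m (fun a => symE (E a)) := by
  have h1 : PT m (fun a => (E a).map fun e => (e.2, e.1)) :=
    PT.map' (m := m) (f := fun z : α × (ℕ × ℕ) => (z.2.2, z.2.1)) hE (by fun_prop)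
  exact PT.filter' (m := m) (p := fun z : α × (ℕ × ℕ) => !(decide (z.2.1 = z.2.2)))
    (l := fun a => E a ++ (E a).map fun e => (e.2, e.1)) (by fun_prop) (by fun_prop)

/-! ### Reading the input -/

/-- The numbers of a word in unary notation. -/
def nums (w : List Bool) : List ℕ :=
  w.foldr (fun b l => bif b then (l.headD 0 + 1) :: l.tail else 0 :: l) []

/-- Group a list in pairs (from the right). -/
def prs (l : List ℕ) : Option ℕ × List (ℕ × ℕ) :=
  l.foldr (fun x z => match z.1 with
    | none => (some x, z.2)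
    | some y => (none, (x, y) :: z.2)) (none, [])

theorem nums_rep (n : ℕ) (w : List Bool) : nums (List.replicate n true ++ false :: w) =
    n :: nums w := by
  induction n with
  | zero => rfl
  | succ n ih =>
    rw [List.replicate_succ, List.cons_append]
    have : nums (true :: (List.replicate n true ++ false :: w)) =
        ((nums (List.replicate n true ++ false :: w)).headD 0 + 1) ::
          (nums (List.replicate n true ++ false :: w)).tail := rfl
    rw [this, ih]
    rfl

theorem nums_input (n : ℕ) (E : List (ℕ × ℕ)) :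
    nums (input n E) = n :: E.flatMap fun e => [e.1, e.2] := by
  unfold input
  rw [nums_rep]
  congr 1
  induction E with
  | nil => rfl
  | cons e E ih =>
    rw [List.flatMap_cons, List.flatMap_cons, List.append_assoc, List.cons_append,
      List.append_assoc, nums_rep]
    simp only [List.cons_append, List.nil_append]
    rw [nums_rep, ih]

theorem prs_input (E : List (ℕ × ℕ)) : prs (E.flatMap fun e => [e.1, e.2]) = (none, E) := by
  induction E with
  | nil => rfl
  | cons e E ih =>
    rw [List.flatMap_cons]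
    simp only [List.cons_append, List.nil_append]
    have h : ∀ (x : ℕ) (l : List ℕ), prs (x :: l) = match (prs l).1 with
      | none => (some x, (prs l).2)
      | some y => (none, (x, y) :: (prs l).2) := fun _ _ => rfl
    rw [h, h, ih]

@[fun_prop]
theorem PT.nums' {w : α → List Bool} (hw : PT m w) : PT m (fun a => nums (w a)) := by
  have key : PT m (fun w : List Bool => nums w) := by
    refine PT.foldr (m := m) (α := List Bool) (ini := fun _ => [])
      (s := fun z : List Bool × (Bool × List ℕ) =>
        bif z.2.1 then (z.2.2.headD 0 + 1) :: z.2.2.tail else 0 :: z.2.2) (l := fun w => w)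
      (by fun_prop) (by fun_prop) (by fun_prop) (10 * Polynomial.X + 10) ?_
    intro w k
    simp only [Polynomial.eval_add, Polynomial.eval_mul, Polynomial.eval_X,
      Polynomial.eval_ofNat]
    have h1 : ∀ w : List Bool, size (w.foldr (fun b (l : List ℕ) =>
        bif b then (l.headD 0 + 1) :: l.tail else 0 :: l) []) ≤ 4 * w.length + 1 := by
      intro w
      induction w with
      | nil => simp [size_nil]
      | cons b w ih =>
        rw [List.foldr_cons, List.length_cons]
        generalize w.foldr (fun b (l : List ℕ) =>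
          bif b then (l.headD 0 + 1) :: l.tail else 0 :: l) [] = l at ih ⊢
        cases b
        · simp only [cond_false]
          rw [size_cons, size_nat]; omega
        · simp only [cond_true]
          cases l with
          | nil => rw [size_cons, size_nat]; simp only [List.headD_nil, List.tail_nil]; omega
          | cons x l =>
            rw [size_cons, size_nat] at ih ⊢
            simp only [List.headD_cons, List.tail_cons]
            omega
    have h2 := h1 (w.drop k)
    have h3 := (size_bits w).1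
    have h4 : (w.drop k).length ≤ w.length := by rw [List.length_drop]; omega
    omega
  exact key.comp hw

@[fun_prop]
theorem PT.prs' {l : α → List ℕ} (hl : PT m l) : PT m (fun a => (prs (l a)).2) := by
  have key : PT m (fun l : List ℕ => prs l) := by
    have hs : PT m (fun z : List ℕ × (ℕ × (Option ℕ × List (ℕ × ℕ))) => (match z.2.2.1 with
        | none => (some z.2.1, z.2.2.2)
        | some y => (none, (z.2.1, y) :: z.2.2.2) : Option ℕ × List (ℕ × ℕ))) := by
      have h0 := PT.optCase (m := m) (α := List ℕ × (ℕ × (Option ℕ × List (ℕ × ℕ))))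
        (γ := Option ℕ × List (ℕ × ℕ))
        (o := fun z => z.2.2.1) (f := fun z => (some z.2.1, z.2.2.2))
        (g := fun w => (none, (w.2.2.1, w.1) :: w.2.2.2.2)) (by fun_prop) (by fun_prop)
        (by fun_prop)
      refine h0.of_eq fun z => ?_
      cases z.2.2.1 <;> rfl
    refine PT.foldr (m := m) (α := List ℕ) (ini := fun _ => (none, []))
      (l := fun w => w) (by fun_prop) (by fun_prop) hs (10 * Polynomial.X + 10) ?_
    intro w k
    simp only [Polynomial.eval_add, Polynomial.eval_mul, Polynomial.eval_X,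
      Polynomial.eval_ofNat]
    have h1 : ∀ w : List ℕ, size (w.foldr (fun x (z : Option ℕ × List (ℕ × ℕ)) =>
        match z.1 with
        | none => (some x, z.2)
        | some y => (none, (x, y) :: z.2)) (none, [])) ≤ 3 * size w + 3 := by
      intro w
      induction w with
      | nil => simp [size_nil, size_pair, size_none]
      | cons b w ih =>
        rw [List.foldr_cons, size_cons]
        generalize w.foldr (fun x (z : Option ℕ × List (ℕ × ℕ)) =>
          match z.1 with
          | none => (some x, z.2)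
          | some y => (none, (x, y) :: z.2)) (none, []) = z at ih ⊢
        obtain ⟨o, l⟩ := z
        have hb := size_pos b
        cases o with
        | none =>
          rw [size_pair, size_none] at ih
          simp only
          rw [size_pair, size_some]
          omega
        | some y =>
          rw [size_pair, size_some] at ih
          simp only
          rw [size_pair, size_none, size_cons, size_pair]
          omega
    have h2 := h1 (w.drop k)
    have h3 := size_drop_le w k
    omega
  exact (PT.snd' key).comp hl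

/-- The algorithm. -/
def algo (w : List Bool) : List Bool :=
  List.replicate (ans ((nums w).headD 0) (symE (prs (nums w).tail).2)) true

theorem algo_mem_FP : algo ∈ FP := by
  rw [mem_FP_iff]
  unfold algo
  fun_prop

theorem algo_input (n : ℕ) (E : List (ℕ × ℕ)) :
    algo (input n E) = List.replicate (ans n (symE E)) true := by
  unfold algo
  rw [nums_input]
  simp only [List.headD_cons, List.tail_cons]
  rw [prs_input]

end Pool.Agent.H79.Bar
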