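import Pool.Agent.H79.BarCount

/-!
# From labelings to pieces
-/

open scoped Topology Classical

namespace Pool.Agent.H79.Bar

/-- A forest with an edge has a leaf. -/
theorem exists_leaf {V : Type} [Fintype V] {T : SimpleGraph V} (hT : T.IsAcyclic) {a b : V}
    (hab : T.Adj a b) : ∃ v w, T.Adj v w ∧ ∀ u, T.Adj v u → u = w := by
  -- a vertex at maximal distance from `a`
  obtain ⟨v, hv, hmax⟩ := (Finset.univ.filter fun v => T.Reachable a v).exists_max_image
    (fun v => T.dist a v) ⟨a, by simp⟩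
  simp only [Finset.mem_filter, Finset.mem_univ, true_and] at hv hmax
  have hpos : 0 < T.dist a v := by
    have h1 := hmax b hab.reachable
    have h2 : T.dist a b = 1 := SimpleGraph.dist_eq_one_iff_adj.2 hab
    omega
  have hlt : ∀ u, T.Adj v u → T.dist a v = T.dist a u + 1 := by
    intro u hu
    have h1 := hmax u (hv.trans hu.reachable)
    rcases hT.dist_eq_dist_add_one_of_adj_of_reachable a hu hv with h | h <;> omega
  have hne : v ≠ a := by rintro rfl; simp at hpos
  obtain ⟨p, hp, hpl⟩ := hv.exists_path_of_dist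
  have hpn : ¬ p.Nil := by
    intro hn
    exact hne hn.eq.symm
  refine ⟨v, p.penultimate, (p.adj_penultimate hpn).symm, fun u hu => ?_⟩
  obtain ⟨q, hq, hql⟩ := (hv.trans hu.reachable).exists_path_of_dist
  have hvq : v ∉ q.support := by
    intro hvq
    have h1 := SimpleGraph.dist_le (q.takeUntil v hvq)
    have h2 := q.length_takeUntil_le_length hvq
    have h3 := hlt u hu
    omega
  have h1 := hT.mem_support_of_ne_mem_support_of_adj_of_isPath hp hq hu hvq
  exact hT.eq_penultimate_of_adj_end hp hu h1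

/-- A grouping of the edges at the vertices that is compatible with the labels. -/
structure Grp {V : Type} (T : SimpleGraph V) (x : V → V → Lab) (γ : V → V → ℕ) : Prop where
  dual : ∀ v w, T.Adj v w → x w v = (x v w).dual
  oo : ∀ v w w', T.Adj v w → T.Adj v w' → γ v w = γ v w' → x v w = .O → x v w' = .O → w = w'
  ii : ∀ v w w', T.Adj v w → T.Adj v w' → γ v w = γ v w' → x v w = .I → x v w' = .I → w = w'
  is : ∀ v w w', T.Adj v w → T.Adj v w' → γ v w = γ v w' → x v w = .I → x v w' = .S → False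
  sss : ∀ v w w' w'', T.Adj v w → T.Adj v w' → T.Adj v w'' → γ v w = γ v w' → γ v w = γ v w'' →
    x v w = .S → x v w' = .S → x v w'' = .S → w = w' ∨ w = w'' ∨ w' = w''

theorem Grp.mono {V : Type} {T T' : SimpleGraph V} {x : V → V → Lab} {γ : V → V → ℕ}
    (h : Grp T x γ) (hle : T' ≤ T) : Grp T' x γ where
  dual v w h1 := h.dual v w (hle h1)
  oo v w w' h1 h2 := h.oo v w w' (hle h1) (hle h2)
  ii v w w' h1 h2 := h.ii v w w' (hle h1) (hle h2)
  is v w w' h1 h2 := h.is v w w' (hle h1) (hle h2)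
  sss v w w' w'' h1 h2 h3 := h.sss v w w' w'' (hle h1) (hle h2) (hle h3)

/-- Every labeling has a grouping with `CC` groups at every vertex. -/
theorem exists_grp {V : Type} [Fintype V] [LinearOrder V] (T : SimpleGraph V)
    (x : V → V → Lab) (hx : ∀ v w, T.Adj v w → x w v = (x v w).dual) :
    ∃ γ : V → V → ℕ, Grp T x γ ∧ ∀ v w, T.Adj v w → γ v w < CC T x v := by
  set r : V → V → ℕ := fun v w =>
    (Finset.univ.filter fun u => T.Adj v u ∧ x v u = x v w ∧ u < w).card with hr
  have hlt : ∀ v w, T.Adj v w → r v w < cnt T x v (x v w) := by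
    intro v w h
    refine Finset.card_lt_card ?_
    rw [Finset.ssubset_iff_of_subset]
    · exact ⟨w, by simp [h], by simp⟩
    · intro u hu
      simp only [Finset.mem_filter, Finset.mem_univ, true_and] at hu ⊢
      exact ⟨hu.1, hu.2.1⟩
  have hmono : ∀ v w w', T.Adj v w → T.Adj v w' → x v w = x v w' → w < w' → r v w < r v w' := by
    intro v w w' h h' he hl
    refine Finset.card_lt_card ?_
    rw [Finset.ssubset_iff_of_subset]
    · exact ⟨w, by simp [h, he, hl], by simp⟩
    · intro u hu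
      simp only [Finset.mem_filter, Finset.mem_univ, true_and] at hu ⊢
      exact ⟨hu.1, hu.2.1.trans he, hu.2.2.trans hl⟩
  have hinj : ∀ v w w', T.Adj v w → T.Adj v w' → x v w = x v w' → r v w = r v w' → w = w' := by
    intro v w w' h h' he hrr
    rcases lt_trichotomy w w' with hl | hl | hl
    · have := hmono v w w' h h' he hl; omega
    · exact hl
    · have := hmono v w' w h' h he.symm hl; omega
  refine ⟨fun v w => match x v w with
    | .S => r v w / 2
    | .O => r v w
    | .I => (cnt T x v .S + 1) / 2 + r v w, ?_, ?_⟩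
  · refine ⟨hx, ?_, ?_, ?_, ?_⟩
    · intro v w w' h h' hg e e'
      simp only [e, e'] at hg
      exact hinj v w w' h h' (e.trans e'.symm) hg
    · intro v w w' h h' hg e e'
      simp only [e, e'] at hg
      exact hinj v w w' h h' (e.trans e'.symm) (by omega)
    · intro v w w' h h' hg e e'
      simp only [e, e'] at hg
      have := hlt v w' h'
      rw [e'] at this
      omega
    · intro v w w' w'' h h' h'' hg hg' e e' e''
      simp only [e, e', e''] at hg hg'
      by_cases h1 : r v w = r v w'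
      · exact Or.inl (hinj v w w' h h' (e.trans e'.symm) h1)
      by_cases h2 : r v w = r v w''
      · exact Or.inr (Or.inl (hinj v w w'' h h'' (e.trans e''.symm) h2))
      exact Or.inr (Or.inr (hinj v w' w'' h' h'' (e'.trans e''.symm) (by omega)))
  · intro v w h
    have h1 := hlt v w h
    unfold CC C
    cases e : x v w <;> rw [e] at h1 <;> simp only [e] <;> rw [lt_max_iff]
    · right; omega
    · left; exact h1
    · right; omega

/-- Adjacency of positions in a subdivided caterpillar: `(c, h)` is the point at height `h` of the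
leg in column `c`. -/
def CatAdj (c : ℤ) (h : ℕ) (c' : ℤ) (h' : ℕ) : Prop :=
  (c = c' ∧ (h' = h + 1 ∨ h = h' + 1)) ∨ (h = 0 ∧ h' = 0 ∧ (c' = c + 1 ∨ c = c' + 1))

theorem CatAdj.symm {c : ℤ} {h : ℕ} {c' : ℤ} {h' : ℕ} (H : CatAdj c h c' h') :
    CatAdj c' h' c h := by
  rcases H with ⟨h1, h2⟩ | ⟨h1, h2, h3⟩
  · exact Or.inl ⟨h1.symm, h2.symm⟩
  · exact Or.inr ⟨h2, h1, h3.symm⟩

/-- A piece: a set of vertices with positions. -/
structure Piece (V : Type) where
  /-- the vertices -/
  P : Finset V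
  /-- the column -/
  c : V → ℤ
  /-- the height -/
  h : V → ℕ

/-- A valid piece of a labelled graph. -/
structure Piece.Valid {V : Type} (T : SimpleGraph V) (x : V → V → Lab) (p : Piece V) : Prop where
  inj : ∀ v ∈ p.P, ∀ w ∈ p.P, p.c v = p.c w → p.h v = p.h w → v = w
  down : ∀ v ∈ p.P, ∀ k, p.h v = k + 1 → ∃ w ∈ p.P, p.c w = p.c v ∧ p.h w = k
  col : ∀ v ∈ p.P, ∀ w ∈ p.P, ∀ c', p.c v < c' → c' < p.c w → ∃ u ∈ p.P, p.c u = c'
  adj : ∀ v ∈ p.P, ∀ w ∈ p.P, T.Adj v w ↔ CatAdj (p.c v) (p.h v) (p.c w) (p.h w)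
  labO : ∀ v ∈ p.P, ∀ w ∈ p.P, T.Adj v w → (x v w = .O ↔ p.h w = p.h v + 1)
  labI : ∀ v ∈ p.P, ∀ w ∈ p.P, T.Adj v w → (x v w = .I ↔ p.h v = p.h w + 1)
  nbr : ∀ v ∈ p.P, ∃ w ∈ p.P, T.Adj v w
  ne : p.P.Nonempty

/-- The lowest point of a column. -/
theorem Piece.Valid.base {V : Type} {T : SimpleGraph V} {x : V → V → Lab} {p : Piece V}
    (hp : p.Valid T x) {v : V} (hv : v ∈ p.P) (k : ℕ) (hk : k ≤ p.h v) :
    ∃ w ∈ p.P, p.c w = p.c v ∧ p.h w = k := by
  induction hn : p.h v - k generalizing v with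
  | zero => exact ⟨v, hv, rfl, by omega⟩
  | succ n ih =>
    obtain ⟨w, hw, h1, h2⟩ := hp.down v hv (p.h v - 1) (by omega)
    obtain ⟨u, hu, h3, h4⟩ := ih hw (by omega) (by omega)
    exact ⟨u, hu, h3.trans h1, h4⟩

/-- A family of pieces that decomposes a labelled and grouped graph. -/
structure Fam {V : Type} (T : SimpleGraph V) (x : V → V → Lab) (γ : V → V → ℕ) {ι : Type}
    (p : ι → Piece V) : Prop where
  valid : ∀ i, (p i).Valid T x
  edge : ∀ v w, T.Adj v w → ∃! i, v ∈ (p i).P ∧ w ∈ (p i).P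
  grp : ∀ i v w w', v ∈ (p i).P → w ∈ (p i).P → T.Adj v w → T.Adj v w' →
    (w' ∈ (p i).P ↔ γ v w = γ v w')

end Pool.Agent.H79.Bar
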