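import Mathlib
import Pool.Agent.PPS.Defs

/-!
# Offline and online estimators, regret, and polynomial-time approximability

Binary alphabet. Strings are lists of Booleans.
-/

open scoped ENNReal

namespace Pool.Agent.H79.Est

/-- `q` is an offline estimator: for every `n` the restriction of `q` to the strings of length `n`
is a probability distribution. -/
def IsOffline (q : List Bool → ℝ) : Prop :=
  (∀ x, 0 ≤ q x) ∧ ∀ n : ℕ, ∑ x : Fin n → Bool, q (List.ofFn x) = 1

/-- `q` is an online estimator: it is nonnegative, `q` of the empty string is `1`, and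
`q x = q (x0) + q (x1)` for every string `x`. -/
def IsOnline (q : List Bool → ℝ) : Prop :=
  q [] = 1 ∧ (∀ x, 0 ≤ q x) ∧ ∀ x, q x = q (x ++ [false]) + q (x ++ [true])

/-- The regret `max_x ln (q x / qt x)`, the maximum being over the strings `x` of length `n`
(a quotient `a / 0` with `a > 0` is `∞`; strings with `q x = 0` do not contribute). -/
noncomputable def regret (qt q : List Bool → ℝ) (n : ℕ) : EReal :=
  ⨆ x : Fin n → Bool,
    ENNReal.log (ENNReal.ofReal (q (List.ofFn x)) / ENNReal.ofReal (qt (List.ofFn x)))

/-- The natural number with binary digits `u`, least significant digit first. -/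
def numeral (u : List Bool) : ℕ := u.foldr (fun b n => b.toNat + 2 * n) 0

/-- The word `w` encodes the rational number `a`: `w` is `1^|u| 0 u v` for two binary numerals
`u`, `v` with `v ≠ 0` and `a = u / v`. -/
def Encodes (w : List Bool) (a : ℝ) : Prop :=
  ∃ u v : List Bool, w = List.replicate u.length true ++ false :: (u ++ v) ∧ numeral v ≠ 0 ∧
    a = (numeral u : ℝ) / numeral v

/-- The input word `1^k 0 x`: it asks for the value at `x` with relative error `2^-(k+1)`. -/
def inp (k : ℕ) (x : List Bool) : List Bool := List.replicate k true ++ false :: x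

/-- `f` is in `P`: some polynomial-time Turing machine, given `k` in unary and a string `x`,
outputs a rational number `a` with `|a - f x| ≤ 2^-(k+1) f x`. -/
def InP (f : List Bool → ℝ) : Prop :=
  ∃ g ∈ PPS.FP, ∀ (k : ℕ) (x : List Bool), ∃ a : ℝ, Encodes (g (inp k x)) a ∧
    |a - f x| ≤ (1 / 2) ^ (k + 1) * f x

end Pool.Agent.H79.Est
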