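import Pool.Agent.H79.EstProof

/-!
# The regret of the online estimators in `P` against the estimator `q`
-/

open scoped ENNReal

namespace Pool.Agent.H79.Est

open Pool.Agent.PPS Pool.Agent.H79.Univ

/-- The bits followed by the estimator after `y`. -/
def bits (T : ℕ) : ℕ → List Bool → List Bool
  | 0, _ => []
  | m + 1, y => bit T y :: bits T m (y ++ [bit T y])

theorem length_bits (T m : ℕ) : ∀ y, (bits T m y).length = m := by
  induction m with
  | zero => intro y; rfl
  | succ m ih => intro y; rw [bits, List.length_cons, ih]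

theorem prodFrom_append (T : ℕ) (r s : List Bool) : ∀ y,
    prodFrom T y (r ++ s) = prodFrom T y r * prodFrom T (y ++ r) s := by
  induction r with
  | nil => intro y; simp [prodFrom]
  | cons b r ih =>
    intro y
    rw [List.cons_append, prodFrom, prodFrom, ih, mul_assoc]
    simp

theorem prodFrom_bits (T m : ℕ) : ∀ y, (∀ r, complete (y ++ r) = true) →
    prodFrom T y (bits T m y) = 1 := by
  induction m with
  | zero => intro y _; simp [bits, prodFrom]
  | succ m ih =>
    intro y hy
    rw [bits, prodFrom, ih (y ++ [bit T y]) (fun r => by rw [List.append_assoc]; exact hy _)]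
    have := hy []
    rw [List.append_nil] at this
    simp [cnd, this]

theorem le_of_append {qt : List Bool → ℝ} (h : IsOnline qt) (r : List Bool) :
    ∀ y, qt (y ++ r) ≤ qt y := by
  induction r with
  | nil => intro y; simp
  | cons b r ih =>
    intro y
    have h1 := ih (y ++ [b])
    rw [List.append_assoc, List.singleton_append] at h1
    refine h1.trans ?_
    have h2 := h.2.2 y
    have h3 := h.2.1 (y ++ [false])
    have h4 := h.2.1 (y ++ [true])
    cases b <;> linarith

theorem qt_bit {qt : List Bool → ℝ} (h : IsOnline qt) {g : List Bool → List Bool}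
    (hg : ∀ x, ∃ a, Encodes (g (inp 0 x)) a ∧ |a - qt x| ≤ (1 / 2) * qt x)
    {e : D} {p : Polynomial ℕ}
    (he : ∀ (x : List Bool) (T : ℕ), p.eval x.length ≤ T → ueval e x T = some (g x))
    {y : List Bool} (hy : code' y = e) {T : ℕ} (hT : p.eval (y.length + 2) ≤ T) :
    qt (y ++ [bit T y]) ≤ 12 / 13 * qt y := by
  have e0 : ueval e (inp 0 (y ++ [false])) T = some (g (inp 0 (y ++ [false]))) :=
    he _ _ (by simpa [inp] using hT)
  have e1 : ueval e (inp 0 (y ++ [true])) T = some (g (inp 0 (y ++ [true]))) :=
    he _ _ (by simpa [inp] using hT)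
  have hb : bit T y = chooseW (g (inp 0 (y ++ [false]))) (g (inp 0 (y ++ [true]))) := by
    rw [bit, hy, e0, e1]; rfl
  obtain ⟨a0, ha0, h0⟩ := hg (y ++ [false])
  obtain ⟨a1, ha1, h1⟩ := hg (y ++ [true])
  have hs := chooseW_spec ha0 ha1
  rw [← hb] at hs
  rw [abs_le] at h0 h1
  have h2 := h.2.2 y
  cases hbb : bit T y with
  | false => have := hs.1 hbb; linarith
  | true => have := hs.2 hbb; linarith

theorem qt_bits {qt : List Bool → ℝ} (h : IsOnline qt) {g : List Bool → List Bool}
    (hg : ∀ x, ∃ a, Encodes (g (inp 0 x)) a ∧ |a - qt x| ≤ (1 / 2) * qt x)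
    {e : D} {p : Polynomial ℕ}
    (he : ∀ (x : List Bool) (T : ℕ), p.eval x.length ≤ T → ueval e x T = some (g x))
    {T : ℕ} (k : ℕ) : ∀ (m : ℕ) (y : List Bool), (∀ r, code' (y ++ r) = e) → k ≤ m →
    (∀ s, s ≤ y.length + k + 1 → p.eval s ≤ T) →
    qt (y ++ bits T m y) ≤ (12 / 13) ^ k * qt y := by
  induction k with
  | zero => intro m y _ _ _; simpa using le_of_append h _ _
  | succ k ih =>
    intro m y hy hm hs
    obtain ⟨m, rfl⟩ : ∃ m', m = m' + 1 := ⟨m - 1, by omega⟩
    have h1 := ih m (y ++ [bit T y]) (fun r => by rw [List.append_assoc]; exact hy _) (by omega)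
      (fun s h => hs s (by simp only [List.length_append, List.length_singleton] at h; omega))
    have h2 := qt_bit h hg he (T := T) (y := y) (by simpa using hy []) (hs _ (by omega))
    rw [List.append_assoc, List.singleton_append] at h1
    rw [bits]
    calc qt (y ++ bit T y :: bits T m (y ++ [bit T y]))
        ≤ (12 / 13) ^ k * qt (y ++ [bit T y]) := h1
      _ ≤ (12 / 13) ^ k * (12 / 13 * qt y) := by gcongr
      _ = (12 / 13) ^ (k + 1) * qt y := by ring

/-- The description of the program `e`. -/
def desc (e : D) : List Bool := List.replicate e.code.length true ++ false :: e.code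

theorem length_desc (e : D) : (desc e).length = 2 * e.code.length + 1 := by
  simp [desc]; omega

theorem lead_desc (e : D) (r : List Bool) : lead (desc e ++ r) = e.code.length := by
  rw [desc, List.append_assoc, List.cons_append, lead_replicate]

theorem code'_desc (e : D) (r : List Bool) : code' (desc e ++ r) = e := by
  have h : desc e ++ r = List.replicate e.code.length true ++ false :: (e.code ++ r) := by
    rw [desc, List.append_assoc, List.cons_append]
  rw [code', h, parse_word, lead_replicate, List.take_left, decodeD_code]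

theorem complete_desc (e : D) (r : List Bool) : complete (desc e ++ r) = true := by
  rw [complete, lead_desc, decide_eq_true_eq, List.length_append, length_desc]
  omega

theorem incomplete_of_prefix (e : D) {y r : List Bool} (h : y ++ r = desc e) (hr : r ≠ []) :
    complete y = false := by
  have hl : y.length < 2 * e.code.length + 1 := by
    have := congrArg List.length h
    rw [List.length_append, length_desc] at this
    have := List.length_pos_iff.2 hr
    omega
  rw [complete, decide_eq_false_iff_not]
  have hy : y = (desc e).take y.length := by rw [← h, List.take_left]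
  by_cases hc : y.length ≤ e.code.length
  · have : y = List.replicate y.length true := by
      rw [desc, List.take_append_of_le_length (by simpa using hc), List.take_replicate,
        min_eq_left hc] at hy
      exact hy
    rw [this, lead_replicate']
    simp
    omega
  · obtain ⟨k, hk⟩ : ∃ k, y.length = e.code.length + 1 + k := ⟨y.length - e.code.length - 1, by omega⟩
    have : y = List.replicate e.code.length true ++ false :: (e.code.take k) := by
      rw [hk, desc, List.take_append] at hy
      simp only [List.length_replicate, List.take_replicate] at hy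
      rw [min_eq_right (by omega), show e.code.length + 1 + k - e.code.length = k + 1 by omega,
        List.take_succ_cons] at hy
      exact hy
    rw [this, lead_replicate, ← this]
    omega

theorem prodFrom_desc (T : ℕ) (e : D) (r : List Bool) : ∀ y, y ++ r = desc e →
    prodFrom T y r = (1 / 2) ^ r.length := by
  induction r with
  | nil => intro y _; simp [prodFrom]
  | cons b r ih =>
    intro y h
    rw [prodFrom, ih (y ++ [b]) (by simpa using h), cnd,
      incomplete_of_prefix e h (by simp), List.length_cons, pow_succ, mul_comm]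
    simp

theorem q_desc_bits (e : D) (m : ℕ) :
    q (desc e ++ bits ((desc e).length + m) m (desc e)) = (1 / 2) ^ (desc e).length := by
  rw [q, List.length_append, length_bits, prodFrom_append, List.nil_append,
    prodFrom_bits _ _ _ (complete_desc e), mul_one]
  exact prodFrom_desc _ e _ [] rfl

theorem exists_ofFn {n : ℕ} (l : List Bool) (h : l.length = n) :
    ∃ x : Fin n → Bool, List.ofFn x = l := by
  subst h
  exact ⟨l.get, List.ofFn_get l⟩

theorem poly_bound (p : Polynomial ℕ) : ∃ C d : ℕ, 1 ≤ C ∧ 1 ≤ d ∧ ∀ s : ℕ,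
    p.eval s ≤ C * (s + 1) ^ d := by
  refine ⟨∑ i ∈ Finset.range (p.natDegree + 1), p.coeff i + 1, p.natDegree + 1, by omega,
    by omega, fun s => ?_⟩
  rw [Polynomial.eval_eq_sum_range]
  calc ∑ i ∈ Finset.range (p.natDegree + 1), p.coeff i * s ^ i
      ≤ ∑ i ∈ Finset.range (p.natDegree + 1), p.coeff i * (s + 1) ^ (p.natDegree + 1) := by
        refine Finset.sum_le_sum fun i hi => Nat.mul_le_mul_left _ ?_
        exact (Nat.pow_le_pow_left (Nat.le_succ s) i).trans
          (Nat.pow_le_pow_right (Nat.succ_pos s) (by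
            have := Finset.mem_range.1 hi
            omega))
    _ = (∑ i ∈ Finset.range (p.natDegree + 1), p.coeff i) * (s + 1) ^ (p.natDegree + 1) := by
        rw [Finset.sum_mul]
    _ ≤ _ := Nat.mul_le_mul_right _ (Nat.le_succ _)

/-- The lower bound for the regret, for a fixed length. -/
theorem le_regret {qt : List Bool → ℝ} (h : IsOnline qt) {g : List Bool → List Bool}
    (hg : ∀ x, ∃ a, Encodes (g (inp 0 x)) a ∧ |a - qt x| ≤ (1 / 2) * qt x)
    {e : D} {p : Polynomial ℕ}
    (he : ∀ (x : List Bool) (T : ℕ), p.eval x.length ≤ T → ueval e x T = some (g x))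
    {n k : ℕ} (hn : (desc e).length + k ≤ n)
    (hs : ∀ s, s ≤ (desc e).length + k + 1 → p.eval s ≤ n) :
    ((k * Real.log (13 / 12) - (desc e).length * Real.log 2 : ℝ) : EReal) ≤ regret qt q n := by
  obtain ⟨m, rfl⟩ : ∃ m, n = (desc e).length + m := ⟨n - (desc e).length, by omega⟩
  obtain ⟨x, hx⟩ := exists_ofFn (n := (desc e).length + m)
    (desc e ++ bits ((desc e).length + m) m (desc e)) (by rw [List.length_append, length_bits])
  refine le_trans ?_ (le_iSup _ x)
  rw [hx, q_desc_bits]
  have h1 := qt_bits h hg he (T := (desc e).length + m) k m (desc e) (code'_desc e) (by omega) hs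
  have h2 : qt (desc e) ≤ 1 := by
    have := le_of_append h (desc e) []
    rwa [List.nil_append, h.1] at this
  have h3 : qt (desc e ++ bits ((desc e).length + m) m (desc e)) ≤ (12 / 13) ^ k := by
    refine h1.trans ?_
    have : (0 : ℝ) ≤ (12 / 13) ^ k := by positivity
    nlinarith
  have h4 : ENNReal.ofReal ((1 / 2) ^ (desc e).length / (12 / 13) ^ k) ≤
      ENNReal.ofReal ((1 / 2) ^ (desc e).length) /
        ENNReal.ofReal (qt (desc e ++ bits ((desc e).length + m) m (desc e))) := by
    rw [ENNReal.ofReal_div_of_pos (by positivity)]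
    exact ENNReal.div_le_div_left (ENNReal.ofReal_le_ofReal h3) _
  refine le_trans (le_of_eq ?_) (ENNReal.log_monotone h4)
  rw [ENNReal.log_ofReal_of_pos (by positivity), EReal.coe_eq_coe_iff,
    Real.log_div (x := (1 / 2) ^ (desc e).length) (y := (12 / 13) ^ k) (by positivity)
      (by positivity), Real.log_pow, Real.log_pow]
  have e1 : Real.log (1 / 2) = - Real.log 2 := by rw [one_div, Real.log_inv]
  have e2 : Real.log (12 / 13) = - Real.log (13 / 12) := by
    rw [← Real.log_inv]; norm_num
  rw [e1, e2]
  ring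

theorem main {qt : List Bool → ℝ} (h : IsOnline qt) (hP : InP qt) :
    ∃ δ : ℝ, 0 < δ ∧ ∀ᶠ n : ℕ in Filter.atTop,
      (((n : ℝ) ^ δ : ℝ) : EReal) ≤ regret qt q n := by
  obtain ⟨g, hg, hgs⟩ := hP
  have hg' : ∀ x, ∃ a, Encodes (g (inp 0 x)) a ∧ |a - qt x| ≤ (1 / 2) * qt x := by
    intro x
    obtain ⟨a, ha, hb⟩ := hgs 0 x
    exact ⟨a, ha, by simpa using hb⟩
  obtain ⟨e, p, he⟩ := exists_ueval hg
  obtain ⟨C, d, hC, hd, hp⟩ := poly_bound p
  set U := (desc e).length with hU
  set c := Real.log (13 / 12) with hc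
  have hc0 : 0 < c := Real.log_pos (by norm_num)
  have hl0 : 0 < Real.log 2 := Real.log_pos (by norm_num)
  set δ : ℝ := (((2 * d + 2 : ℕ) : ℝ))⁻¹ with hδ
  have hδ0 : 0 < δ := by positivity
  refine ⟨δ, hδ0, ?_⟩
  have ht : Filter.Tendsto (fun n : ℕ => (n : ℝ) ^ δ) Filter.atTop Filter.atTop :=
    (tendsto_rpow_atTop hδ0).comp tendsto_natCast_atTop_atTop
  filter_upwards [ht.eventually_ge_atTop ((U : ℝ) + 3), ht.eventually_ge_atTop ((2 : ℝ) ^ d * C),
    ht.eventually_ge_atTop ((2 + c + U * Real.log 2) / c)] with n h1 h2 h3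
  have hnt : ((n : ℝ) ^ δ) ^ (2 * d + 2) = n := by
    rw [hδ]
    exact Real.rpow_inv_natCast_pow (by positivity) (by omega)
  set t : ℝ := (n : ℝ) ^ δ with htdef
  have ht1 : 1 ≤ t := by
    have : (0 : ℝ) ≤ U := by positivity
    linarith
  set k : ℕ := ⌊t ^ 2⌋₊ with hk
  have hk1 : (k : ℝ) ≤ t ^ 2 := Nat.floor_le (by positivity)
  have hk2 : t ^ 2 < k + 1 := Nat.lt_floor_add_one _
  -- the main estimate
  have hs : ((C * (U + k + 1 + 1) ^ d : ℕ) : ℝ) ≤ n := by
    push_cast
    have a1 : (U : ℝ) + k + 1 + 1 ≤ 2 * t ^ 2 := by nlinarith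
    calc (C : ℝ) * ((U : ℝ) + k + 1 + 1) ^ d ≤ C * (2 * t ^ 2) ^ d := by gcongr
      _ = (2 ^ d * C) * (t ^ (2 * d)) := by rw [mul_pow, pow_mul]; ring
      _ ≤ t * t ^ (2 * d) := by gcongr
      _ ≤ t ^ 2 * t ^ (2 * d) := by
          gcongr
          nlinarith
      _ = t ^ (2 * d + 2) := by rw [← pow_add]; ring_nf
      _ = n := hnt
  have hs' : C * (U + k + 1 + 1) ^ d ≤ n := by exact_mod_cast hs
  have hle := le_regret h hg' he (n := n) (k := k) (by
    have : U + k + 1 + 1 ≤ C * (U + k + 1 + 1) ^ d := by
      calc U + k + 1 + 1 = 1 * (U + k + 1 + 1) ^ 1 := by ring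
        _ ≤ C * (U + k + 1 + 1) ^ d :=
          Nat.mul_le_mul hC (Nat.pow_le_pow_right (by omega) hd)
    omega) (fun s hsle => (hp s).trans (le_trans (Nat.mul_le_mul_left _
      (Nat.pow_le_pow_left (by omega) d)) hs'))
  refine le_trans (EReal.coe_le_coe_iff.2 ?_) hle
  rw [div_le_iff₀ hc0] at h3
  have b1 : t * (2 + c + U * Real.log 2) ≤ t * (t * c) := mul_le_mul_of_nonneg_left h3 (by linarith)
  have b2 : 0 ≤ (t - 1) * (c + U * Real.log 2) := mul_nonneg (by linarith) (by positivity)
  have b3 : (t ^ 2 - 1) * c ≤ k * c := by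
    refine mul_le_mul_of_nonneg_right ?_ hc0.le
    linarith
  nlinarith

end Pool.Agent.H79.Est
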