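import Pool.Agent.PPS.Codes
import Pool.Agent.PPS.Bridge

/-!
# A clocked universal evaluator for polynomial-time functions on words

`ueval e x T` runs the stack program coded by the tree `e` on the word `x` for `T` steps of an
interpreter; it is computable in polynomial time (in `e`, `x` and unary `T`), and every function
in `FP` is `ueval e · T` for some `e`, as soon as `T` is at least a polynomial in the length of
the argument.
-/

namespace Pool.Agent.H79.Univ

open Pool.Agent.PPS

/-! ### Codes of programs -/

/-- The code of a program. -/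
def enc {ι : Type} (e : ι → ℕ) : Prog ι → D
  | .skip => .cons (natTree 0) .nil
  | .push i b => .cons (natTree 1) (.cons (natTree (e i)) (Rep.rep b))
  | .pop i n f t => .cons (natTree 2) (.cons (natTree (e i)) (.cons (enc e n)
      (.cons (enc e f) (enc e t))))
  | .seq a b => .cons (natTree 3) (.cons (enc e a) (enc e b))
  | .loop i a => .cons (natTree 4) (.cons (natTree (e i)) (enc e a))

/-- Replace the `i`-th entry. -/
def setAt (i : ℕ) (v : List Bool) (L : List (List Bool)) : List (List Bool) :=
  L.take i ++ v :: L.drop (i + 1)

/-- One step of the interpreter: instructions that use a stack. -/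
def ustep2 (d : D) (K : List D) (L : List (List Bool)) (i : ℕ) (st : List Bool) :
    List D × List (List Bool) :=
  bif decide (toNat (hd d) = 1) then (K, setAt i (toBit (tl (tl d)) :: st) L) else
  bif decide (toNat (hd d) = 2) then
    (match st with
      | [] => (hd (tl (tl d)) :: K, L)
      | b :: l => bif b then (tl (tl (tl (tl d))) :: K, setAt i l L)
        else (hd (tl (tl (tl d))) :: K, setAt i l L))
  else
    (match st with
      | [] => (K, L)
      | b :: l => bif b then (tl (tl d) :: d :: K, setAt i l L) else (K, setAt i l L))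

/-- One step of the interpreter for the instruction `d`. -/
def ustep1 (d : D) (K : List D) (L : List (List Bool)) : List D × List (List Bool) :=
  bif decide (toNat (hd d) = 0) then (K, L) else
  bif decide (toNat (hd d) = 3) then (hd (tl d) :: tl (tl d) :: K, L) else
  ustep2 d K L (toNat (hd (tl d))) (L.getD (toNat (hd (tl d))) [])

/-- One step of the interpreter. The state is the list of programs still to be run together with
the list of the stacks. -/
def ustep (s : List D × List (List Bool)) : List D × List (List Bool) :=
  match s.1 with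
  | [] => s
  | d :: K => ustep1 d K s.2

theorem setAt_length {i : ℕ} {v : List Bool} {L : List (List Bool)} (h : i < L.length) :
    (setAt i v L).length = L.length := by
  simp only [setAt, List.length_append, List.length_take, List.length_cons, List.length_drop]
  omega

theorem getD_setAt {i j : ℕ} {v : List Bool} {L : List (List Bool)} (h : i < L.length) :
    (setAt i v L).getD j [] = if j = i then v else L.getD j [] := by
  simp only [setAt, List.getD_eq_getElem?_getD, List.getElem?_append, List.length_take]
  rw [min_eq_left h.le]
  by_cases hj : j < i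
  · have : j ≠ i := hj.ne
    simp only [hj, if_true, this, if_false]
    rw [List.getElem?_take_of_lt hj]
  · simp only [hj, if_false]
    by_cases hji : j = i
    · subst hji
      simp
    · simp only [hji, if_false]
      obtain ⟨k, hk⟩ : ∃ k, j - i = k + 1 := ⟨j - i - 1, by omega⟩
      rw [hk, List.getElem?_cons_succ, List.getElem?_drop, show i + 1 + k = j by omega]

/-- The list `L` represents the store `S`. -/
def Repr {ι : Type} (e : ι → ℕ) (S : Store ι) (L : List (List Bool)) : Prop :=
  (∀ i, e i < L.length) ∧ ∀ i, L.getD (e i) [] = S i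

theorem Repr.update {ι : Type} [DecidableEq ι] {e : ι → ℕ} (he : Function.Injective e)
    {S : Store ι} {L : List (List Bool)} (h : Repr e S L) (i : ι) (v : List Bool) :
    Repr e (Function.update S i v) (setAt (e i) v L) := by
  refine ⟨fun j => ?_, fun j => ?_⟩
  · rw [setAt_length (h.1 i)]; exact h.1 j
  · rw [getD_setAt (h.1 i)]
    by_cases hj : j = i
    · subst hj; simp
    · have : e j ≠ e i := fun h' => hj (he h')
      rw [if_neg this, Function.update_of_ne hj]
      exact h.2 j

/-- The interpreter simulates execution. -/
theorem sim {ι : Type} [DecidableEq ι] {e : ι → ℕ} (he : Function.Injective e) {B : ℕ}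
    {c : Prog ι} {S S' : Store ι} {t : ℕ} (h : Exec B c S S' t) :
    ∀ (L : List (List Bool)) (K : List D), Repr e S L →
      ∃ L' n, n + 1 ≤ 3 * t ∧ Repr e S' L' ∧ ustep^[n] (enc e c :: K, L) = (K, L') := by
  induction h with
  | skip S =>
    intro L K hL
    refine ⟨L, 1, by omega, hL, ?_⟩
    have h2 : toNat (natTree 0) = 0 := toNat_rep 0
    simp only [Function.iterate_one, ustep, ustep1, enc, hd, h2]
    rfl
  | push S i b h =>
    intro L K hL
    refine ⟨setAt (e i) (b :: S i) L, 1, by omega, hL.update he i _, ?_⟩
    have h1 : toNat (natTree (e i)) = e i := toNat_rep (e i)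
    have h2 : toNat (natTree 1) = 1 := toNat_rep 1
    simp only [Function.iterate_one, ustep, ustep1, enc, hd, tl, h1, h2, one_ne_zero,
      decide_false, cond_false, ustep2, decide_true, cond_true, toBit_rep, hL.2 i]
    rfl
  | popN S S' i n f t u hS h ih =>
    intro L K hL
    obtain ⟨L', k, hk, hL', hr⟩ := ih L K hL
    refine ⟨L', k + 1, by omega, hL', ?_⟩
    rw [Function.iterate_succ_apply]
    have h1 : toNat (natTree (e i)) = e i := toNat_rep (e i)
    have h2 : toNat (natTree 2) = 2 := toNat_rep 2
    have : ustep (enc e (.pop i n f t) :: K, L) = (enc e n :: K, L) := by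
      have hg : L.getD (e i) [] = [] := by rw [hL.2 i, hS]
      simp only [ustep, ustep1, enc, hd, tl, h1, h2, ustep2, hg]
      rfl
    rw [this]
    exact hr
  | popF S S' i n f t u l hS h ih =>
    intro L K hL
    obtain ⟨L', k, hk, hL', hr⟩ := ih (setAt (e i) l L) K (hL.update he i _)
    refine ⟨L', k + 1, by omega, hL', ?_⟩
    rw [Function.iterate_succ_apply]
    have h1 : toNat (natTree (e i)) = e i := toNat_rep (e i)
    have h2 : toNat (natTree 2) = 2 := toNat_rep 2
    have : ustep (enc e (.pop i n f t) :: K, L) = (enc e f :: K, setAt (e i) l L) := by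
      have hg : L.getD (e i) [] = false :: l := by rw [hL.2 i, hS]
      simp only [ustep, ustep1, enc, hd, tl, h1, h2, ustep2, hg]
      rfl
    rw [this]
    exact hr
  | popT S S' i n f t u l hS h ih =>
    intro L K hL
    obtain ⟨L', k, hk, hL', hr⟩ := ih (setAt (e i) l L) K (hL.update he i _)
    refine ⟨L', k + 1, by omega, hL', ?_⟩
    rw [Function.iterate_succ_apply]
    have h1 : toNat (natTree (e i)) = e i := toNat_rep (e i)
    have h2 : toNat (natTree 2) = 2 := toNat_rep 2
    have : ustep (enc e (.pop i n f t) :: K, L) = (enc e t :: K, setAt (e i) l L) := by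
      have hg : L.getD (e i) [] = true :: l := by rw [hL.2 i, hS]
      simp only [ustep, ustep1, enc, hd, tl, h1, h2, ustep2, hg]
      rfl
    rw [this]
    exact hr
  | seq S S' S'' a b u v h h' ih ih' =>
    intro L K hL
    obtain ⟨L₁, k₁, hk₁, hL₁, hr₁⟩ := ih L (enc e b :: K) hL
    obtain ⟨L₂, k₂, hk₂, hL₂, hr₂⟩ := ih' L₁ K hL₁
    refine ⟨L₂, k₂ + (k₁ + 1), by omega, hL₂, ?_⟩
    have h2 : toNat (natTree 3) = 3 := toNat_rep 3
    have : ustep (enc e (.seq a b) :: K, L) = (enc e a :: enc e b :: K, L) := by
      simp only [ustep, ustep1, enc, hd, tl, h2]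
      rfl
    rw [Function.iterate_add_apply, Function.iterate_succ_apply, this, hr₁, hr₂]
  | loopN S i a hS =>
    intro L K hL
    refine ⟨L, 1, by omega, hL, ?_⟩
    have h1 : toNat (natTree (e i)) = e i := toNat_rep (e i)
    have h2 : toNat (natTree 4) = 4 := toNat_rep 4
    have hg : L.getD (e i) [] = [] := by rw [hL.2 i, hS]
    simp only [Function.iterate_one, ustep, ustep1, enc, hd, tl, h1, h2, ustep2, hg]
    rfl
  | loopF S i a l hS =>
    intro L K hL
    refine ⟨setAt (e i) l L, 1, by omega, hL.update he i _, ?_⟩
    have h1 : toNat (natTree (e i)) = e i := toNat_rep (e i)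
    have h2 : toNat (natTree 4) = 4 := toNat_rep 4
    have hg : L.getD (e i) [] = false :: l := by rw [hL.2 i, hS]
    simp only [Function.iterate_one, ustep, ustep1, enc, hd, tl, h1, h2, ustep2, hg]
    rfl
  | loopT S S' S'' i a l u v hS h h' ih ih' =>
    intro L K hL
    obtain ⟨L₁, k₁, hk₁, hL₁, hr₁⟩ := ih (setAt (e i) l L) (enc e (.loop i a) :: K)
      (hL.update he i _)
    obtain ⟨L₂, k₂, hk₂, hL₂, hr₂⟩ := ih' L₁ K hL₁
    refine ⟨L₂, k₂ + (k₁ + 1), by omega, hL₂, ?_⟩
    have h1 : toNat (natTree (e i)) = e i := toNat_rep (e i)
    have h2 : toNat (natTree 4) = 4 := toNat_rep 4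
    have : ustep (enc e (.loop i a) :: K, L) =
        (enc e a :: enc e (.loop i a) :: K, setAt (e i) l L) := by
      have hg : L.getD (e i) [] = true :: l := by rw [hL.2 i, hS]
      simp only [ustep, ustep1, enc, hd, tl, h1, h2, ustep2, hg]
      rfl
    rw [Function.iterate_add_apply, Function.iterate_succ_apply, this, hr₁, hr₂]

/-! ### The step is polynomial-time computable -/

section PTs

variable {m : Bool} {α : Type} [Rep α]

@[fun_prop]
theorem PT.setAt' {i : α → ℕ} {v : α → List Bool} {L : α → List (List Bool)} (hi : PT m i)
    (hv : PT m v) (hL : PT m L) : PT m (fun a => setAt (i a) (v a) (L a)) := by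
  unfold setAt
  fun_prop

theorem PT.ustep2' {d : α → D} {K : α → List D} {L : α → List (List Bool)} {i : α → ℕ}
    {st : α → List Bool} (hd' : PT m d) (hK : PT m K) (hL : PT m L) (hi : PT m i)
    (hst : PT m st) : PT m (fun a => ustep2 (d a) (K a) (L a) (i a) (st a)) := by
  unfold ustep2
  refine PT.cond (by fun_prop) (by fun_prop) (PT.cond (by fun_prop) ?_ ?_)
  · have := PT.listCase (m := m) (l := st) (f := fun a => (hd (tl (tl (d a))) :: K a, L a))
      (g := fun z => bif z.1.1 then (tl (tl (tl (tl (d z.2)))) :: K z.2, setAt (i z.2) z.1.2 (L z.2))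
        else (hd (tl (tl (tl (d z.2)))) :: K z.2, setAt (i z.2) z.1.2 (L z.2)))
      hst (by fun_prop) (by fun_prop)
    convert this using 2 with a
    cases st a <;> rfl
  · have := PT.listCase (m := m) (l := st) (f := fun a => (K a, L a))
      (g := fun z => bif z.1.1 then (tl (tl (d z.2)) :: d z.2 :: K z.2, setAt (i z.2) z.1.2 (L z.2))
        else (K z.2, setAt (i z.2) z.1.2 (L z.2)))
      hst (by fun_prop) (by fun_prop)
    convert this using 2 with a
    cases st a <;> rfl

theorem PT.ustep1' {d : α → D} {K : α → List D} {L : α → List (List Bool)} (hd' : PT m d)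
    (hK : PT m K) (hL : PT m L) : PT m (fun a => ustep1 (d a) (K a) (L a)) := by
  unfold ustep1
  refine PT.cond (by fun_prop) (by fun_prop) (PT.cond (by fun_prop) (by fun_prop) ?_)
  exact PT.ustep2' (by fun_prop) (by fun_prop) (by fun_prop) (by fun_prop) (by fun_prop)

theorem PT.ustep' : PT m ustep := by
  have := PT.listCase (m := m) (l := fun s : List D × List (List Bool) => s.1)
    (f := fun s => s) (g := fun z => ustep1 z.1.1 z.1.2 z.2.2) (by fun_prop) (by fun_prop)
    (PT.ustep1' (by fun_prop) (by fun_prop) (by fun_prop))
  convert this using 2 with s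
  rcases s with ⟨K, L⟩
  cases K <;> rfl

end PTs

/-! ### Size bounds -/

theorem size_hd_le (d : D) : size (hd d) ≤ size d := by
  cases d with
  | nil => exact le_rfl
  | cons a b => rw [size_tree_cons]; simp only [hd]; omega

theorem size_tl_le (d : D) : size (tl d) ≤ size d := by
  cases d with
  | nil => exact le_rfl
  | cons a b => rw [size_tree_cons]; simp only [tl]; omega

theorem size_setAt (i : ℕ) (v : List Bool) (L : List (List Bool)) :
    size (setAt i v L) + size (L.getD i []) ≤ size L + size v + 2 := by
  unfold setAt
  rcases lt_or_ge i L.length with h | h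
  · have h1 : size (L.take i ++ v :: L.drop (i + 1)) + 1 =
        size (L.take i) + (size v + size (L.drop (i + 1)) + 1) := by
      rw [size_append, size_cons]
    have h2 : size L + 1 = size (L.take i) + (size (L.getD i []) + size (L.drop (i + 1)) + 1) := by
      have h3 : L = L.take i ++ L.getD i [] :: L.drop (i + 1) := by
        rw [List.getD_eq_getElem?_getD, List.getElem?_eq_getElem h, Option.getD_some,
          ← List.drop_eq_getElem_cons h, List.take_append_drop]
      conv_lhs => rw [h3]
      rw [size_append, size_cons]
    omega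
  · have h1 : size (L.take i ++ v :: L.drop (i + 1)) + 1 =
        size (L.take i) + (size v + size (L.drop (i + 1)) + 1) := by
      rw [size_append, size_cons]
    rw [List.take_of_length_le h] at h1
    have h2 : L.drop (i + 1) = [] := List.drop_eq_nil_of_le (by omega)
    rw [h2, size_nil] at h1
    have h3 : L.getD i [] = [] := by
      rw [List.getD_eq_getElem?_getD, List.getElem?_eq_none h]; rfl
    rw [h3, size_nil, h2, List.take_of_length_le h]
    omega

/-- The invariant of the interpreter. -/
def Inv (M s k : ℕ) (z : List D × List (List Bool)) : Prop :=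
  (∀ d ∈ z.1, size d ≤ M) ∧ z.1.length ≤ k + 1 ∧ size z.2 ≤ s + 6 * k

theorem Inv.step {M s k : ℕ} {z : List D × List (List Bool)} (h : Inv M s k z) :
    Inv M s (k + 1) (ustep z) := by
  obtain ⟨K, L⟩ := z
  obtain ⟨h1, h2, h3⟩ := h
  simp only at h1 h2 h3
  cases K with
  | nil => exact ⟨by simp [ustep], by simp [ustep], by simp only [ustep]; omega⟩
  | cons d K =>
    have hdM : size d ≤ M := h1 d (by simp)
    have hK : ∀ x ∈ K, size x ≤ M := fun x hx => h1 x (by simp [hx])
    have hl : K.length ≤ k := by simpa using h2
    have a1 := size_hd_le d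
    have a2 := size_tl_le d
    have a3 := size_tl_le (tl d)
    have a4 := size_tl_le (tl (tl d))
    have a5 := size_tl_le (tl (tl (tl d)))
    have a6 := size_hd_le (tl d)
    have a7 := size_hd_le (tl (tl d))
    have a8 := size_hd_le (tl (tl (tl d)))
    -- generic closing facts
    have c0 : ∀ L', size L' ≤ size L + 6 → Inv M s (k + 1) (K, L') := fun L' hL' =>
      ⟨hK, by simp only; omega, by simp only; omega⟩
    have c1 : ∀ L' x, size x ≤ M → size L' ≤ size L + 6 → Inv M s (k + 1) (x :: K, L') := by
      intro L' x hx hL'
      refine ⟨?_, by simp only [List.length_cons]; omega, by simp only; omega⟩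
      intro y hy
      rcases List.mem_cons.1 hy with rfl | hy
      · exact hx
      · exact hK y hy
    have c2 : ∀ L' x x', size x ≤ M → size x' ≤ M → size L' ≤ size L + 6 →
        Inv M s (k + 1) (x :: x' :: K, L') := by
      intro L' x x' hx hx' hL'
      refine ⟨?_, by simp only [List.length_cons]; omega, by simp only; omega⟩
      intro y hy
      rcases List.mem_cons.1 hy with rfl | hy
      · exact hx
      · rcases List.mem_cons.1 hy with rfl | hy
        · exact hx'
        · exact hK y hy
    simp only [ustep, ustep1]
    by_cases t0 : toNat (hd d) = 0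
    · simp only [t0, decide_true, cond_true]
      exact c0 _ (by omega)
    by_cases t3 : toNat (hd d) = 3
    · simp only [t3, OfNat.ofNat_ne_zero, decide_false, cond_false, decide_true, cond_true]
      exact c2 _ _ _ (by omega) (by omega) (by omega)
    simp only [t0, t3, decide_false, cond_false, ustep2]
    generalize toNat (hd (tl d)) = i
    have hset := fun v => size_setAt i v L
    generalize hst : L.getD i [] = st
    rw [hst] at hset
    by_cases t1 : toNat (hd d) = 1
    · simp only [t1, decide_true, cond_true]
      refine c0 _ ?_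
      have := hset (toBit (tl (tl d)) :: st)
      rw [size_cons] at this
      have hb := size_bool_le (toBit (tl (tl d)))
      omega
    simp only [t1, decide_false, cond_false]
    by_cases t2 : toNat (hd d) = 2
    · simp only [t2, decide_true, cond_true]
      cases st with
      | nil => exact c1 _ _ (by omega) (by omega)
      | cons b l =>
        have := hset l
        rw [size_cons] at this
        have hb := size_pos b
        cases b
        · exact c1 _ _ (by omega) (by omega)
        · exact c1 _ _ (by omega) (by omega)
    · simp only [t2, decide_false, cond_false]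
      cases st with
      | nil => exact c0 _ (by omega)
      | cons b l =>
        have := hset l
        rw [size_cons] at this
        have hb := size_pos b
        cases b
        · exact c0 _ (by omega)
        · exact c2 _ _ _ (by omega) (by omega) (by omega)

theorem Inv.iterate {M s : ℕ} {z : List D × List (List Bool)} (h : Inv M s 0 z) (k : ℕ) :
    Inv M s k (ustep^[k] z) := by
  induction k with
  | zero => exact h
  | succ k ih =>
    rw [Function.iterate_succ_apply']
    exact ih.step

theorem Inv.size_le {M s k : ℕ} {z : List D × List (List Bool)} (h : Inv M s k z) :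
    size z ≤ (k + 1) * (M + 1) + 1 + (s + 6 * k) + 1 := by
  obtain ⟨h1, h2, h3⟩ := h
  have h4 := size_list_le h1
  have h5 : z.1.length * (M + 1) ≤ (k + 1) * (M + 1) := Nat.mul_le_mul_right _ h2
  rw [show z = (z.1, z.2) from rfl, size_pair]
  omega

/-! ### The universal evaluator -/

/-- The initial state. -/
def uini (e : D) (x : List Bool) : List D × List (List Bool) :=
  ([tl (tl e)], setAt (toNat (hd (tl e))) (code x) (List.replicate (toNat (hd e)) []))

/-- Read off the result. -/
def uout (e : D) (s : List D × List (List Bool)) : Option (List Bool) :=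
  match s.1 with
  | [] => some (toWord (decodeD (s.2.getD (toNat (hd (tl e))) [])))
  | _ :: _ => none

/-- The universal evaluator with clock. -/
def ueval (e : D) (x : List Bool) (T : ℕ) : Option (List Bool) := uout e (ustep^[T] (uini e x))

section PTs

variable {m : Bool} {α : Type} [Rep α]

theorem PT.uini' {e : α → D} {x : α → List Bool} (he : PT m e) (hx : PT m x) :
    PT m (fun a => uini (e a) (x a)) := by
  unfold uini
  fun_prop

theorem PT.uout' {e : α → D} {s : α → List D × List (List Bool)} (he : PT m e) (hs : PT m s) :
    PT m (fun a => uout (e a) (s a)) := by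
  have := PT.listCase (m := m) (l := fun a => (s a).1)
    (f := fun a => some (toWord (decodeD ((s a).2.getD (toNat (hd (tl (e a)))) []))))
    (g := fun _ => (none : Option (List Bool))) (by fun_prop)
    (PT.some' (PT.toWord' (PT.decodeD' (by fun_prop)))) (by fun_prop)
  convert this using 2 with a
  unfold uout
  cases (s a).1 <;> rfl

theorem PT.ueval' {e : α → D} {x : α → List Bool} {T : α → ℕ} (he : PT m e) (hx : PT m x)
    (hT : PT m T) : PT m (fun a => ueval (e a) (x a) (T a)) := by
  unfold ueval
  refine PT.uout' he ?_
  have hini := PT.uini' he hx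
  obtain ⟨p, hp⟩ := hini.exists_size_le
  obtain ⟨r, hr⟩ := hT.exists_size_le
  refine PT.iterate (m := m) (s := fun z => ustep z.2) hT hini (PT.ustep'.comp (by fun_prop))
    ((r + 1) * (p + 1) + 1 + (p + 6 * r) + 1) ?_
  intro a k hk
  have h1 : Inv (size (uini (e a) (x a))) (size (uini (e a) (x a))) 0 (uini (e a) (x a)) := by
    have h2 : size (uini (e a) (x a)) = size (uini (e a) (x a)).1 +
      size (uini (e a) (x a)).2 + 1 := size_pair _ _
    refine ⟨?_, ?_, ?_⟩
    · intro d hd'
      have := size_le_of_mem hd'
      omega
    · simp [uini]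
    · omega
  have h3 := (h1.iterate k).size_le
  refine h3.trans ?_
  have h4 := hp a
  have h5 := hr a
  rw [size_nat] at h5
  simp only [Polynomial.eval_add, Polynomial.eval_mul, Polynomial.eval_one,
    Polynomial.eval_ofNat]
  have h6 : (k + 1) * (size (uini (e a) (x a)) + 1) ≤
      (r.eval (size a) + 1) * (p.eval (size a) + 1) :=
    Nat.mul_le_mul (by omega) (by omega)
  omega

attribute [fun_prop] PT.ueval'

end PTs

theorem iterate_nil (n : ℕ) (L : List (List Bool)) : ustep^[n] ([], L) = ([], L) := by
  induction n with
  | zero => rfl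
  | succ n ih => rw [Function.iterate_succ_apply', ih]; rfl

/-- Every function in `FP` is evaluated by the universal evaluator. -/
theorem exists_ueval {f : List Bool → List Bool} (hf : f ∈ FP) :
    ∃ (e : D) (p : Polynomial ℕ), ∀ (x : List Bool) (T : ℕ), p.eval x.length ≤ T →
      ueval e x T = some (f x) := by
  rw [mem_FP_iff] at hf
  obtain ⟨I⟩ := hf.impl
  obtain ⟨N, ⟨σ⟩⟩ := Finite.exists_equiv_fin I.ι
  let e₀ : I.ι → ℕ := fun i => (σ i : ℕ)
  have he₀ : Function.Injective e₀ := fun i j h => σ.injective (Fin.ext h)
  refine ⟨.cons (natTree N) (.cons (natTree (e₀ I.io)) (enc e₀ I.c)),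
    3 * I.p.comp (4 * Polynomial.X + 1), ?_⟩
  intro x T hT
  obtain ⟨T', ⟨t, ht, hE⟩, hm⟩ := I.spec x
  have hL : Repr e₀ (one I.io (code x)) (setAt (e₀ I.io) (code x) (List.replicate N [])) := by
    have h0 : ∀ i, e₀ i < (List.replicate N ([] : List Bool)).length := by
      intro i
      rw [List.length_replicate]
      exact (σ i).2
    refine ⟨fun i => ?_, fun i => ?_⟩
    · rw [setAt_length (h0 _)]; exact h0 i
    · rw [getD_setAt (h0 _)]
      by_cases hi : i = I.io
      · subst hi; simp [one]
      · have h1 : e₀ i ≠ e₀ I.io := fun h => hi (he₀ h)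
        have h2 := h0 i
        rw [if_neg h1]
        simp only [one, hi, if_false, List.getD_eq_getElem?_getD]
        rw [List.getElem?_eq_getElem h2, List.getElem_replicate]
        rfl
  obtain ⟨L', n, hn, hL', hr⟩ := sim he₀ hE _ [] hL
  have hnT : n ≤ T := by
    have h1 := hm rfl
    have h2 : I.p.eval (size x) ≤ I.p.eval (4 * x.length + 1) := polyMono _ (size_le_length x)
    simp only [Polynomial.eval_mul, Polynomial.eval_comp, Polynomial.eval_add,
      Polynomial.eval_ofNat, Polynomial.eval_X, Polynomial.eval_one] at hT
    omega
  have h1 : toNat (natTree N) = N := toNat_rep N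
  have h2 : toNat (natTree (e₀ I.io)) = e₀ I.io := toNat_rep _
  simp only [ueval, uini, hd, tl, h1, h2]
  rw [show T = (T - n) + n by omega, Function.iterate_add_apply, hr, iterate_nil]
  simp only [uout, hd, tl, h2, hL'.2, one, if_true]
  rw [decodeD_codeT, toWord_rep]

end Pool.Agent.H79.Univ
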