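import Pool.Agent.H79.EstDefs
import Pool.Agent.H79.Univ

/-!
# An offline estimator in `P` that no online estimator in `P` follows with small regret
-/

open scoped ENNReal

namespace Pool.Agent.H79.Est

open Pool.Agent.PPS Pool.Agent.H79.Univ

/-! ### Parsing -/

/-- The number of leading `true`s. -/
def lead (w : List Bool) : ℕ := w.foldr (fun b n => bif b then n + 1 else 0) 0

theorem lead_cons (b : Bool) (w : List Bool) : lead (b :: w) = bif b then lead w + 1 else 0 := rfl

theorem lead_le (w : List Bool) : lead w ≤ w.length := by
  induction w with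
  | nil => exact le_rfl
  | cons b w ih =>
    rw [lead_cons, List.length_cons]
    cases b
    · exact Nat.zero_le _
    · simp only [cond_true]; omega

theorem lead_replicate (n : ℕ) (w : List Bool) :
    lead (List.replicate n true ++ false :: w) = n := by
  induction n with
  | zero => rfl
  | succ n ih =>
    rw [List.replicate_succ, List.cons_append, lead_cons, ih]
    rfl

theorem lead_replicate' (n : ℕ) : lead (List.replicate n true) = n := by
  induction n with
  | zero => rfl
  | succ n ih =>
    rw [List.replicate_succ, lead_cons, ih]
    rfl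

/-- The numerator of an output word. -/
def numPart (w : List Bool) : List Bool := (w.drop (lead w + 1)).take (lead w)

/-- The denominator of an output word. -/
def denPart (w : List Bool) : List Bool := (w.drop (lead w + 1)).drop (lead w)

theorem parse_word (n : ℕ) (w : List Bool) :
    (List.replicate n true ++ false :: w).drop
      (lead (List.replicate n true ++ false :: w) + 1) = w := by
  rw [lead_replicate, List.drop_append]
  simp

theorem numPart_word (u v : List Bool) :
    numPart (List.replicate u.length true ++ false :: (u ++ v)) = u := by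
  unfold numPart
  rw [parse_word, lead_replicate, List.take_left]

theorem denPart_word (u v : List Bool) :
    denPart (List.replicate u.length true ++ false :: (u ++ v)) = v := by
  unfold denPart
  rw [parse_word, lead_replicate, List.drop_left]

theorem numeral_cons (b : Bool) (u : List Bool) : numeral (b :: u) = b.toNat + 2 * numeral u := rfl

/-- The binary length of a numeral (ignoring leading zeros). -/
def blen (u : List Bool) : ℕ :=
  u.foldr (fun b n => bif decide (n = 0) then (bif b then 1 else 0) else n + 1) 0

theorem blen_cons (b : Bool) (u : List Bool) :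
    blen (b :: u) = bif decide (blen u = 0) then (bif b then 1 else 0) else blen u + 1 := rfl

theorem blen_le (u : List Bool) : blen u ≤ u.length := by
  induction u with
  | nil => exact le_rfl
  | cons b u ih =>
    rw [blen_cons, List.length_cons]
    by_cases h : blen u = 0
    · cases b <;> simp [h]
    · simp [h]; omega

theorem numeral_lt (u : List Bool) : numeral u < 2 ^ blen u := by
  induction u with
  | nil => simp [numeral, blen]
  | cons b u ih =>
    rw [blen_cons, numeral_cons]
    by_cases h : blen u = 0
    · rw [h] at ih
      have h0 : numeral u = 0 := by simpa using ih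
      cases b <;> simp [h, h0]
    · simp only [h, decide_false, cond_false, pow_succ]
      cases b <;> simp only [Bool.toNat_true, Bool.toNat_false] <;> omega

theorem le_numeral {u : List Bool} (h : blen u ≠ 0) : 2 ^ (blen u - 1) ≤ numeral u := by
  induction u with
  | nil => exact absurd rfl h
  | cons b u ih =>
    rw [blen_cons] at h ⊢
    rw [numeral_cons]
    by_cases h' : blen u = 0
    · cases b
      · simp [h'] at h
      · simp [h']
    · have := ih h'
      simp only [h', decide_false, cond_false, Nat.add_sub_cancel]
      have h2 : 2 ^ blen u = 2 * 2 ^ (blen u - 1) := by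
        rw [← pow_succ', Nat.sub_add_cancel (Nat.pos_of_ne_zero h')]
      omega

/-- Compare the rational numbers encoded by two words: `true` if the second one looks smaller. -/
def chooseW (w₀ w₁ : List Bool) : Bool :=
  bif decide (blen (numPart w₀) = 0) then false else
  bif decide (blen (numPart w₁) = 0) then true else
  decide (blen (numPart w₁) + blen (denPart w₀) < blen (numPart w₀) + blen (denPart w₁))

theorem blen_pos_of_ne {u : List Bool} (h : numeral u ≠ 0) : blen u ≠ 0 := by
  intro h'
  have := numeral_lt u
  rw [h'] at this
  omega

/-- The chosen value is at most four times the other one. -/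
theorem four_le {N₀ D₀ N₁ D₁ : List Bool} (h1 : blen N₁ ≠ 0) (hD : numeral D₀ ≠ 0)
    (h : blen N₀ + blen D₁ ≤ blen N₁ + blen D₀) :
    numeral N₀ * numeral D₁ ≤ 4 * (numeral N₁ * numeral D₀) := by
  have a1 := numeral_lt N₀
  have a2 := numeral_lt D₁
  have a3 := le_numeral h1
  have a4 := le_numeral (blen_pos_of_ne hD)
  have hd := blen_pos_of_ne hD
  calc numeral N₀ * numeral D₁ ≤ 2 ^ blen N₀ * 2 ^ blen D₁ := Nat.mul_le_mul a1.le a2.le
    _ = 2 ^ (blen N₀ + blen D₁) := by rw [pow_add]
    _ ≤ 2 ^ (blen N₁ + blen D₀) := Nat.pow_le_pow_right (by norm_num) h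
    _ = 4 * (2 ^ (blen N₁ - 1) * 2 ^ (blen D₀ - 1)) := by
        obtain ⟨x, hx⟩ : ∃ x, blen N₁ = x + 1 := ⟨blen N₁ - 1, by omega⟩
        obtain ⟨y, hy⟩ : ∃ y, blen D₀ = y + 1 := ⟨blen D₀ - 1, by omega⟩
        rw [hx, hy]
        simp only [Nat.add_sub_cancel]
        ring
    _ ≤ 4 * (numeral N₁ * numeral D₀) := Nat.mul_le_mul_left _ (Nat.mul_le_mul a3 a4)

theorem chooseW_spec {w₀ w₁ : List Bool} {a₀ a₁ : ℝ} (h₀ : Encodes w₀ a₀) (h₁ : Encodes w₁ a₁) :
    (chooseW w₀ w₁ = false → a₀ ≤ 4 * a₁) ∧ (chooseW w₀ w₁ = true → a₁ ≤ 4 * a₀) := by
  obtain ⟨N₀, D₀, hw₀, hD₀, rfl⟩ := h₀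
  obtain ⟨N₁, D₁, hw₁, hD₁, rfl⟩ := h₁
  have e1 : numPart w₀ = N₀ := by rw [hw₀, numPart_word]
  have e2 : denPart w₀ = D₀ := by rw [hw₀, denPart_word]
  have e3 : numPart w₁ = N₁ := by rw [hw₁, numPart_word]
  have e4 : denPart w₁ = D₁ := by rw [hw₁, denPart_word]
  simp only [chooseW, e1, e2, e3, e4]
  have p0 : (0 : ℝ) < numeral D₀ := by exact_mod_cast Nat.pos_of_ne_zero hD₀
  have p1 : (0 : ℝ) < numeral D₁ := by exact_mod_cast Nat.pos_of_ne_zero hD₁
  by_cases z0 : blen N₀ = 0
  · have h0 : numeral N₀ = 0 := by
      have := numeral_lt N₀
      rw [z0] at this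
      omega
    simp only [z0, decide_true, cond_true, h0, Nat.cast_zero, zero_div, Bool.false_eq_true,
      false_imp_iff, and_true, forall_true_left]
    positivity
  by_cases z1 : blen N₁ = 0
  · have h0 : numeral N₁ = 0 := by
      have := numeral_lt N₁
      rw [z1] at this
      omega
    simp only [z0, z1, decide_true, cond_true, decide_false, cond_false, h0, Nat.cast_zero,
      zero_div, Bool.true_eq_false, false_imp_iff, true_and, forall_true_left]
    positivity
  simp only [z0, z1, decide_false, cond_false, decide_eq_false_iff_not, decide_eq_true_eq]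
  constructor
  · intro h
    have := four_le z1 hD₀ (by omega : blen N₀ + blen D₁ ≤ blen N₁ + blen D₀)
    have h2 : (numeral N₀ : ℝ) * numeral D₁ ≤ 4 * (numeral N₁ * numeral D₀) := by
      exact_mod_cast this
    rw [← mul_div_assoc, div_le_div_iff₀ p0 p1]
    linarith
  · intro h
    have := four_le z0 hD₁ (by omega : blen N₁ + blen D₀ ≤ blen N₀ + blen D₁)
    have h2 : (numeral N₁ : ℝ) * numeral D₀ ≤ 4 * (numeral N₀ * numeral D₁) := by
      exact_mod_cast this
    rw [← mul_div_assoc, div_le_div_iff₀ p1 p0]
    linarith

/-- Choose the next bit from the two (possibly missing) output words. -/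
def choose (o₀ o₁ : Option (List Bool)) : Bool :=
  match o₀ with
  | none => false
  | some a => match o₁ with
    | none => false
    | some b => chooseW a b

/-- The program described by a string. -/
def code' (y : List Bool) : D := decodeD ((y.drop (lead y + 1)).take (lead y))

/-- The next bit after `y`, computed with clock `T`. -/
def bit (T : ℕ) (y : List Bool) : Bool :=
  choose (ueval (code' y) (inp 0 (y ++ [false])) T) (ueval (code' y) (inp 0 (y ++ [true])) T)

/-- The string `y` contains a complete description of a program. -/
def complete (y : List Bool) : Bool := decide (2 * lead y + 1 ≤ y.length)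

/-- The conditional probability of the bit `b` after `y`. -/
noncomputable def cnd (T : ℕ) (y : List Bool) (b : Bool) : ℝ :=
  bif complete y then (bif b == bit T y then 1 else 0) else 1 / 2

/-- The conditional probability of the string `r` after `y`. -/
noncomputable def prodFrom (T : ℕ) : List Bool → List Bool → ℝ
  | _, [] => 1
  | y, b :: r => cnd T y b * prodFrom T (y ++ [b]) r

/-- The offline estimator. -/
noncomputable def q (x : List Bool) : ℝ := prodFrom x.length [] x

/-! ### The estimator is a probability distribution on each level -/

theorem cnd_nonneg (T : ℕ) (y : List Bool) (b : Bool) : 0 ≤ cnd T y b := by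
  unfold cnd
  cases complete y
  · norm_num
  · cases (b == bit T y) <;> norm_num

theorem cnd_add (T : ℕ) (y : List Bool) : cnd T y false + cnd T y true = 1 := by
  unfold cnd
  cases complete y
  · norm_num
  · cases bit T y <;> norm_num

theorem prodFrom_nonneg (T : ℕ) (r : List Bool) : ∀ y, 0 ≤ prodFrom T y r := by
  induction r with
  | nil => intro y; simp [prodFrom]
  | cons b r ih => intro y; exact mul_nonneg (cnd_nonneg _ _ _) (ih _)

theorem sum_prodFrom (T n : ℕ) : ∀ y, ∑ x : Fin n → Bool, prodFrom T y (List.ofFn x) = 1 := by
  induction n with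
  | zero => intro y; simp [prodFrom]
  | succ n ih =>
    intro y
    rw [← (Fin.consEquiv fun _ : Fin (n + 1) => Bool).sum_comp, Fintype.sum_prod_type]
    have h : ∀ b : Bool, ∑ x : Fin n → Bool,
        prodFrom T y (List.ofFn ((Fin.consEquiv fun _ : Fin (n + 1) => Bool) (b, x))) =
        cnd T y b := by
      intro b
      have h2 : ∀ x : Fin n → Bool,
          prodFrom T y (List.ofFn ((Fin.consEquiv fun _ : Fin (n + 1) => Bool) (b, x))) =
          cnd T y b * prodFrom T (y ++ [b]) (List.ofFn x) := by
        intro x
        have : (Fin.consEquiv fun _ : Fin (n + 1) => Bool) (b, x) = Fin.cons b x := rfl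
        rw [this, List.ofFn_cons]
        rfl
      rw [Finset.sum_congr rfl fun x _ => h2 x, ← Finset.mul_sum, ih, mul_one]
    rw [Finset.sum_congr rfl fun b _ => h b]
    simp only [Fintype.sum_bool]
    rw [add_comm]
    exact cnd_add T y

theorem q_isOffline : IsOffline q := by
  refine ⟨fun x => prodFrom_nonneg _ _ _, fun n => ?_⟩
  have h : ∀ x : Fin n → Bool, q (List.ofFn x) = prodFrom n [] (List.ofFn x) := by
    intro x
    rw [q, List.length_ofFn]
  rw [Finset.sum_congr rfl fun x _ => h x]
  exact sum_prodFrom n n []

/-! ### The estimator is in `P` -/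

/-- One step of the computation of `q`: the state is the string read so far, the number of
factors `1/2`, and a flag. -/
def stp (T : ℕ) (s : List Bool × ℕ × Bool) (b : Bool) : List Bool × ℕ × Bool :=
  (s.1 ++ [b], (bif complete s.1 then s.2.1 else s.2.1 + 1),
    (bif complete s.1 then (s.2.2 && (b == bit T s.1)) else s.2.2))

theorem foldl_stp (T : ℕ) (r : List Bool) : ∀ s : List Bool × ℕ × Bool,
    (((r.foldl (stp T) s).2.2.toNat : ℝ) / 2 ^ (r.foldl (stp T) s).2.1 =
      (s.2.2.toNat : ℝ) / 2 ^ s.2.1 * prodFrom T s.1 r) := by
  induction r with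
  | nil => intro s; simp [prodFrom]
  | cons b r ih =>
    intro s
    rw [List.foldl_cons, ih]
    simp only [stp, prodFrom, cnd]
    rcases s with ⟨y, j, f⟩
    simp only
    cases complete y
    · simp only [cond_false, pow_succ]
      ring
    · simp only [cond_true]
      cases f <;> cases (b == bit T y) <;> simp

theorem foldl_stp_fst (T : ℕ) (r : List Bool) : ∀ s : List Bool × ℕ × Bool,
    (r.foldl (stp T) s).1 = s.1 ++ r := by
  induction r with
  | nil => intro s; simp
  | cons b r ih => intro s; rw [List.foldl_cons, ih]; simp [stp]

theorem foldl_stp_snd (T : ℕ) (r : List Bool) : ∀ s : List Bool × ℕ × Bool,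
    (r.foldl (stp T) s).2.1 ≤ s.2.1 + r.length := by
  induction r with
  | nil => intro s; simp
  | cons b r ih =>
    intro s
    rw [List.foldl_cons, List.length_cons]
    refine (ih _).trans ?_
    simp only [stp]
    cases complete s.1 <;> simp only [cond_true, cond_false] <;> omega

/-- The output word for a state. -/
def outw (s : List Bool × ℕ × Bool) : List Bool :=
  true :: false :: s.2.2 :: (List.replicate s.2.1 false ++ [true])

theorem numeral_pow (j : ℕ) : numeral (List.replicate j false ++ [true]) = 2 ^ j := by
  induction j with
  | zero => rfl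
  | succ j ih =>
    rw [List.replicate_succ, List.cons_append, numeral_cons, ih]
    simp [pow_succ, mul_comm]

theorem outw_encodes (s : List Bool × ℕ × Bool) :
    Encodes (outw s) ((s.2.2.toNat : ℝ) / 2 ^ s.2.1) := by
  refine ⟨[s.2.2], List.replicate s.2.1 false ++ [true], rfl, ?_, ?_⟩
  · rw [numeral_pow]; positivity
  · rw [numeral_pow]
    simp [numeral]

/-- The function computing `q`. -/
def gq (w : List Bool) : List Bool :=
  outw ((w.drop (lead w + 1)).foldl (stp (w.drop (lead w + 1)).length) ([], 0, true))

section PTs

variable {m : Bool} {α : Type} [Rep α]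

@[fun_prop]
theorem PT.lead' {w : α → List Bool} (hw : PT m w) : PT m (fun a => lead (w a)) := by
  have key : PT m lead := by
    have := PT.foldr (m := m) (l := fun w : List Bool => w) (ini := fun _ => 0)
      (s := fun z : List Bool × (Bool × ℕ) => bif z.2.1 then z.2.2 + 1 else 0) (by fun_prop)
      (by fun_prop) (by fun_prop) (2 * Polynomial.X + 1) (by
        intro a k
        have h1 := lead_le (a.drop k)
        have h2 : (a.drop k).length ≤ a.length := by simp
        have h3 := length_le_size' a
        simp only [Polynomial.eval_add, Polynomial.eval_mul, Polynomial.eval_X,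
          Polynomial.eval_one, Polynomial.eval_ofNat, size_nat]
        have h4 : (a.drop k).foldr (fun b y => bif b then y + 1 else 0) 0 = lead (a.drop k) := rfl
        omega)
    exact this
  exact key.comp hw

@[fun_prop]
theorem PT.blen' {w : α → List Bool} (hw : PT m w) : PT m (fun a => blen (w a)) := by
  have key : PT m blen := by
    have := PT.foldr (m := m) (l := fun w : List Bool => w) (ini := fun _ => 0)
      (s := fun z : List Bool × (Bool × ℕ) =>
        bif decide (z.2.2 = 0) then (bif z.2.1 then 1 else 0) else z.2.2 + 1) (by fun_prop)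
      (by fun_prop) (by fun_prop) (2 * Polynomial.X + 1) (by
        intro a k
        have h1 := blen_le (a.drop k)
        have h2 : (a.drop k).length ≤ a.length := by simp
        have h3 := length_le_size' a
        simp only [Polynomial.eval_add, Polynomial.eval_mul, Polynomial.eval_X,
          Polynomial.eval_one, Polynomial.eval_ofNat, size_nat]
        have h4 : (a.drop k).foldr (fun b y => bif decide (y = 0) then (bif b then 1 else 0)
          else y + 1) 0 = blen (a.drop k) := rfl
        omega)
    exact this
  exact key.comp hw

@[fun_prop]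
theorem PT.numPart' {w : α → List Bool} (hw : PT m w) : PT m (fun a => numPart (w a)) := by
  unfold numPart
  fun_prop

@[fun_prop]
theorem PT.denPart' {w : α → List Bool} (hw : PT m w) : PT m (fun a => denPart (w a)) := by
  unfold denPart
  fun_prop

@[fun_prop]
theorem PT.chooseW' {v w : α → List Bool} (hv : PT m v) (hw : PT m w) :
    PT m (fun a => chooseW (v a) (w a)) := by
  unfold chooseW
  fun_prop

@[fun_prop]
theorem PT.choose' {v w : α → Option (List Bool)} (hv : PT m v) (hw : PT m w) :
    PT m (fun a => choose (v a) (w a)) := by
  have h1 := PT.optCase (m := m) (α := List Bool × α) (o := fun z => w z.2)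
    (f := fun _ => false) (g := fun z => chooseW z.2.1 z.1) (by fun_prop) (by fun_prop)
    (by fun_prop)
  have h2 := PT.optCase (m := m) (o := v) (f := fun _ => false) hv (by fun_prop) h1
  refine h2.of_eq (fun a => ?_)
  generalize v a = o₀
  cases o₀ with
  | none => rfl
  | some x =>
    dsimp only
    generalize w a = o₁
    cases o₁ with
    | none => rfl
    | some y => rfl

@[fun_prop]
theorem PT.code'' {y : α → List Bool} (hy : PT m y) : PT m (fun a => code' (y a)) := by
  unfold code'
  exact PT.decodeD' (by fun_prop)

@[fun_prop]
theorem PT.bit' {T : α → ℕ} {y : α → List Bool} (hT : PT m T) (hy : PT m y) :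
    PT m (fun a => bit (T a) (y a)) := by
  unfold bit inp
  simp only [List.replicate_zero, List.nil_append]
  fun_prop

@[fun_prop]
theorem PT.complete' {y : α → List Bool} (hy : PT m y) : PT m (fun a => complete (y a)) := by
  unfold complete
  fun_prop

end PTs

theorem gq_FP : gq ∈ FP := by
  rw [mem_FP_iff]
  have h1 : PT true (fun w : List Bool => w.drop (lead w + 1)) := by fun_prop
  have h2 : PT true (fun x : List Bool => x.foldl (stp x.length) ([], 0, true)) := by
    have := PT.foldl (m := true) (l := fun x : List Bool => x)
      (ini := fun _ => (([], 0, true) : List Bool × ℕ × Bool))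
      (s := fun z : List Bool × ((List Bool × ℕ × Bool) × Bool) => stp z.1.length z.2.1 z.2.2)
      (by fun_prop) (by fun_prop) (by unfold stp; fun_prop)
      (4 * Polynomial.X + 20) (by
        intro x k
        have e1 : ((x.take k).foldl (fun y b => stp x.length y b) ([], 0, true)) =
          (x.take k).foldl (stp x.length) ([], 0, true) := rfl
        simp only [Polynomial.eval_add, Polynomial.eval_mul, Polynomial.eval_X,
          Polynomial.eval_ofNat]
        rw [e1]
        have h1 := foldl_stp_fst x.length (x.take k) ([], 0, true)
        have h2 := foldl_stp_snd x.length (x.take k) ([], 0, true)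
        generalize (x.take k).foldl (stp x.length) ([], 0, true) = s at h1 h2 ⊢
        rcases s with ⟨y, j, f⟩
        simp only [List.nil_append, zero_add] at h1 h2
        rw [size_pair, size_pair, size_nat, h1]
        have h3 := size_take_le x k
        have h4 := size_bool_le f
        have h5 : (x.take k).length ≤ x.length := List.length_take_le' _ _
        have h6 := length_le_size' x
        omega)
    exact this
  have h3 : PT true (fun s : List Bool × ℕ × Bool => outw s) := by
    unfold outw
    fun_prop
  exact h3.comp (h2.comp h1)

theorem q_InP : InP q := by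
  refine ⟨gq, gq_FP, fun k x => ?_⟩
  have h1 : (inp k x).drop (lead (inp k x) + 1) = x := parse_word k x
  refine ⟨q x, ?_, ?_⟩
  · unfold gq
    rw [h1]
    have h2 := outw_encodes (x.foldl (stp x.length) ([], 0, true))
    rw [foldl_stp] at h2
    simpa [q] using h2
  · rw [sub_self, abs_zero]
    exact mul_nonneg (by positivity) (prodFrom_nonneg _ _ _)

end Pool.Agent.H79.Est
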