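import Pool.Agent.H79.Univ
import Pool.Agent.PPS.FromTM

/-!
# A universal evaluator with linear overhead on Turing machines
-/

namespace Pool.Agent.H79.Univ

open Pool.Agent.PPS Prog

/-- The initial state; the input stack holds the input word. -/
def rini (e : D) (x : List Bool) : List D × List (List Bool) :=
  ([tl (tl e)], setAt (toNat (hd (tl e))) x (List.replicate (toNat (hd e)) []))

/-- Read off the result. -/
def rout (e : D) (s : List D × List (List Bool)) : Option (List Bool) :=
  match s.1 with
  | [] => some (s.2.getD (toNat (hd (tl e))) [])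
  | _ :: _ => none

/-- The universal evaluator with clock, on words. -/
def reval (e : D) (x : List Bool) (T : ℕ) : Option (List Bool) := rout e (ustep^[T] (rini e x))

section PTs

variable {m : Bool} {α : Type} [Rep α]

theorem PT.rini' {e : α → D} {x : α → List Bool} (he : PT m e) (hx : PT m x) :
    PT m (fun a => rini (e a) (x a)) := by
  unfold rini
  fun_prop

theorem PT.rout' {e : α → D} {s : α → List D × List (List Bool)} (he : PT m e) (hs : PT m s) :
    PT m (fun a => rout (e a) (s a)) := by
  have := PT.listCase (m := m) (l := fun a => (s a).1)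
    (f := fun a => some ((s a).2.getD (toNat (hd (tl (e a)))) []))
    (g := fun _ => (none : Option (List Bool))) (by fun_prop)
    (PT.some' (by fun_prop)) (by fun_prop)
  convert this using 2 with a
  unfold rout
  cases (s a).1 <;> rfl

theorem PT.reval' {e : α → D} {x : α → List Bool} {T : α → ℕ} (he : PT m e) (hx : PT m x)
    (hT : PT m T) : PT m (fun a => reval (e a) (x a) (T a)) := by
  unfold reval
  refine PT.rout' he ?_
  have hini := PT.rini' he hx
  obtain ⟨p, hp⟩ := hini.exists_size_le
  obtain ⟨r, hr⟩ := hT.exists_size_le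
  refine PT.iterate (m := m) (s := fun z => ustep z.2) hT hini (PT.ustep'.comp (by fun_prop))
    ((r + 1) * (p + 1) + 1 + (p + 6 * r) + 1) ?_
  intro a k hk
  have h1 : Inv (size (rini (e a) (x a))) (size (rini (e a) (x a))) 0 (rini (e a) (x a)) := by
    have h2 : size (rini (e a) (x a)) = size (rini (e a) (x a)).1 +
      size (rini (e a) (x a)).2 + 1 := size_pair _ _
    refine ⟨?_, ?_, ?_⟩
    · intro d hd'
      have := size_le_of_mem hd'
      omega
    · simp [rini]
    · omega
  have h3 := (h1.iterate k).size_le
  refine h3.trans ?_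
  have h4 := hp a
  have h5 := hr a
  rw [size_nat] at h5
  simp only [Polynomial.eval_add, Polynomial.eval_mul, Polynomial.eval_one,
    Polynomial.eval_ofNat]
  have h6 : (k + 1) * (size (rini (e a) (x a)) + 1) ≤
      (r.eval (size a) + 1) * (p.eval (size a) + 1) :=
    Nat.mul_le_mul (by omega) (by omega)
  omega

attribute [fun_prop] PT.reval'

end PTs

/-- A Turing machine that computes `f` is simulated with linear overhead. -/
theorem exists_reval {M : TM} {f : List Bool → List Bool} (hf : M.Computes f) :
    ∃ (e : D) (C : ℕ), ∀ (x : List Bool) (n T : ℕ), M.HaltedAt x n →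
      C * (x.length + n + 1) ≤ T → reval e x T = some (f x) := by
  obtain ⟨C, hC⟩ := FromTM.exists_prog_computes M
  obtain ⟨N, ⟨σ⟩⟩ := Finite.exists_equiv_fin (FromTM.Ix M.K)
  let e₀ : FromTM.Ix M.K → ℕ := fun i => (σ i : ℕ)
  have he₀ : Function.Injective e₀ := fun i j h => σ.injective (Fin.ext h)
  let io : FromTM.Ix M.K := FromTM.Ix.io
  refine ⟨.cons (natTree N) (.cons (natTree (e₀ io)) (enc e₀ (FromTM.progC M))), 6 * C, ?_⟩
  intro x n T hn hT
  obtain ⟨n', hn', hy'⟩ := hf x
  have hy : (M.conf x n).tape M.io = M.word (f x) := by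
    rw [M.conf_eq_of_haltedAt hn hn']; exact hy'
  obtain ⟨t, ht, hE⟩ := hC x (f x) n (x.length + n) (by omega) hn hy
    (fun j k => (M.abs_head_le_of_halted hn j k).trans (by push_cast; omega))
  have hL : Repr e₀ (ToTM.single io x) (setAt (e₀ io) x (List.replicate N [])) := by
    have h0 : ∀ i, e₀ i < (List.replicate N ([] : List Bool)).length := by
      intro i
      rw [List.length_replicate]
      exact (σ i).2
    refine ⟨fun i => ?_, fun i => ?_⟩
    · rw [setAt_length (h0 _)]; exact h0 i
    · rw [getD_setAt (h0 _)]
      by_cases hi : i = io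
      · subst hi; simp [ToTM.single]
      · have h1 : e₀ i ≠ e₀ io := fun h => hi (he₀ h)
        have h2 := h0 i
        rw [if_neg h1]
        simp only [ToTM.single, hi, if_false, List.getD_eq_getElem?_getD]
        rw [List.getElem?_eq_getElem h2, List.getElem_replicate]
        rfl
  obtain ⟨L', s, hs, hL', hr⟩ := sim he₀ hE _ [] hL
  have hnT : s ≤ T := by
    have h3 : t ≤ C * (x.length + n + n + 1) := ht
    have h4 : C * (x.length + n + n + 1) ≤ C * (2 * (x.length + n + 1)) :=
      Nat.mul_le_mul_left _ (by omega)
    have h5 : C * (2 * (x.length + n + 1)) = 2 * (C * (x.length + n + 1)) := by ring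
    have h6 : 6 * C * (x.length + n + 1) = 6 * (C * (x.length + n + 1)) := by ring
    omega
  have h1 : toNat (natTree N) = N := toNat_rep N
  have h2 : toNat (natTree (e₀ io)) = e₀ io := toNat_rep _
  simp only [reval, rini, hd, tl, h1, h2]
  rw [show T = (T - s) + s by omega, Function.iterate_add_apply, hr, iterate_nil]
  simp only [rout, hd, tl, h2, hL'.2, ToTM.single, io, if_true]

end Pool.Agent.H79.Univ
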