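import Pool.Agent.H79.FastDefs
import Pool.Agent.H79.BinArith
import Pool.Agent.H79.Univ2
import Pool.Agent.H79.EstLower

/-!
# An offline estimator in `P` against which the online estimators in `TIME(n ^ K)` are useless
-/

open scoped ENNReal

namespace Pool.Agent.H79.Est.Fast

open Pool.Agent.PPS Pool.Agent.H79.Univ Pool.Agent.H79.Est

/-! ### The next bit -/

/-- Exact comparison: `true` if the rational number encoded by the second word is smaller. -/
def chooseX (w₀ w₁ : List Bool) : Bool :=
  ltB (mulB (numPart w₁) (denPart w₀)) (mulB (numPart w₀) (denPart w₁))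

theorem chooseX_spec {w₀ w₁ : List Bool} {a₀ a₁ : ℝ} (h₀ : Encodes w₀ a₀) (h₁ : Encodes w₁ a₁) :
    (chooseX w₀ w₁ = false → a₀ ≤ a₁) ∧ (chooseX w₀ w₁ = true → a₁ ≤ a₀) := by
  obtain ⟨N₀, D₀, hw₀, hD₀, rfl⟩ := h₀
  obtain ⟨N₁, D₁, hw₁, hD₁, rfl⟩ := h₁
  have e1 : numPart w₀ = N₀ := by rw [hw₀, numPart_word]
  have e2 : denPart w₀ = D₀ := by rw [hw₀, denPart_word]
  have e3 : numPart w₁ = N₁ := by rw [hw₁, numPart_word]
  have e4 : denPart w₁ = D₁ := by rw [hw₁, denPart_word]
  simp only [chooseX, e1, e2, e3, e4]
  have p0 : (0 : ℝ) < numeral D₀ := by exact_mod_cast Nat.pos_of_ne_zero hD₀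
  have p1 : (0 : ℝ) < numeral D₁ := by exact_mod_cast Nat.pos_of_ne_zero hD₁
  constructor
  · intro h
    rw [← Bool.not_eq_true, ltB_iff, numeral_mulB, numeral_mulB, not_lt] at h
    rw [div_le_div_iff₀ p0 p1]
    exact_mod_cast h
  · intro h
    rw [ltB_iff, numeral_mulB, numeral_mulB] at h
    rw [div_le_div_iff₀ p1 p0]
    exact_mod_cast h.le

/-- Choose the next bit from the two (possibly missing) output words. -/
def chooseO (o₀ o₁ : Option (List Bool)) : Bool :=
  match o₀ with
  | none => false
  | some a => match o₁ with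
    | none => false
    | some b => chooseX a b

/-- One doubling step. -/
def lgStep (n : ℕ) (z : ℕ × ℕ) : ℕ × ℕ := bif decide (z.1 ≤ n) then (z.1 + z.1, z.2 + 1) else z

/-- The least `j` with `n < 2 ^ j`. -/
def lg (n : ℕ) : ℕ := ((lgStep n)^[n] (1, 0)).2

theorem lgStep_iter (n k : ℕ) : ((lgStep n)^[k] (1, 0)).1 = 2 ^ ((lgStep n)^[k] (1, 0)).2 ∧
    ((lgStep n)^[k] (1, 0)).1 ≤ 2 * n + 1 ∧
    (k + 1 ≤ ((lgStep n)^[k] (1, 0)).1 ∨ n < ((lgStep n)^[k] (1, 0)).1) ∧
    ((lgStep n)^[k] (1, 0)).2 ≤ k := by
  induction k with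
  | zero => simp
  | succ k ih =>
    rw [Function.iterate_succ_apply']
    obtain ⟨h1, h2, h3, h4⟩ := ih
    generalize (lgStep n)^[k] (1, 0) = z at h1 h2 h3 h4
    obtain ⟨a, b⟩ := z
    simp only at h1 h2 h3 h4
    by_cases h : a ≤ n
    · simp only [lgStep, h, decide_true, cond_true]
      refine ⟨by rw [pow_succ, ← h1]; omega, by omega, ?_, by omega⟩
      rcases h3 with h3 | h3
      · left; have : 0 < a := by rw [h1]; positivity
        omega
      · right; omega
    · simp only [lgStep, h, decide_false, cond_false]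
      exact ⟨h1, h2, Or.inr (by omega), by omega⟩

theorem lt_two_pow_lg (n : ℕ) : n < 2 ^ lg n := by
  obtain ⟨h1, h2, h3, h4⟩ := lgStep_iter n n
  unfold lg
  rw [← h1]
  omega

theorem two_pow_lg_le (n : ℕ) : 2 ^ lg n ≤ 2 * n + 1 := by
  obtain ⟨h1, h2, h3, h4⟩ := lgStep_iter n n
  unfold lg
  rw [← h1]
  exact h2

/-- The next bit after `y` for strings of length `n`. -/
noncomputable def nbit (K n : ℕ) (y : List Bool) : Bool :=
  chooseO
    (reval (code' y) (inp (lg n) (y ++ [false])) (((Polynomial.X + 1) ^ (K + 2)).eval n))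
    (reval (code' y) (inp (lg n) (y ++ [true])) (((Polynomial.X + 1) ^ (K + 2)).eval n))

section PTs

variable {m : Bool} {α : Type} [Rep α]

@[fun_prop]
theorem PT.chooseX' {v w : α → List Bool} (hv : PT m v) (hw : PT m w) :
    PT m (fun a => chooseX (v a) (w a)) := by
  unfold chooseX
  fun_prop

@[fun_prop]
theorem PT.chooseO' {v w : α → Option (List Bool)} (hv : PT m v) (hw : PT m w) :
    PT m (fun a => chooseO (v a) (w a)) := by
  have h1 := PT.optCase (m := m) (α := List Bool × α) (o := fun z => w z.2)
    (f := fun _ => false) (g := fun z => chooseX z.2.1 z.1) (by fun_prop) (by fun_prop)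
    (by fun_prop)
  have h2 := PT.optCase (m := m) (o := v) (f := fun _ => false) hv (by fun_prop) h1
  refine h2.of_eq (fun a => ?_)
  generalize v a = o₀
  cases o₀ with
  | none => rfl
  | some x =>
    dsimp only
    generalize w a = o₁
    cases o₁ with
    | none => rfl
    | some y => rfl

@[fun_prop]
theorem PT.lg' {n : α → ℕ} (hn : PT m n) : PT m (fun a => lg (n a)) := by
  have key : PT m (fun n : ℕ => (lgStep n)^[n] (1, 0)) := by
    refine PT.iterate (m := m) (α := ℕ) (s := fun z => lgStep z.1 z.2)
      (ini := fun _ => (1, 0)) (n := fun z => z)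
      (by fun_prop) (by fun_prop) (by unfold lgStep; fun_prop) (20 * Polynomial.X + 20) ?_
    intro n k hk
    obtain ⟨h1, h2, h3, h4⟩ := lgStep_iter n k
    simp only [Polynomial.eval_add, Polynomial.eval_mul, Polynomial.eval_X,
      Polynomial.eval_ofNat, size_nat]
    have e : (fun y => lgStep ((n, y) : ℕ × (ℕ × ℕ)).1 ((n, y) : ℕ × (ℕ × ℕ)).2) = lgStep n := rfl
    rw [e]
    generalize (lgStep n)^[k] (1, 0) = z at h1 h2 h3 h4 ⊢
    obtain ⟨a, b⟩ := z
    rw [size_pair, size_nat, size_nat]
    simp only at h1 h2 h3 h4 hk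
    omega
  have h2 : PT m (fun s : ℕ × ℕ => s.2) := by fun_prop
  exact (h2.comp key).comp hn

@[fun_prop]
theorem PT.inp' {k : α → ℕ} {x : α → List Bool} (hk : PT m k) (hx : PT m x) :
    PT m (fun a => inp (k a) (x a)) := by
  unfold inp
  fun_prop

theorem PT.nbit' (K : ℕ) {n : α → ℕ} {y : α → List Bool} (hn : PT m n) (hy : PT m y) :
    PT m (fun a => nbit K (n a) (y a)) := by
  unfold nbit
  have h1 := PT.polyEval hn ((Polynomial.X + 1) ^ (K + 2))
  fun_prop

end PTs


/-! ### The estimator -/

/-- The conditional probability of the bit `b` after `y`. -/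
noncomputable def cnd (nb : List Bool → Bool) (y : List Bool) (b : Bool) : ℝ :=
  bif complete y then (bif b == nb y then 1 else 0) else 1 / 2

/-- The conditional probability of the string `r` after `y`. -/
noncomputable def prodFrom (nb : List Bool → Bool) : List Bool → List Bool → ℝ
  | _, [] => 1
  | y, b :: r => cnd nb y b * prodFrom nb (y ++ [b]) r

/-- The offline estimator. -/
noncomputable def q (K : ℕ) (x : List Bool) : ℝ := prodFrom (nbit K x.length) [] x

theorem cnd_nonneg (nb : List Bool → Bool) (y : List Bool) (b : Bool) : 0 ≤ cnd nb y b := by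
  unfold cnd
  cases complete y
  · norm_num
  · cases (b == nb y) <;> norm_num

theorem cnd_add (nb : List Bool → Bool) (y : List Bool) : cnd nb y false + cnd nb y true = 1 := by
  unfold cnd
  cases complete y
  · norm_num
  · cases nb y <;> norm_num

theorem prodFrom_nonneg (nb : List Bool → Bool) (r : List Bool) : ∀ y, 0 ≤ prodFrom nb y r := by
  induction r with
  | nil => intro y; simp [prodFrom]
  | cons b r ih => intro y; exact mul_nonneg (cnd_nonneg _ _ _) (ih _)

theorem sum_prodFrom (nb : List Bool → Bool) (n : ℕ) :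
    ∀ y, ∑ x : Fin n → Bool, prodFrom nb y (List.ofFn x) = 1 := by
  induction n with
  | zero => intro y; simp [prodFrom]
  | succ n ih =>
    intro y
    rw [← (Fin.consEquiv fun _ : Fin (n + 1) => Bool).sum_comp, Fintype.sum_prod_type]
    have h : ∀ b : Bool, ∑ x : Fin n → Bool,
        prodFrom nb y (List.ofFn ((Fin.consEquiv fun _ : Fin (n + 1) => Bool) (b, x))) =
        cnd nb y b := by
      intro b
      have h2 : ∀ x : Fin n → Bool,
          prodFrom nb y (List.ofFn ((Fin.consEquiv fun _ : Fin (n + 1) => Bool) (b, x))) =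
          cnd nb y b * prodFrom nb (y ++ [b]) (List.ofFn x) := by
        intro x
        have : (Fin.consEquiv fun _ : Fin (n + 1) => Bool) (b, x) = Fin.cons b x := rfl
        rw [this, List.ofFn_cons]
        rfl
      rw [Finset.sum_congr rfl fun x _ => h2 x, ← Finset.mul_sum, ih, mul_one]
    rw [Finset.sum_congr rfl fun b _ => h b]
    simp only [Fintype.sum_bool]
    rw [add_comm]
    exact cnd_add nb y

theorem q_isOffline (K : ℕ) : IsOffline (q K) := by
  refine ⟨fun x => prodFrom_nonneg _ _ _, fun n => ?_⟩
  have h : ∀ x : Fin n → Bool, q K (List.ofFn x) = prodFrom (nbit K n) [] (List.ofFn x) := by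
    intro x
    rw [q, List.length_ofFn]
  rw [Finset.sum_congr rfl fun x _ => h x]
  exact sum_prodFrom _ n []

/-! ### The estimator is in `P` -/

/-- One step of the computation of `q`: the state is the string read so far, the number of
factors `1/2`, and a flag. -/
def stp (nb : List Bool → Bool) (s : List Bool × ℕ × Bool) (b : Bool) : List Bool × ℕ × Bool :=
  (s.1 ++ [b], (bif complete s.1 then s.2.1 else s.2.1 + 1),
    (bif complete s.1 then (s.2.2 && (b == nb s.1)) else s.2.2))

theorem foldl_stp (nb : List Bool → Bool) (r : List Bool) : ∀ s : List Bool × ℕ × Bool,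
    (((r.foldl (stp nb) s).2.2.toNat : ℝ) / 2 ^ (r.foldl (stp nb) s).2.1 =
      (s.2.2.toNat : ℝ) / 2 ^ s.2.1 * prodFrom nb s.1 r) := by
  induction r with
  | nil => intro s; simp [prodFrom]
  | cons b r ih =>
    intro s
    rw [List.foldl_cons, ih]
    simp only [stp, prodFrom, cnd]
    rcases s with ⟨y, j, f⟩
    simp only
    cases complete y
    · simp only [cond_false, pow_succ]
      ring
    · simp only [cond_true]
      cases f <;> cases (b == nb y) <;> simp

theorem foldl_stp_fst (nb : List Bool → Bool) (r : List Bool) : ∀ s : List Bool × ℕ × Bool,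
    (r.foldl (stp nb) s).1 = s.1 ++ r := by
  induction r with
  | nil => intro s; simp
  | cons b r ih => intro s; rw [List.foldl_cons, ih]; simp [stp]

theorem foldl_stp_snd (nb : List Bool → Bool) (r : List Bool) : ∀ s : List Bool × ℕ × Bool,
    (r.foldl (stp nb) s).2.1 ≤ s.2.1 + r.length := by
  induction r with
  | nil => intro s; simp
  | cons b r ih =>
    intro s
    rw [List.foldl_cons, List.length_cons]
    refine (ih _).trans ?_
    simp only [stp]
    cases complete s.1 <;> simp only [cond_true, cond_false] <;> omega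

/-- The function computing `q`. -/
noncomputable def gq (K : ℕ) (w : List Bool) : List Bool :=
  outw ((w.drop (lead w + 1)).foldl (stp (nbit K (w.drop (lead w + 1)).length)) ([], 0, true))

theorem gq_FP (K : ℕ) : gq K ∈ FP := by
  rw [mem_FP_iff]
  have h1 : PT true (fun w : List Bool => w.drop (lead w + 1)) := by fun_prop
  have h2 : PT true (fun x : List Bool => x.foldl (stp (nbit K x.length)) ([], 0, true)) := by
    have hst : PT true (fun z : List Bool × ((List Bool × ℕ × Bool) × Bool) =>
        stp (nbit K z.1.length) z.2.1 z.2.2) := by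
      unfold stp
      have h := PT.nbit' (m := true) K (α := List Bool × ((List Bool × ℕ × Bool) × Bool))
        (n := fun z => z.1.length) (y := fun z => z.2.1.1) (by fun_prop) (by fun_prop)
      fun_prop
    have := PT.foldl (m := true) (l := fun x : List Bool => x)
      (ini := fun _ => (([], 0, true) : List Bool × ℕ × Bool))
      (s := fun z : List Bool × ((List Bool × ℕ × Bool) × Bool) =>
        stp (nbit K z.1.length) z.2.1 z.2.2)
      (by fun_prop) (by fun_prop) hst
      (4 * Polynomial.X + 20) (by
        intro x k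
        have e1 : ((x.take k).foldl (fun y b => stp (nbit K x.length) y b) ([], 0, true)) =
          (x.take k).foldl (stp (nbit K x.length)) ([], 0, true) := rfl
        simp only [Polynomial.eval_add, Polynomial.eval_mul, Polynomial.eval_X,
          Polynomial.eval_ofNat]
        rw [e1]
        have h1 := foldl_stp_fst (nbit K x.length) (x.take k) ([], 0, true)
        have h2 := foldl_stp_snd (nbit K x.length) (x.take k) ([], 0, true)
        generalize (x.take k).foldl (stp (nbit K x.length)) ([], 0, true) = s at h1 h2 ⊢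
        rcases s with ⟨y, j, f⟩
        simp only [List.nil_append, zero_add] at h1 h2
        rw [size_pair, size_pair, size_nat, h1]
        have h3 := size_take_le x k
        have h4 := size_bool_le f
        have h5 : (x.take k).length ≤ x.length := List.length_take_le' _ _
        have h6 := length_le_size' x
        omega)
    exact this
  have h3 : PT true (fun s : List Bool × ℕ × Bool => outw s) := by
    unfold outw
    fun_prop
  exact h3.comp (h2.comp h1)

theorem q_InP (K : ℕ) : InP (q K) := by
  refine ⟨gq K, gq_FP K, fun k x => ?_⟩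
  have h1 : (inp k x).drop (lead (inp k x) + 1) = x := parse_word k x
  refine ⟨q K x, ?_, ?_⟩
  · unfold gq
    rw [h1]
    have h2 := outw_encodes (x.foldl (stp (nbit K x.length)) ([], 0, true))
    rw [foldl_stp] at h2
    simpa [q] using h2
  · rw [sub_self, abs_zero]
    exact mul_nonneg (by positivity) (prodFrom_nonneg _ _ _)

end Pool.Agent.H79.Est.Fast
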