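import Pool.Agent.H79.EstDefs

/-!
# Estimators computable in time `O(n ^ K)` for a fixed exponent `K`
-/

namespace Pool.Agent.H79.Est

/-- `f` is in `TIME(n ^ K)`: some Turing machine, given `k` in unary and a string `x` of length `n`,
outputs within `p(k) * (n + 1) ^ K` steps a rational number `a` with `|a - f x| ≤ 2^-(k+1) f x`,
where `p` is a polynomial. -/
def InTIME (K : ℕ) (f : List Bool → ℝ) : Prop :=
  ∃ (M : PPS.TM) (g : List Bool → List Bool) (p : Polynomial ℕ), M.Computes g ∧
    ∀ (k : ℕ) (x : List Bool), M.HaltedAt (inp k x) (p.eval k * (x.length + 1) ^ K) ∧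
      ∃ a : ℝ, Encodes (g (inp k x)) a ∧ |a - f x| ≤ (1 / 2) ^ (k + 1) * f x

end Pool.Agent.H79.Est
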