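import Pool.Agent.H79.Fast

/-!
# The regret of the online estimators in `TIME(n ^ K)`
-/

open scoped ENNReal

namespace Pool.Agent.H79.Est.Fast

open Pool.Agent.PPS Pool.Agent.H79.Univ Pool.Agent.H79.Est

/-- The bits followed by the estimator after `y`. -/
def bits (nb : List Bool → Bool) : ℕ → List Bool → List Bool
  | 0, _ => []
  | m + 1, y => nb y :: bits nb m (y ++ [nb y])

theorem length_bits (nb : List Bool → Bool) (m : ℕ) : ∀ y, (bits nb m y).length = m := by
  induction m with
  | zero => intro y; rfl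
  | succ m ih => intro y; rw [bits, List.length_cons, ih]

theorem prodFrom_append (nb : List Bool → Bool) (r s : List Bool) : ∀ y,
    prodFrom nb y (r ++ s) = prodFrom nb y r * prodFrom nb (y ++ r) s := by
  induction r with
  | nil => intro y; simp [prodFrom]
  | cons b r ih =>
    intro y
    rw [List.cons_append, prodFrom, prodFrom, ih, mul_assoc]
    simp

theorem prodFrom_bits (nb : List Bool → Bool) (m : ℕ) : ∀ y, (∀ r, complete (y ++ r) = true) →
    prodFrom nb y (bits nb m y) = 1 := by
  induction m with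
  | zero => intro y _; simp [bits, prodFrom]
  | succ m ih =>
    intro y hy
    rw [bits, prodFrom, ih (y ++ [nb y]) (fun r => by rw [List.append_assoc]; exact hy _)]
    have := hy []
    rw [List.append_nil] at this
    simp [cnd, this]

theorem qt_bits {qt : List Bool → ℝ} {ρ : ℝ} (hρ : 0 ≤ ρ) (nb : List Bool → Bool) {e : D}
    (m : ℕ) : ∀ (y : List Bool), (∀ r, code' (y ++ r) = e) →
    (∀ y' : List Bool, y'.length < y.length + m → code' y' = e →
      qt (y' ++ [nb y']) ≤ ρ * qt y') →
    qt (y ++ bits nb m y) ≤ ρ ^ m * qt y := by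
  induction m with
  | zero => intro y _ _; simp [bits]
  | succ m ih =>
    intro y hy hs
    have h1 := ih (y ++ [nb y]) (fun r => by rw [List.append_assoc]; exact hy _)
      (fun y' h => hs y' (by simp only [List.length_append, List.length_singleton] at h; omega))
    have h2 := hs y (by omega) (by simpa using hy [])
    rw [List.append_assoc, List.singleton_append] at h1
    rw [bits]
    calc qt (y ++ nb y :: bits nb m (y ++ [nb y]))
        ≤ ρ ^ m * qt (y ++ [nb y]) := h1
      _ ≤ ρ ^ m * (ρ * qt y) := by gcongr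
      _ = ρ ^ (m + 1) * qt y := by ring

theorem prodFrom_desc (nb : List Bool → Bool) (e : D) (r : List Bool) : ∀ y, y ++ r = desc e →
    prodFrom nb y r = (1 / 2) ^ r.length := by
  induction r with
  | nil => intro y _; simp [prodFrom]
  | cons b r ih =>
    intro y h
    rw [prodFrom, ih (y ++ [b]) (by simpa using h), cnd,
      incomplete_of_prefix e h (by simp), List.length_cons, pow_succ, mul_comm]
    simp

theorem q_desc_bits (K : ℕ) (e : D) (m : ℕ) :
    q K (desc e ++ bits (nbit K ((desc e).length + m)) m (desc e)) =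
      (1 / 2) ^ (desc e).length := by
  rw [q, List.length_append, length_bits, prodFrom_append, List.nil_append,
    prodFrom_bits _ _ _ (complete_desc e), mul_one]
  exact prodFrom_desc _ e _ [] rfl

/-- One step: the chosen bit has conditional probability at most `(1 + ε) / 2`. -/
theorem qt_bit {qt : List Bool → ℝ} (h : IsOnline qt) {g : List Bool → List Bool}
    (hg : ∀ k x, ∃ a, Encodes (g (inp k x)) a ∧ |a - qt x| ≤ (1 / 2) ^ (k + 1) * qt x)
    {K n : ℕ} {y : List Bool}
    (he : ∀ b : Bool, reval (code' y) (inp (lg n) (y ++ [b]))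
      (((Polynomial.X + 1) ^ (K + 2)).eval n) = some (g (inp (lg n) (y ++ [b])))) :
    qt (y ++ [nbit K n y]) ≤ (1 + (1 / 2) ^ (lg n + 1)) / 2 * qt y := by
  have hb : nbit K n y = chooseX (g (inp (lg n) (y ++ [false])))
      (g (inp (lg n) (y ++ [true]))) := by
    rw [nbit, he false, he true]; rfl
  obtain ⟨a0, ha0, h0⟩ := hg (lg n) (y ++ [false])
  obtain ⟨a1, ha1, h1⟩ := hg (lg n) (y ++ [true])
  have hs := chooseX_spec ha0 ha1
  rw [← hb] at hs
  rw [abs_le] at h0 h1
  have h2 := h.2.2 y
  have h3 : (0 : ℝ) < (1 / 2) ^ (lg n + 1) := by positivity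
  generalize (1 / 2 : ℝ) ^ (lg n + 1) = ε at *
  cases hbb : nbit K n y with
  | false =>
    have := hs.1 hbb
    nlinarith [h.2.1 (y ++ [false]), h.2.1 (y ++ [true])]
  | true =>
    have := hs.2 hbb
    nlinarith [h.2.1 (y ++ [false]), h.2.1 (y ++ [true])]

/-- The lower bound for the regret, for a fixed length. -/
theorem le_regret {qt : List Bool → ℝ} (h : IsOnline qt) {g : List Bool → List Bool}
    (hg : ∀ k x, ∃ a, Encodes (g (inp k x)) a ∧ |a - qt x| ≤ (1 / 2) ^ (k + 1) * qt x)
    {e : D} {K n : ℕ}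
    (he : ∀ x : List Bool, x.length ≤ n → reval e (inp (lg n) x)
      (((Polynomial.X + 1) ^ (K + 2)).eval n) = some (g (inp (lg n) x)))
    (hn : (desc e).length ≤ n) :
    ((n * Real.log 2 - (2 * (desc e).length * Real.log 2 + 1) : ℝ) : EReal) ≤
      regret qt (q K) n := by
  obtain ⟨m, rfl⟩ : ∃ m, n = (desc e).length + m := ⟨n - (desc e).length, by omega⟩
  set U := (desc e).length with hU
  obtain ⟨x, hx⟩ := exists_ofFn (n := U + m)
    (desc e ++ bits (nbit K (U + m)) m (desc e)) (by rw [List.length_append, length_bits])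
  refine le_trans ?_ (le_iSup _ x)
  rw [hx, q_desc_bits]
  set ε : ℝ := (1 / 2) ^ (lg (U + m) + 1) with hε
  have hε0 : 0 < ε := by positivity
  have h1 := qt_bits (qt := qt) (ρ := (1 + ε) / 2) (by positivity) (nbit K (U + m)) (e := e) m
    (desc e) (code'_desc e) (by
      intro y' hy' hc
      refine qt_bit h hg (fun b => ?_)
      rw [hc]
      refine he _ ?_
      rw [List.length_append, List.length_singleton]
      omega)
  have h2 : qt (desc e) ≤ 1 := by
    have := le_of_append h (desc e) []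
    rwa [List.nil_append, h.1] at this
  have h3 : qt (desc e ++ bits (nbit K (U + m)) m (desc e)) ≤ ((1 + ε) / 2) ^ m := by
    refine h1.trans ?_
    have : (0 : ℝ) ≤ ((1 + ε) / 2) ^ m := by positivity
    nlinarith
  have h4 : ENNReal.ofReal ((1 / 2) ^ U / ((1 + ε) / 2) ^ m) ≤
      ENNReal.ofReal ((1 / 2) ^ U) /
        ENNReal.ofReal (qt (desc e ++ bits (nbit K (U + m)) m (desc e))) := by
    rw [ENNReal.ofReal_div_of_pos (by positivity)]
    exact ENNReal.div_le_div_left (ENNReal.ofReal_le_ofReal h3) _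
  refine le_trans ?_ (ENNReal.log_monotone h4)
  rw [ENNReal.log_ofReal_of_pos (by positivity), EReal.coe_le_coe_iff,
    Real.log_div (by positivity) (by positivity), Real.log_pow, Real.log_pow,
    Real.log_div (x := 1 + ε) (y := 2) (by positivity) (by norm_num)]
  have e1 : Real.log (1 / 2) = - Real.log 2 := by rw [one_div, Real.log_inv]
  rw [e1]
  have h5 : Real.log (1 + ε) ≤ ε := by
    have := Real.log_le_sub_one_of_pos (x := 1 + ε) (by positivity)
    linarith
  have h6 : (m : ℝ) * ε ≤ 1 := by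
    have a1 : ((U + m : ℕ) : ℝ) < 2 ^ lg (U + m) := by exact_mod_cast lt_two_pow_lg (U + m)
    have a2 : (m : ℝ) ≤ ((U + m : ℕ) : ℝ) := by push_cast; linarith [Nat.cast_nonneg (α := ℝ) U]
    have a3 : ε = 1 / 2 ^ (lg (U + m) + 1) := by rw [hε, one_div_pow]
    rw [a3, mul_one_div, div_le_one (by positivity), pow_succ]
    have a4 : (0 : ℝ) < 2 ^ lg (U + m) := by positivity
    linarith
  have h7 : (m : ℝ) * Real.log (1 + ε) ≤ 1 := by
    refine le_trans ?_ h6
    exact mul_le_mul_of_nonneg_left h5 (Nat.cast_nonneg _)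
  push_cast
  nlinarith

theorem poly_le_two_pow (P : Polynomial ℕ) : ∀ᶠ k : ℕ in Filter.atTop, 2 * P.eval k ≤ 2 ^ k := by
  obtain ⟨C, d, hC, hd, hp⟩ := poly_bound P
  have h1 := tendsto_pow_const_div_const_pow_of_one_lt d (r := (2 : ℝ)) (by norm_num)
  have h2 : (0 : ℝ) < 1 / (2 * C * 2 ^ d) := by
    have : (0 : ℝ) < C := by exact_mod_cast hC
    positivity
  filter_upwards [h1.eventually (gt_mem_nhds h2), Filter.eventually_ge_atTop 1] with k hk hk1
  have h3 : (0 : ℝ) < C := by exact_mod_cast hC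
  rw [div_lt_div_iff₀ (by positivity) (by positivity)] at hk
  have h4 : (k + 1) ^ d ≤ 2 ^ d * k ^ d := by
    rw [← mul_pow]
    exact Nat.pow_le_pow_left (by omega) d
  have h5 : k ^ d * (2 * C * 2 ^ d) < 2 ^ k := by
    have : (k : ℝ) ^ d * (2 * C * 2 ^ d) < 2 ^ k := by linarith
    exact_mod_cast this
  calc 2 * P.eval k ≤ 2 * (C * (k + 1) ^ d) := Nat.mul_le_mul_left _ (hp k)
    _ ≤ 2 * (C * (2 ^ d * k ^ d)) := by gcongr
    _ = k ^ d * (2 * C * 2 ^ d) := by ring
    _ ≤ 2 ^ k := h5.le

theorem tendsto_lg : Filter.Tendsto lg Filter.atTop Filter.atTop := by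
  rw [Filter.tendsto_atTop]
  intro B
  filter_upwards [Filter.eventually_ge_atTop (2 ^ B)] with n hn
  have h := hn.trans_lt (lt_two_pow_lg n)
  exact ((Nat.pow_lt_pow_iff_right (by norm_num)).1 h).le

theorem main {K : ℕ} {qt : List Bool → ℝ} (h : IsOnline qt) (hT : InTIME K qt) :
    ∃ C : ℝ, ∀ᶠ n : ℕ in Filter.atTop,
      ((n * Real.log 2 - C : ℝ) : EReal) ≤ regret qt (q K) n := by
  obtain ⟨M, g, p, hM, hs⟩ := hT
  obtain ⟨e, C, hC⟩ := exists_reval hM
  refine ⟨2 * (desc e).length * Real.log 2 + 1, ?_⟩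
  filter_upwards [tendsto_lg.eventually (poly_le_two_pow (Polynomial.C C * (Polynomial.X + 3 + p))),
    Filter.eventually_ge_atTop (desc e).length] with n h1 h2
  refine le_regret h (fun k x => (hs k x).2) (fun x hx => ?_) h2
  refine hC _ _ _ (hs (lg n) x).1 ?_
  simp only [Polynomial.eval_add, Polynomial.eval_mul, Polynomial.eval_X,
    Polynomial.eval_ofNat, Polynomial.eval_C, Polynomial.eval_pow, Polynomial.eval_one] at h1 ⊢
  have h3 := two_pow_lg_le n
  have h4 : C * (lg n + 3 + p.eval (lg n)) ≤ n := by omega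
  have h5 : (inp (lg n) x).length = lg n + 1 + x.length := by simp [inp]; omega
  rw [h5]
  have h6 : (x.length + 1) ^ K ≤ (n + 1) ^ (K + 1) :=
    (Nat.pow_le_pow_left (by omega) K).trans (Nat.pow_le_pow_right (by omega) (by omega))
  have h7 : n + 1 ≤ (n + 1) ^ (K + 1) := by
    calc n + 1 = (n + 1) ^ 1 := (pow_one _).symm
      _ ≤ _ := Nat.pow_le_pow_right (by omega) (by omega)
  have h8 : (n + 1) ^ (K + 2) = (n + 1) ^ (K + 1) * (n + 1) := pow_succ _ _
  rw [h8]
  generalize (n + 1) ^ (K + 1) = W at h6 h7 ⊢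
  generalize p.eval (lg n) = V at h4 ⊢
  generalize (x.length + 1) ^ K = Z at h6 ⊢
  generalize lg n = L at h4 ⊢
  calc C * (L + 1 + x.length + V * Z + 1) ≤ C * (L * W + 2 * W + W + V * W) := by
        refine Nat.mul_le_mul_left _ ?_
        have : V * Z ≤ V * W := Nat.mul_le_mul_left _ h6
        have : L * 1 ≤ L * W := Nat.mul_le_mul_left _ (by omega)
        omega
    _ = W * (C * (L + 3 + V)) := by ring
    _ ≤ W * n := Nat.mul_le_mul_left _ h4
    _ ≤ W * (n + 1) := Nat.mul_le_mul_left _ (by omega)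

end Pool.Agent.H79.Est.Fast
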