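import Pool.Agent.PPS.Bits
import Pool.Agent.H79.BarPT

/-!
# Binary addition and multiplication of words
-/

namespace Pool.Agent.H79.GPos

open Pool.Agent.PPS

theorem testBit_val (u : List Bool) (i : ℕ) : (val u).testBit i = bitAt u i := by
  induction u generalizing i with
  | nil => simp [val]
  | cons b u ih =>
    have hb : (b.toNat + 2 * val u) / 2 = val u := by
      have := Bool.toNat_lt b; omega
    cases i with
    | zero =>
      rw [Nat.testBit_zero, bitAt_cons_zero]
      simp only [val]
      cases b <;> simp [Nat.add_mod]
    | succ i =>
      rw [Nat.testBit_succ, bitAt_cons_succ, ← ih i]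
      simp only [val]
      rw [hb]

theorem val_lt (u : List Bool) : val u < 2 ^ u.length := by
  induction u with
  | nil => simp [val]
  | cons b u ih =>
    simp only [val, List.length_cons, pow_succ]
    have := Bool.toNat_lt b
    omega

theorem val_append (l l' : List Bool) : val (l ++ l') = val l + 2 ^ l.length * val l' := by
  induction l with
  | nil => simp [val]
  | cons b l ih =>
    simp only [List.cons_append, val, ih, List.length_cons, pow_succ]
    ring

theorem val_mod_succ (u : List Bool) (n : ℕ) :
    val u % 2 ^ (n + 1) = val u % 2 ^ n + 2 ^ n * (bitAt u n).toNat := by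
  rw [Nat.mod_pow_succ, ← testBit_val, Nat.toNat_testBit]

/-- One step of the addition. -/
def astep (u v : List Bool) (st : Bool × List Bool) (i : ℕ) : Bool × List Bool :=
  ((bitAt u i && bitAt v i) || ((bitAt u i && st.1) || (bitAt v i && st.1)),
    (xor (bitAt u i) (xor (bitAt v i) st.1)) :: st.2)

/-- The larger number. -/
def mx (a b : ℕ) : ℕ := bif decide (a ≤ b) then b else a

theorem mx_eq (a b : ℕ) : mx a b = max a b := by
  unfold mx
  by_cases h : a ≤ b
  · rw [max_eq_right h]; simp [h]
  · rw [max_eq_left (by omega)]; simp [h]

/-- Addition. -/
def addB (u v : List Bool) : List Bool :=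
  ((List.range (mx u.length v.length + 1)).foldl (fun st i => astep u v st i)
    (false, [])).2.reverse

theorem length_fold (u v : List Bool) (l : List ℕ) (st : Bool × List Bool) :
    (l.foldl (fun st i => astep u v st i) st).2.length = l.length + st.2.length := by
  induction l generalizing st with
  | nil => simp
  | cons i l ih => rw [List.foldl_cons, ih]; simp [astep]; omega

theorem length_addB (u v : List Bool) : (addB u v).length = max u.length v.length + 1 := by
  unfold addB
  rw [List.length_reverse, length_fold, mx_eq]
  simp

theorem fold_inv (u v : List Bool) (n : ℕ) :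
    val ((List.range n).foldl (fun st i => astep u v st i) (false, [])).2.reverse +
      2 ^ n * (((List.range n).foldl (fun st i => astep u v st i) (false, [])).1).toNat =
    val u % 2 ^ n + val v % 2 ^ n := by
  induction n with
  | zero => simp [val, Nat.mod_one]
  | succ n ih =>
    rw [List.range_succ, List.foldl_append, List.foldl_cons, List.foldl_nil, val_mod_succ,
      val_mod_succ]
    have hlen := length_fold u v (List.range n) (false, [])
    rw [List.length_range, List.length_nil, add_zero] at hlen
    generalize hst : (List.range n).foldl (fun st i => astep u v st i) (false, []) = st at *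
    simp only [astep, List.reverse_cons, val_append, List.length_reverse, hlen, val, mul_zero,
      add_zero]
    have key : ∀ a b c : Bool, (a ^^ (b ^^ c)).toNat + 2 * ((a && b) || ((a && c) ||
        (b && c))).toNat = a.toNat + b.toNat + c.toNat := by decide
    have h := key (bitAt u n) (bitAt v n) st.1
    rw [pow_succ]
    nlinarith [congrArg (fun x => 2 ^ n * x) h]

theorem val_addB (u v : List Bool) : val (addB u v) = val u + val v := by
  unfold addB
  have h := fold_inv u v (mx u.length v.length + 1)
  have hu : val u < 2 ^ (mx u.length v.length) := (val_lt u).trans_le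
    (Nat.pow_le_pow_right (by norm_num) (by rw [mx_eq]; exact le_max_left _ _))
  have hv : val v < 2 ^ (mx u.length v.length) := (val_lt v).trans_le
    (Nat.pow_le_pow_right (by norm_num) (by rw [mx_eq]; exact le_max_right _ _))
  have hp : 2 ^ (mx u.length v.length + 1) = 2 * 2 ^ (mx u.length v.length) := by
    rw [pow_succ]; ring
  rw [Nat.mod_eq_of_lt (by omega : val u < 2 ^ (mx u.length v.length + 1)),
    Nat.mod_eq_of_lt (by omega : val v < 2 ^ (mx u.length v.length + 1))] at h
  have h0 : (((List.range (mx u.length v.length + 1)).foldl (fun st i => astep u v st i)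
      (false, [])).1).toNat = 0 := by
    by_contra hne
    have h1 : 1 ≤ (((List.range (mx u.length v.length + 1)).foldl
      (fun st i => astep u v st i) (false, [])).1).toNat := Nat.one_le_iff_ne_zero.mpr hne
    have h2 := Nat.mul_le_mul_left (2 ^ (mx u.length v.length + 1)) h1
    omega
  rw [h0] at h
  omega

/-- Multiplication. -/
def mulB (x y : List Bool) : List Bool :=
  y.foldr (fun b acc => addB (false :: acc) (bif b then x else [])) []

theorem val_mulB (x y : List Bool) : val (mulB x y) = val x * val y := by
  unfold mulB
  induction y with
  | nil => simp [val]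
  | cons b y ih =>
    rw [List.foldr_cons, val_addB]
    simp only [val]
    rw [ih]
    cases b <;> simp [val] <;> ring

theorem length_mul_foldr (x y : List Bool) :
    (y.foldr (fun b acc => addB (false :: acc) (bif b then x else [])) []).length ≤
      x.length + 2 * y.length := by
  induction y with
  | nil => simp
  | cons b y ih =>
    rw [List.foldr_cons, length_addB, List.length_cons, List.length_cons]
    have : (bif b then x else []).length ≤ x.length := by cases b <;> simp
    omega

/-- Equality of the values. -/
def eqB (u v : List Bool) : Bool :=
  (List.range (mx u.length v.length)).all fun i => !(xor (bitAt u i) (bitAt v i))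

theorem eqB_iff (u v : List Bool) : eqB u v = true ↔ val u = val v := by
  unfold eqB
  rw [List.all_eq_true]
  constructor
  · intro h
    apply Nat.eq_of_testBit_eq
    intro i
    rw [testBit_val, testBit_val]
    by_cases hi : i < mx u.length v.length
    · have := h i (List.mem_range.mpr hi)
      revert this
      cases bitAt u i <;> cases bitAt v i <;> simp
    · rw [mx_eq] at hi
      rw [bitAt_of_le (by omega), bitAt_of_le (by omega)]
  · intro h i _
    rw [← testBit_val, ← testBit_val, h]
    simp

theorem val_natBits (n : ℕ) : val (Nat.bits n) = n := by
  induction n using Nat.binaryRec' with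
  | zero => simp [val]
  | bit b n h ih =>
    rw [Nat.bits_append_bit n b h, val, ih, Nat.bit_val]
    ring

/-! ### Polynomial time -/

variable {m : Bool} {α β : Type} [Rep α] [Rep β]

@[fun_prop]
theorem PT.mx' {f g : α → ℕ} (hf : PT m f) (hg : PT m g) : PT m (fun a => mx (f a) (g a)) := by
  unfold mx; fun_prop

theorem PT.addB' {u v : α → List Bool} (hu : PT m u) (hv : PT m v) :
    PT m (fun a => addB (u a) (v a)) := by
  obtain ⟨p, hp⟩ := hu.exists_size_le
  obtain ⟨q, hq⟩ := hv.exists_size_le
  have hs : PT m (fun z : α × ((Bool × List Bool) × ℕ) => astep (u z.1) (v z.1) z.2.1 z.2.2) := by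
    have h1 : PT m (fun z : α × ((Bool × List Bool) × ℕ) => u z.1) :=
      hu.comp (f := fun z : α × ((Bool × List Bool) × ℕ) => z.1) (by fun_prop)
    have h2 : PT m (fun z : α × ((Bool × List Bool) × ℕ) => v z.1) :=
      hv.comp (f := fun z : α × ((Bool × List Bool) × ℕ) => z.1) (by fun_prop)
    unfold astep
    fun_prop
  have hl : PT m (fun a => List.range (mx (u a).length (v a).length + 1)) := by
    apply Pool.Agent.H79.Bar.PT.range'
    fun_prop
  have := PT.foldl (m := m) (ini := fun _ : α => ((false, []) : Bool × List Bool))
    (s := fun z : α × ((Bool × List Bool) × ℕ) => astep (u z.1) (v z.1) z.2.1 z.2.2)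
    hl (by fun_prop) hs (4 * (p + q + 1) + 5) (by
      intro a k
      simp only [Polynomial.eval_add, Polynomial.eval_mul, Polynomial.eval_ofNat,
        Polynomial.eval_one]
      rw [show ∀ st : Bool × List Bool, size st = size st.1 + size st.2 + 1 from
        fun st => size_pair _ _]
      have h1 := size_bool_le (((List.range (mx (u a).length (v a).length + 1)).take k).foldl
        (fun y b => astep (u a) (v a) y b) (false, [])).1
      have h2 := (size_bits (((List.range (mx (u a).length (v a).length + 1)).take k).foldl
        (fun y b => astep (u a) (v a) y b) (false, [])).2).2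
      have h3 := length_fold (u a) (v a) ((List.range (mx (u a).length (v a).length + 1)).take k)
        (false, [])
      have h4 : ((List.range (mx (u a).length (v a).length + 1)).take k).length ≤
          mx (u a).length (v a).length + 1 := by
        rw [List.length_take, List.length_range]; omega
      have h5 := length_le_size' (u a)
      have h6 := length_le_size' (v a)
      have h7 := hp a
      have h8 := hq a
      rw [mx_eq] at h4
      simp only [List.length_nil, add_zero] at h3
      rw [mx_eq] at h1 h2 h3 ⊢
      omega)
  exact (this.snd').reverse'

theorem PT.mulB' {x y : α → List Bool} (hx : PT m x) (hy : PT m y) :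
    PT m (fun a => mulB (x a) (y a)) := by
  obtain ⟨p, hp⟩ := hx.exists_size_le
  obtain ⟨q, hq⟩ := hy.exists_size_le
  have hs : PT m (fun z : α × (Bool × List Bool) =>
      addB (false :: z.2.2) (bif z.2.1 then x z.1 else [])) := by
    have h1 : PT m (fun z : α × (Bool × List Bool) => x z.1) :=
      hx.comp (f := fun z : α × (Bool × List Bool) => z.1) (by fun_prop)
    apply PT.addB'
    · fun_prop
    · fun_prop
  exact PT.foldr (m := m) (ini := fun _ : α => ([] : List Bool))
    (s := fun z : α × (Bool × List Bool) => addB (false :: z.2.2) (bif z.2.1 then x z.1 else []))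
    hy (by fun_prop) hs (4 * (p + 2 * q) + 1) (by
      intro a k
      simp only [Polynomial.eval_add, Polynomial.eval_mul, Polynomial.eval_ofNat,
        Polynomial.eval_one]
      have h2 := (size_bits (((y a).drop k).foldr
        (fun b acc => addB (false :: acc) (bif b then x a else [])) [])).2
      have h3 := length_mul_foldr (x a) ((y a).drop k)
      have h4 : ((y a).drop k).length ≤ (y a).length := by rw [List.length_drop]; omega
      have h5 := length_le_size' (x a)
      have h6 := length_le_size' (y a)
      have h7 := hp a
      have h8 := hq a
      omega)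

theorem PT.eqB' {u v : α → List Bool} (hu : PT m u) (hv : PT m v) :
    PT m (fun a => eqB (u a) (v a)) := by
  have h1 : PT m (fun z : α × ℕ => u z.1) := hu.comp (f := fun z : α × ℕ => z.1) (by fun_prop)
  have h2 : PT m (fun z : α × ℕ => v z.1) := hv.comp (f := fun z : α × ℕ => z.1) (by fun_prop)
  have hl : PT m (fun a => List.range (mx (u a).length (v a).length)) := by
    apply Pool.Agent.H79.Bar.PT.range'
    fun_prop
  exact Pool.Agent.H79.Bar.PT.all' (m := m) (l := fun a => List.range (mx (u a).length (v a).length))
    (p := fun z : α × ℕ => !(xor (bitAt (u z.1) z.2) (bitAt (v z.1) z.2))) hl (by fun_prop)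

attribute [fun_prop] PT.addB' PT.mulB' PT.eqB'

end Pool.Agent.H79.GPos
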