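import Pool.Agent.H79.GPGeom
import Pool.Agent.H79.GPBin

/-!
# The kernelisation algorithm and its correctness
-/

namespace Pool.Agent.H79.GPos

open Pool.Agent.PPS Finset

/-! ### Encoding of instances -/

/-- A rational number as three words: sign, numerator, denominator (in binary). -/
def encQ (x : ℚ) : List (List Bool) :=
  [[decide (x.num < 0)], Nat.bits x.num.natAbs, Nat.bits x.den]

/-- A point as six words. -/
def encP (p : ℚ × ℚ) : List (List Bool) := encQ p.1 ++ encQ p.2

/-- The word that encodes the instance `(L, g)`. -/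
def inst (L : List (ℚ × ℚ)) (g : ℕ) : List Bool :=
  code ((Nat.bits g, L.map encP) : List Bool × List (List (List Bool)))

/-- The point of the Euclidean plane with the given rational coordinates. -/
def cst (p : ℚ × ℚ) : ℝ × ℝ := ((p.1 : ℝ), (p.2 : ℝ))

open Classical in
/-- The configuration given by a list of rational points. -/
noncomputable def config (L : List (ℚ × ℚ)) : Finset (ℝ × ℝ) := (L.map cst).toFinset

/-! ### The algorithm -/

/-- Word number `i`. -/
def wd (p : List (List Bool)) (i : ℕ) : List Bool := p.getD i []

/-- The homogeneous coordinates. -/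
def hX (p : List (List Bool)) : Bool × List Bool := (bitAt (wd p 0) 0, mulB (wd p 1) (wd p 5))

def hY (p : List (List Bool)) : Bool × List Bool := (bitAt (wd p 3) 0, mulB (wd p 4) (wd p 2))

def hZ (p : List (List Bool)) : Bool × List Bool := (false, mulB (wd p 2) (wd p 5))

/-- A product with sign. -/
def tm (s : Bool) (a b c : Bool × List Bool) : Bool × List Bool :=
  (xor s (xor a.1 (xor b.1 c.1)), mulB a.2 (mulB b.2 c.2))

/-- The positive (`s = false`) or negative part. -/
def part (s : Bool) (t : Bool × List Bool) : List Bool := bif xor s t.1 then [] else t.2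

/-- The sum of the positive (or negative) parts. -/
def six (s : Bool) (t₁ t₂ t₃ t₄ t₅ t₆ : Bool × List Bool) : List Bool :=
  addB (part s t₁) (addB (part s t₂) (addB (part s t₃) (addB (part s t₄)
    (addB (part s t₅) (part s t₆)))))

/-- One side of the determinant. -/
def side (s : Bool) (p q r : List (List Bool)) : List Bool :=
  six s (tm false (hX p) (hY q) (hZ r)) (tm true (hX p) (hY r) (hZ q))
    (tm true (hY p) (hX q) (hZ r)) (tm false (hY p) (hX r) (hZ q))
    (tm false (hZ p) (hX q) (hY r)) (tm true (hZ p) (hX r) (hY q))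

/-- Collinearity test. -/
def colB (p q r : List (List Bool)) : Bool := eqB (side false p q r) (side true p q r)

/-- The number of points on the line through `p` and `q`. -/
def cnt (Ps : List (List (List Bool))) (p q : List (List Bool)) : ℕ :=
  bif decide (p = q) then 1 else (Ps.filter fun r => colB p q r).length

/-- `ONLINE`. -/
def onl (Ps : List (List (List Bool))) : ℕ :=
  (Ps.flatMap fun p => Ps.map fun q => cnt Ps p q).foldr mx 0

/-- `p` is on no line through two points of `Q`. -/
def ok (p : List (List Bool)) (Q : List (List (List Bool))) : Bool :=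
  Q.all fun a => Q.all fun b => decide (a = b) || !(colB a b p)

/-- A maximal subset in general position. -/
def grd (Ps : List (List (List Bool))) : List (List (List Bool)) :=
  Ps.foldr (fun p Q => bif ok p Q then p :: Q else Q) []

/-- The minimum of `n` and the number with the binary digits `G`. -/
def cap (G : List Bool) (n : ℕ) : ℕ :=
  G.foldr (fun b c => Bar.mn n (bif b then c + c + 1 else c + c)) 0

/-- The algorithm, on decoded input. -/
def ker (w : List Bool) (z : List Bool × List (List (List Bool))) : List Bool :=
  bif decide (z.2.length ≤ cap z.1 z.2.length) then inst [] 0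
  else bif decide (4000 * ((grd z.2).length * (grd z.2).length *
      ((grd z.2).length * (grd z.2).length)) ≤ onl z.2) then
    bif decide ((onl z.2 + 1) / 2 ≤ cap z.1 z.2.length) then inst [] 0 else inst [(0, 0)] 0
  else w

/-- Decoding. -/
def dec (w : List Bool) : List Bool × List (List (List Bool)) :=
  (toWord (hd (decodeD w)), (spine (tl (decodeD w))).map toWords)

/-- The algorithm. -/
def kalgo (w : List Bool) : List Bool := ker w (dec w)

theorem dec_inst (L : List (ℚ × ℚ)) (g : ℕ) : dec (inst L g) = (Nat.bits g, L.map encP) := by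
  unfold dec inst
  rw [decodeD_codeT, hd_rep, tl_rep, toWord_rep]
  congr 1
  change (spine (listTree (L.map encP))).map toWords = _
  rw [spine_listTree, List.map_map]
  conv_rhs => rw [← List.map_id (L.map encP)]
  apply List.map_congr_left
  intro p _
  exact toWords_rep p

/-! ### The collinearity test -/

/-- The value of a number with sign. -/
def sv (t : Bool × List Bool) : ℤ := if t.1 then -(val t.2 : ℤ) else val t.2

theorem sv_tm (s : Bool) (a b c : Bool × List Bool) :
    sv (tm s a b c) = (if s then -1 else 1) * sv a * sv b * sv c := by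
  obtain ⟨a1, a2⟩ := a
  obtain ⟨b1, b2⟩ := b
  obtain ⟨c1, c2⟩ := c
  simp only [sv, tm, val_mulB]
  push_cast
  cases s <;> cases a1 <;> cases b1 <;> cases c1 <;> simp <;> ring

theorem val_part (t : Bool × List Bool) :
    (val (part false t) : ℤ) - val (part true t) = sv t := by
  obtain ⟨a, b⟩ := t
  cases a <;> simp [part, sv, PPS.val]

theorem val_six (t₁ t₂ t₃ t₄ t₅ t₆ : Bool × List Bool) :
    (val (six false t₁ t₂ t₃ t₄ t₅ t₆) : ℤ) - val (six true t₁ t₂ t₃ t₄ t₅ t₆) =
      sv t₁ + sv t₂ + sv t₃ + sv t₄ + sv t₅ + sv t₆ := by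
  simp only [six, val_addB]
  push_cast
  rw [← val_part t₁, ← val_part t₂, ← val_part t₃, ← val_part t₄, ← val_part t₅,
    ← val_part t₆]
  ring

theorem sv_hX (p : ℚ × ℚ) : sv (hX (encP p)) = p.1.num * p.2.den := by
  simp only [sv, hX, wd, encP, encQ, List.cons_append, List.nil_append, val_mulB]
  simp only [List.getD_cons_zero, List.getD_cons_succ, bitAt_cons_zero, val_natBits]
  push_cast
  by_cases h : p.1.num < 0
  · simp only [h, decide_true, if_true]
    rw [abs_of_neg h]; ring
  · simp only [h, decide_false]
    rw [abs_of_nonneg (by omega)]; simp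

theorem sv_hY (p : ℚ × ℚ) : sv (hY (encP p)) = p.2.num * p.1.den := by
  simp only [sv, hY, wd, encP, encQ, List.cons_append, List.nil_append, val_mulB]
  simp only [List.getD_cons_zero, List.getD_cons_succ, bitAt_cons_zero, val_natBits]
  push_cast
  by_cases h : p.2.num < 0
  · simp only [h, decide_true, if_true]
    rw [abs_of_neg h]; ring
  · simp only [h, decide_false]
    rw [abs_of_nonneg (by omega)]; simp

theorem sv_hZ (p : ℚ × ℚ) : sv (hZ (encP p)) = p.1.den * p.2.den := by
  simp only [sv, hZ, wd, encP, encQ, List.cons_append, List.nil_append, val_mulB]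
  simp only [List.getD_cons_zero, List.getD_cons_succ, val_natBits]
  push_cast
  simp

theorem colB_iff (p q r : ℚ × ℚ) : colB (encP p) (encP q) (encP r) = true ↔
    ((cst q).1 - (cst p).1) * ((cst r).2 - (cst p).2) =
      ((cst r).1 - (cst p).1) * ((cst q).2 - (cst p).2) := by
  unfold colB side
  rw [eqB_iff, ← Nat.cast_inj (R := ℤ), ← sub_eq_zero, val_six]
  simp only [sv_tm, sv_hX, sv_hY, sv_hZ, if_true, Bool.false_eq_true, if_false]
  simp only [cst]
  have hx : ∀ x : ℚ, (x : ℝ) = (x.num : ℝ) / (x.den : ℝ) := by
    intro x
    conv_lhs => rw [← Rat.num_div_den x]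
    push_cast; rfl
  have hd : ∀ x : ℚ, (x.den : ℝ) ≠ 0 := fun x => by exact_mod_cast x.den_ne_zero
  rw [hx p.1, hx p.2, hx q.1, hx q.2, hx r.1, hx r.2, ← sub_eq_zero (a := _ * _)]
  have h1 := hd p.1
  have h2 := hd p.2
  have h3 := hd q.1
  have h4 := hd q.2
  have h5 := hd r.1
  have h6 := hd r.2
  rw [← Int.cast_inj (α := ℝ)]
  push_cast
  constructor
  · intro h
    field_simp
    linear_combination h
  · intro h
    field_simp at h
    have hne : (p.1.den : ℝ) * p.2.den ≠ 0 := mul_ne_zero h1 h2
    linear_combination h

end Pool.Agent.H79.GPos
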