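import Pool.Agent.H79.GPLocal

/-!
# Colourings of a linear space covered by few blocks
-/

namespace Pool.Agent.H79.GPos

open Finset

open Classical

variable {P : Type*}

/-- The points of `S` on two of the blocks of `𝓒`. -/
noncomputable def Xp (S : Finset P) (𝓒 : Finset (Finset P)) : Finset P :=
  {p ∈ S | ∃ C ∈ 𝓒, ∃ C' ∈ 𝓒, C ≠ C' ∧ p ∈ C ∧ p ∈ C'}

/-- The points that are coloured when the blocks of `𝓟` have been processed. -/
noncomputable def Dn (S : Finset P) (𝓒 𝓟 : Finset (Finset P)) : Finset P :=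
  {p ∈ S | p ∈ Xp S 𝓒 ∨ ∃ C ∈ 𝓟, p ∈ C}

/-- Colour `c` is forbidden for `p`. -/
def Forb (𝓑 : Set (Finset P)) (D : Finset P) (χ : P → ℕ) (p : P) (c : ℕ) : Prop :=
  ∃ B ∈ 𝓑, p ∈ B ∧ ∃ q ∈ D, ∃ q' ∈ D, q ∈ B ∧ q' ∈ B ∧ q ≠ q' ∧ χ q = c ∧ χ q' = c

variable {S : Finset P} {𝓑 : Set (Finset P)} {𝓒 : Finset (Finset P)} {g : ℕ}

theorem block_uniq (inter : ∀ B ∈ 𝓑, ∀ B' ∈ 𝓑, B ≠ B' → #(B ∩ B') ≤ 1) {B B' : Finset P}
    (hB : B ∈ 𝓑) (hB' : B' ∈ 𝓑) {p q : P} (hpq : p ≠ q) (h1 : p ∈ B) (h2 : q ∈ B)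
    (h3 : p ∈ B') (h4 : q ∈ B') : B = B' := by
  by_contra hne
  have := inter B hB B' hB' hne
  have h5 : ({p, q} : Finset P) ⊆ B ∩ B' := by
    intro x hx
    simp only [mem_insert, mem_singleton] at hx
    rcases hx with rfl | rfl <;> simp [*]
  have := card_le_card h5
  rw [card_pair hpq] at this
  omega

theorem card_Xp (inter : ∀ B ∈ 𝓑, ∀ B' ∈ 𝓑, B ≠ B' → #(B ∩ B') ≤ 1)
    (hC : ∀ C ∈ 𝓒, C ∈ 𝓑) : #(Xp S 𝓒) ≤ #𝓒 ^ 2 := by
  have hsub : Xp S 𝓒 ⊆ 𝓒.offDiag.biUnion (fun z => z.1 ∩ z.2) := by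
    intro p hp
    simp only [Xp, mem_filter] at hp
    obtain ⟨-, C, hC, C', hC', hne, h1, h2⟩ := hp
    simp only [mem_biUnion, mem_offDiag, mem_inter, Prod.exists]
    exact ⟨C, C', ⟨hC, hC', hne⟩, h1, h2⟩
  refine (card_le_card hsub).trans (card_biUnion_le.trans ?_)
  calc ∑ z ∈ 𝓒.offDiag, #(z.1 ∩ z.2) ≤ ∑ z ∈ 𝓒.offDiag, 1 := by
        refine sum_le_sum fun z hz => ?_
        rw [mem_offDiag] at hz
        exact inter _ (hC _ hz.1) _ (hC _ hz.2.1) hz.2.2
    _ = #𝓒.offDiag := by simp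
    _ ≤ #𝓒 ^ 2 := by rw [offDiag_card, pow_two]; omega

theorem card_block_le (inter : ∀ B ∈ 𝓑, ∀ B' ∈ 𝓑, B ≠ B' → #(B ∩ B') ≤ 1)
    (sub : ∀ B ∈ 𝓑, B ⊆ S) (hC : ∀ C ∈ 𝓒, C ∈ 𝓑) (cover : ∀ p ∈ S, ∃ C ∈ 𝓒, p ∈ C)
    {B : Finset P} (hB : B ∈ 𝓑) (hBC : B ∉ 𝓒) : #B ≤ #𝓒 := by
  have hsub : B ⊆ 𝓒.biUnion (fun C => B ∩ C) := by
    intro p hp
    obtain ⟨C, hC', hpC⟩ := cover p (sub B hB hp)
    simp only [mem_biUnion, mem_inter]
    exact ⟨C, hC', hp, hpC⟩
  refine (card_le_card hsub).trans (card_biUnion_le.trans ?_)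
  calc ∑ C ∈ 𝓒, #(B ∩ C) ≤ ∑ C ∈ 𝓒, 1 := by
        refine sum_le_sum fun C hC' => inter B hB C (hC C hC') ?_
        rintro rfl; exact hBC hC'
    _ = #𝓒 := by simp

theorem log_le (g : ℕ) (hg : 2000 ≤ g) : Nat.log 2 g ≤ g / 100 := by
  have h : ∀ m : ℕ, 11 ≤ m → 100 * (m + 1) ≤ 2 ^ m := by
    intro m hm
    induction m, hm using Nat.le_induction with
    | base => norm_num
    | succ m hm ih => rw [pow_succ]; omega
  have h1 := h (g / 100) (by omega)
  have h2 : g < 2 ^ (g / 100) := by omega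
  exact (Nat.log_lt_of_lt_pow (by omega) h2).le

theorem exists_colouring_aux (sub : ∀ B ∈ 𝓑, B ⊆ S)
    (inter : ∀ B ∈ 𝓑, ∀ B' ∈ 𝓑, B ≠ B' → #(B ∩ B') ≤ 1)
    (hC : ∀ C ∈ 𝓒, C ∈ 𝓑) (cover : ∀ p ∈ S, ∃ C ∈ 𝓒, p ∈ C)
    (hg : ∀ C ∈ 𝓒, #C ≤ 2 * g) (hK : 1 ≤ #𝓒) (hgK : 2000 * #𝓒 ^ 2 ≤ g)
    (𝓟 : Finset (Finset P)) (hP : 𝓟 ⊆ 𝓒) :
    ∃ (χ : P → ℕ) (F : P → ℕ), (∀ p ∈ Dn S 𝓒 𝓟, χ p < g) ∧
      (∀ B ∈ 𝓑, ∀ c, #{p ∈ Dn S 𝓒 𝓟 | p ∈ B ∧ χ p = c} ≤ 2) ∧
      Set.InjOn χ (Xp S 𝓒) ∧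
      (∀ p ∈ S \ Dn S 𝓒 𝓟, #{c ∈ range g | Forb 𝓑 (Dn S 𝓒 𝓟) χ p c} ≤ F p) ∧
      ∑ p ∈ S \ Dn S 𝓒 𝓟, 2 ^ F p ≤ #S * (2 ^ (128 * #𝓒 + 1)) ^ #𝓟 := by
  obtain ⟨K, hKd⟩ : ∃ K, K = #𝓒 := ⟨_, rfl⟩
  rw [← hKd] at hK hgK ⊢
  have hKK : 1 ≤ K ^ 2 := Nat.one_le_pow _ _ hK
  have hXS : Xp S 𝓒 ⊆ S := filter_subset _ _
  have hXc : #(Xp S 𝓒) ≤ K ^ 2 := by rw [hKd]; exact card_Xp inter hC
  induction 𝓟 using Finset.induction_on with
  | empty =>
    have hD : Dn S 𝓒 ∅ = Xp S 𝓒 := by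
      ext p
      simp only [Dn, mem_filter, notMem_empty, false_and, exists_false, or_false]
      exact ⟨fun h => h.2, fun h => ⟨hXS h, h⟩⟩
    rw [hD]
    have hinj : Set.InjOn (fun p => if h : p ∈ Xp S 𝓒 then
        ((Xp S 𝓒).equivFin ⟨p, h⟩ : ℕ) else 0) (Xp S 𝓒) := by
      intro a ha b hb h
      rw [mem_coe] at ha hb
      simp only [ha, hb, dif_pos] at h
      exact congrArg Subtype.val ((Xp S 𝓒).equivFin.injective (Fin.ext h))
    refine ⟨fun p => if h : p ∈ Xp S 𝓒 then ((Xp S 𝓒).equivFin ⟨p, h⟩ : ℕ) else 0, fun _ => 0,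
      fun p hp => ?_, fun B _ c => ?_, hinj, fun p _ => ?_, ?_⟩
    · simp only [hp, dif_pos]
      have := ((Xp S 𝓒).equivFin ⟨p, hp⟩).2
      omega
    · refine le_trans ?_ (by norm_num : 1 ≤ 2)
      rw [card_le_one]
      intro a ha b hb
      rw [mem_filter] at ha hb
      exact hinj (mem_coe.mpr ha.1) (mem_coe.mpr hb.1) (ha.2.2.trans hb.2.2.symm)
    · rw [Nat.le_zero, card_eq_zero, filter_eq_empty_iff]
      rintro c - ⟨B, -, -, q, hq, q', hq', -, -, hne, h1, h2⟩
      exact hne (hinj (mem_coe.mpr hq) (mem_coe.mpr hq') (h1.trans h2.symm))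
    · simp only [pow_zero, sum_const, smul_eq_mul, mul_one, card_empty]
      exact card_le_card sdiff_subset
  | insert C 𝓟 hCP ih =>
    obtain ⟨χ, F, i0, i1, i2, i3, i4⟩ := ih ((subset_insert _ _).trans hP)
    have hCC : C ∈ 𝓒 := hP (mem_insert_self _ _)
    have hCB : C ∈ 𝓑 := hC C hCC
    have hCS : C ⊆ S := sub C hCB
    obtain ⟨D, hDd⟩ : ∃ D, D = Dn S 𝓒 𝓟 := ⟨_, rfl⟩
    obtain ⟨A, hAd⟩ : ∃ A, A = C \ D := ⟨_, rfl⟩
    have hD' : Dn S 𝓒 (insert C 𝓟) = D ∪ A := by
      ext p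
      simp only [Dn, hAd, hDd, mem_filter, mem_union, mem_insert, mem_sdiff]
      constructor
      · rintro ⟨hp, hX | ⟨C', rfl | hC', hpC⟩⟩
        · exact Or.inl ⟨hp, Or.inl hX⟩
        · by_cases h : p ∈ S ∧ (p ∈ Xp S 𝓒 ∨ ∃ C ∈ 𝓟, p ∈ C)
          · exact Or.inl h
          · exact Or.inr ⟨hpC, h⟩
        · exact Or.inl ⟨hp, Or.inr ⟨C', hC', hpC⟩⟩
      · rintro (⟨hp, hX | ⟨C', hC', hpC⟩⟩ | ⟨hpC, -⟩)
        · exact ⟨hp, Or.inl hX⟩
        · exact ⟨hp, Or.inr ⟨C', Or.inr hC', hpC⟩⟩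
        · exact ⟨hCS hpC, Or.inr ⟨C, Or.inl rfl, hpC⟩⟩
    rw [hD']
    rw [← hDd] at i0 i1 i3 i4
    have hXD : Xp S 𝓒 ⊆ D := by
      intro p hp
      rw [hDd, Dn, mem_filter]
      exact ⟨hXS hp, Or.inl hp⟩
    have hDS : D ⊆ S := by rw [hDd]; exact filter_subset _ _
    have hCDX : C ∩ D ⊆ Xp S 𝓒 := by
      intro p hp
      rw [mem_inter, hDd, Dn, mem_filter] at hp
      obtain ⟨hpC, hpS, hX | ⟨C', hC', hpC'⟩⟩ := hp
      · exact hX
      · rw [Xp, mem_filter]
        refine ⟨hpS, C, hCC, C', hP (mem_insert_of_mem hC'), ?_, hpC, hpC'⟩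
        rintro rfl; exact hCP hC'
    have hAX : ∀ a ∈ A, a ∈ C ∧ a ∉ D ∧ a ∉ Xp S 𝓒 := by
      intro a ha
      rw [hAd, mem_sdiff] at ha
      exact ⟨ha.1, ha.2, fun h => ha.2 (hXD h)⟩
    -- the slots
    obtain ⟨T, hTd⟩ : ∃ T, T = (range g ×ˢ range 2) \
      (C ∩ D).image (fun x => (χ x, 0)) := ⟨_, rfl⟩
    have hinjCD : Set.InjOn (fun x => (χ x, 0)) (C ∩ D : Finset P) := by
      intro a ha b hb h
      exact i2 (hCDX ha) (hCDX hb) (Prod.ext_iff.mp h).1
    have hTc : #T = 2 * g - #(C ∩ D) := by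
      rw [hTd, card_sdiff_of_subset, card_image_of_injOn hinjCD, card_product, card_range,
        card_range, mul_comm]
      intro s hs
      rw [mem_image] at hs
      obtain ⟨x, hx, rfl⟩ := hs
      rw [mem_product, mem_range, mem_range]
      exact ⟨i0 x (mem_inter.mp hx).2, by norm_num⟩
    have hCD : #(C ∩ D) ≤ K ^ 2 := (card_le_card hCDX).trans hXc
    have hAT : #A ≤ #T := by
      have h1 := card_sdiff_add_card_inter C D
      have h2 := hg C hCC
      rw [hTc, hAd]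
      omega
    have hcolor : ∀ c, #{q ∈ D | χ q = c} ≤ 2 * K := by
      intro c
      have hsub : ({q ∈ D | χ q = c} : Finset P) ⊆
          𝓒.biUnion (fun C' => {p ∈ D | p ∈ C' ∧ χ p = c}) := by
        intro q hq
        rw [mem_filter] at hq
        obtain ⟨C', hC', hqC⟩ := cover q (hDS hq.1)
        rw [mem_biUnion]
        exact ⟨C', hC', mem_filter.mpr ⟨hq.1, hqC, hq.2⟩⟩
      refine (card_le_card hsub).trans (card_biUnion_le.trans ?_)
      calc ∑ C' ∈ 𝓒, #{p ∈ D | p ∈ C' ∧ χ p = c} ≤ ∑ C' ∈ 𝓒, 2 :=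
            sum_le_sum fun C' hC' => i1 C' (hC C' hC') c
        _ = 2 * K := by rw [sum_const, smul_eq_mul, hKd, mul_comm]
    -- the bound for `F`
    obtain ⟨U, hU⟩ : ∃ U, U = 128 * K ^ 2 + 2 * K + Nat.log 2 g + 2 := ⟨_, rfl⟩
    have hFU : ∀ p ∈ S \ D, F p ≤ U := by
      intro p hp
      have h1 : 2 ^ F p ≤ #S * (2 ^ (128 * K + 1)) ^ #𝓟 :=
        (single_le_sum (f := fun p => 2 ^ F p) (fun _ _ => Nat.zero_le _) hp).trans i4
      have h2 : #S ≤ 2 * g * K := by
        have hsub : S ⊆ 𝓒.biUnion id := by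
          intro p hp
          obtain ⟨C', hC', hpC⟩ := cover p hp
          rw [mem_biUnion]; exact ⟨C', hC', hpC⟩
        refine (card_le_card hsub).trans (card_biUnion_le.trans ?_)
        calc ∑ C' ∈ 𝓒, #(id C') ≤ ∑ C' ∈ 𝓒, 2 * g := sum_le_sum fun C' hC' => hg C' hC'
          _ = 2 * g * K := by rw [sum_const, smul_eq_mul, hKd, mul_comm]
      have h3 : #𝓟 ≤ K := by
        rw [hKd]
        exact card_le_card ((subset_insert _ _).trans hP)
      have h4 : (2 ^ (128 * K + 1)) ^ #𝓟 ≤ 2 ^ ((128 * K + 1) * K) := by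
        rw [← pow_mul]
        exact Nat.pow_le_pow_right (by norm_num) (Nat.mul_le_mul_left _ h3)
      have h5 : g < 2 ^ (Nat.log 2 g + 1) := Nat.lt_pow_succ_log_self (by norm_num) g
      have h6 : K < 2 ^ K := Nat.lt_two_pow_self
      have h7 : 2 * g * K ≤ 2 * 2 ^ (Nat.log 2 g + 1) * 2 ^ K :=
        Nat.mul_le_mul (Nat.mul_le_mul_left _ h5.le) h6.le
      have h8 : 2 ^ F p ≤ 2 * 2 ^ (Nat.log 2 g + 1) * 2 ^ K * 2 ^ ((128 * K + 1) * K) :=
        h1.trans (Nat.mul_le_mul (h2.trans h7) h4)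
      have h9 : 2 * 2 ^ (Nat.log 2 g + 1) * 2 ^ K * 2 ^ ((128 * K + 1) * K) = 2 ^ U := by
        rw [hU]
        conv_lhs => rw [← pow_succ', ← pow_add, ← pow_add]
        congr 1
        ring
      rw [h9] at h8
      exact (Nat.pow_le_pow_iff_right (by norm_num)).mp h8
    have hUg : 8 * U + 2 ≤ g := by
      have h1 := log_le g (by omega)
      have h2 : K ≤ K ^ 2 := by nlinarith
      omega
    have hTg : g ≤ #T := by omega
    -- the assignment
    obtain ⟨f, f1, f2, f3, f4⟩ := exists_assign A T hAT (2 * U) (2 * K)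
      (fun a s => Forb 𝓑 D χ a s.1)
      (by
        intro a ha
        have haS : a ∈ S \ D := mem_sdiff.mpr ⟨hCS (hAX a ha).1, (hAX a ha).2.1⟩
        have hsub : ({s ∈ T | Forb 𝓑 D χ a s.1} : Finset (ℕ × ℕ)) ⊆
            ({c ∈ range g | Forb 𝓑 D χ a c} : Finset ℕ) ×ˢ range 2 := by
          intro s hs
          rw [mem_filter, hTd, mem_sdiff, mem_product] at hs
          rw [mem_product, mem_filter]
          exact ⟨⟨hs.1.1.1, hs.2⟩, hs.1.1.2⟩
        have h1 := card_le_card hsub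
        rw [card_product, card_range] at h1
        have h2 := i3 a haS
        have h3 := hFU a haS
        omega)
      (by
        intro s _
        have hsub : ({a ∈ A | Forb 𝓑 D χ a s.1} : Finset P) ⊆
            (({q ∈ D | χ q = s.1} : Finset P) ×ˢ ({q ∈ D | χ q = s.1} : Finset P)).biUnion
            (fun z => {a ∈ A | z.1 ≠ z.2 ∧ ∃ B ∈ 𝓑, a ∈ B ∧ z.1 ∈ B ∧ z.2 ∈ B}) := by
          intro a ha
          rw [mem_filter] at ha
          obtain ⟨haA, B, hB, haB, q, hq, q', hq', h1, h2, hne, h3, h4⟩ := ha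
          rw [mem_biUnion]
          refine ⟨(q, q'), ?_, ?_⟩
          · rw [mem_product, mem_filter, mem_filter]
            exact ⟨⟨hq, h3⟩, ⟨hq', h4⟩⟩
          · rw [mem_filter]
            exact ⟨haA, hne, B, hB, haB, h1, h2⟩
        refine (card_le_card hsub).trans (card_biUnion_le.trans ?_)
        have h1 : ∀ z ∈ (({q ∈ D | χ q = s.1} : Finset P) ×ˢ
            ({q ∈ D | χ q = s.1} : Finset P)),
            #{a ∈ A | z.1 ≠ z.2 ∧ ∃ B ∈ 𝓑, a ∈ B ∧ z.1 ∈ B ∧ z.2 ∈ B} ≤ 1 := by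
          intro z hz
          rw [mem_product, mem_filter, mem_filter] at hz
          rw [card_le_one]
          intro a ha b hb
          rw [mem_filter] at ha hb
          obtain ⟨haA, hne, B, hB, haB, h1, h2⟩ := ha
          obtain ⟨hbA, -, B', hB', hbB, h3, h4⟩ := hb
          have := block_uniq inter hB hB' hne h1 h2 h3 h4
          subst this
          by_contra hab
          have := block_uniq inter hB hCB hab haB hbB (hAX a haA).1 (hAX b hbA).1
          subst this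
          exact hne (i2 (hCDX (mem_inter.mpr ⟨h1, hz.1.1⟩))
            (hCDX (mem_inter.mpr ⟨h2, hz.2.1⟩)) (hz.1.2.trans hz.2.2.symm))
        refine (sum_le_sum h1).trans ?_
        rw [sum_const, smul_eq_mul, mul_one, card_product]
        have h2 := hcolor s.1
        calc #{q ∈ D | χ q = s.1} * #{q ∈ D | χ q = s.1} ≤ (2 * K) * (2 * K) :=
              Nat.mul_le_mul h2 h2
          _ = 4 * K ^ 2 := by ring
          _ ≤ 2 * U := by omega)
      (by omega) (S \ (D ∪ A)) (fun p => 2 ^ F p)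
      (fun p a s => ∃ B ∈ 𝓑, p ∈ B ∧ a ∈ B ∧ ∃ q ∈ D, q ∈ B ∧ χ q = s.1)
      (by
        intro p hp a ha
        rw [mem_sdiff, mem_union, not_or] at hp
        by_cases hex : ∃ B ∈ 𝓑, p ∈ B ∧ a ∈ B
        · obtain ⟨B, hB, hpB, haB⟩ := hex
          have hpa : p ≠ a := by rintro rfl; exact hp.2.2 ha
          have hpC : p ∉ C := by
            intro h
            exact hp.2.2 (by rw [hAd]; exact mem_sdiff.mpr ⟨h, hp.2.1⟩)
          have hBC : B ∉ 𝓒 := by
            intro h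
            apply (hAX a ha).2.2
            rw [Xp, mem_filter]
            refine ⟨hCS (hAX a ha).1, B, h, C, hCC, ?_, haB, (hAX a ha).1⟩
            rintro rfl; exact hpC hpB
          have hsub : ({s ∈ T | ∃ B ∈ 𝓑, p ∈ B ∧ a ∈ B ∧ ∃ q ∈ D, q ∈ B ∧ χ q = s.1} :
              Finset (ℕ × ℕ)) ⊆ (B.image χ) ×ˢ range 2 := by
            intro s hs
            rw [mem_filter, hTd, mem_sdiff, mem_product] at hs
            obtain ⟨⟨⟨-, hs2⟩, -⟩, B', hB', hpB', haB', q, hq, hqB, hχ⟩ := hs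
            have := block_uniq inter hB hB' hpa hpB haB hpB' haB'
            subst this
            rw [mem_product, mem_image]
            exact ⟨⟨q, hqB, hχ⟩, hs2⟩
          have h1 := card_le_card hsub
          rw [card_product, card_range] at h1
          have h2 := card_block_le inter sub hC cover hB hBC
          have h3 : #(B.image χ) ≤ #B := card_image_le
          omega
        · have : ({s ∈ T | ∃ B ∈ 𝓑, p ∈ B ∧ a ∈ B ∧ ∃ q ∈ D, q ∈ B ∧ χ q = s.1} :
              Finset (ℕ × ℕ)) = ∅ := by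
            rw [filter_eq_empty_iff]
            rintro s - ⟨B, hB, h1, h2, -⟩
            exact hex ⟨B, hB, h1, h2⟩
          rw [this]; simp)
      (by
        intro p hp s _
        rw [mem_sdiff, mem_union, not_or] at hp
        have hpC : p ∉ C := by
          intro h
          exact hp.2.2 (by rw [hAd]; exact mem_sdiff.mpr ⟨h, hp.2.1⟩)
        have hsub : ({a ∈ A | ∃ B ∈ 𝓑, p ∈ B ∧ a ∈ B ∧ ∃ q ∈ D, q ∈ B ∧ χ q = s.1} :
            Finset P) ⊆ ({q ∈ D | χ q = s.1} : Finset P).biUnion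
            (fun q => {a ∈ A | ∃ B ∈ 𝓑, p ∈ B ∧ a ∈ B ∧ q ∈ B}) := by
          intro a ha
          rw [mem_filter] at ha
          obtain ⟨haA, B, hB, h1, h2, q, hq, h3, h4⟩ := ha
          rw [mem_biUnion]
          exact ⟨q, mem_filter.mpr ⟨hq, h4⟩, mem_filter.mpr ⟨haA, B, hB, h1, h2, h3⟩⟩
        refine (card_le_card hsub).trans (card_biUnion_le.trans ?_)
        have h1 : ∀ q ∈ ({q ∈ D | χ q = s.1} : Finset P),
            #{a ∈ A | ∃ B ∈ 𝓑, p ∈ B ∧ a ∈ B ∧ q ∈ B} ≤ 1 := by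
          intro q hq
          rw [mem_filter] at hq
          have hpq : p ≠ q := by rintro rfl; exact hp.2.1 hq.1
          rw [card_le_one]
          intro a ha b hb
          rw [mem_filter] at ha hb
          obtain ⟨haA, B, hB, h1, h2, h3⟩ := ha
          obtain ⟨hbA, B', hB', h4, h5, h6⟩ := hb
          have := block_uniq inter hB hB' hpq h1 h3 h4 h6
          subst this
          by_contra hab
          have := block_uniq inter hB hCB hab h2 h5 (hAX a haA).1 (hAX b hbA).1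
          subst this
          exact hpC h1
        refine (sum_le_sum h1).trans ?_
        rw [sum_const, smul_eq_mul, mul_one]
        exact hcolor s.1)
    -- the new colouring
    have hAD : ∀ a ∈ A, a ∉ D := fun a ha => (hAX a ha).2.1
    refine ⟨fun p => if p ∈ A then (f p).1 else χ p,
      fun p => F p + #{a ∈ A | ∃ B ∈ 𝓑, p ∈ B ∧ a ∈ B ∧ ∃ q ∈ D, q ∈ B ∧ χ q = (f a).1},
      ?_, ?_, ?_, ?_, ?_⟩
    · intro p hp
      by_cases hpA : p ∈ A
      · simp only [hpA, if_true]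
        have := f1 p hpA
        rw [hTd, mem_sdiff, mem_product, mem_range] at this
        exact this.1.1
      · simp only [hpA, if_false]
        rcases mem_union.mp hp with h | h
        · exact i0 p h
        · exact absurd h hpA
    · intro B hB c
      by_cases hBC : B = C
      · subst hBC
        have : #{p ∈ D ∪ A | p ∈ B ∧ (if p ∈ A then (f p).1 else χ p) = c} ≤
            #(({c} : Finset ℕ) ×ˢ range 2) := by
          apply card_le_card_of_injOn (fun p => if p ∈ A then f p else (χ p, 0))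
          · intro p hp
            rw [mem_coe, mem_filter, mem_union] at hp
            rw [mem_coe, mem_product, mem_singleton, mem_range]
            obtain ⟨hp1, hp2, hp3⟩ := hp
            by_cases hpA : p ∈ A
            · simp only [hpA, if_true] at hp3 ⊢
              have := f1 p hpA
              rw [hTd, mem_sdiff, mem_product, mem_range, mem_range] at this
              exact ⟨hp3, this.1.2⟩
            · simp only [hpA, if_false] at hp3 ⊢
              exact ⟨hp3, by norm_num⟩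
          · intro a ha b hb h
            rw [mem_coe, mem_filter, mem_union] at ha hb
            obtain ⟨ha1, ha2, ha3⟩ := ha
            obtain ⟨hb1, hb2, hb3⟩ := hb
            by_cases haA : a ∈ A
            · by_cases hbA : b ∈ A
              · simp only [haA, hbA, if_true] at h
                exact f2 haA hbA h
              · simp only [haA, hbA, if_true, if_false] at h
                exfalso
                have := f1 a haA
                rw [hTd, mem_sdiff] at this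
                exact this.2 (mem_image.mpr ⟨b, mem_inter.mpr ⟨hb2,
                  hb1.resolve_right hbA⟩, h.symm⟩)
            · by_cases hbA : b ∈ A
              · simp only [haA, hbA, if_true, if_false] at h
                exfalso
                have := f1 b hbA
                rw [hTd, mem_sdiff] at this
                exact this.2 (mem_image.mpr ⟨a, mem_inter.mpr ⟨ha2,
                  ha1.resolve_right haA⟩, h⟩)
              · simp only [haA, hbA, if_false] at h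
                exact hinjCD (mem_inter.mpr ⟨ha2, ha1.resolve_right haA⟩)
                  (mem_inter.mpr ⟨hb2, hb1.resolve_right hbA⟩) h
        refine this.trans ?_
        rw [card_product, card_singleton, card_range]
      · have hsub : ({p ∈ D ∪ A | p ∈ B ∧ (if p ∈ A then (f p).1 else χ p) = c} :
            Finset P) ⊆ ({p ∈ D | p ∈ B ∧ χ p = c} : Finset P) ∪
            ({p ∈ A | p ∈ B ∧ (f p).1 = c} : Finset P) := by
          intro p hp
          rw [mem_filter, mem_union] at hp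
          rw [mem_union, mem_filter, mem_filter]
          obtain ⟨hp1, hp2, hp3⟩ := hp
          by_cases hpA : p ∈ A
          · rw [if_pos hpA] at hp3
            exact Or.inr ⟨hpA, hp2, hp3⟩
          · rw [if_neg hpA] at hp3
            exact Or.inl ⟨hp1.resolve_right hpA, hp2, hp3⟩
        refine (card_le_card hsub).trans ((card_union_le _ _).trans ?_)
        have h2 : #{p ∈ A | p ∈ B ∧ (f p).1 = c} ≤ 1 := by
          rw [card_le_one]
          intro a ha b hb
          rw [mem_filter] at ha hb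
          by_contra hab
          exact hBC (block_uniq inter hB hCB hab ha.2.1 hb.2.1 (hAX a ha.1).1 (hAX b hb.1).1)
        by_cases he : ({p ∈ A | p ∈ B ∧ (f p).1 = c} : Finset P) = ∅
        · rw [he, card_empty, add_zero]
          exact i1 B hB c
        · obtain ⟨a, ha⟩ := nonempty_iff_ne_empty.mpr he
          rw [mem_filter] at ha
          have h1 : #{p ∈ D | p ∈ B ∧ χ p = c} ≤ 1 := by
            rw [card_le_one]
            intro q hq q' hq'
            rw [mem_filter] at hq hq'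
            by_contra hne
            apply f3 a ha.1
            rw [ha.2.2]
            exact ⟨B, hB, ha.2.1, q, hq.1, q', hq'.1, hq.2.1, hq'.2.1, hne, hq.2.2, hq'.2.2⟩
          omega
    · intro a ha b hb h
      have h1 : a ∉ A := fun h => (hAX a h).2.2 ha
      have h2 : b ∉ A := fun h => (hAX b h).2.2 hb
      simp only [h1, h2, if_false] at h
      exact i2 ha hb h
    · intro p hp
      have hpS : p ∈ S \ D := by
        rw [mem_sdiff, mem_union, not_or] at hp
        exact mem_sdiff.mpr ⟨hp.1, hp.2.1⟩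
      rw [mem_sdiff, mem_union, not_or] at hp
      have hpC : p ∉ C := by
        intro h
        exact hp.2.2 (by rw [hAd]; exact mem_sdiff.mpr ⟨h, hp.2.1⟩)
      have hsub : ({c ∈ range g | Forb 𝓑 (D ∪ A) (fun p => if p ∈ A then (f p).1 else χ p) p c} :
          Finset ℕ) ⊆ ({c ∈ range g | Forb 𝓑 D χ p c} : Finset ℕ) ∪
          ({a ∈ A | ∃ B ∈ 𝓑, p ∈ B ∧ a ∈ B ∧ ∃ q ∈ D, q ∈ B ∧ χ q = (f a).1} :
            Finset P).image (fun a => (f a).1) := by
        intro c hc
        rw [mem_filter] at hc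
        obtain ⟨hcg, B, hB, hpB, q, hq, q', hq', h1, h2, hne, h3, h4⟩ := hc
        rw [mem_union, mem_filter, mem_image]
        rw [mem_union] at hq hq'
        by_cases hqA : q ∈ A
        · simp only [hqA, if_true] at h3
          by_cases hqA' : q' ∈ A
          · exfalso
            have := block_uniq inter hB hCB hne h1 h2 (hAX q hqA).1 (hAX q' hqA').1
            subst this
            exact hpC hpB
          · simp only [hqA', if_false] at h4
            right
            refine ⟨q, mem_filter.mpr ⟨hqA, B, hB, hpB, h1, q', hq'.resolve_right hqA', h2, ?_⟩,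
              h3⟩
            rw [h4, h3]
        · simp only [hqA, if_false] at h3
          by_cases hqA' : q' ∈ A
          · simp only [hqA', if_true] at h4
            right
            refine ⟨q', mem_filter.mpr ⟨hqA', B, hB, hpB, h2, q, hq.resolve_right hqA, h1, ?_⟩,
              h4⟩
            rw [h4, h3]
          · simp only [hqA', if_false] at h4
            left
            exact ⟨hcg, B, hB, hpB, q, hq.resolve_right hqA, q', hq'.resolve_right hqA', h1, h2,
              hne, h3, h4⟩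
      refine (card_le_card hsub).trans ((card_union_le _ _).trans ?_)
      exact Nat.add_le_add (i3 p hpS) card_image_le
    · have h1 : ∑ p ∈ S \ (D ∪ A), 2 ^ (F p +
          #{a ∈ A | ∃ B ∈ 𝓑, p ∈ B ∧ a ∈ B ∧ ∃ q ∈ D, q ∈ B ∧ χ q = (f a).1}) ≤
          2 ^ (64 * (2 * K) + 1) * ∑ p ∈ S \ (D ∪ A), 2 ^ F p := by
        refine le_trans (le_of_eq ?_) f4
        exact sum_congr rfl fun p _ => by rw [pow_add]
      refine h1.trans ?_
      have h2 : ∑ p ∈ S \ (D ∪ A), 2 ^ F p ≤ ∑ p ∈ S \ D, 2 ^ F p :=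
        sum_le_sum_of_subset (sdiff_subset_sdiff (subset_refl _) subset_union_left)
      rw [card_insert_of_notMem hCP]
      calc 2 ^ (64 * (2 * K) + 1) * ∑ p ∈ S \ (D ∪ A), 2 ^ F p
          ≤ 2 ^ (64 * (2 * K) + 1) * (#S * (2 ^ (128 * K + 1)) ^ #𝓟) :=
            Nat.mul_le_mul_left _ (h2.trans i4)
        _ = #S * (2 ^ (128 * K + 1)) ^ (#𝓟 + 1) := by
            rw [pow_succ (2 ^ (128 * K + 1)), show 64 * (2 * K) + 1 = 128 * K + 1 by ring]
            ring

/-- The points of a linear space that is covered by `K` blocks with at most `2 g` points each can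
be coloured with `g` colours such that every block contains at most two points of each colour,
provided that `g ≥ 2000 K²`. -/
theorem exists_colouring (sub : ∀ B ∈ 𝓑, B ⊆ S)
    (inter' : ∀ B ∈ 𝓑, ∀ B' ∈ 𝓑, B ≠ B' → ∀ p q, p ∈ B ∧ p ∈ B' → q ∈ B ∧ q ∈ B' → p = q)
    (hC : ∀ C ∈ 𝓒, C ∈ 𝓑) (cover : ∀ p ∈ S, ∃ C ∈ 𝓒, p ∈ C)
    (hg : ∀ C ∈ 𝓒, #C ≤ 2 * g) (hgK : 2000 * #𝓒 ^ 2 ≤ g) :
    ∃ χ : P → ℕ, (∀ p ∈ S, χ p < g) ∧ ∀ B ∈ 𝓑, ∀ c, #{p ∈ B | χ p = c} ≤ 2 := by
  have inter : ∀ B ∈ 𝓑, ∀ B' ∈ 𝓑, B ≠ B' → #(B ∩ B') ≤ 1 := fun B hB B' hB' hne =>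
    card_le_one.mpr fun p hp q hq => inter' B hB B' hB' hne p q (mem_inter.mp hp)
      (mem_inter.mp hq)
  rcases Nat.eq_zero_or_pos #𝓒 with h0 | hK
  · rw [card_eq_zero] at h0
    have hS : S = ∅ := by
      rw [eq_empty_iff_forall_notMem]
      intro p hp
      obtain ⟨C, hC, -⟩ := cover p hp
      rw [h0] at hC
      exact notMem_empty _ hC
    refine ⟨fun _ => 0, ?_, fun B hB c => ?_⟩
    · rw [hS]; simp
    · have := sub B hB
      rw [hS, subset_empty] at this
      rw [this]; simp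
  · obtain ⟨χ, F, i0, i1, -⟩ :=
      exists_colouring_aux sub inter hC cover hg hK hgK 𝓒 (subset_refl _)
    have hD : Dn S 𝓒 𝓒 = S := by
      ext p
      simp only [Dn, mem_filter]
      exact ⟨fun h => h.1, fun h => ⟨h, Or.inr (cover p h)⟩⟩
    rw [hD] at i0 i1
    refine ⟨χ, i0, fun B hB c => le_trans (card_le_card ?_) (i1 B hB c)⟩
    intro p hp
    rw [mem_filter] at hp ⊢
    exact ⟨sub B hB hp.1, hp.1, hp.2⟩

end Pool.Agent.H79.GPos
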