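import Mathlib

/-!
# General-position partitions of point sets covered by few lines: definitions
-/

namespace Pool.Agent.H79.GPos

/-- `ℓ` is a straight line of the Euclidean plane. -/
def IsLine (ℓ : Set (ℝ × ℝ)) : Prop :=
  ∃ a b c : ℝ, (a ≠ 0 ∨ b ≠ 0) ∧ ℓ = {p | a * p.1 + b * p.2 = c}

/-- `ONLINE(S)`: the largest number of points of `S` on one line. -/
noncomputable def online (S : Finset (ℝ × ℝ)) : ℕ :=
  sSup {n | ∃ ℓ, IsLine ℓ ∧ ((S : Set (ℝ × ℝ)) ∩ ℓ).ncard = n}

/-- `LC(S)`: the least number of lines whose union contains `S`. -/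
noncomputable def lc (S : Finset (ℝ × ℝ)) : ℕ :=
  sInf {n | ∃ L : Finset (Set (ℝ × ℝ)), (∀ ℓ ∈ L, IsLine ℓ) ∧ (∀ p ∈ S, ∃ ℓ ∈ L, p ∈ ℓ) ∧
    L.card = n}

/-- `A` is in general position: no line contains more than two points of `A`. -/
def GenPos (A : Finset (ℝ × ℝ)) : Prop :=
  ∀ ℓ, IsLine ℓ → ((A : Set (ℝ × ℝ)) ∩ ℓ).ncard ≤ 2

/-- `GP(S)`: the least number of parts in a partition of `S` into sets in general position. -/
noncomputable def gp (S : Finset (ℝ × ℝ)) : ℕ :=
  sInf {n | ∃ P : Finpartition S, (∀ A ∈ P.parts, GenPos A) ∧ P.parts.card = n}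

/-- Every configuration that is covered by `k` lines and has at least `n` points satisfies
`GP(S) = ⌈ONLINE(S) / 2⌉`. -/
def Good (k n : ℕ) : Prop :=
  ∀ S : Finset (ℝ × ℝ), lc S ≤ k → n ≤ S.card → gp S = (online S + 1) / 2

/-- `N(k)`: the least `n` with this property. -/
noncomputable def N (k : ℕ) : ℕ := sInf {n | Good k n}

end Pool.Agent.H79.GPos
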