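import Pool.Agent.H79.GPDefs
import Pool.Agent.H79.GPCore

/-!
# Lines in the plane; the upper bound for `N(k)`
-/

namespace Pool.Agent.H79.GPos

open Finset

open Classical

/-- The points of `S` on `ℓ`. -/
noncomputable def tr (S : Finset (ℝ × ℝ)) (ℓ : Set (ℝ × ℝ)) : Finset (ℝ × ℝ) := {p ∈ S | p ∈ ℓ}

theorem ncard_tr (S : Finset (ℝ × ℝ)) (ℓ : Set (ℝ × ℝ)) :
    ((S : Set (ℝ × ℝ)) ∩ ℓ).ncard = #(tr S ℓ) := by
  rw [← Set.ncard_coe_finset]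
  congr 1
  ext p
  simp [tr]

theorem mem_tr {S : Finset (ℝ × ℝ)} {ℓ : Set (ℝ × ℝ)} {p : ℝ × ℝ} :
    p ∈ tr S ℓ ↔ p ∈ S ∧ p ∈ ℓ := by simp [tr]

/-- A line is determined by two of its points. -/
theorem mem_line_iff {ℓ : Set (ℝ × ℝ)} (hℓ : IsLine ℓ) {p q : ℝ × ℝ} (hpq : p ≠ q) (hp : p ∈ ℓ)
    (hq : q ∈ ℓ) (r : ℝ × ℝ) :
    r ∈ ℓ ↔ (q.1 - p.1) * (r.2 - p.2) = (r.1 - p.1) * (q.2 - p.2) := by
  obtain ⟨a, b, c, hab, rfl⟩ := hℓ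
  simp only [Set.mem_ofPred_eq] at hp hq ⊢
  have hd : a * (q.1 - p.1) + b * (q.2 - p.2) = 0 := by linarith
  constructor
  · intro hr
    have he : a * (r.1 - p.1) + b * (r.2 - p.2) = 0 := by linarith
    rcases hab with ha | hb
    · apply mul_left_cancel₀ ha
      linear_combination (r.2 - p.2) * hd - (q.2 - p.2) * he
    · apply mul_left_cancel₀ hb
      linear_combination (q.1 - p.1) * he - (r.1 - p.1) * hd
  · intro h
    suffices he : a * (r.1 - p.1) + b * (r.2 - p.2) = 0 by linarith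
    by_cases hx : q.1 - p.1 = 0
    · have hy : q.2 - p.2 ≠ 0 := by
        intro hy
        exact hpq (Prod.ext (by linarith) (by linarith))
      apply mul_left_cancel₀ hy
      rw [hx] at h hd
      have h1 : (r.1 - p.1) = 0 := by
        have : (r.1 - p.1) * (q.2 - p.2) = 0 := by linarith
        exact (mul_eq_zero.mp this).resolve_right hy
      have h2 : b = 0 := by
        have : b * (q.2 - p.2) = 0 := by linarith
        exact (mul_eq_zero.mp this).resolve_right hy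
      rw [h1, h2]; ring
    · apply mul_left_cancel₀ hx
      linear_combination (r.1 - p.1) * hd + b * h

theorem line_eq {ℓ ℓ' : Set (ℝ × ℝ)} (hℓ : IsLine ℓ) (hℓ' : IsLine ℓ') {p q : ℝ × ℝ}
    (hpq : p ≠ q) (h1 : p ∈ ℓ) (h2 : q ∈ ℓ) (h3 : p ∈ ℓ') (h4 : q ∈ ℓ') : ℓ = ℓ' := by
  ext r
  rw [mem_line_iff hℓ hpq h1 h2, mem_line_iff hℓ' hpq h3 h4]

theorem exists_line (p q : ℝ × ℝ) (hpq : p ≠ q) : ∃ ℓ, IsLine ℓ ∧ p ∈ ℓ ∧ q ∈ ℓ := by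
  refine ⟨{r | (q.2 - p.2) * r.1 + (p.1 - q.1) * r.2 =
    (q.2 - p.2) * p.1 + (p.1 - q.1) * p.2}, ⟨_, _, _, ?_, rfl⟩, rfl, ?_⟩
  · by_contra hcon
    push Not at hcon
    exact hpq (Prod.ext (by linarith [hcon.2]) (by linarith [hcon.1]))
  · simp only [Set.mem_ofPred_eq]; ring

theorem exists_line_one (p : ℝ × ℝ) : ∃ ℓ, IsLine ℓ ∧ p ∈ ℓ :=
  ⟨{r | (1 : ℝ) * r.1 + 0 * r.2 = p.1}, ⟨1, 0, p.1, by simp, rfl⟩, by simp⟩

/-- The blocks. -/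
def blocks (S : Finset (ℝ × ℝ)) : Set (Finset (ℝ × ℝ)) := {B | ∃ ℓ, IsLine ℓ ∧ B = tr S ℓ}

theorem blocks_inter (S : Finset (ℝ × ℝ)) {B B' : Finset (ℝ × ℝ)} (hB : B ∈ blocks S)
    (hB' : B' ∈ blocks S) (hne : B ≠ B') {p q : ℝ × ℝ} (hp : p ∈ B ∧ p ∈ B')
    (hq : q ∈ B ∧ q ∈ B') : p = q := by
  obtain ⟨ℓ, hℓ, rfl⟩ := hB
  obtain ⟨ℓ', hℓ', rfl⟩ := hB'
  by_contra hpq
  rw [mem_tr, mem_tr] at hp hq
  exact hne (by rw [line_eq hℓ hℓ' hpq hp.1.2 hq.1.2 hp.2.2 hq.2.2])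

/-! ### `online`, `lc`, `gp` -/

theorem online_bdd (S : Finset (ℝ × ℝ)) :
    BddAbove {n | ∃ ℓ, IsLine ℓ ∧ ((S : Set (ℝ × ℝ)) ∩ ℓ).ncard = n} := by
  refine ⟨#S, ?_⟩
  rintro n ⟨ℓ, -, rfl⟩
  rw [ncard_tr]
  exact card_le_card (filter_subset _ _)

theorem tr_le_online {S : Finset (ℝ × ℝ)} {ℓ : Set (ℝ × ℝ)} (hℓ : IsLine ℓ) :
    #(tr S ℓ) ≤ online S :=
  le_csSup (online_bdd S) ⟨ℓ, hℓ, ncard_tr S ℓ⟩

theorem exists_online (S : Finset (ℝ × ℝ)) : ∃ ℓ, IsLine ℓ ∧ #(tr S ℓ) = online S := by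
  obtain ⟨ℓ₀, h₀, -⟩ := exists_line_one (0, 0)
  obtain ⟨ℓ, h1, h2⟩ := Nat.sSup_mem (s := {n | ∃ ℓ, IsLine ℓ ∧
    ((S : Set (ℝ × ℝ)) ∩ ℓ).ncard = n}) ⟨_, ℓ₀, h₀, rfl⟩ (online_bdd S)
  exact ⟨ℓ, h1, by rw [← ncard_tr]; exact h2⟩

theorem online_le {S : Finset (ℝ × ℝ)} {m : ℕ} (h : ∀ ℓ, IsLine ℓ → #(tr S ℓ) ≤ m) :
    online S ≤ m := by
  obtain ⟨ℓ, h1, h2⟩ := exists_online S
  rw [← h2]; exact h ℓ h1

theorem exists_lc (S : Finset (ℝ × ℝ)) : ∃ L : Finset (Set (ℝ × ℝ)), (∀ ℓ ∈ L, IsLine ℓ) ∧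
    (∀ p ∈ S, ∃ ℓ ∈ L, p ∈ ℓ) ∧ #L = lc S := by
  have hne : {n | ∃ L : Finset (Set (ℝ × ℝ)), (∀ ℓ ∈ L, IsLine ℓ) ∧ (∀ p ∈ S, ∃ ℓ ∈ L, p ∈ ℓ) ∧
      L.card = n}.Nonempty := by
    choose f hf using exists_line_one
    refine ⟨_, S.image f, ?_, ?_, rfl⟩
    · intro ℓ hℓ
      rw [mem_image] at hℓ
      obtain ⟨p, -, rfl⟩ := hℓ
      exact (hf p).1
    · intro p hp
      exact ⟨f p, mem_image_of_mem _ hp, (hf p).2⟩
  exact Nat.sInf_mem hne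

theorem lc_le {S : Finset (ℝ × ℝ)} {L : Finset (Set (ℝ × ℝ))} (h1 : ∀ ℓ ∈ L, IsLine ℓ)
    (h2 : ∀ p ∈ S, ∃ ℓ ∈ L, p ∈ ℓ) : lc S ≤ #L :=
  Nat.sInf_le ⟨L, h1, h2, rfl⟩

/-- Partitions from colourings. -/
theorem gp_le_of_colouring {S : Finset (ℝ × ℝ)} {g : ℕ} (χ : ℝ × ℝ → ℕ)
    (h1 : ∀ p ∈ S, χ p < g) (h2 : ∀ c, GenPos {p ∈ S | χ p = c}) : gp S ≤ g := by
  let parts : Finset (Finset (ℝ × ℝ)) :=
    ((range g).image (fun c => {p ∈ S | χ p = c})).erase ∅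
  have hP : ∀ A ∈ parts, ∃ c, A = {p ∈ S | χ p = c} := by
    intro A hA
    rw [mem_erase, mem_image] at hA
    obtain ⟨-, c, -, rfl⟩ := hA
    exact ⟨c, rfl⟩
  let Q : Finpartition S := Finpartition.ofExistsUnique parts
    (by
      intro A hA
      obtain ⟨c, rfl⟩ := hP A hA
      exact filter_subset _ _)
    (by
      intro p hp
      refine ⟨{q ∈ S | χ q = χ p}, ⟨?_, ?_⟩, ?_⟩
      · rw [mem_erase, mem_image]
        refine ⟨?_, χ p, mem_range.mpr (h1 p hp), rfl⟩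
        rw [← nonempty_iff_ne_empty]
        exact ⟨p, mem_filter.mpr ⟨hp, rfl⟩⟩
      · exact mem_filter.mpr ⟨hp, rfl⟩
      · rintro A ⟨hA, hpA⟩
        obtain ⟨c, rfl⟩ := hP A hA
        rw [mem_filter] at hpA
        rw [hpA.2])
    (by simp [parts])
  have hQ : gp S ≤ #Q.parts := by
    refine Nat.sInf_le ⟨Q, ?_, rfl⟩
    intro A hA
    obtain ⟨c, rfl⟩ := hP A hA
    exact h2 c
  refine hQ.trans ?_
  have : parts.card ≤ g := (card_erase_le).trans (card_image_le.trans (by rw [card_range]))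
  exact this

theorem exists_gp (S : Finset (ℝ × ℝ)) : ∃ P : Finpartition S, (∀ A ∈ P.parts, GenPos A) ∧
    #P.parts = gp S := by
  have hne : {n | ∃ P : Finpartition S, (∀ A ∈ P.parts, GenPos A) ∧
      P.parts.card = n}.Nonempty := by
    refine ⟨_, ⊥, ?_, rfl⟩
    intro A hA ℓ _
    rw [Finpartition.mem_bot_iff] at hA
    obtain ⟨p, -, rfl⟩ := hA
    rw [ncard_tr]
    refine (card_le_card (filter_subset _ _)).trans ?_
    simp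
  exact Nat.sInf_mem hne

theorem tr_le_two_mul {S : Finset (ℝ × ℝ)} (P : Finpartition S) (hP : ∀ A ∈ P.parts, GenPos A)
    {ℓ : Set (ℝ × ℝ)} (hℓ : IsLine ℓ) : #(tr S ℓ) ≤ 2 * #P.parts := by
  have hsub : tr S ℓ ⊆ P.parts.biUnion (fun A => tr A ℓ) := by
    intro p hp
    rw [mem_tr] at hp
    obtain ⟨A, hA, hpA⟩ := P.exists_mem hp.1
    rw [mem_biUnion]
    exact ⟨A, hA, mem_tr.mpr ⟨hpA, hp.2⟩⟩
  refine (card_le_card hsub).trans (card_biUnion_le.trans ?_)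
  calc ∑ A ∈ P.parts, #(tr A ℓ) ≤ ∑ A ∈ P.parts, 2 :=
        sum_le_sum fun A hA => by rw [← ncard_tr]; exact hP A hA ℓ hℓ
    _ = 2 * #P.parts := by rw [sum_const, smul_eq_mul, mul_comm]

theorem half_online_le_gp (S : Finset (ℝ × ℝ)) : (online S + 1) / 2 ≤ gp S := by
  obtain ⟨P, hP, hPc⟩ := exists_gp S
  obtain ⟨ℓ, hℓ, hc⟩ := exists_online S
  have := tr_le_two_mul P hP hℓ
  omega

/-- The main upper bound: if `S` is covered by `K` lines and `ONLINE(S) ≥ 4000 K²` then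
`GP(S) = ⌈ONLINE(S) / 2⌉`. -/
theorem gp_eq_of_cover {S : Finset (ℝ × ℝ)} {L : Finset (Set (ℝ × ℝ))}
    (h1 : ∀ ℓ ∈ L, IsLine ℓ) (h2 : ∀ p ∈ S, ∃ ℓ ∈ L, p ∈ ℓ)
    (h3 : 4000 * #L ^ 2 ≤ online S) : gp S = (online S + 1) / 2 := by
  refine le_antisymm ?_ (half_online_le_gp S)
  have hcard : #(L.image (tr S)) ≤ #L := card_image_le
  obtain ⟨χ, c1, c2⟩ := exists_colouring (S := S) (𝓑 := blocks S) (𝓒 := L.image (tr S))
    (g := (online S + 1) / 2)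
    (by rintro B ⟨ℓ, -, rfl⟩; exact filter_subset _ _)
    (fun B hB B' hB' hne p q hp hq => blocks_inter S hB hB' hne hp hq)
    (by
      intro C hC
      rw [mem_image] at hC
      obtain ⟨ℓ, hℓ, rfl⟩ := hC
      exact ⟨ℓ, h1 ℓ hℓ, rfl⟩)
    (by
      intro p hp
      obtain ⟨ℓ, hℓ, hpℓ⟩ := h2 p hp
      exact ⟨tr S ℓ, mem_image_of_mem _ hℓ, mem_tr.mpr ⟨hp, hpℓ⟩⟩)
    (by
      intro C hC
      rw [mem_image] at hC
      obtain ⟨ℓ, hℓ, rfl⟩ := hC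
      have := tr_le_online (S := S) (h1 ℓ hℓ)
      omega)
    (by
      have : #(L.image (tr S)) ^ 2 ≤ #L ^ 2 := Nat.pow_le_pow_left hcard 2
      omega)
  refine gp_le_of_colouring χ c1 fun c ℓ hℓ => ?_
  rw [ncard_tr]
  refine le_trans (card_le_card ?_) (c2 (tr S ℓ) ⟨ℓ, hℓ, rfl⟩ c)
  intro p hp
  rw [mem_tr, mem_filter] at hp
  rw [mem_filter, mem_tr]
  exact ⟨⟨hp.1.1, hp.2⟩, hp.1.2⟩

theorem card_le_mul_online {S : Finset (ℝ × ℝ)} {L : Finset (Set (ℝ × ℝ))}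
    (h1 : ∀ ℓ ∈ L, IsLine ℓ) (h2 : ∀ p ∈ S, ∃ ℓ ∈ L, p ∈ ℓ) : #S ≤ #L * online S := by
  have hsub : S ⊆ L.biUnion (fun ℓ => tr S ℓ) := by
    intro p hp
    obtain ⟨ℓ, hℓ, hpℓ⟩ := h2 p hp
    rw [mem_biUnion]
    exact ⟨ℓ, hℓ, mem_tr.mpr ⟨hp, hpℓ⟩⟩
  refine (card_le_card hsub).trans (card_biUnion_le.trans ?_)
  calc ∑ ℓ ∈ L, #(tr S ℓ) ≤ ∑ ℓ ∈ L, online S :=
        sum_le_sum fun ℓ hℓ => tr_le_online (h1 ℓ hℓ)
    _ = #L * online S := by rw [sum_const, smul_eq_mul]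

theorem good_upper (k : ℕ) : Good k (4000 * k ^ 3) := by
  intro S hS hc
  obtain ⟨L, h1, h2, h3⟩ := exists_lc S
  have hLk : #L ≤ k := by omega
  apply gp_eq_of_cover h1 h2
  rcases Nat.eq_zero_or_pos k with rfl | hk
  · have : #L = 0 := by omega
    rw [this]; simp
  have h4 := card_le_mul_online h1 h2
  have h5 : k * (4000 * k ^ 2) ≤ k * online S :=
    calc k * (4000 * k ^ 2) = 4000 * k ^ 3 := by ring
      _ ≤ #S := hc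
      _ ≤ #L * online S := h4
      _ ≤ k * online S := Nat.mul_le_mul_right _ hLk
  have h6 := Nat.le_of_mul_le_mul_left h5 hk
  have h7 : #L ^ 2 ≤ k ^ 2 := Nat.pow_le_pow_left hLk 2
  omega

theorem good_mono {k n n' : ℕ} (h : Good k n) (hn : n ≤ n') : Good k n' :=
  fun S h1 h2 => h S h1 (hn.trans h2)

theorem good_N (k : ℕ) : Good k (N k) := by
  have : sInf {n | Good k n} ∈ {n | Good k n} := Nat.sInf_mem ⟨_, good_upper k⟩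
  exact this

theorem N_le (k : ℕ) : N k ≤ 4000 * k ^ 3 := Nat.sInf_le (good_upper k)

theorem lt_N {k n : ℕ} (h : ¬ Good k n) : n < N k := by
  by_contra hcon
  exact h (good_mono (good_N k) (not_lt.mp hcon))

end Pool.Agent.H79.GPos
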