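import Pool.Agent.H79.GPAlg

/-!
# Correctness of the kernelisation
-/

namespace Pool.Agent.H79.GPos

open Pool.Agent.PPS Finset

open Classical

theorem cst_inj : Function.Injective cst := by
  rintro ⟨a, b⟩ ⟨a', b'⟩ h
  simp only [cst, Prod.mk.injEq, Rat.cast_inj] at h
  rw [h.1, h.2]

theorem encQ_inj : Function.Injective encQ := by
  intro x y h
  simp only [encQ, List.cons.injEq, and_true] at h
  obtain ⟨h1, h2, h3⟩ := h
  have h2' := congrArg PPS.val h2
  have h3' := congrArg PPS.val h3
  rw [val_natBits, val_natBits] at h2' h3'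
  have hs : x.num < 0 ↔ y.num < 0 := by simpa using h1
  apply Rat.ext _ h3'
  by_cases h : x.num < 0
  · have := hs.mp h; omega
  · have : ¬ y.num < 0 := fun h' => h (hs.mpr h'); omega

theorem encP_inj : Function.Injective encP := by
  rintro ⟨a, b⟩ ⟨a', b'⟩ h
  unfold encP at h
  have := List.append_inj h (by simp [encQ])
  exact Prod.ext (encQ_inj this.1) (encQ_inj this.2)

theorem mem_config {L : List (ℚ × ℚ)} {x : ℝ × ℝ} : x ∈ config L ↔ ∃ p ∈ L, cst p = x := by
  simp [config]

theorem cst_mem_config {L : List (ℚ × ℚ)} {p : ℚ × ℚ} : cst p ∈ config L ↔ p ∈ L := by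
  rw [mem_config]
  constructor
  · rintro ⟨q, hq, h⟩; rwa [← cst_inj h]
  · intro h; exact ⟨p, h, rfl⟩

theorem card_config {L : List (ℚ × ℚ)} (hL : L.Nodup) : #(config L) = L.length := by
  unfold config
  rw [List.toFinset_card_of_nodup (hL.map cst_inj), List.length_map]

/-- The number of listed points on a line. -/
theorem length_filter_line {L : List (ℚ × ℚ)} (hL : L.Nodup) (ℓ : Set (ℝ × ℝ)) :
    (L.filter fun r => decide (cst r ∈ ℓ)).length = #(tr (config L) ℓ) := by
  rw [← List.length_map (f := cst), ← List.toFinset_card_of_nodup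
    ((hL.filter _).map cst_inj)]
  congr 1
  ext x
  simp only [List.mem_toFinset, List.mem_map, List.mem_filter, decide_eq_true_eq, mem_tr,
    mem_config]
  constructor
  · rintro ⟨r, ⟨hr, h⟩, rfl⟩; exact ⟨⟨r, hr, rfl⟩, h⟩
  · rintro ⟨⟨r, hr, rfl⟩, h⟩; exact ⟨r, ⟨hr, h⟩, rfl⟩

theorem colB_line {ℓ : Set (ℝ × ℝ)} (hℓ : IsLine ℓ) {p q : ℚ × ℚ} (hpq : p ≠ q)
    (hp : cst p ∈ ℓ) (hq : cst q ∈ ℓ) (r : ℚ × ℚ) :
    colB (encP p) (encP q) (encP r) = decide (cst r ∈ ℓ) := by
  rw [Bool.eq_iff_iff, colB_iff, decide_eq_true_eq,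
    mem_line_iff hℓ (fun h => hpq (cst_inj h)) hp hq]

theorem cnt_line {L : List (ℚ × ℚ)} (hL : L.Nodup) {ℓ : Set (ℝ × ℝ)} (hℓ : IsLine ℓ)
    {p q : ℚ × ℚ} (hpq : p ≠ q) (hp : cst p ∈ ℓ) (hq : cst q ∈ ℓ) :
    cnt (L.map encP) (encP p) (encP q) = #(tr (config L) ℓ) := by
  unfold cnt
  rw [decide_eq_false (fun h => hpq (encP_inj h)), cond_false, List.filter_map,
    List.length_map, ← length_filter_line hL]
  congr 1
  apply List.filter_congr
  intro r _
  exact colB_line hℓ hpq hp hq r

theorem foldr_mx_le {l : List ℕ} {B : ℕ} (h : ∀ x ∈ l, x ≤ B) : l.foldr mx 0 ≤ B := by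
  induction l with
  | nil => simp
  | cons a l ih =>
    rw [List.foldr_cons, mx_eq]
    exact max_le (h a (by simp)) (ih fun x hx => h x (by simp [hx]))

theorem le_foldr_mx {l : List ℕ} {x : ℕ} (h : x ∈ l) : x ≤ l.foldr mx 0 := by
  induction l with
  | nil => simp at h
  | cons a l ih =>
    rw [List.foldr_cons, mx_eq]
    rcases List.mem_cons.mp h with rfl | h
    · exact le_max_left _ _
    · exact (ih h).trans (le_max_right _ _)

theorem onl_spec {L : List (ℚ × ℚ)} (hL : L.Nodup) : onl (L.map encP) = online (config L) := by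
  apply le_antisymm
  · apply foldr_mx_le
    intro x hx
    simp only [List.mem_flatMap, List.mem_map] at hx
    obtain ⟨_, ⟨p, hp, rfl⟩, _, ⟨q, hq, rfl⟩, rfl⟩ := hx
    by_cases hpq : p = q
    · subst hpq
      unfold cnt
      rw [decide_eq_true rfl, cond_true]
      obtain ⟨ℓ, hℓ, hpℓ⟩ := exists_line_one (cst p)
      refine le_trans ?_ (tr_le_online hℓ)
      exact card_pos.mpr ⟨cst p, mem_tr.mpr ⟨cst_mem_config.mpr hp, hpℓ⟩⟩
    · obtain ⟨ℓ, hℓ, h1, h2⟩ := exists_line (cst p) (cst q) (fun h => hpq (cst_inj h))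
      rw [cnt_line hL hℓ hpq h1 h2]
      exact tr_le_online hℓ
  · obtain ⟨ℓ, hℓ, hc⟩ := exists_online (config L)
    rw [← hc]
    have hmem : ∀ p ∈ L, ∀ q ∈ L, cnt (L.map encP) (encP p) (encP q) ∈
        ((L.map encP).flatMap fun p => (L.map encP).map fun q => cnt (L.map encP) p q) := by
      intro p hp q hq
      simp only [List.mem_flatMap, List.mem_map]
      exact ⟨_, ⟨p, hp, rfl⟩, _, ⟨q, hq, rfl⟩, rfl⟩
    rcases Nat.lt_or_ge 1 #(tr (config L) ℓ) with h1 | h1
    · obtain ⟨x, hx, y, hy, hne⟩ := one_lt_card.mp h1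
      rw [mem_tr, mem_config] at hx hy
      obtain ⟨⟨p, hp, rfl⟩, hpℓ⟩ := hx
      obtain ⟨⟨q, hq, rfl⟩, hqℓ⟩ := hy
      rw [← cnt_line hL hℓ (fun h => hne (by rw [h])) hpℓ hqℓ]
      exact le_foldr_mx (hmem p hp q hq)
    · rcases Nat.eq_zero_or_pos #(tr (config L) ℓ) with h0 | h0
      · rw [h0]; exact Nat.zero_le _
      · obtain ⟨x, hx⟩ := card_pos.mp h0
        rw [mem_tr, mem_config] at hx
        obtain ⟨⟨p, hp, rfl⟩, hpℓ⟩ := hx
        have h2 := le_foldr_mx (hmem p hp p hp)
        have h3 : cnt (L.map encP) (encP p) (encP p) = 1 := by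
          unfold cnt
          rw [decide_eq_true rfl, cond_true]
        rw [h3] at h2
        exact h1.trans h2

/-! ### The greedy subset -/

theorem ok_spec {Q : List (ℚ × ℚ)} {p : ℚ × ℚ} : ok (encP p) (Q.map encP) = true ↔
    ∀ a ∈ Q, ∀ b ∈ Q, a ≠ b → ∀ ℓ, IsLine ℓ → cst a ∈ ℓ → cst b ∈ ℓ → cst p ∉ ℓ := by
  unfold ok
  simp only [List.all_eq_true, List.mem_map, forall_exists_index, and_imp,
    forall_apply_eq_imp_iff₂, Bool.or_eq_true, decide_eq_true_eq, Bool.not_eq_true']
  constructor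
  · intro h a ha b hb hab ℓ hℓ h1 h2
    rcases h a ha b hb with h3 | h3
    · exact absurd (encP_inj h3) hab
    · rw [colB_line hℓ hab h1 h2] at h3
      simpa using h3
  · intro h a ha b hb
    by_cases hab : a = b
    · left; rw [hab]
    · right
      obtain ⟨ℓ, hℓ, h1, h2⟩ := exists_line (cst a) (cst b) (fun h => hab (cst_inj h))
      rw [colB_line hℓ hab h1 h2]
      simpa using h a ha b hb hab ℓ hℓ h1 h2

theorem config_cons (p : ℚ × ℚ) (Q : List (ℚ × ℚ)) :
    config (p :: Q) = insert (cst p) (config Q) := by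
  ext x
  simp only [mem_config, mem_insert, List.mem_cons, exists_eq_or_imp]
  constructor
  · rintro (h | h)
    · exact Or.inl h.symm
    · exact Or.inr h
  · rintro (h | h)
    · exact Or.inl h.symm
    · exact Or.inr h

theorem grd_spec {L : List (ℚ × ℚ)} (hL : L.Nodup) : ∃ Q : List (ℚ × ℚ),
    grd (L.map encP) = Q.map encP ∧ Q.Sublist L ∧ GenPos (config Q) ∧
    ∀ p ∈ L, p ∈ Q ∨ ∃ a ∈ Q, ∃ b ∈ Q, a ≠ b ∧ ∃ ℓ, IsLine ℓ ∧ cst a ∈ ℓ ∧ cst b ∈ ℓ ∧
      cst p ∈ ℓ := by
  induction L with
  | nil =>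
    refine ⟨[], rfl, List.Sublist.refl _, ?_, by simp⟩
    intro ℓ _
    simp [config]
  | cons p L ih =>
    obtain ⟨Q, h1, h2, h3, h4⟩ := ih hL.of_cons
    have hg : grd ((p :: L).map encP) = bif ok (encP p) (Q.map encP) then
        encP p :: Q.map encP else Q.map encP := by
      rw [List.map_cons, grd, List.foldr_cons]
      change (bif ok (encP p) (grd (L.map encP)) then encP p :: grd (L.map encP)
        else grd (L.map encP)) = _
      rw [h1]
    by_cases hok : ok (encP p) (Q.map encP) = true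
    · rw [hok, cond_true] at hg
      refine ⟨p :: Q, hg, h2.cons_cons p, ?_, ?_⟩
      · intro ℓ hℓ
        rw [ncard_tr]
        by_cases hp : cst p ∈ ℓ
        · by_contra hcon
          push Not at hcon
          have hp' : cst p ∈ tr (config (p :: Q)) ℓ :=
            mem_tr.mpr ⟨cst_mem_config.mpr (by simp), hp⟩
          have h5 : 1 < #((tr (config (p :: Q)) ℓ).erase (cst p)) := by
            rw [card_erase_of_mem hp']; omega
          obtain ⟨x, hx, y, hy, hne⟩ := one_lt_card.mp h5
          rw [mem_erase, mem_tr, config_cons, mem_insert] at hx hy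
          obtain ⟨a, ha, rfl⟩ := mem_config.mp (hx.2.1.resolve_left hx.1)
          obtain ⟨b, hb, rfl⟩ := mem_config.mp (hy.2.1.resolve_left hy.1)
          exact (ok_spec.mp hok) a ha b hb (fun h => hne (by rw [h])) ℓ hℓ hx.2.2 hy.2.2 hp
        · have : tr (config (p :: Q)) ℓ = tr (config Q) ℓ := by
            ext x
            rw [mem_tr, mem_tr, config_cons, mem_insert]
            constructor
            · rintro ⟨rfl | h, h'⟩
              · exact absurd h' hp
              · exact ⟨h, h'⟩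
            · rintro ⟨h, h'⟩; exact ⟨Or.inr h, h'⟩
          rw [this, ← ncard_tr]
          exact h3 ℓ hℓ
      · intro r hr
        rcases List.mem_cons.mp hr with rfl | hr
        · left; simp
        · rcases h4 r hr with h5 | ⟨a, ha, b, hb, h5⟩
          · left; exact List.mem_cons_of_mem _ h5
          · right; exact ⟨a, List.mem_cons_of_mem _ ha, b, List.mem_cons_of_mem _ hb, h5⟩
    · rw [Bool.not_eq_true] at hok
      rw [hok, cond_false] at hg
      refine ⟨Q, hg, h2.cons p, h3, ?_⟩
      intro r hr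
      rcases List.mem_cons.mp hr with rfl | hr
      · right
        by_contra hcon
        apply (Bool.not_eq_true _).mpr hok
        rw [ok_spec]
        intro a ha b hb hab ℓ hℓ h5 h6 h7
        exact hcon ⟨a, ha, b, hb, hab, ℓ, hℓ, h5, h6, h7⟩
      · exact h4 r hr

/-- The greedy subset gives a lower bound for `LC` ... -/
theorem grd_le {L : List (ℚ × ℚ)} (hL : L.Nodup) :
    (grd (L.map encP)).length ≤ 2 * lc (config L) := by
  obtain ⟨Q, h1, h2, h3, -⟩ := grd_spec hL
  obtain ⟨Ln, l1, l2, l3⟩ := exists_lc (config L)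
  rw [h1, List.length_map, ← card_config (h2.nodup hL), ← l3]
  have hsub : config Q ⊆ Ln.biUnion (fun ℓ => tr (config Q) ℓ) := by
    intro x hx
    obtain ⟨p, hp, rfl⟩ := mem_config.mp hx
    obtain ⟨ℓ, hℓ, hpℓ⟩ := l2 _ (cst_mem_config.mpr (h2.subset hp))
    rw [mem_biUnion]
    exact ⟨ℓ, hℓ, mem_tr.mpr ⟨hx, hpℓ⟩⟩
  refine (card_le_card hsub).trans (card_biUnion_le.trans ?_)
  calc ∑ ℓ ∈ Ln, #(tr (config Q) ℓ) ≤ ∑ ℓ ∈ Ln, 2 :=
        sum_le_sum fun ℓ hℓ => by rw [← ncard_tr]; exact h3 ℓ (l1 ℓ hℓ)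
    _ = 2 * #Ln := by rw [sum_const, smul_eq_mul, mul_comm]

/-- ... and an upper bound. -/
theorem grd_cover {L : List (ℚ × ℚ)} (hL : L.Nodup) : ∃ Ln : Finset (Set (ℝ × ℝ)),
    (∀ ℓ ∈ Ln, IsLine ℓ) ∧ (∀ p ∈ config L, ∃ ℓ ∈ Ln, p ∈ ℓ) ∧
    #Ln ≤ (grd (L.map encP)).length * (grd (L.map encP)).length := by
  obtain ⟨Q, h1, h2, h3, h4⟩ := grd_spec hL
  have hQL : ∀ p ∈ Q, p ∈ L := fun p hp => h2.subset hp
  rw [h1, List.length_map]
  have hQc := card_config (h2.nodup hL)
  by_cases hQ : 1 < Q.length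
  · -- lines through two points of `Q`
    have hex : ∀ z : (ℝ × ℝ) × (ℝ × ℝ), ∃ ℓ, IsLine ℓ ∧ (z.1 ≠ z.2 → z.1 ∈ ℓ ∧ z.2 ∈ ℓ) := by
      intro z
      by_cases hz : z.1 = z.2
      · obtain ⟨ℓ, hℓ, -⟩ := exists_line_one (0, 0)
        exact ⟨ℓ, hℓ, fun h => absurd hz h⟩
      · obtain ⟨ℓ, hℓ, h5, h6⟩ := exists_line z.1 z.2 hz
        exact ⟨ℓ, hℓ, fun _ => ⟨h5, h6⟩⟩
    choose F hF1 hF2 using hex
    refine ⟨(config Q ×ˢ config Q).image F, ?_, ?_, ?_⟩
    · intro ℓ hℓ
      rw [mem_image] at hℓ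
      obtain ⟨z, -, rfl⟩ := hℓ
      exact hF1 z
    · intro x hx
      obtain ⟨p, hp, rfl⟩ := mem_config.mp hx
      rcases h4 p hp with h5 | ⟨a, ha, b, hb, hab, ℓ, hℓ, haℓ, hbℓ, hpℓ⟩
      · -- another point of `Q`
        have h6 : 1 < #(config Q) := by rw [hQc]; exact hQ
        obtain ⟨y, hy, hne⟩ := exists_mem_ne h6 (cst p)
        refine ⟨F (cst p, y), mem_image_of_mem _ (mem_product.mpr
          ⟨cst_mem_config.mpr h5, hy⟩), ?_⟩
        exact (hF2 (cst p, y) hne.symm).1
      · have hne : cst a ≠ cst b := fun h => hab (cst_inj h)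
        refine ⟨F (cst a, cst b), mem_image_of_mem _ (mem_product.mpr
          ⟨cst_mem_config.mpr ha, cst_mem_config.mpr hb⟩), ?_⟩
        have h7 := hF2 (cst a, cst b) hne
        rw [line_eq (hF1 (cst a, cst b)) hℓ hne h7.1 h7.2 haℓ hbℓ]
        exact hpℓ
    · refine card_image_le.trans ?_
      rw [card_product, hQc]
  · -- at most one point
    have hLQ : ∀ p ∈ L, p ∈ Q := by
      intro p hp
      rcases h4 p hp with h5 | ⟨a, ha, b, hb, hab, -⟩
      · exact h5
      · exfalso
        have h6 : #({cst a, cst b} : Finset (ℝ × ℝ)) ≤ #(config Q) := by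
          apply card_le_card
          intro x hx
          rw [mem_insert, mem_singleton] at hx
          rcases hx with rfl | rfl
          · exact cst_mem_config.mpr ha
          · exact cst_mem_config.mpr hb
        rw [card_pair (fun h => hab (cst_inj h)), hQc] at h6
        omega
    choose F hF1 hF2 using exists_line_one
    refine ⟨(config Q).image F, ?_, ?_, ?_⟩
    · intro ℓ hℓ
      rw [mem_image] at hℓ
      obtain ⟨z, -, rfl⟩ := hℓ
      exact hF1 z
    · intro x hx
      obtain ⟨p, hp, rfl⟩ := mem_config.mp hx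
      exact ⟨F (cst p), mem_image_of_mem _ (cst_mem_config.mpr (hLQ p hp)), hF2 _⟩
    · refine card_image_le.trans ?_
      rw [hQc]
      have : Q.length ≤ 1 := by omega
      interval_cases Q.length <;> simp

theorem cap_eq (G : List Bool) (n : ℕ) : cap G n = min n (PPS.val G) := by
  unfold cap
  induction G with
  | nil => simp [PPS.val]
  | cons b G ih =>
    rw [List.foldr_cons, ih]
    have hmn : ∀ a b : ℕ, Bar.mn a b = min a b := by
      intro a b
      unfold Bar.mn
      by_cases h : a ≤ b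
      · rw [min_eq_left h]; simp [h]
      · rw [min_eq_right (by omega)]; simp [h]
    rw [hmn]
    simp only [PPS.val]
    cases b <;> simp <;> omega

/-! ### Extreme instances -/

theorem gp_le_card (S : Finset (ℝ × ℝ)) : gp S ≤ #S := by
  refine Nat.sInf_le ⟨⊥, ?_, Finpartition.card_bot S⟩
  intro A hA ℓ _
  rw [Finpartition.mem_bot_iff] at hA
  obtain ⟨p, -, rfl⟩ := hA
  rw [ncard_tr]
  refine (card_le_card (filter_subset _ _)).trans ?_
  simp

theorem gp_config_nil : gp (config []) = 0 := by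
  have := gp_le_card (config [])
  simpa [config] using this

theorem gp_config_one : 0 < gp (config [(0, 0)]) := by
  by_contra hcon
  obtain ⟨P, -, hP⟩ := exists_gp (config [(0, 0)])
  have h0 : #P.parts = 0 := by omega
  rw [card_eq_zero] at h0
  obtain ⟨A, hA, -⟩ := P.exists_mem (cst_mem_config (L := [(0, 0)]) (p := (0, 0)) |>.mpr
    (by simp))
  rw [h0] at hA
  exact notMem_empty _ hA

/-- The specification of the algorithm. -/
theorem kalgo_spec (L : List (ℚ × ℚ)) (g : ℕ) (hL : L.Nodup) :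
    ∃ (L' : List (ℚ × ℚ)) (g' : ℕ), L'.Nodup ∧ kalgo (inst L g) = inst L' g' ∧
      (gp (config L) ≤ g ↔ gp (config L') ≤ g') ∧
      L'.length ≤ 64000 * lc (config L) ^ 5 + 1 ∧
      g' ≤ 64000 * lc (config L) ^ 5 + 1 := by
  have hS := card_config hL
  have hgc := gp_le_card (config L)
  unfold kalgo ker
  rw [dec_inst]
  simp only [cap_eq, List.length_map, val_natBits]
  by_cases c1 : L.length ≤ min L.length g
  · rw [decide_eq_true c1, cond_true]
    refine ⟨[], 0, List.nodup_nil, rfl, ?_, by simp, by simp⟩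
    rw [gp_config_nil]
    constructor
    · intro _; exact le_rfl
    · intro _
      omega
  · rw [decide_eq_false c1, cond_false, onl_spec hL]
    by_cases c2 : 4000 * ((grd (L.map encP)).length * (grd (L.map encP)).length *
      ((grd (L.map encP)).length * (grd (L.map encP)).length)) ≤ online (config L)
    · rw [decide_eq_true c2, cond_true]
      obtain ⟨Ln, l1, l2, l3⟩ := grd_cover hL
      have h1 : gp (config L) = (online (config L) + 1) / 2 := by
        apply gp_eq_of_cover l1 l2
        refine le_trans ?_ c2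
        apply Nat.mul_le_mul_left
        rw [pow_two]
        exact Nat.mul_le_mul l3 l3
      have h2 : gp (config L) ≤ L.length := by omega
      by_cases c3 : (online (config L) + 1) / 2 ≤ min L.length g
      · rw [decide_eq_true c3, cond_true]
        refine ⟨[], 0, List.nodup_nil, rfl, ?_, by simp, by simp⟩
        rw [gp_config_nil]
        constructor
        · intro _; exact le_rfl
        · intro _; omega
      · rw [decide_eq_false c3, cond_false]
        refine ⟨[(0, 0)], 0, by simp, rfl, ?_, by simp, by simp⟩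
        have := gp_config_one
        constructor
        · intro h; omega
        · intro h; omega
    · rw [decide_eq_false c2, cond_false]
      have h1 := grd_le hL
      obtain ⟨Ln, l1, l2, l3⟩ := exists_lc (config L)
      have h2 := card_le_mul_online l1 l2
      rw [l3, hS] at h2
      have h3 : (grd (L.map encP)).length * (grd (L.map encP)).length *
          ((grd (L.map encP)).length * (grd (L.map encP)).length) ≤
          (2 * lc (config L)) * (2 * lc (config L)) * ((2 * lc (config L)) *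
            (2 * lc (config L))) :=
        Nat.mul_le_mul (Nat.mul_le_mul h1 h1) (Nat.mul_le_mul h1 h1)
      have h4 : online (config L) ≤ 64000 * lc (config L) ^ 4 := by
        have : 4000 * ((2 * lc (config L)) * (2 * lc (config L)) * ((2 * lc (config L)) *
            (2 * lc (config L)))) = 64000 * lc (config L) ^ 4 := by ring
        omega
      have h5 : L.length ≤ 64000 * lc (config L) ^ 5 :=
        calc L.length ≤ lc (config L) * online (config L) := h2
          _ ≤ lc (config L) * (64000 * lc (config L) ^ 4) := Nat.mul_le_mul_left _ h4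
          _ = 64000 * lc (config L) ^ 5 := by ring
      refine ⟨L, g, hL, rfl, Iff.rfl, by omega, by omega⟩

end Pool.Agent.H79.GPos
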