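import Mathlib

/-!
# Permutations without conflicts and with few hits

A permutation of `Fin N` that avoids the pairs of a sparse relation `conf` and minimises an
exponential potential.
-/

namespace Pool.Agent.H79.GPos

open Finset Equiv

theorem card_comp_perm {N : ℕ} (σ : Perm (Fin N)) (P : Fin N → Prop) [DecidablePred P] :
    #{j | P (σ j)} = #{s | P s} := by
  apply Finset.card_bij (fun j _ => σ j)
  · intro j hj; simpa using hj
  · intro a _ b _ h; exact σ.injective h
  · intro s hs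
    exact ⟨σ.symm s, by simpa using hs, by simp⟩

theorem exists_conflictFree (N u : ℕ) (conf : Fin N → Fin N → Prop)
    [∀ i j, Decidable (conf i j)] (h1 : ∀ i, #{j | conf i j} ≤ u)
    (h2 : ∀ j, #{i | conf i j} ≤ u) (hN : 2 * u < N) :
    ∃ σ : Perm (Fin N), ∀ i, ¬ conf i (σ i) := by
  obtain ⟨σ, -, hσ⟩ := Finset.exists_min_image (univ : Finset (Perm (Fin N)))
    (fun σ => #{i | conf i (σ i)}) ⟨1, mem_univ _⟩
  refine ⟨σ, fun i hi => ?_⟩
  have hc : #(univ.filter (fun j => conf i (σ j)) ∪ univ.filter (fun j => conf j (σ i))) < N := by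
    refine (card_union_le _ _).trans_lt ?_
    have a := card_comp_perm σ (fun s => conf i s)
    have b := h1 i
    have c := h2 (σ i)
    omega
  obtain ⟨j, hj⟩ : ∃ j, j ∉ univ.filter (fun j => conf i (σ j)) ∪
      univ.filter (fun j => conf j (σ i)) := by
    by_contra hcon
    push Not at hcon
    have : univ.filter (fun j => conf i (σ j)) ∪ univ.filter (fun j => conf j (σ i)) = univ :=
      eq_univ_iff_forall.mpr hcon
    rw [this, card_univ, Fintype.card_fin] at hc
    omega
  simp only [mem_union, mem_filter, mem_univ, true_and, not_or] at hj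
  have hij : j ≠ i := by rintro rfl; exact hj.1 hi
  have hlt : #{x | conf x ((σ * swap i j) x)} < #{x | conf x (σ x)} := by
    apply Finset.card_lt_card
    rw [Finset.ssubset_iff_of_subset]
    · refine ⟨i, by simpa using hi, ?_⟩
      rw [mem_filter, not_and, Perm.mul_apply, swap_apply_left]
      exact fun _ => hj.1
    · intro x hx
      rw [mem_filter] at hx ⊢
      refine ⟨mem_univ _, ?_⟩
      replace hx := hx.2
      rw [Perm.mul_apply] at hx
      by_cases hxi : x = i
      · subst hxi; rw [swap_apply_left] at hx; exact absurd hx hj.1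
      · by_cases hxj : x = j
        · subst hxj; rw [swap_apply_right] at hx; exact absurd hx hj.2
        · rwa [swap_apply_of_ne_of_ne hxi hxj] at hx
  exact absurd (hσ (σ * swap i j) (mem_univ _)) (not_le.mpr hlt)

/-- The number of hits after a swap. -/
theorem hits_swap {N : ℕ} (σ : Perm (Fin N)) (hit : Fin N → Fin N → Prop)
    [∀ i j, Decidable (hit i j)] {i j : Fin N} (hij : i ≠ j) :
    #{x | hit x ((σ * swap i j) x)} + ((if hit i (σ i) then 1 else 0) +
      (if hit j (σ j) then 1 else 0)) =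
    #{x | hit x (σ x)} + ((if hit i (σ j) then 1 else 0) + (if hit j (σ i) then 1 else 0)) := by
  have e : ∀ τ : Perm (Fin N), #{x | hit x (τ x)} =
      (∑ x ∈ (univ.erase i).erase j, if hit x (τ x) then 1 else 0) +
        ((if hit i (τ i) then 1 else 0) + (if hit j (τ j) then 1 else 0)) := by
    intro τ
    rw [Finset.card_filter, ← Finset.sum_erase_add univ _ (mem_univ i),
      ← Finset.sum_erase_add (univ.erase i) _ (mem_erase.mpr ⟨hij.symm, mem_univ j⟩)]
    ring
  rw [e, e]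
  have h : (∑ x ∈ (univ.erase i).erase j, if hit x ((σ * swap i j) x) then 1 else 0) =
      ∑ x ∈ (univ.erase i).erase j, if hit x (σ x) then 1 else 0 := by
    refine sum_congr rfl fun x hx => ?_
    simp only [mem_erase, mem_univ, and_true] at hx
    rw [Perm.mul_apply, swap_apply_of_ne_of_ne hx.2 hx.1]
  rw [h, Perm.mul_apply, Perm.mul_apply, swap_apply_left, swap_apply_right]
  ring

theorem pow_swap_le {h h' a a' b b' : ℕ} (e : h' + (a + a') = h + (b + b')) (ha : a ≤ 1)
    (hb : b ≤ 1) (hb' : b' ≤ 1) :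
    2 * 2 ^ h' + 2 ^ h * a ≤ 2 ^ h * (2 + (8 * b + 8 * b')) := by
  by_cases hz : b = 0 ∧ b' = 0
  · obtain ⟨rfl, rfl⟩ := hz
    interval_cases a
    · have : (2 : ℕ) ^ h' ≤ 2 ^ h := Nat.pow_le_pow_right (by norm_num) (by omega)
      omega
    · have h1 : (2 : ℕ) ^ (h' + 1) ≤ 2 ^ h := Nat.pow_le_pow_right (by norm_num) (by omega)
      rw [pow_succ] at h1
      omega
  · have h1 : (2 : ℕ) ^ h' ≤ 2 ^ (h + 2) := Nat.pow_le_pow_right (by norm_num) (by omega)
    rw [pow_add] at h1
    have h2 : 9 * 2 ^ h ≤ 2 ^ h * (2 + (8 * b + 8 * b')) := by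
      rw [mul_comm]
      exact Nat.mul_le_mul_left _ (by omega)
    have h3 : 2 ^ h * a ≤ 2 ^ h * 1 := Nat.mul_le_mul_left _ ha
    omega

theorem exists_localOpt {ι : Type*} (N u t : ℕ) (conf : Fin N → Fin N → Prop)
    [∀ i j, Decidable (conf i j)] (h1 : ∀ i, #{j | conf i j} ≤ u)
    (h2 : ∀ j, #{i | conf i j} ≤ u) (hN : 4 * u + 2 ≤ N) (Q : Finset ι) (w : ι → ℕ)
    (hit : ι → Fin N → Fin N → Prop) [∀ p i j, Decidable (hit p i j)]
    (k1 : ∀ p ∈ Q, ∀ i, #{j | hit p i j} ≤ t) (k2 : ∀ p ∈ Q, ∀ j, #{i | hit p i j} ≤ t) :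
    ∃ σ : Perm (Fin N), (∀ i, ¬ conf i (σ i)) ∧
      ∑ p ∈ Q, w p * 2 ^ #{i | hit p i (σ i)} ≤ 2 ^ (64 * t + 1) * ∑ p ∈ Q, w p := by
  obtain ⟨σ₀, hσ₀⟩ := exists_conflictFree N u conf h1 h2 (by omega)
  obtain ⟨σ, hσm, hσ⟩ := Finset.exists_min_image
    ({σ : Perm (Fin N) | ∀ i, ¬ conf i (σ i)} : Finset (Perm (Fin N)))
    (fun σ => ∑ p ∈ Q, w p * 2 ^ #{i | hit p i (σ i)}) ⟨σ₀, by simpa using hσ₀⟩
  simp only [mem_filter, mem_univ, true_and] at hσm hσ
  refine ⟨σ, hσm, ?_⟩
  -- allowed swaps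
  let Al : Finset (Fin N × Fin N) :=
    {z | z.1 ≠ z.2 ∧ ¬ conf z.1 (σ z.2) ∧ ¬ conf z.2 (σ z.1)}
  have hAl : ∀ z ∈ Al, ∑ p ∈ Q, w p * 2 ^ #{i | hit p i (σ i)} ≤
      ∑ p ∈ Q, w p * 2 ^ #{i | hit p i ((σ * swap z.1 z.2) i)} := by
    intro z hz
    simp only [Al, mem_filter, mem_univ, true_and] at hz
    apply hσ
    intro x hx
    rw [Perm.mul_apply] at hx
    by_cases hxi : x = z.1
    · subst hxi; rw [swap_apply_left] at hx; exact hz.2.1 hx
    · by_cases hxj : x = z.2
      · subst hxj; rw [swap_apply_right] at hx; exact hz.2.2 hx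
      · rw [swap_apply_of_ne_of_ne hxi hxj] at hx; exact hσm x hx
  have hrow : ∀ i, N ≤ 2 * #{j | (i, j) ∈ Al} := by
    intro i
    have hsub : (univ : Finset (Fin N)) ⊆ univ.filter (fun j => (i, j) ∈ Al) ∪
        (({i} : Finset (Fin N)) ∪ (univ.filter (fun j => conf i (σ j)) ∪
          univ.filter (fun j => conf j (σ i)))) := by
      intro j _
      simp only [Al, mem_union, mem_filter, mem_univ, true_and, mem_singleton]
      by_cases a : i = j
      · right; left; exact a.symm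
      by_cases b : conf i (σ j)
      · right; right; left; exact b
      by_cases c : conf j (σ i)
      · right; right; right; exact c
      left; exact ⟨a, b, c⟩
    have := (card_le_card hsub).trans ((card_union_le _ _).trans (Nat.add_le_add_left
      ((card_union_le _ _).trans (Nat.add_le_add_left (card_union_le _ _) _)) _))
    rw [card_univ, Fintype.card_fin, card_singleton, card_comp_perm σ (fun s => conf i s)]
      at this
    have a := h1 i
    have b := h2 (σ i)
    omega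
  -- the inequality for one index
  have key : ∀ p ∈ Q, 4 * ∑ z ∈ Al, 2 ^ #{i | hit p i ((σ * swap z.1 z.2) i)} +
      2 ^ #{i | hit p i (σ i)} * #{i | hit p i (σ i)} * N ≤
      2 ^ #{i | hit p i (σ i)} * (4 * #Al + 32 * (N * t)) := by
    intro p hp
    set h := #{i | hit p i (σ i)} with hh
    have s1 : ∑ z ∈ Al, (2 * 2 ^ #{i | hit p i ((σ * swap z.1 z.2) i)} +
        2 ^ h * (if hit p z.1 (σ z.1) then 1 else 0)) ≤
        ∑ z ∈ Al, 2 ^ h * (2 + (8 * (if hit p z.1 (σ z.2) then 1 else 0) +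
          8 * (if hit p z.2 (σ z.1) then 1 else 0))) := by
      refine sum_le_sum fun z hz => ?_
      simp only [Al, mem_filter, mem_univ, true_and] at hz
      exact pow_swap_le (hits_swap σ (hit p) hz.1) (by split_ifs <;> simp)
        (by split_ifs <;> simp) (by split_ifs <;> simp)
    rw [sum_add_distrib, ← mul_sum, ← mul_sum, ← mul_sum, sum_add_distrib, sum_const,
      sum_add_distrib, ← mul_sum, ← mul_sum] at s1
    have s2 : ∑ z ∈ Al, (if hit p z.1 (σ z.2) then 1 else 0) ≤ N * t := by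
      refine (sum_le_sum_of_subset (subset_univ Al)).trans ?_
      rw [← univ_product_univ, sum_product]
      calc ∑ i : Fin N, ∑ j : Fin N, (if hit p i (σ j) then 1 else 0)
          ≤ ∑ i : Fin N, t := by
            refine sum_le_sum fun i _ => ?_
            rw [← card_filter, card_comp_perm σ (fun s => hit p i s)]
            exact k1 p hp i
        _ = N * t := by simp
    have s3 : ∑ z ∈ Al, (if hit p z.2 (σ z.1) then 1 else 0) ≤ N * t := by
      refine (sum_le_sum_of_subset (subset_univ Al)).trans ?_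
      rw [← univ_product_univ, sum_product]
      calc ∑ i : Fin N, ∑ j : Fin N, (if hit p j (σ i) then 1 else 0)
          ≤ ∑ i : Fin N, t := by
            refine sum_le_sum fun i _ => ?_
            rw [← card_filter]
            exact k2 p hp (σ i)
        _ = N * t := by simp
    have s4 : h * N ≤ 2 * ∑ z ∈ Al, (if hit p z.1 (σ z.1) then 1 else 0) := by
      have e : ∑ z ∈ Al, (if hit p z.1 (σ z.1) then 1 else 0) =
          ∑ i : Fin N, (if hit p i (σ i) then 1 else 0) * #{j | (i, j) ∈ Al} := by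
        have e1 : ∑ z ∈ Al, (if hit p z.1 (σ z.1) then 1 else 0) =
            ∑ z : Fin N × Fin N, (if z ∈ Al then (if hit p z.1 (σ z.1) then 1 else 0)
              else 0) := by
          rw [Finset.sum_ite_mem, univ_inter]
        rw [e1, ← univ_product_univ, sum_product]
        refine sum_congr rfl fun i _ => ?_
        rw [card_filter, mul_sum]
        refine sum_congr rfl fun j _ => ?_
        split_ifs <;> simp
      rw [e, mul_sum, hh, card_filter, sum_mul]
      refine sum_le_sum fun i _ => ?_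
      have := hrow i
      split_ifs
      · omega
      · simp
    rw [smul_eq_mul] at s1
    have s5 : 2 ^ h * (#Al * 2 + (8 * ∑ z ∈ Al, (if hit p z.1 (σ z.2) then 1 else 0) +
        8 * ∑ z ∈ Al, (if hit p z.2 (σ z.1) then 1 else 0))) ≤
        2 ^ h * (#Al * 2 + (8 * (N * t) + 8 * (N * t))) :=
      Nat.mul_le_mul_left _ (by omega)
    have s6 := Nat.mul_le_mul_left (2 ^ h) s4
    have s7 := s1.trans s5
    nlinarith [s6, s7]
  -- sum over the indices
  have hsum : ∑ p ∈ Q, w p * (2 ^ #{i | hit p i (σ i)} * #{i | hit p i (σ i)}) ≤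
      32 * t * ∑ p ∈ Q, w p * 2 ^ #{i | hit p i (σ i)} := by
    have hmin : #Al * ∑ p ∈ Q, w p * 2 ^ #{i | hit p i (σ i)} ≤
        ∑ p ∈ Q, w p * ∑ z ∈ Al, 2 ^ #{i | hit p i ((σ * swap z.1 z.2) i)} := by
      have := sum_le_sum hAl
      rw [sum_const, smul_eq_mul, sum_comm] at this
      refine this.trans (le_of_eq ?_)
      exact sum_congr rfl fun p _ => (mul_sum _ _ _).symm
    have htot := sum_le_sum fun p hp => Nat.mul_le_mul_left (w p) (key p hp)
    simp only [mul_add, sum_add_distrib] at htot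
    have e1 : ∑ p ∈ Q, w p * (4 * ∑ z ∈ Al, 2 ^ #{i | hit p i ((σ * swap z.1 z.2) i)}) =
        4 * ∑ p ∈ Q, w p * ∑ z ∈ Al, 2 ^ #{i | hit p i ((σ * swap z.1 z.2) i)} := by
      rw [mul_sum]; exact sum_congr rfl fun p _ => by ring
    have e2 : ∑ p ∈ Q, w p * (2 ^ #{i | hit p i (σ i)} * #{i | hit p i (σ i)} * N) =
        N * ∑ p ∈ Q, w p * (2 ^ #{i | hit p i (σ i)} * #{i | hit p i (σ i)}) := by
      rw [mul_sum]; exact sum_congr rfl fun p _ => by ring
    have e3 : ∑ p ∈ Q, w p * (2 ^ #{i | hit p i (σ i)} * (4 * #Al)) =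
        4 * (#Al * ∑ p ∈ Q, w p * 2 ^ #{i | hit p i (σ i)}) := by
      rw [mul_sum, mul_sum]; exact sum_congr rfl fun p _ => by ring
    have e4 : ∑ p ∈ Q, w p * (2 ^ #{i | hit p i (σ i)} * (32 * (N * t))) =
        N * (32 * t * ∑ p ∈ Q, w p * 2 ^ #{i | hit p i (σ i)}) := by
      rw [mul_sum, mul_sum]; exact sum_congr rfl fun p _ => by ring
    rw [e1, e2, e3, e4] at htot
    have : N * ∑ p ∈ Q, w p * (2 ^ #{i | hit p i (σ i)} * #{i | hit p i (σ i)}) ≤
        N * (32 * t * ∑ p ∈ Q, w p * 2 ^ #{i | hit p i (σ i)}) := by omega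
    exact Nat.le_of_mul_le_mul_left this (by omega)
  -- split
  have hsplit := sum_filter_add_sum_filter_not Q
    (fun p => #{i | hit p i (σ i)} ≤ 64 * t) (fun p => w p * 2 ^ #{i | hit p i (σ i)})
  have hlo : ∑ p ∈ Q with #{i | hit p i (σ i)} ≤ 64 * t,
      w p * 2 ^ #{i | hit p i (σ i)} ≤ 2 ^ (64 * t) * ∑ p ∈ Q, w p := by
    rw [mul_sum]
    refine (sum_le_sum (fun p hp => ?_)).trans (sum_le_sum_of_subset (filter_subset _ _))
    rw [mem_filter] at hp
    rw [mul_comm]
    exact Nat.mul_le_mul_right _ (Nat.pow_le_pow_right (by norm_num) hp.2)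
  have hhi : (64 * t + 1) * ∑ p ∈ Q with ¬ #{i | hit p i (σ i)} ≤ 64 * t,
      w p * 2 ^ #{i | hit p i (σ i)} ≤
      ∑ p ∈ Q, w p * (2 ^ #{i | hit p i (σ i)} * #{i | hit p i (σ i)}) := by
    rw [mul_sum]
    refine (sum_le_sum (fun p hp => ?_)).trans (sum_le_sum_of_subset (filter_subset _ _))
    rw [mem_filter] at hp
    have hlt : 64 * t + 1 ≤ #{i | hit p i (σ i)} := by omega
    calc (64 * t + 1) * (w p * 2 ^ #{i | hit p i (σ i)})
        ≤ #{i | hit p i (σ i)} * (w p * 2 ^ #{i | hit p i (σ i)}) :=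
          Nat.mul_le_mul_right _ hlt
      _ = _ := by ring
  have h3 := hhi.trans hsum
  rw [← hsplit] at h3 ⊢
  rw [pow_succ]
  set a := ∑ p ∈ Q with #{i | hit p i (σ i)} ≤ 64 * t, w p * 2 ^ #{i | hit p i (σ i)}
  set b := ∑ p ∈ Q with ¬ #{i | hit p i (σ i)} ≤ 64 * t, w p * 2 ^ #{i | hit p i (σ i)}
  have h4 : b ≤ a := by
    by_contra hlt
    push Not at hlt
    nlinarith
  nlinarith

end Pool.Agent.H79.GPos

namespace Pool.Agent.H79.GPos

open Finset Equiv

open Classical in
/-- The same for an injection of a set `A` of items into a set `T` of slots. -/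
theorem exists_assign {α β ι : Type*} (A : Finset α) (T : Finset β) (hA : #A ≤ #T) (u t : ℕ)
    (conf : α → β → Prop) (h1 : ∀ a ∈ A, #{s ∈ T | conf a s} ≤ u)
    (h2 : ∀ s ∈ T, #{a ∈ A | conf a s} ≤ u) (hN : 4 * u + 2 ≤ #T) (Q : Finset ι) (w : ι → ℕ)
    (hit : ι → α → β → Prop) (k1 : ∀ p ∈ Q, ∀ a ∈ A, #{s ∈ T | hit p a s} ≤ t)
    (k2 : ∀ p ∈ Q, ∀ s ∈ T, #{a ∈ A | hit p a s} ≤ t) :
    ∃ f : α → β, (∀ a ∈ A, f a ∈ T) ∧ Set.InjOn f A ∧ (∀ a ∈ A, ¬ conf a (f a)) ∧
      ∑ p ∈ Q, w p * 2 ^ #{a ∈ A | hit p a (f a)} ≤ 2 ^ (64 * t + 1) * ∑ p ∈ Q, w p := by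
  obtain ⟨b₀, hb₀⟩ : T.Nonempty := card_pos.mp (by omega)
  let emb : {x // x ∈ A} → Fin #T := fun a => Fin.castLE hA (A.equivFin a)
  have hemb : Function.Injective emb := by
    intro a b h
    exact A.equivFin.injective (Fin.castLE_injective hA h)
  have row : ∀ (R : α → β → Prop) (v : ℕ), (∀ a ∈ A, #{s ∈ T | R a s} ≤ v) →
      ∀ i : Fin #T, #{j : Fin #T | ∃ a : {x // x ∈ A}, emb a = i ∧
        R a (T.equivFin.symm j)} ≤ v := by
    intro R v hR i
    by_cases hi : ∃ a, emb a = i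
    · obtain ⟨a, rfl⟩ := hi
      refine le_trans ?_ (hR a.1 a.2)
      apply card_le_card_of_injOn (fun j => (T.equivFin.symm j : β))
      · intro j hj
        simp only [coe_filter, mem_univ, true_and, Set.mem_ofPred_eq] at hj ⊢
        obtain ⟨a', ha', hr⟩ := hj
        rw [hemb ha'] at hr
        exact ⟨(T.equivFin.symm j).2, hr⟩
      · intro j _ j' _ h
        exact T.equivFin.symm.injective (Subtype.ext h)
    · have : ({j : Fin #T | ∃ a : {x // x ∈ A}, emb a = i ∧
          R a (T.equivFin.symm j)} : Finset (Fin #T)) = ∅ := by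
        ext j
        simp only [mem_filter, mem_univ, true_and, notMem_empty, iff_false]
        rintro ⟨a, ha, -⟩
        exact hi ⟨a, ha⟩
      rw [this]; simp
  have col : ∀ (R : α → β → Prop) (v : ℕ), (∀ s ∈ T, #{a ∈ A | R a s} ≤ v) →
      ∀ j : Fin #T, #{i : Fin #T | ∃ a : {x // x ∈ A}, emb a = i ∧
        R a (T.equivFin.symm j)} ≤ v := by
    intro R v hR j
    refine le_trans ?_ (hR (T.equivFin.symm j) (T.equivFin.symm j).2)
    have hsub : ({i : Fin #T | ∃ a : {x // x ∈ A}, emb a = i ∧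
        R a (T.equivFin.symm j)} : Finset (Fin #T)) ⊆
        (univ.filter fun a : {x // x ∈ A} => R a (T.equivFin.symm j)).image emb := by
      intro i hi
      simp only [mem_filter, mem_univ, true_and, mem_image] at hi ⊢
      obtain ⟨a, ha, hr⟩ := hi
      exact ⟨a, hr, ha⟩
    refine (card_le_card hsub).trans (card_image_le.trans ?_)
    apply card_le_card_of_injOn (fun a : {x // x ∈ A} => (a : α))
    · intro a ha
      simp only [coe_filter, mem_univ, true_and, Set.mem_ofPred_eq] at ha ⊢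
      exact ⟨a.2, ha⟩
    · intro a _ b _ h; exact Subtype.ext h
  obtain ⟨σ, hσ1, hσ2⟩ := exists_localOpt #T u t
    (fun i j => ∃ a : {x // x ∈ A}, emb a = i ∧ conf a (T.equivFin.symm j))
    (row conf u h1) (col conf u h2) hN Q w
    (fun p i j => ∃ a : {x // x ∈ A}, emb a = i ∧ hit p a (T.equivFin.symm j))
    (fun p hp => row (hit p) t (k1 p hp)) (fun p hp => col (hit p) t (k2 p hp))
  have hf : ∀ a (h : a ∈ A), (fun a => if h : a ∈ A then (T.equivFin.symm (σ (emb ⟨a, h⟩)) : β)
      else b₀) a = T.equivFin.symm (σ (emb ⟨a, h⟩)) := fun a h => dif_pos h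
  refine ⟨fun a => if h : a ∈ A then (T.equivFin.symm (σ (emb ⟨a, h⟩)) : β) else b₀,
    fun a ha => ?_, fun a ha b hb h => ?_, fun a ha => ?_, ?_⟩
  · rw [hf a ha]; exact (T.equivFin.symm (σ (emb ⟨a, ha⟩))).2
  · rw [hf a ha, hf b hb] at h
    have := hemb (σ.injective (T.equivFin.symm.injective (Subtype.ext h)))
    exact congrArg Subtype.val this
  · rw [hf a ha]
    intro hc
    exact hσ1 (emb ⟨a, ha⟩) ⟨⟨a, ha⟩, rfl, hc⟩
  · refine le_trans (sum_le_sum fun p _ => ?_) hσ2
    refine Nat.mul_le_mul_left _ (Nat.pow_le_pow_right (by norm_num) ?_)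
    refine card_le_card_of_injOn (fun a => if h : a ∈ A then emb ⟨a, h⟩ else ⟨0, by omega⟩) ?_ ?_
    · intro a ha
      simp only [coe_filter, Set.mem_ofPred_eq, mem_univ, true_and] at ha ⊢
      have h := ha.2
      simp only [ha.1, dif_pos] at h ⊢
      exact ⟨⟨a, ha.1⟩, rfl, h⟩
    · intro a ha b hb h
      simp only [coe_filter, Set.mem_ofPred_eq] at ha hb
      simp only [ha.1, hb.1, dif_pos] at h
      exact congrArg Subtype.val (hemb h)

end Pool.Agent.H79.GPos
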