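import Pool.Agent.H79.GPGeom

/-!
# The lower bound for `N(k)`
-/

namespace Pool.Agent.H79.GPos

open Finset

open Classical

/-- The point on line `t` through the origin in row `j`. -/
def pt (z : ℕ × ℕ) : ℝ × ℝ := (((z.1 : ℝ) + 1) * ((z.2 : ℝ) + 1), (z.2 : ℝ) + 1)

/-- The configuration: the origin and `n` rows with `m` points each. -/
noncomputable def cfg (n m : ℕ) : Finset (ℝ × ℝ) :=
  insert (0, 0) ((range m ×ˢ range n).image pt)

theorem pt_inj : Function.Injective pt := by
  rintro ⟨a, b⟩ ⟨a', b'⟩ h
  simp only [pt, Prod.mk.injEq] at h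
  obtain ⟨h1, h2⟩ := h
  have hb : (b : ℝ) = b' := by linarith
  rw [hb] at h1
  have hb0 : (b' : ℝ) + 1 ≠ 0 := by positivity
  have ha : (a : ℝ) = a' := by
    have := mul_right_cancel₀ hb0 h1
    linarith
  rw [Nat.cast_inj] at ha hb
  rw [ha, hb]

theorem zero_notMem_pt (s : Finset (ℕ × ℕ)) : ((0, 0) : ℝ × ℝ) ∉ s.image pt := by
  rw [mem_image]
  rintro ⟨z, -, h⟩
  have h2 : (z.2 : ℝ) + 1 = 0 := congrArg Prod.snd h
  have : (0 : ℝ) < (z.2 : ℝ) + 1 := by positivity
  linarith

theorem card_cfg (n m : ℕ) : #(cfg n m) = m * n + 1 := by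
  rw [cfg, card_insert_of_notMem (zero_notMem_pt _), card_image_of_injective _ pt_inj,
    card_product, card_range, card_range]

/-- Row `j`. -/
def row (j : ℕ) : Set (ℝ × ℝ) := {p | 0 * p.1 + 1 * p.2 = (j : ℝ)}

theorem isLine_row (j : ℕ) : IsLine (row j) := ⟨0, 1, j, by simp, rfl⟩

theorem mem_row {j : ℕ} {p : ℝ × ℝ} : p ∈ row j ↔ p.2 = j := by simp [row]

theorem lc_cfg (n m : ℕ) : lc (cfg n m) ≤ n + 1 := by
  refine (lc_le (L := (range (n + 1)).image row) ?_ ?_).trans
    (card_image_le.trans (by rw [card_range]))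
  · intro ℓ hℓ
    rw [mem_image] at hℓ
    obtain ⟨j, -, rfl⟩ := hℓ
    exact isLine_row j
  · intro p hp
    rw [cfg, mem_insert, mem_image] at hp
    rcases hp with rfl | ⟨z, hz, rfl⟩
    · exact ⟨row 0, mem_image_of_mem _ (by simp), mem_row.mpr (by simp)⟩
    · rw [mem_product, mem_range, mem_range] at hz
      exact ⟨row (z.2 + 1), mem_image_of_mem _ (by rw [mem_range]; omega),
        mem_row.mpr (by simp [pt])⟩

theorem online_cfg {n m : ℕ} (hn : 1 ≤ n) (hm : n + 1 ≤ m) : online (cfg n m) = m := by
  apply le_antisymm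
  · apply online_le
    rintro ℓ ⟨a, b, c, hab, rfl⟩
    by_cases ha : a = 0
    · -- horizontal
      have hb : b ≠ 0 := by simpa [ha] using hab
      by_cases h0 : c = 0
      · have : tr (cfg n m) {p | a * p.1 + b * p.2 = c} ⊆ {(0, 0)} := by
          intro p hp
          rw [mem_tr, cfg, mem_insert, mem_image] at hp
          obtain ⟨hp | ⟨z, hz, rfl⟩, h2⟩ := hp
          · rw [mem_singleton]; exact hp
          · exfalso
            simp only [pt, Set.mem_ofPred_eq, ha, h0, zero_mul, zero_add, mul_eq_zero, hb,
              false_or] at h2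
            have : (0 : ℝ) < (z.2 : ℝ) + 1 := by positivity
            linarith
        refine (card_le_card this).trans ?_
        rw [card_singleton]; omega
      · have : #(tr (cfg n m) {p | a * p.1 + b * p.2 = c}) ≤ #(range m) := by
          have hsub : tr (cfg n m) {p | a * p.1 + b * p.2 = c} ⊆
              (({z ∈ range m ×ˢ range n | b * ((z.2 : ℝ) + 1) = c} : Finset (ℕ × ℕ))).image
                pt := by
            intro p hp
            rw [mem_tr, cfg, mem_insert, mem_image] at hp
            obtain ⟨rfl | ⟨z, hz, rfl⟩, h2⟩ := hp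
            · exfalso; apply h0; simpa using h2.symm
            · rw [mem_image]
              refine ⟨z, mem_filter.mpr ⟨hz, ?_⟩, rfl⟩
              simpa [pt, ha] using h2
          refine (card_le_card hsub).trans (card_image_le.trans ?_)
          apply card_le_card_of_injOn Prod.fst
          · intro z hz
            rw [mem_coe, mem_filter, mem_product] at hz
            exact hz.1.1
          · intro z hz z' hz' h
            rw [mem_coe, mem_filter] at hz hz'
            have h1 := mul_left_cancel₀ hb (hz.2.trans hz'.2.symm)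
            have h2 : (z.2 : ℝ) = z'.2 := by linarith
            rw [Nat.cast_inj] at h2
            exact Prod.ext h h2
        rwa [card_range] at this
    · refine le_trans ?_ hm
      have : #(tr (cfg n m) {p | a * p.1 + b * p.2 = c}) ≤
          #((range (n + 1)).image (fun j : ℕ => (j : ℝ))) := by
        apply card_le_card_of_injOn Prod.snd
        · intro p hp
          rw [mem_coe, mem_tr, cfg, mem_insert, mem_image] at hp
          rw [mem_coe, mem_image]
          obtain ⟨rfl | ⟨z, hz, rfl⟩, h2⟩ := hp
          · exact ⟨0, by simp, by simp⟩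
          · rw [mem_product, mem_range, mem_range] at hz
            exact ⟨z.2 + 1, by rw [mem_range]; omega, by simp [pt]⟩
        · intro p hp q hq h
          rw [mem_coe, mem_tr] at hp hq
          have h1 : a * p.1 + b * p.2 = c := hp.2
          have h2 : a * q.1 + b * q.2 = c := hq.2
          rw [h] at h1
          exact Prod.ext (mul_left_cancel₀ ha (by linarith)) h
      refine this.trans (card_image_le.trans ?_)
      rw [card_range]
  · refine le_trans ?_ (tr_le_online (isLine_row 1))
    have : #(range m) ≤ #(tr (cfg n m) (row 1)) := by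
      apply card_le_card_of_injOn (fun t => pt (t, 0))
      · intro t ht
        rw [mem_coe, mem_range] at ht
        rw [mem_coe, mem_tr, cfg, mem_insert, mem_image]
        exact ⟨Or.inr ⟨(t, 0), by rw [mem_product, mem_range, mem_range]; omega, rfl⟩,
          mem_row.mpr (by simp [pt])⟩
      · intro t _ t' _ h
        exact congrArg Prod.fst (pt_inj h)
    rwa [card_range] at this

theorem lt_gp_cfg {n : ℕ} (hn : 1 ≤ n) : n - 1 < gp (cfg n (2 * (n - 1))) := by
  by_contra hcon
  push Not at hcon
  obtain ⟨m, hm⟩ : ∃ m, m = 2 * (n - 1) := ⟨_, rfl⟩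
  rw [← hm] at hcon
  obtain ⟨P, hP, hPc⟩ := exists_gp (cfg n m)
  rw [← hPc] at hcon
  obtain ⟨A, hA, hpA⟩ := P.exists_mem (show ((0, 0) : ℝ × ℝ) ∈ cfg n m from mem_insert_self _ _)
  -- two points of `A` in every row
  have hrow : ∀ j ∈ range n, 2 ≤ #{z ∈ ({z ∈ range m ×ˢ range n | pt z ∈ A} :
      Finset (ℕ × ℕ)) | z.2 = j} := by
    intro j hj
    rw [mem_range] at hj
    have h1 : m ≤ #(tr (cfg n m) (row (j + 1))) := by
      have : #(range m) ≤ #(tr (cfg n m) (row (j + 1))) := by
        apply card_le_card_of_injOn (fun t => pt (t, j))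
        · intro t ht
          rw [mem_coe, mem_range] at ht
          rw [mem_coe, mem_tr, cfg, mem_insert, mem_image]
          exact ⟨Or.inr ⟨(t, j), by rw [mem_product, mem_range, mem_range]; omega, rfl⟩,
            mem_row.mpr (by simp [pt])⟩
        · intro t _ t' _ h
          exact congrArg Prod.fst (pt_inj h)
      rwa [card_range] at this
    have h2 : #(tr (cfg n m) (row (j + 1))) ≤ 2 * (#P.parts - 1) + #(tr A (row (j + 1))) := by
      have hsub : tr (cfg n m) (row (j + 1)) ⊆
          (P.parts.erase A).biUnion (fun B => tr B (row (j + 1))) ∪ tr A (row (j + 1)) := by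
        intro p hp
        rw [mem_tr] at hp
        obtain ⟨B, hB, hpB⟩ := P.exists_mem hp.1
        rw [mem_union, mem_biUnion]
        by_cases hBA : B = A
        · right; rw [← hBA]; exact mem_tr.mpr ⟨hpB, hp.2⟩
        · left; exact ⟨B, mem_erase.mpr ⟨hBA, hB⟩, mem_tr.mpr ⟨hpB, hp.2⟩⟩
      refine (card_le_card hsub).trans ((card_union_le _ _).trans
        (Nat.add_le_add_right (card_biUnion_le.trans ?_) _))
      calc ∑ B ∈ P.parts.erase A, #(tr B (row (j + 1))) ≤ ∑ B ∈ P.parts.erase A, 2 :=
            sum_le_sum fun B hB => by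
              rw [← ncard_tr]; exact hP B (mem_of_mem_erase hB) _ (isLine_row _)
        _ = 2 * (#P.parts - 1) := by
            rw [sum_const, smul_eq_mul, card_erase_of_mem hA, mul_comm]
    have h3 : 1 ≤ #P.parts := card_pos.mpr ⟨A, hA⟩
    have h4 : #(tr A (row (j + 1))) ≤ #{z ∈ ({z ∈ range m ×ˢ range n | pt z ∈ A} :
        Finset (ℕ × ℕ)) | z.2 = j} := by
      have hsub : tr A (row (j + 1)) ⊆ (({z ∈ ({z ∈ range m ×ˢ range n | pt z ∈ A} :
        Finset (ℕ × ℕ)) | z.2 = j} : Finset (ℕ × ℕ))).image pt := by
        intro p hp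
        rw [mem_tr, mem_row] at hp
        have hpS : p ∈ cfg n m := P.le hA hp.1
        rw [cfg, mem_insert, mem_image] at hpS
        rw [mem_image]
        rcases hpS with rfl | ⟨z, hz, rfl⟩
        · exfalso
          have h5 := hp.2
          push_cast at h5
          have : (0 : ℝ) < (j : ℝ) + 1 := by positivity
          linarith
        · refine ⟨z, mem_filter.mpr ⟨mem_filter.mpr ⟨hz, hp.1⟩, ?_⟩, rfl⟩
          have h5 := hp.2
          simp only [pt] at h5
          push_cast at h5
          have h6 : (z.2 : ℝ) = j := by linarith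
          exact_mod_cast h6
      exact (card_le_card hsub).trans card_image_le
    omega
  have hlow : 2 * n ≤ #({z ∈ range m ×ˢ range n | pt z ∈ A} : Finset (ℕ × ℕ)) := by
    have h1 : (({z ∈ range m ×ˢ range n | pt z ∈ A} : Finset (ℕ × ℕ)) : Set (ℕ × ℕ)).MapsTo
        Prod.snd (range n) := by
      intro z hz
      rw [mem_coe, mem_filter, mem_product] at hz
      exact hz.1.2
    rw [card_eq_sum_card_fiberwise h1]
    calc 2 * n = ∑ j ∈ range n, 2 := by rw [sum_const, card_range, smul_eq_mul, mul_comm]
      _ ≤ _ := sum_le_sum hrow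
  have hup : #({z ∈ range m ×ˢ range n | pt z ∈ A} : Finset (ℕ × ℕ)) ≤ #(range m) := by
    apply card_le_card_of_injOn Prod.fst
    · intro z hz
      rw [mem_coe, mem_filter, mem_product] at hz
      exact hz.1.1
    · intro z hz z' hz' h
      rw [mem_coe, mem_filter] at hz hz'
      by_contra hne
      have hpne : pt z ≠ pt z' := fun h => hne (pt_inj h)
      -- the line through the origin
      have hℓ : IsLine {p : ℝ × ℝ | 1 * p.1 + (-((z.1 : ℝ) + 1)) * p.2 = 0} :=
        ⟨1, _, 0, by simp, rfl⟩
      have h1 := hP A hA _ hℓ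
      rw [ncard_tr] at h1
      have h2 : ({(0, 0), pt z, pt z'} : Finset (ℝ × ℝ)) ⊆
          tr A {p : ℝ × ℝ | 1 * p.1 + (-((z.1 : ℝ) + 1)) * p.2 = 0} := by
        intro p hp
        rw [mem_insert, mem_insert, mem_singleton] at hp
        rw [mem_tr]
        rcases hp with rfl | rfl | rfl
        · exact ⟨hpA, by simp⟩
        · refine ⟨hz.2, ?_⟩
          simp only [pt, Set.mem_ofPred_eq]; ring
        · refine ⟨hz'.2, ?_⟩
          simp only [pt, Set.mem_ofPred_eq, h]; ring
      have h3 := card_le_card h2
      rw [card_insert_of_notMem, card_pair hpne] at h3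
      · omega
      · rw [mem_insert, mem_singleton, not_or]
        constructor
        · intro h
          have := zero_notMem_pt {z}
          rw [image_singleton, mem_singleton] at this
          exact this h
        · intro h
          have := zero_notMem_pt {z'}
          rw [image_singleton, mem_singleton] at this
          exact this h
  rw [card_range] at hup
  omega

theorem not_good (k : ℕ) (hk : 4 ≤ k) : ¬ Good k (2 * (k - 1) * (k - 2) + 1) := by
  intro h
  have hm : 2 * (k - 1 - 1) = 2 * (k - 2) := by omega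
  have h1 := h (cfg (k - 1) (2 * (k - 2))) ((lc_cfg _ _).trans (by omega))
    (by rw [card_cfg]; apply le_of_eq; ring)
  have h2 := lt_gp_cfg (n := k - 1) (by omega)
  rw [hm] at h2
  rw [h1, online_cfg (by omega) (by omega)] at h2
  omega

theorem lower_N (k : ℕ) (hk : 4 ≤ k) : 2 * (k - 1) * (k - 2) + 1 < N k := lt_N (not_good k hk)

end Pool.Agent.H79.GPos
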