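import Pool.Agent.H79.GPKer
import Pool.Agent.PPS.Bridge

/-!
# The kernelisation runs in polynomial time
-/

namespace Pool.Agent.H79.GPos

open Pool.Agent.PPS

variable {m : Bool} {α β : Type} [Rep α] [Rep β]

@[fun_prop]
theorem PT.wd' {p : α → List (List Bool)} (hp : PT m p) (i : ℕ) : PT m (fun a => wd (p a) i) := by
  unfold wd
  exact PT.getD' (by fun_prop) hp (by fun_prop)

@[fun_prop]
theorem PT.hX' {p : α → List (List Bool)} (hp : PT m p) : PT m (fun a => hX (p a)) := by
  unfold hX
  fun_prop

@[fun_prop]
theorem PT.hY' {p : α → List (List Bool)} (hp : PT m p) : PT m (fun a => hY (p a)) := by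
  unfold hY
  fun_prop

@[fun_prop]
theorem PT.hZ' {p : α → List (List Bool)} (hp : PT m p) : PT m (fun a => hZ (p a)) := by
  unfold hZ
  fun_prop

@[fun_prop]
theorem PT.tm' (s : Bool) {f g h : α → Bool × List Bool} (hf : PT m f) (hg : PT m g)
    (hh : PT m h) : PT m (fun a => tm s (f a) (g a) (h a)) := by
  unfold tm
  fun_prop

@[fun_prop]
theorem PT.part' (s : Bool) {f : α → Bool × List Bool} (hf : PT m f) :
    PT m (fun a => part s (f a)) := by
  unfold part
  fun_prop

@[fun_prop]
theorem PT.side' (s : Bool) {p q r : α → List (List Bool)} (hp : PT m p) (hq : PT m q)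
    (hr : PT m r) : PT m (fun a => side s (p a) (q a) (r a)) := by
  unfold side six
  fun_prop

@[fun_prop]
theorem PT.colB' {p q r : α → List (List Bool)} (hp : PT m p) (hq : PT m q)
    (hr : PT m r) : PT m (fun a => colB (p a) (q a) (r a)) := by
  unfold colB
  fun_prop

theorem PT.cnt' {Ps : α → List (List (List Bool))} {p q : α → List (List Bool)} (hP : PT m Ps)
    (hp : PT m p) (hq : PT m q) : PT m (fun a => cnt (Ps a) (p a) (q a)) := by
  unfold cnt
  have h1 : PT m (fun z : α × List (List Bool) => p z.1) :=
    hp.comp (f := fun z : α × List (List Bool) => z.1) (by fun_prop)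
  have h2 : PT m (fun z : α × List (List Bool) => q z.1) :=
    hq.comp (f := fun z : α × List (List Bool) => z.1) (by fun_prop)
  have h3 := Bar.PT.filter' (m := m) (l := Ps)
    (p := fun z : α × List (List Bool) => colB (p z.1) (q z.1) z.2) hP (by fun_prop)
  exact PT.cond (PT.decideEq hp hq) (by fun_prop) h3.length'

theorem foldr_mx_lt_size (l : List ℕ) : 2 * l.foldr mx 0 + 1 ≤ size l + 1 := by
  induction l with
  | nil => simp
  | cons a l ih =>
    rw [List.foldr_cons, mx_eq, size_cons, size_nat]
    rcases le_total a (l.foldr mx 0) with h | h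
    · rw [max_eq_right h]; omega
    · rw [max_eq_left h]; omega

theorem PT.onl' {Ps : α → List (List (List Bool))} (hP : PT m Ps) :
    PT m (fun a => onl (Ps a)) := by
  unfold onl
  have h1 : PT m (fun z : α × List (List Bool) => Ps z.1) :=
    hP.comp (f := fun z : α × List (List Bool) => z.1) (by fun_prop)
  have h2 : PT m (fun z : α × List (List Bool) => (Ps z.1).map fun q => cnt (Ps z.1) z.2 q) := by
    have h3 : PT m (fun w : (α × List (List Bool)) × List (List Bool) => Ps w.1.1) :=
      hP.comp (f := fun w : (α × List (List Bool)) × List (List Bool) => w.1.1) (by fun_prop)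
    exact PT.map' (f := fun w : (α × List (List Bool)) × List (List Bool) =>
      cnt (Ps w.1.1) w.1.2 w.2) h1 (PT.cnt' h3 (by fun_prop) (by fun_prop))
  have h4 := Bar.PT.flatMap' (m := m) hP h2
  obtain ⟨p, hp⟩ := h4.exists_size_le
  exact PT.foldr (m := m) (ini := fun _ : α => (0 : ℕ)) (s := fun z : α × (ℕ × ℕ) =>
    mx z.2.1 z.2.2) h4 (by fun_prop) (by fun_prop) (p + 1) (by
      intro a k
      simp only [Polynomial.eval_add, Polynomial.eval_one]
      have h5 := hp a
      have h6 := size_drop_le ((Ps a).flatMap fun p => (Ps a).map fun q => cnt (Ps a) p q) k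
      have h7 := foldr_mx_lt_size
        (((Ps a).flatMap fun p => (Ps a).map fun q => cnt (Ps a) p q).drop k)
      rw [size_nat]
      simp only at h5
      change 2 * (((Ps a).flatMap fun p => (Ps a).map fun q => cnt (Ps a) p q).drop k).foldr
        mx 0 + 1 ≤ _
      omega)

theorem PT.ok' {p : α → List (List Bool)} {Q : α → List (List (List Bool))} (hp : PT m p)
    (hQ : PT m Q) : PT m (fun a => ok (p a) (Q a)) := by
  unfold ok
  have h1 : PT m (fun z : α × List (List Bool) => Q z.1) :=
    hQ.comp (f := fun z : α × List (List Bool) => z.1) (by fun_prop)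
  have h2 : PT m (fun w : (α × List (List Bool)) × List (List Bool) => p w.1.1) :=
    hp.comp (f := fun w : (α × List (List Bool)) × List (List Bool) => w.1.1) (by fun_prop)
  have h3 := Bar.PT.all' (m := m) (l := fun z : α × List (List Bool) => Q z.1)
    (p := fun w : (α × List (List Bool)) × List (List Bool) =>
      decide (w.1.2 = w.2) || !(colB w.1.2 w.2 (p w.1.1))) h1 (by
      have h4 : PT m (fun w : (α × List (List Bool)) × List (List Bool) =>
        decide (w.1.2 = w.2)) := PT.decideEq (by fun_prop) (by fun_prop)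
      fun_prop)
  exact Bar.PT.all' (m := m) (l := Q) hQ h3

theorem size_grd_le (l : List (List (List Bool))) :
    size (l.foldr (fun p Q => bif ok p Q then p :: Q else Q) []) ≤ size l := by
  induction l with
  | nil => simp
  | cons p l ih =>
    rw [List.foldr_cons, size_cons]
    cases ok p (l.foldr (fun p Q => bif ok p Q then p :: Q else Q) [])
    · rw [cond_false]; omega
    · rw [cond_true, size_cons]; omega

theorem PT.grd' {Ps : α → List (List (List Bool))} (hP : PT m Ps) :
    PT m (fun a => grd (Ps a)) := by
  unfold grd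
  obtain ⟨p, hp⟩ := hP.exists_size_le
  have hs : PT m (fun z : α × (List (List Bool) × List (List (List Bool))) =>
      bif ok z.2.1 z.2.2 then z.2.1 :: z.2.2 else z.2.2) := by
    have h1 : PT m (fun z : α × (List (List Bool) × List (List (List Bool))) =>
      ok z.2.1 z.2.2) := PT.ok' (by fun_prop) (by fun_prop)
    fun_prop
  exact PT.foldr (m := m) (ini := fun _ : α => ([] : List (List (List Bool))))
    (s := fun z : α × (List (List Bool) × List (List (List Bool))) =>
      bif ok z.2.1 z.2.2 then z.2.1 :: z.2.2 else z.2.2) hP (by fun_prop) hs p (by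
      intro a k
      have h1 := hp a
      have h2 := size_drop_le (Ps a) k
      have h3 := size_grd_le ((Ps a).drop k)
      exact h3.trans (h2.trans h1))

theorem cap_foldr_le (G : List Bool) (n : ℕ) :
    G.foldr (fun b c => Bar.mn n (bif b then c + c + 1 else c + c)) 0 ≤ n := by
  have := cap_eq G n
  unfold cap at this
  rw [this]
  exact min_le_left _ _

theorem PT.cap' {G : α → List Bool} {n : α → ℕ} (hG : PT m G) (hn : PT m n) :
    PT m (fun a => cap (G a) (n a)) := by
  unfold cap
  obtain ⟨p, hp⟩ := hn.exists_size_le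
  have hs : PT m (fun z : α × (Bool × ℕ) =>
      Bar.mn (n z.1) (bif z.2.1 then z.2.2 + z.2.2 + 1 else z.2.2 + z.2.2)) := by
    have h1 : PT m (fun z : α × (Bool × ℕ) => n z.1) :=
      hn.comp (f := fun z : α × (Bool × ℕ) => z.1) (by fun_prop)
    exact Bar.PT.mn' h1 (by fun_prop)
  exact PT.foldr (m := m) (ini := fun _ : α => (0 : ℕ)) (s := fun z : α × (Bool × ℕ) =>
      Bar.mn (n z.1) (bif z.2.1 then z.2.2 + z.2.2 + 1 else z.2.2 + z.2.2)) hG (by fun_prop) hs
      p (by
      intro a k
      have h1 := hp a
      have h2 := cap_foldr_le ((G a).drop k) (n a)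
      rw [size_nat] at h1 ⊢
      simp only
      omega)

theorem PT.dec' {w : α → List Bool} (hw : PT m w) : PT m (fun a => dec (w a)) := by
  unfold dec
  have h1 : PT m (fun a => (spine (tl (decodeD (w a)))).map toWords) :=
    PT.map' (f := fun z : α × D => toWords z.2) (by fun_prop) (by fun_prop)
  fun_prop

theorem PT.ker' {w : α → List Bool} {z : α → List Bool × List (List (List Bool))} (hw : PT m w)
    (hz : PT m z) : PT m (fun a => ker (w a) (z a)) := by
  unfold ker
  have h1 : PT m (fun a => cap (z a).1 (z a).2.length) := PT.cap' (by fun_prop) (by fun_prop)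
  have h2 : PT m (fun a => grd (z a).2) := PT.grd' (by fun_prop)
  have h3 : PT m (fun a => onl (z a).2) := PT.onl' (by fun_prop)
  fun_prop

theorem kalgo_mem_FP : kalgo ∈ FP := by
  rw [mem_FP_iff]
  unfold kalgo
  exact PT.ker' (by fun_prop) (PT.dec' (by fun_prop))

end Pool.Agent.H79.GPos
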