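import Mathlib

/-!
# Trees, nonstationary subsets, diamonds and successor-partitions

Definitions for trees (partial orders in which the set of predecessors of each element is
well ordered), together with the general facts used for the tree `σℚ`.
-/

open Set Order

universe u

namespace Pool.Agent.H79

/-- A tree is a partial order in which the set of strict predecessors of each element is
well ordered. -/
class IsTree (T : Type u) [PartialOrder T] : Prop where
  wo : ∀ t : T, IsWellOrder (Set.Iio t) (· < ·)

section Defs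

variable {T : Type u} [PartialOrder T]

/-- The height of `t`: the order type of the set of strict predecessors of `t`. -/
noncomputable def ht [IsTree T] (t : T) : Ordinal.{u} :=
  @Ordinal.type (Set.Iio t) (· < ·) (IsTree.wo t)

/-- The set of immediate successors of `t`. -/
def Succ [IsTree T] (t : T) : Set T := {s | t < s ∧ ht s = ht t + 1}

/-- A set is special if it is a union of countably many antichains. -/
def IsSpecial (X : Set T) : Prop :=
  ∃ A : ℕ → Set T, (∀ n, IsAntichain (· ≤ ·) (A n)) ∧ X = ⋃ n, A n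

/-- `X` is nonstationary if there is a map `g` which is regressive at every non-minimal element of
`X` and all of whose fibres in `X` are special. -/
def IsNonstationary (X : Set T) : Prop :=
  ∃ g : T → T, (∀ x ∈ X, ¬ IsMin x → g x < x) ∧ ∀ t, IsSpecial {x ∈ X | g x = t}

/-- The diamond principle for `T`. -/
def Diamond (T : Type u) [PartialOrder T] : Prop :=
  ∃ D : T → Set T, (∀ t, D t ⊆ Set.Iio t) ∧
    ∀ X : Set T, ¬ IsNonstationary {t : T | X ∩ Set.Iio t = D t}

/-- `Q` is a successor-partition: `Q t false` and `Q t true` are disjoint with union the set of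
immediate successors of `t`. -/
def IsSuccPartition [IsTree T] (Q : T → Bool → Set T) : Prop :=
  ∀ t, Disjoint (Q t false) (Q t true) ∧ Q t false ∪ Q t true = Succ t

/-- `S` is the subtree `T(Q, f)`: it is downward closed, contains every element of height `0`,
the immediate successors in `S` of an element `t` of `S` are exactly the elements of `Q t (f t)`,
and an element of limit height belongs to `S` as soon as all its predecessors do. -/
structure IsGenerated [IsTree T] (Q : T → Bool → Set T) (f : T → Bool) (S : Set T) : Prop where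
  lower : IsLowerSet S
  root : ∀ t, ht t = 0 → t ∈ S
  succ : ∀ t ∈ S, S ∩ Succ t = Q t (f t)
  limit : ∀ t, IsSuccLimit (ht t) → (∀ s, s < t → s ∈ S) → t ∈ S

/-- The successor-partition `Q` is nice if for every `f` the subtree `T(Q, f)` (which exists and
is unique) is nonspecial. -/
def IsNice [IsTree T] (Q : T → Bool → Set T) : Prop :=
  ∀ f : T → Bool, (∃! S : Set T, IsGenerated Q f S) ∧
    ∀ S : Set T, IsGenerated Q f S → ¬ IsSpecial S

end Defs

section General

variable {T : Type u} [PartialOrder T] [IsTree T]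

theorem lt_trichotomy_of_lt {a b c : T} (ha : a < c) (hb : b < c) : a < b ∨ a = b ∨ b < a := by
  have := IsTree.wo c
  rcases trichotomous_of (· < · : Set.Iio c → Set.Iio c → Prop) ⟨a, ha⟩ ⟨b, hb⟩ with h | h | h
  · exact Or.inl h
  · exact Or.inr (Or.inl (Subtype.mk.inj h))
  · exact Or.inr (Or.inr h)

theorem lt_trichotomy_of_le {a b c : T} (ha : a ≤ c) (hb : b ≤ c) : a < b ∨ a = b ∨ b < a := by
  rcases ha.lt_or_eq with ha | rfl
  · rcases hb.lt_or_eq with hb | rfl
    · exact lt_trichotomy_of_lt ha hb
    · exact Or.inl ha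
  · rcases hb.lt_or_eq with hb | rfl
    · exact Or.inr (Or.inr hb)
    · exact Or.inr (Or.inl rfl)

theorem ht_eq_typein {s t : T} (h : s < t) :
    ht s = @Ordinal.typein (Set.Iio t) (· < ·) (IsTree.wo t) ⟨s, h⟩ := by
  have := IsTree.wo t
  have := IsTree.wo s
  rw [← Ordinal.type_subrel]
  refine Ordinal.type_eq.2 ⟨?_⟩
  refine ⟨⟨fun x => ⟨⟨x.1, lt_trans x.2 h⟩, x.2⟩, fun x => ⟨x.1.1, x.2⟩, fun x => rfl,
    fun x => rfl⟩, ?_⟩
  intro a b
  rfl

theorem ht_lt_ht {s t : T} (h : s < t) : ht s < ht t := by
  have := IsTree.wo t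
  rw [ht_eq_typein h]
  exact Ordinal.typein_lt_type _ _

theorem exists_ht_eq {t : T} {o : Ordinal.{u}} (h : o < ht t) : ∃ s, s < t ∧ ht s = o := by
  have := IsTree.wo t
  obtain ⟨a, ha⟩ := Ordinal.typein_surj (· < · : Set.Iio t → Set.Iio t → Prop) h
  exact ⟨a.1, a.2, by rw [ht_eq_typein a.2]; exact ha⟩

instance instWF : WellFoundedLT T := by
  refine ⟨?_⟩
  have : WellFounded (InvImage (· < · : Ordinal.{u} → Ordinal.{u} → Prop) (ht : T → Ordinal.{u})) :=
    InvImage.wf _ Ordinal.lt_wf
  exact Subrelation.wf (fun {a b} h => ht_lt_ht h) this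

theorem isMin_iff_ht {t : T} : IsMin t ↔ ht t = 0 := by
  constructor
  · intro h
    by_contra hne
    obtain ⟨s, hs, -⟩ := exists_ht_eq (pos_iff_ne_zero.2 hne)
    exact h.not_lt hs
  · intro h
    rw [isMin_iff_forall_not_lt]
    intro s hs
    have := ht_lt_ht hs
    rw [h] at this
    exact absurd this (not_lt.2 bot_le)

/-- The immediate successor of `s` below `t`. -/
theorem exists_succ_le {s t : T} (h : s < t) : ∃ u ∈ Succ s, u ≤ t := by
  have h1 : ht s + 1 ≤ ht t := by
    rw [← Order.succ_eq_add_one]
    exact Order.succ_le_of_lt (ht_lt_ht h)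
  rcases h1.lt_or_eq with h1 | h1
  · obtain ⟨u, hu, hu'⟩ := exists_ht_eq h1
    refine ⟨u, ⟨?_, hu'⟩, hu.le⟩
    rcases lt_trichotomy_of_lt h hu with h2 | h2 | h2
    · exact h2
    · subst h2
      exact absurd hu' (by simp)
    · have := ht_lt_ht h2
      rw [hu'] at this
      exact absurd (this.trans (lt_add_one _)) (lt_irrefl _)
  · exact ⟨t, ⟨h, h1.symm⟩, le_rfl⟩

/-- The subtree `T(Q, f)`, explicitly. -/
def gen (Q : T → Bool → Set T) (f : T → Bool) : Set T :=
  {t | ∀ s, s < t → ∀ u ∈ Succ s, u ≤ t → u ∈ Q s (f s)}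

theorem gen_isGenerated {Q : T → Bool → Set T} (hQ : IsSuccPartition Q) (f : T → Bool) :
    IsGenerated Q f (gen Q f) := by
  have hsub : ∀ t b, Q t b ⊆ Succ t := by
    intro t b
    rw [← (hQ t).2]
    cases b
    · exact subset_union_left
    · exact subset_union_right
  refine ⟨?_, ?_, ?_, ?_⟩
  · intro t t' h htS s hs u hu hut
    exact htS s (hs.trans_le h) u hu (hut.trans h)
  · intro t h0 s hs
    exact absurd hs ((isMin_iff_ht.2 h0).not_lt)
  · intro t htS
    ext v
    constructor
    · rintro ⟨hv, hvt⟩
      exact hv t hvt.1 v hvt le_rfl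
    · intro hv
      have hvt := hsub _ _ hv
      refine ⟨?_, hvt⟩
      intro s hs u hu huv
      rcases lt_trichotomy_of_lt hs hvt.1 with h | h | h
      · -- `s < t`
        apply htS s h u hu
        rcases huv.lt_or_eq with huv | rfl
        · rcases lt_trichotomy_of_lt huv hvt.1 with h' | h' | h'
          · exact h'.le
          · exact h'.le
          · exfalso
            have h1 := ht_lt_ht h'
            have h2 := ht_lt_ht h
            rw [hu.2] at h1
            exact absurd h1 (not_lt.2 (by
              rw [← Order.succ_eq_add_one]; exact Order.succ_le_of_lt h2))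
        · exfalso
          have h1 := hu.2
          rw [hvt.2] at h1
          have h2 := ht_lt_ht h
          have : Order.succ (ht t) = Order.succ (ht s) := by
            simpa [Order.succ_eq_add_one] using h1
          have h3 := Order.succ_injective this
          exact absurd h3 h2.ne'
      · subst h
        -- `u = v`
        rcases huv.lt_or_eq with huv | rfl
        · exfalso
          have := ht_lt_ht huv
          rw [hu.2, hvt.2] at this
          exact lt_irrefl _ this
        · exact hv
      · exfalso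
        have h1 := ht_lt_ht h
        have h2 := ht_lt_ht hs
        rw [hvt.2, ← Order.succ_eq_add_one] at h2
        exact absurd (Order.lt_succ_iff.1 h2) (not_le.2 h1)
  · intro t hlim hall s hs u hu hut
    have hne : u ≠ t := by
      rintro rfl
      rw [hu.2, ← Order.succ_eq_add_one] at hlim
      exact Order.not_isSuccLimit_succ _ hlim
    have hut' : u < t := lt_of_le_of_ne hut hne
    exact hall u hut' s hu.1 u hu le_rfl

theorem isGenerated_unique {Q : T → Bool → Set T} {f : T → Bool} {S S' : Set T}
    (h : IsGenerated Q f S) (h' : IsGenerated Q f S') : S ⊆ S' := by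
  intro t
  induction t using WellFoundedLT.induction with
  | ind t IH =>
    intro htS
    rcases Ordinal.zero_or_succ_or_isSuccLimit (ht t) with h0 | ⟨o, ho⟩ | hl
    · exact h'.root t h0
    · have ho' : o < ht t := by rw [← ho]; exact Order.lt_succ o
      obtain ⟨s, hs, hso⟩ := exists_ht_eq ho'
      have hsS := h.lower hs.le htS
      have hts : t ∈ Succ s := ⟨hs, by rw [hso, ← ho, Order.succ_eq_add_one]⟩
      have h1 : t ∈ Q s (f s) := by rw [← h.succ s hsS]; exact ⟨htS, hts⟩
      rw [← h'.succ s (IH s hs hsS)] at h1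
      exact h1.1
    · exact h'.limit t hl fun s hs => IH s hs (h.lower hs.le htS)

theorem existsUnique_isGenerated {Q : T → Bool → Set T} (hQ : IsSuccPartition Q) (f : T → Bool) :
    ∃! S : Set T, IsGenerated Q f S :=
  ⟨gen Q f, gen_isGenerated hQ f, fun _ hS =>
    Subset.antisymm (isGenerated_unique hS (gen_isGenerated hQ f))
      (isGenerated_unique (gen_isGenerated hQ f) hS)⟩

omit [IsTree T] in
/-- A set covered by countably many antichains is special. -/
theorem isSpecial_of_subset {ι : Type*} [Countable ι] {X : Set T} (A : ι → Set T)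
    (hA : ∀ i, IsAntichain (· ≤ ·) (A i)) (h : X ⊆ ⋃ i, A i) : IsSpecial X := by
  classical
  rcases isEmpty_or_nonempty ι with hι | hι
  · refine ⟨fun _ => ∅, fun _ => IsAntichain.empty, ?_⟩
    have : X = ∅ := by simpa using h
    simp [this]
  · obtain ⟨e, he⟩ := exists_surjective_nat ι
    refine ⟨fun n => X ∩ A (e n), fun n => (hA (e n)).subset inter_subset_right, ?_⟩
    rw [← inter_iUnion]
    symm
    rw [inter_eq_left]
    intro x hx
    obtain ⟨i, hi⟩ := mem_iUnion.1 (h hx)
    obtain ⟨n, rfl⟩ := he i
    exact mem_iUnion.2 ⟨n, hi⟩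

/-- The pressing-down lemma for downward closed sets: a nonstationary downward closed subset of a
tree is special. -/
theorem isSpecial_of_isNonstationary {S : Set T} (hS : IsLowerSet S) (h : IsNonstationary S) :
    IsSpecial S := by
  classical
  obtain ⟨g, hg, hfib⟩ := h
  choose A hA hAe using hfib
  -- sets of elements with a given code
  let B : List ℕ → Set T := fun l => l.rec {x | x ∈ S ∧ IsMin x}
    (fun n _ Bl => {x | x ∈ S ∧ ¬ IsMin x ∧ g x ∈ Bl ∧ x ∈ A (g x) n})
  have hB0 : B [] = {x | x ∈ S ∧ IsMin x} := rfl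
  have hB1 : ∀ n l, B (n :: l) = {x | x ∈ S ∧ ¬ IsMin x ∧ g x ∈ B l ∧ x ∈ A (g x) n} :=
    fun n l => rfl
  have key : ∀ l : List ℕ, ∀ x y z : T, x ≤ z → y ≤ z → x ∈ B l → y ∈ B l → x = y := by
    intro l
    induction l with
    | nil =>
      rintro x y z hx hy ⟨-, hx0⟩ ⟨-, hy0⟩
      rcases lt_trichotomy_of_le hx hy with h | h | h
      · exact absurd h hy0.not_lt
      · exact h
      · exact absurd h hx0.not_lt
    | cons n l IH =>
      rintro x y z hx hy ⟨hxS, hx0, hxg, hxA⟩ ⟨hyS, hy0, hyg, hyA⟩
      have hgx := (hg x hxS hx0).le.trans hx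
      have hgy := (hg y hyS hy0).le.trans hy
      have hgg := IH (g x) (g y) z hgx hgy hxg hyg
      rw [← hgg] at hyA
      by_contra hne
      rcases lt_trichotomy_of_le hx hy with h | h | h
      · exact hA _ _ hxA hyA hne h.le
      · exact hne h
      · exact hA _ _ hyA hxA (Ne.symm hne) h.le
  have hanti : ∀ l, IsAntichain (· ≤ ·) (B l) := by
    intro l x hx y hy hne hle
    exact hne (key l x y y hle le_rfl hx hy)
  refine isSpecial_of_subset B hanti ?_
  intro x
  induction x using WellFoundedLT.induction with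
  | ind x IH =>
    intro hxS
    by_cases hmin : IsMin x
    · exact mem_iUnion.2 ⟨[], hxS, hmin⟩
    · have hlt := hg x hxS hmin
      obtain ⟨l, hl⟩ := mem_iUnion.1 (IH (g x) hlt (hS hlt.le hxS))
      have hmem : x ∈ ⋃ n, A (g x) n := by
        rw [← hAe (g x)]
        exact ⟨hxS, rfl⟩
      obtain ⟨n, hn⟩ := mem_iUnion.1 hmem
      exact mem_iUnion.2 ⟨n :: l, hxS, hmin, hl, hn⟩

omit [IsTree T] in
theorem IsNonstationary.mono {X Y : Set T} (h : IsNonstationary Y) (hXY : X ⊆ Y) :
    IsNonstationary X := by
  obtain ⟨g, hg, hf⟩ := h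
  refine ⟨g, fun x hx => hg x (hXY hx), fun t => ?_⟩
  obtain ⟨A, hA, hAe⟩ := hf t
  refine isSpecial_of_subset A hA ?_
  rw [← hAe]
  exact fun x hx => ⟨hXY hx.1, hx.2⟩

/-- A tree with a nice successor-partition satisfies its diamond principle. -/
theorem diamond_of_nice {Q : T → Bool → Set T} (hQ : IsSuccPartition Q) (hN : IsNice Q) :
    Diamond T := by
  classical
  refine ⟨fun t => {s | s < t ∧ ∃ u ∈ Q s true, u ≤ t}, fun t s hs => hs.1, ?_⟩
  intro X hX
  let f : T → Bool := fun s => decide (s ∈ X)
  obtain ⟨⟨S, hS, -⟩, hns⟩ := hN f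
  apply hns S hS
  apply isSpecial_of_isNonstationary hS.lower
  refine hX.mono ?_
  intro t htS
  ext s
  constructor
  · rintro ⟨hsX, hst⟩
    refine ⟨hst, ?_⟩
    obtain ⟨u, hu, hut⟩ := exists_succ_le hst
    refine ⟨u, ?_, hut⟩
    have h1 : u ∈ S ∩ Succ s := ⟨hS.lower hut htS, hu⟩
    rw [hS.succ s (hS.lower (le_of_lt hst) htS)] at h1
    have : f s = true := by simp [f, hsX]
    rwa [this] at h1
  · rintro ⟨hst, u, hu, hut⟩
    refine ⟨?_, hst⟩
    by_contra hsX
    have hf : f s = false := by simp [f, hsX]
    have hus : u ∈ Succ s := by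
      rw [← (hQ s).2]
      exact Or.inr hu
    have h1 : u ∈ S ∩ Succ s := ⟨hS.lower hut htS, hus⟩
    rw [hS.succ s (hS.lower (le_of_lt hst) htS), hf] at h1
    exact (Set.disjoint_left.1 (hQ s).1) h1 hu

end General

end Pool.Agent.H79
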