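import Mathlib
import Pool.Agent.H79.TreeDiamond

/-!
# The tree `σℚ` and a nice successor-partition of it
-/

open Set Order Ordinal

namespace Pool.Agent.H79

/-- `σℚ`: strictly increasing maps `α → ℚ`, `α < ω₁`, with range bounded above in `ℚ`. -/
structure SigmaQ : Type 1 where
  /-- the domain `α` -/
  len : Ordinal.{0}
  /-- `α < ω₁` -/
  len_lt : len < ω₁
  /-- the map -/
  val : Set.Iio len → ℚ
  /-- it is strictly increasing -/
  mono : StrictMono val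
  /-- its range is bounded above in `ℚ` -/
  bdd : BddAbove (Set.range val)

namespace SigmaQ

/-- The order on `σℚ`: `s ≤ t` if `t` extends `s`. -/
instance : LE SigmaQ :=
  ⟨fun s t => ∃ h : s.len ≤ t.len, ∀ (ξ : Ordinal.{0}) (hξ : ξ < s.len),
    s.val ⟨ξ, hξ⟩ = t.val ⟨ξ, hξ.trans_le h⟩⟩

theorem ext' {s t : SigmaQ} (h : s.len = t.len)
    (hv : ∀ (ξ : Ordinal.{0}) (hξ : ξ < s.len) (hξ' : ξ < t.len), s.val ⟨ξ, hξ⟩ = t.val ⟨ξ, hξ'⟩) :
    s = t := by
  obtain ⟨l, hl, v, m, b⟩ := s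
  obtain ⟨l', hl', v', m', b'⟩ := t
  dsimp only at h
  subst h
  have : v = v' := by
    funext ξ
    exact hv ξ.1 ξ.2 ξ.2
  subst this
  rfl

instance : PartialOrder SigmaQ where
  le_refl s := ⟨le_rfl, fun _ _ => rfl⟩
  le_trans s t u := by
    rintro ⟨h1, h2⟩ ⟨h3, h4⟩
    exact ⟨h1.trans h3, fun ξ hξ => (h2 ξ hξ).trans (h4 ξ _)⟩
  le_antisymm s t := by
    rintro ⟨h1, h2⟩ ⟨h3, _⟩
    exact ext' (le_antisymm h1 h3) fun ξ hξ hξ' => h2 ξ hξ

theorem le_iff {s t : SigmaQ} : s ≤ t ↔ ∃ h : s.len ≤ t.len, ∀ (ξ : Ordinal.{0}) (hξ : ξ < s.len),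
    s.val ⟨ξ, hξ⟩ = t.val ⟨ξ, hξ.trans_le h⟩ := Iff.rfl

theorem len_le {s t : SigmaQ} (h : s ≤ t) : s.len ≤ t.len := (le_iff.1 h).1

theorem val_eq {s t : SigmaQ} (h : s ≤ t) (ξ : Ordinal.{0}) (hξ : ξ < s.len)
    (hξ' : ξ < t.len) : s.val ⟨ξ, hξ⟩ = t.val ⟨ξ, hξ'⟩ := (le_iff.1 h).2 ξ hξ

theorem eq_of_le_of_len {s t : SigmaQ} (h : s ≤ t) (hl : t.len ≤ s.len) : s = t :=
  ext' (le_antisymm (len_le h) hl) fun ξ hξ hξ' => val_eq h ξ hξ hξ'

theorem len_lt_len {s t : SigmaQ} (h : s < t) : s.len < t.len := by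
  rcases (len_le h.le).lt_or_eq with h1 | h1
  · exact h1
  · exact absurd (eq_of_le_of_len h.le h1.ge) h.ne

theorem lt_of_le_of_len {s t : SigmaQ} (h : s ≤ t) (hl : s.len < t.len) : s < t :=
  lt_of_le_of_ne h (by rintro rfl; exact lt_irrefl _ hl)

/-- Two elements with a common upper bound are ordered as their lengths. -/
theorem le_of_le_of_le {a b c : SigmaQ} (ha : a ≤ c) (hb : b ≤ c) (h : a.len ≤ b.len) : a ≤ b :=
  le_iff.2 ⟨h, fun ξ hξ => (val_eq ha ξ hξ (hξ.trans_le (len_le ha))).trans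
    (val_eq hb ξ (hξ.trans_le h) _).symm⟩

/-- The restriction of `t` to `β`. -/
def restrict (t : SigmaQ) (β : Ordinal.{0}) (h : β ≤ t.len) : SigmaQ where
  len := β
  len_lt := h.trans_lt t.len_lt
  val ξ := t.val ⟨ξ.1, lt_of_lt_of_le ξ.2 h⟩
  mono := fun a b hab => t.mono hab
  bdd := by
    obtain ⟨q, hq⟩ := t.bdd
    refine ⟨q, ?_⟩
    rintro _ ⟨ξ, rfl⟩
    exact hq ⟨_, rfl⟩

theorem restrict_le (t : SigmaQ) (β : Ordinal.{0}) (h : β ≤ t.len) : t.restrict β h ≤ t :=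
  le_iff.2 ⟨h, fun _ _ => rfl⟩

/-- The predecessors of `t` are order-isomorphic to the ordinals below `t.len`. -/
def iioIso (t : SigmaQ) : Set.Iio t ≃o Set.Iio t.len where
  toFun s := ⟨s.1.len, len_lt_len s.2⟩
  invFun β := ⟨t.restrict β.1 (le_of_lt β.2), lt_of_le_of_len (restrict_le _ _ _) β.2⟩
  left_inv s := by
    apply Subtype.ext
    exact ext' rfl fun ξ hξ hξ' => (val_eq (le_of_lt s.2) ξ hξ' _).symm
  right_inv β := rfl
  map_rel_iff' := by
    intro a b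
    constructor
    · intro h
      exact le_of_le_of_le (le_of_lt a.2) (le_of_lt b.2) h
    · intro h
      exact len_le h

theorem isWellOrder_Iio (t : SigmaQ) : IsWellOrder (Set.Iio t) (· < ·) := by
  have e : ((· < ·) : Set.Iio t → Set.Iio t → Prop) ↪r
      ((· < ·) : Set.Iio t.len → Set.Iio t.len → Prop) := (iioIso t).toRelIsoLT.toRelEmbedding
  exact e.isWellOrder

instance : IsTree SigmaQ := ⟨isWellOrder_Iio⟩

theorem ht_eq (t : SigmaQ) : ht t = Ordinal.lift.{1} t.len := by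
  have := isWellOrder_Iio t
  have h1 : ht t = Ordinal.type ((· < ·) : Set.Iio t.len → Set.Iio t.len → Prop) :=
    Ordinal.type_eq.2 ⟨(iioIso t).toRelIsoLT⟩
  rw [h1, Ordinal.type_lt_Iio]

theorem mem_Succ {s t : SigmaQ} : s ∈ Succ t ↔ t ≤ s ∧ s.len = t.len + 1 := by
  constructor
  · rintro ⟨h1, h2⟩
    refine ⟨h1.le, ?_⟩
    rw [ht_eq, ht_eq] at h2
    have : Ordinal.lift.{1} s.len = Ordinal.lift.{1} (t.len + 1) := by
      rw [h2]; simp
    exact Ordinal.lift_inj.1 this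
  · rintro ⟨h1, h2⟩
    refine ⟨lt_of_le_of_len h1 ?_, ?_⟩
    · rw [h2]; exact lt_add_one _
    · rw [ht_eq, ht_eq, h2]; simp

/-- `t` is bounded by `q`: every value of `t` is smaller than `q`. -/
def Bd (t : SigmaQ) (q : ℚ) : Prop := ∀ ξ, t.val ξ < q

theorem Bd.mono {t : SigmaQ} {q r : ℚ} (h : t.Bd q) (hqr : q ≤ r) : t.Bd r :=
  fun ξ => (h ξ).trans_le hqr

theorem exists_Bd (t : SigmaQ) : ∃ q, t.Bd q := by
  obtain ⟨q, hq⟩ := t.bdd
  exact ⟨q + 1, fun ξ => lt_of_le_of_lt (hq ⟨ξ, rfl⟩) (lt_add_one q)⟩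

open Classical in
/-- The extension of `t` by one new value `q` above all values of `t`. -/
noncomputable def snoc (t : SigmaQ) (q : ℚ) (h : t.Bd q) : SigmaQ where
  len := t.len + 1
  len_lt := by
    have : Order.IsSuccLimit (ω₁ : Ordinal.{0}) := Cardinal.isSuccLimit_omega 1
    rw [← Order.succ_eq_add_one]
    exact this.succ_lt t.len_lt
  val ξ := if hξ : ξ.1 < t.len then t.val ⟨ξ.1, hξ⟩ else q
  mono := by
    intro a b hab
    have hab' : a.1 < b.1 := hab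
    have hb : b.1 < t.len + 1 := b.2
    have ha : a.1 < t.len := by
      have hb2 : b.1 < Order.succ t.len := by rwa [Order.succ_eq_add_one]
      exact hab'.trans_le (Order.lt_succ_iff.1 hb2)
    by_cases hb' : b.1 < t.len
    · simp only [ha, hb', dif_pos]
      exact t.mono hab'
    · simp only [ha, hb', dif_pos, dif_neg, not_false_eq_true]
      exact h _
  bdd := by
    refine ⟨q, ?_⟩
    rintro _ ⟨ξ, rfl⟩
    dsimp only
    split_ifs with hξ
    · exact (h _).le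
    · exact le_rfl

theorem le_snoc (t : SigmaQ) (q : ℚ) (h : t.Bd q) : t ≤ t.snoc q h := by
  refine le_iff.2 ⟨(lt_add_one t.len).le, fun ξ hξ => ?_⟩
  simp [snoc, hξ]

theorem snoc_len (t : SigmaQ) (q : ℚ) (h : t.Bd q) : (t.snoc q h).len = t.len + 1 := rfl

theorem snoc_last (t : SigmaQ) (q : ℚ) (h : t.Bd q) (h' : t.len < (t.snoc q h).len) :
    (t.snoc q h).val ⟨t.len, h'⟩ = q := by
  simp [snoc]

theorem snoc_Bd (t : SigmaQ) (q : ℚ) (h : t.Bd q) {r : ℚ} (hr : q < r) : (t.snoc q h).Bd r := by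
  intro ξ
  simp only [snoc]
  split_ifs with hξ
  · exact (h _).trans hr
  · exact hr

theorem snoc_mem_Succ (t : SigmaQ) (q : ℚ) (h : t.Bd q) : t.snoc q h ∈ Succ t :=
  mem_Succ.2 ⟨le_snoc t q h, rfl⟩

/-- The root: the empty map. -/
def root : SigmaQ where
  len := 0
  len_lt := Ordinal.omega_pos 1
  val ξ := 0
  mono := fun a => absurd a.2 (by simp)
  bdd := ⟨0, by rintro _ ⟨ξ, rfl⟩; exact le_rfl⟩

theorem root_Bd (q : ℚ) : root.Bd q := fun ξ => absurd ξ.2 (by simp [root])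

theorem bd_of_le {s t : SigmaQ} (h : s ≤ t) {q : ℚ} (ht : t.Bd q) : s.Bd q := by
  intro ξ
  rw [val_eq h ξ.1 ξ.2 (lt_of_lt_of_le ξ.2 (len_le h))]
  exact ht _

/-- The union of an increasing sequence whose members are bounded by one rational. -/
theorem exists_union (t : ℕ → SigmaQ) (hmono : StrictMono t) (q : ℚ) (hq : ∀ n, (t n).Bd q) :
    ∃ u : SigmaQ, (∀ n, t n < u) ∧ (∀ s, s < u → ∃ n, s ≤ t n) ∧
      ∀ r, (∀ n, (t n).Bd r) → u.Bd r := by
  classical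
  have hle : ∀ {m n : ℕ}, m ≤ n → t m ≤ t n := fun h => hmono.monotone h
  have hex : ∀ ξ : Set.Iio (⨆ n, (t n).len), ∃ n, ξ.1 < (t n).len := by
    intro ξ
    have h := ξ.2
    rw [Set.mem_Iio, Ordinal.lt_iSup_iff] at h
    exact h
  choose N hN using hex
  have hval : ∀ (ξ : Set.Iio (⨆ n, (t n).len)) (n : ℕ) (h : ξ.1 < (t n).len),
      (t (N ξ)).val ⟨ξ.1, hN ξ⟩ = (t n).val ⟨ξ.1, h⟩ := by
    intro ξ n h
    rcases le_total (N ξ) n with h1 | h1
    · exact val_eq (hle h1) _ _ _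
    · exact (val_eq (hle h1) _ _ _).symm
  let u : SigmaQ :=
    { len := ⨆ n, (t n).len
      len_lt := Ordinal.iSup_lt_omega_one fun n => (t n).len_lt
      val := fun ξ => (t (N ξ)).val ⟨ξ.1, hN ξ⟩
      mono := by
        intro a b hab
        have ha : a.1 < (t (N b)).len := lt_trans hab (hN b)
        have h1 : (t (N b)).val ⟨a.1, ha⟩ < (t (N b)).val ⟨b.1, hN b⟩ := (t (N b)).mono hab
        exact lt_of_eq_of_lt (hval a (N b) ha) h1
      bdd := by
        refine ⟨q, ?_⟩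
        rintro _ ⟨ξ, rfl⟩
        exact (hq _ _).le }
  have hlen : ∀ n, (t n).len ≤ u.len := fun n => Ordinal.le_iSup (fun n => (t n).len) n
  have hleu : ∀ n, t n ≤ u := by
    intro n
    refine le_iff.2 ⟨hlen n, fun ξ hξ => ?_⟩
    exact (hval ⟨ξ, hξ.trans_le (hlen n)⟩ n hξ).symm
  refine ⟨u, fun n => (hmono (Nat.lt_succ_self n)).trans_le (hleu (n + 1)), ?_, ?_⟩
  · intro s hs
    have h1 : s.len < ⨆ n, (t n).len := len_lt_len hs
    rw [Ordinal.lt_iSup_iff] at h1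
    obtain ⟨n, hn⟩ := h1
    exact ⟨n, le_of_le_of_le hs.le (hleu n) hn.le⟩
  · intro r hr ξ
    exact hr _ _

/-- A set of rationals which is dense with dense complement: the dyadic rationals. -/
def D (b : Bool) : Set ℚ := {q : ℚ | (∃ (n : ℤ) (k : ℕ), q = n / 2 ^ k) ↔ b = true}

theorem exists_dyadic (a b : ℚ) (h : a < b) : ∃ (n : ℤ) (k : ℕ), a < n / 2 ^ k ∧ (n : ℚ) / 2 ^ k < b := by
  obtain ⟨k, hk⟩ : ∃ k : ℕ, (b - a)⁻¹ < (2 : ℚ) ^ k := pow_unbounded_of_one_lt _ (by norm_num)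
  have h2 : (0 : ℚ) < 2 ^ k := by positivity
  have hba : 0 < b - a := sub_pos.2 h
  refine ⟨⌊a * 2 ^ k⌋ + 1, k, ?_, ?_⟩
  · rw [lt_div_iff₀ h2]
    push_cast
    exact Int.lt_floor_add_one _
  · rw [div_lt_iff₀ h2]
    have h1 : 1 < (b - a) * 2 ^ k := by
      have := (inv_lt_iff_one_lt_mul₀ hba).1 hk
      linarith [mul_comm (b - a) ((2 : ℚ) ^ k)]
    have h3 := Int.floor_le (a * 2 ^ k)
    push_cast
    nlinarith

theorem exists_mem_D (i : Bool) (a b : ℚ) (h : a < b) : ∃ q ∈ D i, a < q ∧ q < b := by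
  cases i with
  | true =>
    obtain ⟨n, k, h1, h2⟩ := exists_dyadic a b h
    exact ⟨n / 2 ^ k, by simp only [D, mem_ofPred_eq, iff_true]; exact ⟨n, k, rfl⟩, h1, h2⟩
  | false =>
    obtain ⟨n, k, h1, h2⟩ := exists_dyadic (a - 1 / 3) (b - 1 / 3) (by linarith)
    refine ⟨n / 2 ^ k + 1 / 3, ?_, by linarith, by linarith⟩
    simp only [D, mem_ofPred_eq, Bool.false_eq_true, iff_false, not_exists]
    intro m l hml
    -- `n / 2 ^ k + 1 / 3 = m / 2 ^ l`
    have hk : (2 : ℚ) ^ k ≠ 0 := by positivity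
    have hl : (2 : ℚ) ^ l ≠ 0 := by positivity
    field_simp at hml
    have h4 : (2 : ℤ) ^ k * 2 ^ l = 3 * (m * 2 ^ k - n * 2 ^ l) := by
      have : (2 : ℚ) ^ k * 2 ^ l = 3 * (m * 2 ^ k - n * 2 ^ l) := by linarith
      exact_mod_cast this
    have h5 : (3 : ℤ) ∣ 2 ^ (k + l) := by
      rw [pow_add, h4]
      exact dvd_mul_right _ _
    have h6 := Int.prime_three.dvd_of_dvd_pow h5
    norm_num at h6

/-- The successor-partition of `σℚ`: split the immediate successors of `t` according to whether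
the new value is dyadic. -/
def Q (t : SigmaQ) (i : Bool) : Set SigmaQ :=
  {s | s ∈ Succ t ∧ ∃ h : t.len < s.len, s.val ⟨t.len, h⟩ ∈ D i}

theorem Q_isSuccPartition : IsSuccPartition Q := by
  intro t
  constructor
  · rw [Set.disjoint_left]
    rintro s ⟨-, h1, h2⟩ ⟨-, h3, h4⟩
    simp only [D, mem_ofPred_eq, Bool.false_eq_true, iff_false, iff_true] at h2 h4
    exact h2 h4
  · ext s
    constructor
    · rintro (h | h) <;> exact h.1
    · intro h
      have hl : t.len < s.len := len_lt_len h.1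
      by_cases hd : ∃ (n : ℤ) (k : ℕ), s.val ⟨t.len, hl⟩ = n / 2 ^ k
      · right
        exact ⟨h, hl, by simpa only [D, mem_ofPred_eq, iff_true] using hd⟩
      · left
        exact ⟨h, hl, by simpa only [D, mem_ofPred_eq, Bool.false_eq_true, iff_false] using hd⟩

/-- The one-step extension inside `T(Q, f)`. -/
theorem exists_ext {f : SigmaQ → Bool} {S : Set SigmaQ} (hS : IsGenerated Q f S)
    {t : SigmaQ} (ht : t ∈ S) {q r : ℚ} (hq : t.Bd q) (hqr : q < r) :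
    ∃ t' ∈ S, t < t' ∧ t'.Bd r := by
  obtain ⟨p, hpD, hqp, hpr⟩ := exists_mem_D (f t) q r hqr
  have hb : t.Bd p := hq.mono hqp.le
  refine ⟨t.snoc p hb, ?_, (snoc_mem_Succ t p hb).1, snoc_Bd t p hb hpr⟩
  have : t.snoc p hb ∈ Q t (f t) := by
    refine ⟨snoc_mem_Succ t p hb, len_lt_len (snoc_mem_Succ t p hb).1, ?_⟩
    rw [snoc_last]
    exact hpD
  rw [← hS.succ t ht] at this
  exact this.1

/-- For every `f`, the subtree `T(Q, f)` is nonspecial. -/
theorem not_isSpecial {f : SigmaQ → Bool} {S : Set SigmaQ} (hS : IsGenerated Q f S) :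
    ¬ IsSpecial S := by
  classical
  rintro ⟨A, hA, hSA⟩
  -- the basic step
  have step : ∀ (n : ℕ) (x : {p : SigmaQ × ℚ × ℚ // p.1 ∈ S ∧ p.1.Bd p.2.1 ∧ p.2.1 < p.2.2}),
      ∃ y : {p : SigmaQ × ℚ × ℚ // p.1 ∈ S ∧ p.1.Bd p.2.1 ∧ p.2.1 < p.2.2},
        x.1.1 < y.1.1 ∧ y.1.2.2 ≤ x.1.2.2 ∧
        ∀ u ∈ S, y.1.1 ≤ u → u.Bd y.1.2.2 → u ∉ A n := by
    rintro n ⟨⟨t, q, r⟩, htS, hq, hqr⟩
    dsimp only at htS hq hqr
    by_cases hcand : ∃ s ∈ S, s ∈ A n ∧ t ≤ s ∧ ∃ q' < r, s.Bd q'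
    · obtain ⟨s, hsS, hsA, hts, q', hq'r, hsq'⟩ := hcand
      obtain ⟨p₂, hp1, hp2⟩ := exists_between hq'r
      obtain ⟨p₁, hp3, hp4⟩ := exists_between hp1
      obtain ⟨t', ht'S, hst', ht'⟩ := exists_ext hS hsS hsq' hp3
      refine ⟨⟨(t', p₁, p₂), ht'S, ht', hp4⟩, lt_of_le_of_lt hts hst', hp2.le, ?_⟩
      intro u huS htu _ huA
      have hsu : s < u := lt_of_lt_of_le hst' htu
      exact hA n hsA huA hsu.ne hsu.le
    · obtain ⟨p₂, hp1, hp2⟩ := exists_between hqr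
      obtain ⟨p₁, hp3, hp4⟩ := exists_between hp1
      obtain ⟨t', ht'S, htt', ht'⟩ := exists_ext hS htS hq hp3
      refine ⟨⟨(t', p₁, p₂), ht'S, ht', hp4⟩, htt', hp2.le, ?_⟩
      intro u huS htu hub huA
      exact hcand ⟨u, huS, huA, htt'.le.trans htu, p₂, hp2, hub⟩
  choose F hF1 hF2 hF3 using step
  have hroot : root ∈ S := hS.root root (by rw [ht_eq]; simp [root])
  let x₀ : {p : SigmaQ × ℚ × ℚ // p.1 ∈ S ∧ p.1.Bd p.2.1 ∧ p.2.1 < p.2.2} :=
    ⟨(root, 0, 1), hroot, root_Bd 0, by norm_num⟩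
  let x : ℕ → {p : SigmaQ × ℚ × ℚ // p.1 ∈ S ∧ p.1.Bd p.2.1 ∧ p.2.1 < p.2.2} :=
    fun n => Nat.rec x₀ (fun n y => F n y) n
  have hx : ∀ n, x (n + 1) = F n (x n) := fun n => rfl
  have hmono : StrictMono fun n => (x n).1.1 := by
    refine strictMono_nat_of_lt_succ fun n => ?_
    rw [hx]
    exact hF1 n (x n)
  have hanti : Antitone fun n => (x n).1.2.2 := by
    refine antitone_nat_of_succ_le fun n => ?_
    rw [hx]
    exact hF2 n (x n)
  have hbd : ∀ n m, (x n).1.1.Bd (x m).1.2.2 := by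
    intro n m
    have h1 : (x (max n m)).1.1.Bd (x (max n m)).1.2.2 :=
      (x (max n m)).2.2.1.mono (x (max n m)).2.2.2.le
    exact (bd_of_le (hmono.monotone (le_max_left n m)) h1).mono (hanti (le_max_right n m))
  obtain ⟨u, hu1, hu2, hu3⟩ := exists_union (fun n => (x n).1.1) hmono (x 0).1.2.2
    fun n => hbd n 0
  have huS : u ∈ S := by
    apply hS.limit
    · rcases Ordinal.zero_or_succ_or_isSuccLimit (ht u) with h0 | ⟨o, ho⟩ | hl
      · exact absurd (hu1 0) ((isMin_iff_ht.2 h0).not_lt)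
      · exfalso
        have ho' : o < ht u := by rw [← ho]; exact Order.lt_succ o
        obtain ⟨s, hs, hso⟩ := exists_ht_eq ho'
        obtain ⟨n, hn⟩ := hu2 s hs
        have h1 : s < (x (n + 1)).1.1 := lt_of_le_of_lt hn (hmono (Nat.lt_succ_self n))
        have h2 := ht_lt_ht h1
        have h3 := ht_lt_ht (hu1 (n + 1))
        rw [← ho] at h3
        rw [hso] at h2
        exact absurd (Order.lt_succ_iff.1 h3) (not_le.2 h2)
      · exact hl
    · intro s hs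
      obtain ⟨n, hn⟩ := hu2 s hs
      exact hS.lower hn (x n).2.1
  have huA : u ∈ ⋃ n, A n := by rw [← hSA]; exact huS
  obtain ⟨n, hn⟩ := mem_iUnion.1 huA
  have h4 := hF3 n (x n) u huS
  rw [← hx] at h4
  exact h4 (hu1 (n + 1)).le (hu3 _ fun m => hbd m (n + 1)) hn

theorem Q_isNice : IsNice Q := fun f =>
  ⟨existsUnique_isGenerated Q_isSuccPartition f, fun _ hS => not_isSpecial hS⟩

/-- **Q1.** `σℚ` admits a nice successor-partition. -/
theorem exists_nice : ∃ Q : SigmaQ → Bool → Set SigmaQ, IsSuccPartition Q ∧ IsNice Q :=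
  ⟨Q, Q_isSuccPartition, Q_isNice⟩

/-- **Q2.** The diamond principle for `σℚ`. -/
theorem diamond : Diamond SigmaQ := diamond_of_nice Q_isSuccPartition Q_isNice

end SigmaQ

end Pool.Agent.H79
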